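import Pool.Agent.HX.Base
import Pool.Agent.VN.Final

set_option autoImplicit false
set_option linter.unusedSectionVars false

noncomputable section

open scoped InnerProductSpace ENNReal Topology
open Filter Matrix
open Pool.Agent.VN

/-!
The dichotomy over the finite powers of a group.
-/

namespace Pool.Agent.HX

variable (G : Type) [Group G]

/-- the square of the restricted power embeds in it -/
def rpowEmb : rpow G × rpow G →* rpow G :=
  ((powEmb G).comp (MonoidHom.prodMap (rpow G).subtype (rpow G).subtype)).codRestrict (rpow G) (by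
    rintro ⟨⟨u, N, hN⟩, ⟨v, M, hM⟩⟩
    refine ⟨2 * (N + M) + 2, fun i hi => ?_⟩
    show (if i % 2 = 0 then u (i / 2) else v (i / 2)) = 1
    split_ifs
    · exact hN _ (by omega)
    · exact hM _ (by omega))

lemma rpowEmb_injective : Function.Injective (rpowEmb G) := by
  rintro ⟨u, v⟩ ⟨u', v'⟩ h
  have h1 : powEmb G ((u : ℕ → G), (v : ℕ → G)) = powEmb G ((u' : ℕ → G), (v' : ℕ → G)) :=
    congrArg Subtype.val h
  have h2 := powEmb_injective G h1
  rw [Prod.mk.injEq] at h2
  exact Prod.ext (Subtype.ext h2.1) (Subtype.ext h2.2)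

/-- a finite power inside the restricted power -/
def finEmb (m : ℕ) : (Fin m → G) →* rpow G :=
  (MonoidHom.mk' (fun (u : Fin m → G) (i : ℕ) => if h : i < m then u ⟨i, h⟩ else 1) (by
    intro u v
    funext i
    show (if h : i < m then (u * v) ⟨i, h⟩ else 1) = (if h : i < m then u ⟨i, h⟩ else 1)
      * (if h : i < m then v ⟨i, h⟩ else 1)
    split_ifs
    · rfl
    · rw [mul_one])).codRestrict (rpow G) (by
    intro u
    refine ⟨m, fun i hi => ?_⟩
    show (if h : i < m then u ⟨i, h⟩ else 1) = 1
    rw [dif_neg (by omega)])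

lemma finEmb_injective (m : ℕ) : Function.Injective (finEmb G m) := by
  intro u v h
  funext i
  have h1 := congrArg (fun f : rpow G => (f : ℕ → G) i) h
  have h2 : ∀ w : Fin m → G, (finEmb G m w : ℕ → G) i = w i := by
    intro w
    show (if h : (i : ℕ) < m then w ⟨i, h⟩ else 1) = w i
    rw [dif_pos i.2]
  simp only [h2] at h1
  exact h1

/-- the first factors as a subgroup are a finite power -/
def fstHom (N : ℕ) : fst G N →* (Fin N → G) :=
  MonoidHom.mk' (fun f i => ((f : rpow G) : ℕ → G) i) (fun _ _ => rfl)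

lemma fstHom_injective (N : ℕ) : Function.Injective (fstHom G N) := by
  intro f g hfg
  apply Subtype.ext
  apply Subtype.ext
  funext i
  by_cases hi : i < N
  · exact congrFun hfg ⟨i, hi⟩
  · rw [f.2 i (by omega), g.2 i (by omega)]

variable {G}

lemma Dset_rpow {k : Subring ℂ} {x : ℝ} (hx : x ∈ Dset k (rpow G)) :
    ∃ r, x ∈ Dset k (Fin r → G) := by
  classical
  obtain ⟨ι, hι, C, hC, hk, rfl⟩ := hx
  have hN : ∃ N, ∀ c ∈ C, ∀ p ∈ c.support, p.2 ∈ fst G N := by
    have h1 : ∀ F : Finset (rpow G), ∃ N, ∀ f ∈ F, f ∈ fst G N := by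
      intro F
      induction F using Finset.induction_on with
      | empty => exact ⟨0, fun f hf => absurd hf (Finset.notMem_empty f)⟩
      | insert a s _ ih =>
        obtain ⟨N, hN⟩ := ih
        obtain ⟨M, hM⟩ := a.2
        refine ⟨max N M, fun f hf i hi => ?_⟩
        rcases Finset.mem_insert.1 hf with rfl | hf
        · exact hM i ((le_max_right _ _).trans hi)
        · exact hN f hf i ((le_max_left _ _).trans hi)
    obtain ⟨N, hN⟩ := h1 (hC.toFinset.biUnion fun c => c.support.image Prod.snd)
    refine ⟨N, fun c hc p hp => hN _ ?_⟩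
    exact Finset.mem_biUnion.2 ⟨c, hC.mem_toFinset.2 hc, Finset.mem_image.2 ⟨p, hp, rfl⟩⟩
  obtain ⟨N, hN⟩ := hN
  refine ⟨N, Dset_map k (fstHom G N) (fstHom_injective G N) ?_⟩
  -- pull the forms back to the subgroup
  have hres : ∀ c ∈ C, ∃ c' : ι × fst G N →₀ ℂ, mapF (fst G N).subtype c' = c ∧ CoefIn k c' := by
    intro c hc
    have hinj : Function.Injective (fun p : ι × fst G N => ((p.1, (p.2 : rpow G)) : ι × rpow G)) := by
      rintro ⟨i, g⟩ ⟨j, g'⟩ h
      rw [Prod.mk.injEq] at h
      exact Prod.ext h.1 (Subtype.ext h.2)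
    refine ⟨Finsupp.comapDomain _ c hinj.injOn, ?_, fun p => hk c hc _⟩
    rw [mapF_eq]
    apply Finsupp.mapDomain_comapDomain _ hinj
    intro p hp
    exact ⟨(p.1, ⟨p.2, hN c hc p hp⟩), rfl⟩
  choose! c' hc' hc'k using hres
  refine ⟨ι, hι, c' '' C, hC.image _, ?_, ?_⟩
  · rintro _ ⟨c, hc, rfl⟩
    exact hc'k c hc
  · rw [← vdim_induced (fst G N).subtype (Subgroup.subtype_injective _), ← Set.image_comp]
    congr 2
    have : (mapF (fst G N).subtype ∘ c') '' C = id '' C := Set.image_congr fun c hc => hc' c hc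
    rw [this, Set.image_id]

variable (G)

/-- Either the powers of `G` have the Atiyah property over the complex numbers or the kernel
dimensions of very simple matrices over the powers are dense. -/
theorem strong_dichotomy :
    (∀ (r m n : ℕ) (A : Matrix (Fin m) (Fin n) ((Fin r → G) →₀ ℂ)), ∃ d : ℤ, kerDim A = d) ∨
    (∀ a b : ℝ, 0 ≤ a → a < b → ∃ (r m n : ℕ) (B : Matrix (Fin m) (Fin n) (Option (Fin r → G))),
      ThreeSparse B ∧ a < kerDimQ (monoMat B) ∧ kerDimQ (monoMat B) < b) := by
  rcases Dset_dichotomy intRing (rpowEmb G) (rpowEmb_injective G) with h | h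
  · left
    intro r m n A
    refine base_change intRing G ?_ r m n A fun i j g => Subring.mem_top _
    intro r
    refine AtiyahOver.of_injective (H := rpow G) ?_ (finEmb G r) (finEmb_injective G r)
    intro m n A hA
    rw [kerDim_eq]
    exact h _ ⟨Fin m, inferInstance, Set.range (colF A), Set.finite_range _,
      fun c hc p => colF_coef hA c hc p, rfl⟩
  · right
    intro a b ha hab
    obtain ⟨x, hx, h1, h2⟩ := h a b ha hab
    obtain ⟨r, hr⟩ := Dset_rpow hx
    obtain ⟨m, n, B, hB, rfl⟩ := exists_threeSparse hr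
    exact ⟨r, m, n, B, hB, h1, h2⟩

end Pool.Agent.HX
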