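import Pool.Agent.HX.Rank

set_option autoImplicit false

open Matrix

/-!
Ranks of matrices over a subring all of whose elements are zero or invertible.
-/

namespace Pool.Agent.HX

/-- Rank factorisation over a division ring. -/
theorem div_rank_fact {K : Type*} [DivisionRing K] {m n : Type} [Fintype m] [Fintype n]
    (A : Matrix m n K) : ∃ (r : ℕ) (X : Matrix m (Fin r) K) (Y : Matrix (Fin r) n K)
      (X' : Matrix (Fin r) m K) (Y' : Matrix n (Fin r) K),
      A = X * Y ∧ X' * X = 1 ∧ Y * Y' = 1 := by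
  classical
  let W : Submodule K (n → K) := Submodule.span K (Set.range fun i => A i)
  let bs := Module.finBasis K W
  obtain ⟨g, hg⟩ := LinearMap.exists_leftInverse_of_injective W.subtype
    (LinearMap.ker_eq_bot.2 W.injective_subtype)
  have hAW : ∀ i, A i ∈ W := fun i => Submodule.subset_span ⟨i, rfl⟩
  have hX' : ∀ j, ∃ c : m → K, ∑ i, c i • A i = ((bs j : W) : n → K) := fun j =>
    (Submodule.mem_span_range_iff_exists_fun K).1 (bs j).2
  choose X' hX' using hX'
  let X : Matrix m (Fin (Module.finrank K W)) K := Matrix.of fun i j => bs.repr ⟨A i, hAW i⟩ j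
  let Y : Matrix (Fin (Module.finrank K W)) n K := Matrix.of fun j k => ((bs j : W) : n → K) k
  let Y' : Matrix n (Fin (Module.finrank K W)) K := Matrix.of fun k j =>
    bs.repr (g (Pi.single k 1)) j
  have hA : A = X * Y := by
    funext i k
    have h := bs.sum_repr ⟨A i, hAW i⟩
    have h2 := congrArg (fun w : W => (w : n → K) k) h
    simp only [Submodule.coe_sum, Submodule.coe_smul, Finset.sum_apply, Pi.smul_apply,
      smul_eq_mul] at h2
    rw [Matrix.mul_apply]
    exact h2.symm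
  have hY : Y * Y' = 1 := by
    funext i j
    rw [Matrix.mul_apply]
    have h1 : (bs i : W) = g ((bs i : W) : n → K) := by
      have := LinearMap.congr_fun hg (bs i)
      exact this.symm
    have h2 : ((bs i : W) : n → K) = ∑ k, ((bs i : W) : n → K) k • Pi.single k (1 : K) := by
      funext l
      rw [Finset.sum_apply]
      simp only [Pi.smul_apply, smul_eq_mul, Pi.single_apply, mul_ite, mul_one, mul_zero]
      rw [Finset.sum_ite_eq Finset.univ l, if_pos (Finset.mem_univ l)]
    have h3 : bs.repr (bs i) j = ∑ k, ((bs i : W) : n → K) k * bs.repr (g (Pi.single k 1)) j := by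
      conv_lhs => rw [h1, h2, map_sum]
      simp only [map_smul, map_sum, Finsupp.coe_finset_sum, Finset.sum_apply, Finsupp.smul_apply,
        smul_eq_mul]
    have h4 : bs.repr (bs i) j = (1 : Matrix _ _ K) i j := by
      rw [Module.Basis.repr_self, Finsupp.single_apply, Matrix.one_apply]
    rw [← h4, h3]
    rfl
  have hXA : Matrix.of X' * A = Y := by
    funext j k
    rw [Matrix.mul_apply]
    have h := congrFun (hX' j) k
    simp only [Finset.sum_apply, Pi.smul_apply, smul_eq_mul] at h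
    exact h
  refine ⟨_, X, Y, Matrix.of X', Y', hA, ?_, hY⟩
  calc Matrix.of X' * X = Matrix.of X' * X * (Y * Y') := by rw [hY, Matrix.mul_one]
    _ = (Matrix.of X' * (X * Y)) * Y' := by simp only [Matrix.mul_assoc]
    _ = Y * Y' := by rw [← hA, hXA]
    _ = 1 := hY

theorem div_fact {S : Type*} [Ring S] (D : Subring S)
    (hD : ∀ x ∈ D, x = 0 ∨ ∃ y ∈ D, x * y = 1 ∧ y * x = 1) {m n : Type} [Fintype m] [Fintype n]
    (A : Matrix m n S) (hA : ∀ i j, A i j ∈ D) :
    ∃ (r : ℕ) (X : Matrix m (Fin r) S) (Y : Matrix (Fin r) n S)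
      (X' : Matrix (Fin r) m S) (Y' : Matrix n (Fin r) S),
      A = X * Y ∧ X' * X = 1 ∧ Y * Y' = 1 := by
  rcases subsingleton_or_nontrivial S with hS | hS
  · exact ⟨0, 0, 0, 0, 0, Subsingleton.elim _ _, Subsingleton.elim _ _, Subsingleton.elim _ _⟩
  · have hu : ∀ a : D, IsUnit a ∨ a = 0 := by
      rintro ⟨x, hx⟩
      rcases hD x hx with h | ⟨y, hy, h1, h2⟩
      · right
        exact Subtype.ext h
      · left
        exact ⟨⟨⟨x, hx⟩, ⟨y, hy⟩, Subtype.ext h1, Subtype.ext h2⟩, rfl⟩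
    letI : DivisionRing D := DivisionRing.ofIsUnitOrEqZero hu
    obtain ⟨r, X, Y, X', Y', h1, h2, h3⟩ := div_rank_fact (K := D)
      (Matrix.of fun i j => (⟨A i j, hA i j⟩ : D))
    refine ⟨r, X.map D.subtype, Y.map D.subtype, X'.map D.subtype, Y'.map D.subtype, ?_, ?_, ?_⟩
    · rw [← Matrix.map_mul, ← h1]
      rfl
    · rw [← Matrix.map_mul, h2]
      exact Matrix.map_one _ (map_zero _) (map_one _)
    · rw [← Matrix.map_mul, h3]
      exact Matrix.map_one _ (map_zero _) (map_one _)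

theorem rk_of_fact {R : Type*} [Ring R] (ρ : RankFn R) {m n : Type} [Fintype m] [Fintype n] {r : ℕ}
    {A : Matrix m n R} {X : Matrix m (Fin r) R} {Y : Matrix (Fin r) n R}
    {X' : Matrix (Fin r) m R} {Y' : Matrix n (Fin r) R} (hA : A = X * Y) (hX : X' * X = 1)
    (hY : Y * Y' = 1) : ρ.rk A = r := by
  rw [hA, ρ.rk_mul_of_left_inv X' X Y hX]
  have h := ρ.rk_mul_of_right_inv (1 : Matrix (Fin r) (Fin r) R) Y Y' hY
  rw [Matrix.one_mul] at h
  rw [h, ρ.rk_one, Fintype.card_fin]

theorem rk_eq_nat {R : Type} [Ring R] (ρ : RankFn R) (D : Subring R)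
    (hD : ∀ x ∈ D, x = 0 ∨ ∃ y ∈ D, x * y = 1 ∧ y * x = 1) {m n : Type} [Fintype m] [Fintype n]
    (A : Matrix m n R) (hA : ∀ i j, A i j ∈ D) : ∃ r : ℕ, ρ.rk A = r := by
  obtain ⟨r, X, Y, X', Y', h1, h2, h3⟩ := div_fact D hD A hA
  exact ⟨r, rk_of_fact ρ h1 h2 h3⟩

/-- two rank functions on a product of two rings agree on such a subring -/
theorem rk_eq_of_div {R R' : Type} [Ring R] [Ring R'] (ρ : RankFn R) (ρ' : RankFn R')
    (D : Subring (R × R')) (hD : ∀ x ∈ D, x = 0 ∨ ∃ y ∈ D, x * y = 1 ∧ y * x = 1)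
    {m n : Type} [Fintype m] [Fintype n] (A : Matrix m n (R × R')) (hA : ∀ i j, A i j ∈ D) :
    ρ.rk (A.map Prod.fst) = ρ'.rk (A.map Prod.snd) := by
  obtain ⟨r, X, Y, X', Y', h1, h2, h3⟩ := div_fact D hD A hA
  have k1 : ρ.rk (A.map Prod.fst) = r := by
    refine rk_of_fact ρ (X := X.map (RingHom.fst R R')) (Y := Y.map (RingHom.fst R R'))
      (X' := X'.map (RingHom.fst R R')) (Y' := Y'.map (RingHom.fst R R')) ?_ ?_ ?_
    · rw [← Matrix.map_mul, ← h1]
      rfl
    · rw [← Matrix.map_mul, h2]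
      exact Matrix.map_one _ (map_zero _) (map_one _)
    · rw [← Matrix.map_mul, h3]
      exact Matrix.map_one _ (map_zero _) (map_one _)
  have k2 : ρ'.rk (A.map Prod.snd) = r := by
    refine rk_of_fact ρ' (X := X.map (RingHom.snd R R')) (Y := Y.map (RingHom.snd R R'))
      (X' := X'.map (RingHom.snd R R')) (Y' := Y'.map (RingHom.snd R R')) ?_ ?_ ?_
    · rw [← Matrix.map_mul, ← h1]
      rfl
    · rw [← Matrix.map_mul, h2]
      exact Matrix.map_one _ (map_zero _) (map_one _)
    · rw [← Matrix.map_mul, h3]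
      exact Matrix.map_one _ (map_zero _) (map_one _)
  rw [k1, k2]

end Pool.Agent.HX
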