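import Pool.Agent.HX.Model
import Pool.Agent.HX.Div
import Pool.Agent.VN.ZExt3

set_option autoImplicit false
set_option linter.unusedSectionVars false

noncomputable section

open scoped InnerProductSpace ENNReal Topology
open Classical Filter
open Pool.Agent.VN

/-!
The Atiyah property of a group follows from that of its finitely generated subgroups without
nontrivial homomorphisms to the integers.
-/

namespace Pool.Agent.HX

section general

variable {U : Type} [Ring U] (ρ : RankFn U)

/-- invertible matrices have full rank -/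
lemma rk_of_isUnit {n : Type} [Fintype n] [DecidableEq n] {A : Matrix n n U} (h : IsUnit A) :
    ρ.rk A = Fintype.card n := by
  obtain ⟨⟨B, B', h1, h2⟩, rfl⟩ := h
  refine le_antisymm (ρ.rk_le_card _) ?_
  rw [← ρ.rk_one (n := n), ← h1]
  exact ρ.rk_mul_le_left _ _

/-- the Schur complement attached to an element of the rational closure -/
lemma RC_schur {S : Subring U} {x : U} (hx : x ∈ RCs S) :
    ∃ (n : ℕ) (M : Matrix (Fin n ⊕ Unit) (Fin n ⊕ Unit) U), (∀ i j, M i j ∈ S) ∧
      ∀ {U' : Type} [Ring U'] (f : U →+* U') (ρ' : RankFn U'),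
        ρ'.rk (M.map f) = n + ρ'.rk (one1 (f x)) := by
  obtain ⟨n, Q, b, c, v, hQ, hb, hc, hu, hv, hxv⟩ := hx
  obtain ⟨⟨Q₁, Q', h1, h2⟩, hQQ⟩ := hu
  have hQQ' : Q₁ = Q := hQQ
  subst hQQ'
  refine ⟨n, Matrix.fromBlocks Q₁ (Matrix.of fun i _ => b i) (Matrix.of fun _ i => -c i) 0, ?_, ?_⟩
  · rintro (i | i) (j | j)
    · exact hQ i j
    · exact hb i
    · exact S.neg_mem (hc j)
    · exact S.zero_mem
  · intro U' _ f ρ'
    rw [Matrix.fromBlocks_map]
    have e1 : Q₁.map f * Q'.map f = 1 := by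
      rw [← Matrix.map_mul, h1]
      exact Matrix.map_one _ (map_zero _) (map_one _)
    have e2 : Q'.map f * Q₁.map f = 1 := by
      rw [← Matrix.map_mul, h2]
      exact Matrix.map_one _ (map_zero _) (map_one _)
    rw [ρ'.rk_schur _ _ _ _ _ e1 e2, Fintype.card_fin]
    congr 2
    have hv' : v = Q'.mulVec b := by
      have : Q₁.mulVec v = b := funext hv
      rw [← this, Matrix.mulVec_mulVec, h2, Matrix.one_mulVec]
    ext i j
    rw [← Matrix.map_mul, ← Matrix.map_mul]
    show f 0 - f _ = f x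
    rw [map_zero, zero_sub, ← map_neg]
    congr 1
    rw [Matrix.mul_assoc, Matrix.mul_apply, hxv, hv', ← Finset.sum_neg_distrib]
    refine Finset.sum_congr rfl fun l _ => ?_
    show -(-c l * (Q' * Matrix.of fun i _ => b i) l j) = c l * Q'.mulVec b l
    rw [neg_mul, neg_neg]
    rfl

end general

variable {G : Type} [Group G]

/-- the linear forms of a matrix -/
lemma colG_colF {m n : ℕ} (A : Matrix (Fin m) (Fin n) (G →₀ ℂ)) (j : Fin n) :
    colG (fun (j : Fin n) (i : Fin m) => Finsupp.mapDomain (fun g => g⁻¹) (A i j)) j = colF A j := by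
  unfold colG colF
  refine Finset.sum_congr rfl fun i _ => ?_
  rw [Finsupp.sum_mapDomain_index (by simp) (by intro b m₁ m₂; rw [Finsupp.single_add])]
  unfold Finsupp.sum
  refine Finset.sum_congr rfl fun g _ => ?_
  show Finsupp.single (i, (g⁻¹)⁻¹) (A i j g) = Finsupp.single (i, g) (A i j g)
  rw [inv_inv]

lemma Dat.gr_mem {U : Type} [Ring U] (D : Dat G ℂ U) (k : Subring ℂ) (𝓓 : Subring U)
    (h1 : ∀ c, (D.restrict k).sc c ∈ 𝓓) (h2 : ∀ g, (D.restrict k).ι g ∈ 𝓓) (a : G →₀ ℂ)
    (ha : ∀ g, a g ∈ k) : D.gr a ∈ 𝓓 := by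
  unfold Dat.gr Finsupp.sum
  refine 𝓓.sum_mem fun g _ => 𝓓.mul_mem ?_ (h2 g)
  exact h1 ⟨a g, ha g⟩

/-- a system supported in a subgroup comes from the subgroup -/
lemma exists_restrict {m n : Type} [Fintype n] (H : Subgroup G) (k : Subring ℂ)
    (a : m → n → (G →₀ ℂ)) (h1 : ∀ i j, ∀ g ∈ (a i j).support, g ∈ H)
    (h2 : ∀ i j g, a i j g ∈ k) : ∃ b : m → n → (H →₀ ℂ), (∀ i j g, b i j g ∈ k) ∧
      ∀ i, colG a i = mapF H.subtype (colG b i) := by
  refine ⟨fun i j => Finsupp.comapDomain H.subtype (a i j) (Subtype.val_injective.injOn),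
    fun i j g => h2 i j _, fun i => ?_⟩
  rw [mapF_colG]
  congr 1
  funext i j
  symm
  apply Finsupp.mapDomain_comapDomain _ Subtype.val_injective
  intro g hg
  exact ⟨⟨g, h1 i j g hg⟩, rfl⟩

/-- Theorem L. -/
theorem atiyah_of_fg (k : Subring ℂ) (G : Type) [Group G]
    (h : ∀ H : Subgroup G, H.FG → (∀ f : H →* Multiplicative ℤ, f = 1) → AtiyahOver k H) :
    AtiyahOver k G := by
  have hε0 : Tendsto (fun j : ℕ => 1 / ((j : ℝ) + 1)) (hyperfilter ℕ : Ultrafilter ℕ) (𝓝 0) :=
    tendsto_one_div_add_atTop_nhds_zero_nat.mono_left Nat.hyperfilter_le_atTop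
  obtain ⟨U, _, ρ, D, hfaith, hunit, hlim⟩ := exists_grModel (G := G) (hyperfilter ℕ)
    (fun j : ℕ => 1 / ((j : ℝ) + 1)) (fun j => by positivity) hε0
    (H := fun _ => G) (fun _ => MonoidHom.id G)
  have hrk : ∀ {m n : Type} [Fintype m] [Fintype n] (a : m → n → (G →₀ ℂ)),
      ρ.rk (Matrix.of fun i j => D.gr (a i j)) = (Fintype.card n : ℝ)
        - vdim (Sol (Set.range (colG a)) : Set (L2 n G)) := by
    intro m n _ _ a
    refine tendsto_nhds_unique (hlim a) ?_
    have e : (fun i => mapF (MonoidHom.id G) (colG a i)) = colG a := by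
      funext i
      exact mapF_eq' _
    rw [e]
    exact tendsto_const_nhds
  have hu : ∀ (J : Type) [Fintype J] [DecidableEq J] (a : J → J → (G →₀ ℂ)),
      IsUnit (Matrix.of fun i j => D.gr (a i j)) ↔ Sol (Set.range (colG a)) = ⊥ := by
    intro J _ _ a
    constructor
    · intro hA
      have h1 := rk_of_isUnit ρ hA
      rw [hrk] at h1
      exact eq_bot_of_vdim_eq_zero (Sol_invar _) (Sol_closed _) (by linarith)
    · intro hA
      apply hunit
      rw [hrk, hA, vdim_bot, sub_zero]
  have hF := hF_of D k hu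
  have hE := hE_of ρ hfaith
  have hbase : ∀ H : Subgroup G, H.FG → (∀ f : H →* Multiplicative ℤ, f = 1) →
      ∀ x ∈ RCs (SN (D.restrict k) H), x = 0 ∨ IsUnit x := by
    intro H hH hf x hx
    have hAt := h H hH hf
    obtain ⟨n, M, hM, hMrk⟩ := RC_schur hx
    have h1 := hMrk (RingHom.id U) ρ
    have e0 : M.map (RingHom.id U) = M := by
      ext i j
      rfl
    have e0' : RingHom.id U x = x := rfl
    rw [e0, e0'] at h1
    choose a ha1 ha2 ha3 using fun i j => D.SN_form k H (hM i j)
    have e1 : M = Matrix.of fun i j => D.gr (a i j) := by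
      ext i j
      rw [ha3]
      rfl
    obtain ⟨b, hb1, hb2⟩ := exists_restrict H k a ha1 ha2
    have e2 : Set.range (colG a) = mapF H.subtype '' Set.range (colG b) := by
      rw [← Set.range_comp]
      congr 1
      funext i
      exact hb2 i
    obtain ⟨z, hz⟩ := hAt.forms (Set.range (colG b)) (Set.finite_range _) (by
      rintro _ ⟨i, rfl⟩ p
      exact colG_coef b hb1 i p)
    rw [e1, hrk, e2, vdim_induced _ (Subgroup.subtype_injective _), hz] at h1
    have h2 : ρ.rk (one1 x) = ((1 - z : ℤ) : ℝ) := by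
      rw [Fintype.card_sum, Fintype.card_fin, Fintype.card_unit] at h1
      push_cast at h1 ⊢
      linarith
    have h3 : 0 ≤ 1 - z := by
      have := ρ.rk_nonneg (one1 x)
      rw [h2] at this
      exact_mod_cast this
    have h4 : 1 - z ≤ 1 := by
      have := ρ.rk_le_card (one1 x)
      rw [h2, Fintype.card_unit] at this
      exact_mod_cast this
    rcases (by omega : 1 - z = 0 ∨ 1 - z = 1) with h5 | h5
    · left
      apply hfaith
      rw [h2, h5, Int.cast_zero]
    · right
      have h6 : IsUnit (one1 x) := by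
        apply hunit
        rw [h2, h5, Fintype.card_unit, Int.cast_one, Nat.cast_one]
      rw [isUnit_unit_matrix] at h6
      exact h6
  obtain ⟨𝓓, hD1, hD2, hD3⟩ := exists_div (D.restrict k) (main_alg (D.restrict k) hF hE hbase)
  intro m n A hA
  set a : Fin n → Fin m → (G →₀ ℂ) := fun j i => Finsupp.mapDomain (fun g => g⁻¹) (A i j) with ha
  have hak : ∀ i j g, a i j g ∈ k := by
    intro i j g
    have e : a i j g = A j i g⁻¹ := by
      have := Finsupp.mapDomain_apply (f := fun g : G => g⁻¹) inv_injective (A j i) g⁻¹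
      rw [inv_inv] at this
      exact this
    rw [e]
    exact hA j i _
  obtain ⟨r, hr⟩ := rk_eq_nat ρ 𝓓 hD3 (Matrix.of fun i j => D.gr (a i j))
    (fun i j => D.gr_mem k 𝓓 hD1 hD2 _ (hak i j))
  rw [hrk] at hr
  have e3 : colG a = colF A := by
    funext j
    exact colG_colF A j
  rw [e3, Fintype.card_fin] at hr
  refine ⟨(m : ℤ) - r, ?_⟩
  rw [kerDim_eq]
  push_cast
  linarith

end Pool.Agent.HX
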