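import Pool.Agent.HX.Rank

set_option autoImplicit false

open Matrix Polynomial

/-!
Ranks of matrices over the polynomial ring of a division ring, under an evaluation which maps
every polynomial to zero or to a unit.
-/

namespace Pool.Agent.HX

variable {K : Type} [DivisionRing K]

open Classical in
/-- size of a polynomial -/
noncomputable def psz (f : K[X]) : ℕ := if f = 0 then 0 else f.natDegree + 1

lemma psz_lt {f g : K[X]} (hf : f ≠ 0) (hg : g ≠ 0) (h : g.natDegree ≤ f.natDegree) :
    ∃ q : K[X], psz (f - q * g) < psz f := by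
  have hlc : g.leadingCoeff ≠ 0 := leadingCoeff_ne_zero.mpr hg
  set c : K := f.leadingCoeff * g.leadingCoeff⁻¹ with hc
  have hc0 : c ≠ 0 := mul_ne_zero (leadingCoeff_ne_zero.mpr hf) (inv_ne_zero hlc)
  set q : K[X] := C c * X ^ (f.natDegree - g.natDegree) with hq
  have hq0 : q ≠ 0 := by
    rw [hq, Ne, C_mul_X_pow_eq_monomial, monomial_eq_zero_iff]
    exact hc0
  have hqd : q.natDegree = f.natDegree - g.natDegree := by
    rw [hq]
    exact natDegree_C_mul_X_pow _ _ hc0
  have hqg : q * g ≠ 0 := mul_ne_zero hq0 hg
  have hdeg : (q * g).natDegree = f.natDegree := by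
    rw [natDegree_mul hq0 hg, hqd]
    omega
  have hlead : (q * g).leadingCoeff = f.leadingCoeff := by
    rw [leadingCoeff_mul, hq, leadingCoeff_mul, leadingCoeff_C, leadingCoeff_X_pow, mul_one, hc,
      mul_assoc, inv_mul_cancel₀ hlc, mul_one]
  have hdlt : (f - q * g).degree < f.degree := by
    apply degree_sub_lt _ hf hlead.symm
    rw [degree_eq_natDegree hf, degree_eq_natDegree hqg, hdeg]
  refine ⟨q, ?_⟩
  unfold psz
  rw [if_neg hf]
  split_ifs with h0
  · omega
  · rw [degree_eq_natDegree hf, degree_eq_natDegree h0] at hdlt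
    have := Nat.cast_lt.mp hdlt
    omega

lemma single_mulVec' {R m : Type} [Ring R] [Fintype m] [DecidableEq m] (i j : m) (q : R)
    (w : m → R) (k : m) : ((Matrix.single i j q).mulVec w) k = if k = i then q * w j else 0 := by
  simp only [Matrix.mulVec, dotProduct]
  split_ifs with hk
  · subst hk
    rw [Finset.sum_eq_single j]
    · rw [Matrix.single_apply_same]
    · intro l _ hl
      rw [Matrix.single_apply_of_ne, zero_mul]
      exact fun h => hl h.2.symm
    · intro h
      exact absurd (Finset.mem_univ _) h
  · refine Finset.sum_eq_zero fun l _ => ?_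
    rw [Matrix.single_apply_of_ne, zero_mul]
    exact fun h => hk h.1.symm

theorem exists_reduce {m : Type} [Fintype m] [DecidableEq m] (v : m → K[X]) :
    ∃ P : (Matrix m m K[X])ˣ, ∀ i j, (P.val.mulVec v) i ≠ 0 → (P.val.mulVec v) j ≠ 0 → i = j := by
  classical
  set S : Set ℕ := Set.range fun P : (Matrix m m K[X])ˣ => ∑ i, psz ((P.val.mulVec v) i) with hS
  have hne : S.Nonempty := ⟨_, 1, rfl⟩
  obtain ⟨P, hP⟩ := Nat.sInf_mem hne
  refine ⟨P, ?_⟩
  by_contra hcon
  push Not at hcon
  have key : ∃ i j, (P.val.mulVec v) i ≠ 0 ∧ (P.val.mulVec v) j ≠ 0 ∧ i ≠ j ∧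
      ((P.val.mulVec v) j).natDegree ≤ ((P.val.mulVec v) i).natDegree := by
    obtain ⟨i, j, hi, hj, hij⟩ := hcon
    rcases le_total ((P.val.mulVec v) j).natDegree ((P.val.mulVec v) i).natDegree with h | h
    · exact ⟨i, j, hi, hj, hij, h⟩
    · exact ⟨j, i, hj, hi, hij.symm, h⟩
  obtain ⟨i, j, hi, hj, hij, hd⟩ := key
  obtain ⟨q, hq⟩ := psz_lt hi hj hd
  have hji : j ≠ i := hij.symm
  have hE : (Matrix.single i j q : Matrix m m K[X]) * Matrix.single i j q = 0 := by
    refine Matrix.ext fun s t => ?_
    rw [Matrix.mul_apply, Matrix.zero_apply]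
    refine Finset.sum_eq_zero fun l _ => ?_
    by_cases h : j = l
    · rw [Matrix.single_apply_of_ne (i := i) (j := j) (i' := l), mul_zero]
      rintro ⟨h1, _⟩
      exact hji (h.trans h1.symm)
    · rw [Matrix.single_apply_of_ne (i := i) (j := j) (i' := s), zero_mul]
      rintro ⟨_, h1⟩
      exact h h1
  set T : (Matrix m m K[X])ˣ :=
    ⟨1 - Matrix.single i j q, 1 + Matrix.single i j q, by
      rw [sub_mul, one_mul, mul_add, mul_one, hE]
      abel, by
      rw [add_mul, one_mul, mul_sub, mul_one, hE]
      abel⟩ with hT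
  have hval : ∀ k, ((T * P).val.mulVec v) k
      = if k = i then (P.val.mulVec v) i - q * (P.val.mulVec v) j else (P.val.mulVec v) k := by
    intro k
    rw [Units.val_mul, ← Matrix.mulVec_mulVec]
    show ((1 - Matrix.single i j q).mulVec (P.val.mulVec v)) k = _
    rw [Matrix.sub_mulVec, Matrix.one_mulVec, Pi.sub_apply]
    have h2 := single_mulVec' i j q (P.val.mulVec v) k
    rw [h2]
    split_ifs with hk
    · rw [hk]
    · rw [sub_zero]
  have hlt : ∑ k, psz (((T * P).val.mulVec v) k) < ∑ k, psz ((P.val.mulVec v) k) := by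
    apply Finset.sum_lt_sum
    · intro k _
      rw [hval]
      split_ifs with hk
      · rw [hk]
        exact hq.le
      · exact le_rfl
    · refine ⟨i, Finset.mem_univ _, ?_⟩
      rw [hval, if_pos rfl]
      exact hq
  have hge : sInf S ≤ ∑ k, psz (((T * P).val.mulVec v) k) := Nat.sInf_le ⟨T * P, rfl⟩
  have hP' : ∑ i, psz ((P.val.mulVec v) i) = sInf S := hP
  omega

theorem int_of_poly {U : Type} [Ring U] (ρ : RankFn U) (ev : K[X] →+* U)
    (hev : ∀ f, ev f = 0 ∨ IsUnit (ev f)) : ∀ (n : ℕ) {m : Type} [Fintype m] [DecidableEq m]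
    (A : Matrix m (Fin n) K[X]), ∃ r : ℕ, ρ.rk (A.map ev) = r := by
  intro n
  induction n with
  | zero =>
    intro m _ _ A
    refine ⟨0, le_antisymm ?_ ?_⟩
    · refine (ρ.rk_le_card _).trans ?_
      simp
    · rw [Nat.cast_zero]
      exact ρ.rk_nonneg _
  | succ n ih =>
    intro m _ _ A
    classical
    obtain ⟨P, hP⟩ := exists_reduce (fun i => A i 0)
    set B : Matrix m (Fin (n + 1)) K[X] := P.val * A with hB
    have hB0 : ∀ i, B i 0 = (P.val.mulVec fun i => A i 0) i := fun i => rfl
    have hrk : ρ.rk (A.map ev) = ρ.rk (B.map ev) := by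
      rw [hB, Matrix.map_mul]
      symm
      apply ρ.rk_mul_of_left_inv ((P⁻¹ : (Matrix m m K[X])ˣ).val.map ev)
      rw [← Matrix.map_mul, Units.inv_mul]
      exact Matrix.map_one _ (map_zero _) (map_one _)
    rw [hrk]
    by_cases hz : ∀ i, ev (B i 0) = 0
    · obtain ⟨r, hr⟩ := ih (B.submatrix id Fin.succ)
      refine ⟨r, ?_⟩
      rw [← hr]
      apply le_antisymm
      · have e : B.map ev = ((B.submatrix id Fin.succ).map ev) *
            (Matrix.of fun (i : Fin n) (j : Fin (n + 1)) => if i.succ = j then (1 : U) else 0) := by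
          ext i j
          rw [Matrix.mul_apply]
          simp only [Matrix.of_apply, Matrix.map_apply, Matrix.submatrix_apply, id, mul_ite, mul_one,
            mul_zero]
          refine Fin.cases ?_ (fun j => ?_) j
          · rw [hz]
            symm
            refine Finset.sum_eq_zero fun k _ => ?_
            rw [if_neg (Fin.succ_ne_zero k)]
          · rw [Finset.sum_eq_single j]
            · rw [if_pos rfl]
            · intro k _ hk
              rw [if_neg (fun h => hk (Fin.succ_injective _ h))]
            · intro h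
              exact absurd (Finset.mem_univ _) h
        rw [e]
        exact ρ.rk_mul_le_left _ _
      · exact ρ.rk_submatrix_le (B.map ev) id Fin.succ
    · push Not at hz
      obtain ⟨i₀, hi₀⟩ := hz
      have hu : IsUnit (ev (B i₀ 0)) := (hev _).resolve_left hi₀
      have hne : B i₀ 0 ≠ 0 := fun h => hi₀ (by rw [h, map_zero])
      have hoth : ∀ i, i ≠ i₀ → B i 0 = 0 := by
        intro i hi
        by_contra hcon
        exact hi (hP i i₀ hcon hne)
      obtain ⟨⟨u, u', hu1, hu2⟩, hu⟩ := hu
      have hu' : u = ev (B i₀ 0) := hu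
      obtain ⟨r, hr⟩ := ih (m := {i : m // i ≠ i₀})
        (Matrix.of fun (i : {i : m // i ≠ i₀}) (j : Fin n) => B i j.succ)
      refine ⟨1 + r, ?_⟩
      set M : Matrix (Unit ⊕ {i : m // i ≠ i₀}) (Unit ⊕ Fin n) U :=
        fromBlocks (Matrix.of fun (_ _ : Unit) => u) (Matrix.of fun _ j => ev (B i₀ (Fin.succ j))) 0
          (Matrix.of fun i j => ev (B i (Fin.succ j))) with hM
      have h1 : ρ.rk (B.map ev) = ρ.rk M := by
        apply le_antisymm
        · have e : B.map ev = M.submatrix
              (fun i => if h : i = i₀ then Sum.inl () else Sum.inr ⟨i, h⟩)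
              (Fin.cases (Sum.inl ()) Sum.inr) := by
            ext i j
            rw [Matrix.submatrix_apply, Matrix.map_apply]
            by_cases hi : i = i₀
            · subst hi
              rw [dif_pos rfl]
              refine Fin.cases ?_ (fun j => ?_) j
              · rw [Fin.cases_zero, hM, fromBlocks_apply₁₁, Matrix.of_apply, hu']
              · rw [Fin.cases_succ, hM, fromBlocks_apply₁₂, Matrix.of_apply]
            · rw [dif_neg hi]
              refine Fin.cases ?_ (fun j => ?_) j
              · rw [Fin.cases_zero, hM, fromBlocks_apply₂₁, hoth i hi, map_zero]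
                rfl
              · rw [Fin.cases_succ, hM, fromBlocks_apply₂₂, Matrix.of_apply]
          rw [e]
          exact ρ.rk_submatrix_le _ _ _
        · have e : M = (B.map ev).submatrix (Sum.elim (fun _ => i₀) Subtype.val)
              (Sum.elim (fun _ => 0) Fin.succ) := by
            ext (i | i) (j | j)
            · exact hu'
            · rfl
            · show (0 : U) = ev (B i 0)
              rw [hoth i i.2, map_zero]
            · rfl
          rw [e]
          exact ρ.rk_submatrix_le _ _ _
      rw [h1, hM, ρ.rk_schur _ (Matrix.of fun (_ _ : Unit) => u'), Matrix.zero_mul,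
        Matrix.zero_mul, sub_zero]
      · push_cast
        congr 1
        rw [Fintype.card_unit, Nat.cast_one]
      · ext i j
        rw [Matrix.mul_apply]
        simp only [Matrix.of_apply, Finset.univ_unique, Finset.sum_singleton]
        rw [hu1, Subsingleton.elim i j, Matrix.one_apply_eq]
      · ext i j
        rw [Matrix.mul_apply]
        simp only [Matrix.of_apply, Finset.univ_unique, Finset.sum_singleton]
        rw [hu2, Subsingleton.elim i j, Matrix.one_apply_eq]

end Pool.Agent.HX
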