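import Pool.Agent.HX.ProdG
import Pool.Agent.HX.PolyInt

set_option autoImplicit false
set_option linter.unusedSectionVars false

noncomputable section

open scoped InnerProductSpace ENNReal Topology
open Filter Matrix
open Pool.Agent.VN

/-!
Base change for the Atiyah property of all finite powers of a group.
-/

namespace Pool.Agent.HX

section Alg

/-- in a finite dimensional space some member of a sequence depends on the previous ones -/
lemma exists_dep {R M : Type} [DivisionRing R] [AddCommGroup M] [Module R M] {n : ℕ} (v : Fin n → M)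
    (w : ℕ → M) (hw : ∀ j, w j ∈ Submodule.span R (Set.range v)) :
    ∃ (m : ℕ) (a : Fin m → R), w m = ∑ i, a i • w i := by
  haveI : IsNoetherian R (Submodule.span R (Set.range v)) :=
    isNoetherian_span_of_finite R (Set.finite_range v)
  let w' : ℕ → Submodule.span R (Set.range v) := fun j => ⟨w j, hw j⟩
  let f : ℕ →o Submodule R (Submodule.span R (Set.range v)) :=
    { toFun := fun m => Submodule.span R (Set.range fun i : Fin m => w' i)
      monotone' := by
        intro m m' h
        apply Submodule.span_mono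
        rintro _ ⟨i, rfl⟩
        exact ⟨⟨i, i.2.trans_le h⟩, rfl⟩ }
  obtain ⟨m, hm⟩ := monotone_stabilizes_iff_noetherian.2 inferInstance f
  have h1 : w' m ∈ f (m + 1) := Submodule.subset_span ⟨⟨m, Nat.lt_succ_self m⟩, rfl⟩
  rw [← hm (m + 1) (Nat.le_succ m)] at h1
  obtain ⟨a, ha⟩ := (Submodule.mem_span_range_iff_exists_fun R).1 h1
  refine ⟨m, a, ?_⟩
  have h2 := congrArg (Subtype.val) ha
  simp only [Submodule.coe_sum, Submodule.coe_smul] at h2
  exact h2.symm

lemma exists_dep' {U : Type} [Ring U] (R : Subring U)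
    (hR : ∀ x ∈ R, x = 0 ∨ IsUnit x) (hR' : ∀ x ∈ R, ∀ y, x * y = 1 → y * x = 1 → y ∈ R)
    {n : ℕ} (z : Fin n → U) (w : ℕ → U)
    (hw : ∀ j, ∃ r : Fin n → U, (∀ i, r i ∈ R) ∧ w j = ∑ i, r i * z i) :
    ∃ (m : ℕ) (a : Fin m → U), w m = ∑ i, a i * w i := by
  rcases subsingleton_or_nontrivial U with hU | hU
  · exact ⟨0, Fin.elim0, Subsingleton.elim _ _⟩
  · have hu : ∀ a : R, IsUnit a ∨ a = 0 := by
      rintro ⟨x, hx⟩
      rcases hR x hx with h | ⟨⟨y, y', h1, h2⟩, h⟩
      · right
        exact Subtype.ext h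
      · left
        have h' : y = x := h
        subst h'
        exact ⟨⟨⟨y, hx⟩, ⟨y', hR' y hx y' h1 h2⟩, Subtype.ext h1, Subtype.ext h2⟩, rfl⟩
    letI : DivisionRing R := DivisionRing.ofIsUnitOrEqZero hu
    obtain ⟨m, a, ha⟩ := exists_dep (R := R) z w (by
      intro j
      obtain ⟨r, hr, hj⟩ := hw j
      rw [hj]
      refine Submodule.sum_mem _ fun i _ => ?_
      exact Submodule.smul_mem _ (⟨r i, hr i⟩ : R) (Submodule.subset_span ⟨i, rfl⟩))
    exact ⟨m, fun i => (a i : U), ha⟩

lemma RC_hom {W U : Type} [Ring W] [Ring U] (f : W →+* U) {S : Subring W} {S' : Subring U}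
    (hf : ∀ x ∈ S, f x ∈ S') {x : W} (hx : x ∈ RC S) : f x ∈ RC S' := by
  obtain ⟨n, Q, b, c, v, hQ, hb, hc, hu, hv, rfl⟩ := hx
  refine ⟨n, Q.map f, f ∘ b, f ∘ c, f ∘ v, fun i j => hf _ (hQ i j), fun i => hf _ (hb i),
    fun i => hf _ (hc i), ?_, ?_, ?_⟩
  · exact hu.map f.mapMatrix
  · intro i
    show ∑ j, f (Q i j) * f (v j) = f (b i)
    rw [← hv i, map_sum]
    exact Finset.sum_congr rfl fun j _ => (map_mul f _ _).symm
  · rw [map_sum]
    exact Finset.sum_congr rfl fun j _ => map_mul f _ _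

lemma SN_comm {G U : Type} [Group G] [Ring U] (D : Dat G ℂ U) (k : Subring ℂ) {N₁ N₂ : Subgroup G}
    (h : ∀ x ∈ N₁, ∀ y ∈ N₂, x * y = y * x) {a b : U} (ha : a ∈ SN (D.restrict k) N₁)
    (hb : b ∈ SN (D.restrict k) N₂) : a * b = b * a := by
  have h1 : ∀ b ∈ Set.range (D.restrict k).sc ∪ (D.restrict k).ι '' (N₂ : Set G),
      SN (D.restrict k) N₁ ≤ Subring.centralizer {b} := by
    intro b hb
    apply Subring.closure_le.2
    intro a ha
    rw [SetLike.mem_coe, Subring.mem_centralizer_iff]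
    rintro _ rfl
    rcases ha with ⟨c, rfl⟩ | ⟨x, hx, rfl⟩ <;> rcases hb with ⟨c', rfl⟩ | ⟨y, hy, rfl⟩
    · rw [← map_mul, ← map_mul, mul_comm]
    · exact ((D.restrict k).comm c y).symm
    · exact (D.restrict k).comm c' x
    · rw [← map_mul, ← map_mul, h x hx y hy]
  have h2 : SN (D.restrict k) N₂ ≤ Subring.centralizer {a} := by
    apply Subring.closure_le.2
    intro b hb
    rw [SetLike.mem_coe, Subring.mem_centralizer_iff]
    rintro _ rfl
    have := Subring.mem_centralizer_iff.1 (h1 b hb ha) b rfl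
    exact this.symm
  exact Subring.mem_centralizer_iff.1 (h2 hb) a rfl

lemma RC_mono {W : Type} [Ring W] {S S' : Subring W} (h : S ≤ S') {x : W} (hx : x ∈ RC S) :
    x ∈ RC S' := RC_hom (RingHom.id W) (fun _ hy => h hy) hx

end Alg

lemma SN_mono {G U : Type} [Group G] [Ring U] {k : Subring ℂ} (D : Dat G k U) {N₁ N₂ : Subgroup G}
    (h : N₁ ≤ N₂) : SN D N₁ ≤ SN D N₂ := by
  apply Subring.closure_mono
  exact Set.union_subset_union_right _ (Set.image_mono h)

/-- the ring with rank function attached to a group -/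
lemma exists_gr (G : Type) [Group G] :
    ∃ (U : Type) (_ : Ring U) (ρ : RankFn U) (D : Dat G ℂ U), ρ.Faithful ∧
      (∀ (n : Type) [Fintype n] [DecidableEq n] (A : Matrix n n U),
        ρ.rk A = Fintype.card n → IsUnit A) ∧
      ∀ {m n : Type} [Fintype m] [Fintype n] (a : m → n → (G →₀ ℂ)),
        ρ.rk (Matrix.of fun i j => D.gr (a i j)) = (Fintype.card n : ℝ)
          - vdim (Sol (Set.range (colG a)) : Set (L2 n G)) := by
  have hε0 : Tendsto (fun j : ℕ => 1 / ((j : ℝ) + 1)) (hyperfilter ℕ : Ultrafilter ℕ) (𝓝 0) :=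
    tendsto_one_div_add_atTop_nhds_zero_nat.mono_left Nat.hyperfilter_le_atTop
  obtain ⟨U, _, ρ, D, hfaith, hunit, hlim⟩ := exists_grModel (G := G) (hyperfilter ℕ)
    (fun j : ℕ => 1 / ((j : ℝ) + 1)) (fun j => by positivity) hε0
    (H := fun _ => G) (fun _ => MonoidHom.id G)
  refine ⟨U, inferInstance, ρ, D, hfaith, hunit, ?_⟩
  intro m n _ _ a
  refine tendsto_nhds_unique (hlim a) ?_
  have e : (fun i => mapF (MonoidHom.id G) (colG a i)) = colG a := by
    funext i
    exact mapF_eq' _
  rw [e]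
  exact tendsto_const_nhds

/-- Atiyah property: elements of the rational closure are zero or units -/
lemma zero_or_unit_of_atiyah {G U : Type} [Group G] [Ring U] (ρ : RankFn U) (D : Dat G ℂ U)
    (hfaith : ρ.Faithful)
    (hunit : ∀ (n : Type) [Fintype n] [DecidableEq n] (A : Matrix n n U),
        ρ.rk A = Fintype.card n → IsUnit A)
    (hrk : ∀ {m n : Type} [Fintype m] [Fintype n] (a : m → n → (G →₀ ℂ)),
      ρ.rk (Matrix.of fun i j => D.gr (a i j)) = (Fintype.card n : ℝ)
        - vdim (Sol (Set.range (colG a)) : Set (L2 n G))) (k : Subring ℂ)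
    (hAt : AtiyahOver k G) : ∀ x ∈ RC (SN (D.restrict k) ⊤), x = 0 ∨ IsUnit x := by
  intro x hx
  obtain ⟨n, M, hM, hMrk⟩ := RC_schur (mem_RCs.2 hx)
  have h1 := hMrk (RingHom.id U) ρ
  have e0 : M.map (RingHom.id U) = M := by
    ext i j
    rfl
  have e0' : RingHom.id U x = x := rfl
  rw [e0, e0'] at h1
  choose a ha1 ha2 ha3 using fun i j => D.SN_form k ⊤ (hM i j)
  have e1 : M = Matrix.of fun i j => D.gr (a i j) := by
    ext i j
    rw [ha3]
    rfl
  obtain ⟨z, hz⟩ := hAt.forms (Set.range (colG a)) (Set.finite_range _) (by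
    rintro _ ⟨i, rfl⟩ p
    exact colG_coef a ha2 i p)
  rw [e1, hrk, hz] at h1
  have h2 : ρ.rk (one1 x) = ((1 - z : ℤ) : ℝ) := by
    rw [Fintype.card_sum, Fintype.card_fin, Fintype.card_unit] at h1
    push_cast at h1 ⊢
    linarith
  have h3 : 0 ≤ 1 - z := by
    have := ρ.rk_nonneg (one1 x)
    rw [h2] at this
    exact_mod_cast this
  have h4 : 1 - z ≤ 1 := by
    have := ρ.rk_le_card (one1 x)
    rw [h2, Fintype.card_unit] at this
    exact_mod_cast this
  rcases (by omega : 1 - z = 0 ∨ 1 - z = 1) with h5 | h5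
  · left
    apply hfaith
    rw [h2, h5, Int.cast_zero]
  · right
    have h6 : IsUnit (one1 x) := by
      apply hunit
      rw [h2, h5, Fintype.card_unit, Int.cast_one, Nat.cast_one]
    rw [isUnit_unit_matrix] at h6
    exact h6

section Powers

variable (Γ : Type) [Group Γ]

/-- the restricted power of a group -/
def rpow : Subgroup (ℕ → Γ) where
  carrier := {f | ∃ N, ∀ i, N ≤ i → f i = 1}
  mul_mem' := by
    rintro f g ⟨N, hN⟩ ⟨M, hM⟩
    refine ⟨max N M, fun i hi => ?_⟩
    rw [Pi.mul_apply, hN i ((le_max_left _ _).trans hi), hM i ((le_max_right _ _).trans hi), mul_one]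
  one_mem' := ⟨0, fun _ _ => rfl⟩
  inv_mem' := by
    rintro f ⟨N, hN⟩
    refine ⟨N, fun i hi => ?_⟩
    rw [Pi.inv_apply, hN i hi, inv_one]

/-- the first `m` factors -/
def fst (m : ℕ) : Subgroup (rpow Γ) where
  carrier := {f | ∀ i, m ≤ i → (f : ℕ → Γ) i = 1}
  mul_mem' := by
    intro f g hf hg i hi
    show (f : ℕ → Γ) i * (g : ℕ → Γ) i = 1
    rw [hf i hi, hg i hi, mul_one]
  one_mem' := fun _ _ => rfl
  inv_mem' := by
    intro f hf i hi
    show ((f : ℕ → Γ) i)⁻¹ = 1
    rw [hf i hi, inv_one]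

/-- the `j`-th factor -/
def sgl (j : ℕ) : Γ →* rpow Γ :=
  (MonoidHom.mulSingle (fun _ : ℕ => Γ) j).codRestrict (rpow Γ) (by
    intro x
    refine ⟨j + 1, fun i hi => ?_⟩
    have hij : i ≠ j := by omega
    show (Pi.mulSingle j x : ℕ → Γ) i = 1
    rw [Pi.mulSingle_apply, if_neg hij])

lemma sgl_apply (j : ℕ) (x : Γ) (i : ℕ) : (sgl Γ j x : ℕ → Γ) i = if i = j then x else 1 := by
  show (Pi.mulSingle j x : ℕ → Γ) i = _
  rw [Pi.mulSingle_apply]

lemma sgl_injective (j : ℕ) : Function.Injective (sgl Γ j) := by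
  intro x y h
  have h1 := congrArg (fun f : rpow Γ => (f : ℕ → Γ) j) h
  simp only [sgl_apply, if_true] at h1
  exact h1

end Powers

/-- local character of the Atiyah property -/
lemma atiyah_of_local {k : Subring ℂ} {G : Type} [Group G]
    (h : ∀ F : Finset G, ∃ H : Subgroup G, (∀ g ∈ F, g ∈ H) ∧ AtiyahOver k H) : AtiyahOver k G := by
  classical
  intro m n A hA
  obtain ⟨H, hF, hH⟩ := h (Finset.univ.biUnion fun i => Finset.univ.biUnion fun j => (A i j).support)
  obtain ⟨A', hA'⟩ := exists_restrict' H A (fun i j g hg => hF g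
    (Finset.mem_biUnion.2 ⟨i, Finset.mem_univ _, Finset.mem_biUnion.2 ⟨j, Finset.mem_univ _, hg⟩⟩))
  have e : A = pushMat H.subtype A' := by
    funext i j
    exact (hA' i j).symm
  obtain ⟨z, hz⟩ := hH m n A' (by
    intro i j g
    have h1 := congrArg (fun a : G →₀ ℂ => a (g : G)) (hA' i j)
    have h2 : Finsupp.mapDomain H.subtype (A' i j) (H.subtype g) = A' i j g :=
      Finsupp.mapDomain_apply Subtype.val_injective _ _
    have h3 : A' i j g = A i j (g : G) := by rw [← h2]; exact h1
    rw [h3]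
    exact hA i j _)
  refine ⟨z, ?_⟩
  rw [e, kerDim_pushMat, vdim_induced _ (Subgroup.subtype_injective _), ← kerDim_eq, hz]

lemma atiyah_mono {k k' : Subring ℂ} (h : k ≤ k') {G : Type} [Group G] (hG : AtiyahOver k' G) :
    AtiyahOver k G := fun m n A hA => hG m n A fun i j g => h (hA i j g)

lemma atiyah_rpow {k : Subring ℂ} {Γ : Type} [Group Γ] (h : ∀ m : ℕ, AtiyahOver k (Fin m → Γ)) :
    AtiyahOver k (rpow Γ) := by
  apply atiyah_of_local
  intro F
  have hN : ∃ N, ∀ f ∈ F, ∀ i, N ≤ i → (f : ℕ → Γ) i = 1 := by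
    classical
    induction F using Finset.induction_on with
    | empty => exact ⟨0, fun f hf => absurd hf (Finset.notMem_empty f)⟩
    | insert a s _ ih =>
      obtain ⟨N, hN⟩ := ih
      obtain ⟨M, hM⟩ := a.2
      refine ⟨max N M, fun f hf i hi => ?_⟩
      rcases Finset.mem_insert.1 hf with rfl | hf
      · exact hM i ((le_max_right _ _).trans hi)
      · exact hN f hf i ((le_max_left _ _).trans hi)
  obtain ⟨N, hN⟩ := hN
  refine ⟨fst Γ N, fun f hf => hN f hf, ?_⟩
  let r : fst Γ N →* (Fin N → Γ) := MonoidHom.mk' (fun f i => ((f : rpow Γ) : ℕ → Γ) i)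
    (fun _ _ => rfl)
  refine (h N).of_injective r ?_
  intro f g hfg
  apply Subtype.ext
  apply Subtype.ext
  funext i
  by_cases hi : i < N
  · exact congrFun hfg ⟨i, hi⟩
  · rw [f.2 i (by omega), g.2 i (by omega)]

section Core

variable {Γ U : Type} [Group Γ] [Ring U] (D : Dat (rpow Γ) ℂ U)

/-- all copies of the group ring at once -/
def DW : Dat Γ ℂ (ℕ → U) where
  ι := Pi.monoidHom fun j => D.ι.comp (sgl Γ j)
  sc := Pi.ringHom fun _ => D.sc
  comm c g := by
    funext j
    exact D.comm c _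

lemma DW_gr (a : Γ →₀ ℂ) (j : ℕ) : (DW D).gr a j = D.gr (Finsupp.mapDomain (sgl Γ j) a) := by
  unfold Dat.gr
  rw [Finsupp.sum_mapDomain_index (by simp) (by intro b m₁ m₂; rw [map_add, add_mul])]
  unfold Finsupp.sum
  rw [Finset.sum_apply]
  rfl

variable (ρ : RankFn U)
  (hrk : ∀ {m n : Type} [Fintype m] [Fintype n] (a : m → n → (rpow Γ →₀ ℂ)),
      ρ.rk (Matrix.of fun i j => D.gr (a i j)) = (Fintype.card n : ℝ)
        - vdim (Sol (Set.range (colG a)) : Set (L2 n (rpow Γ))))

include hrk in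
/-- ranks do not depend on the copy -/
lemma rk_copy {m n : Type} [Fintype m] [Fintype n] (a : m → n → (Γ →₀ ℂ)) (j : ℕ) :
    ρ.rk ((Matrix.of fun i l => (DW D).gr (a i l)).map (Pi.evalRingHom (fun _ : ℕ => U) j))
      = (Fintype.card n : ℝ) - vdim (Sol (Set.range (colG a)) : Set (L2 n Γ)) := by
  rw [← rk_gr_mapDomain ρ D hrk (sgl Γ j) (sgl_injective Γ j) a]
  congr 1
  ext i l
  exact DW_gr D (a i l) j

include hrk in
lemma rk_indep {x : ℕ → U} (hx : x ∈ RC (SN ((DW D).restrict ⊤) ⊤)) (j j' : ℕ) :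
    ρ.rk (one1 (x j)) = ρ.rk (one1 (x j')) := by
  obtain ⟨n, M, hM, hMrk⟩ := RC_schur (mem_RCs.2 hx)
  have h1 := hMrk (Pi.evalRingHom (fun _ : ℕ => U) j) ρ
  have h2 := hMrk (Pi.evalRingHom (fun _ : ℕ => U) j') ρ
  choose a ha1 ha2 ha3 using fun i j => (DW D).SN_form ⊤ ⊤ (hM i j)
  have e1 : M = Matrix.of fun i j => (DW D).gr (a i j) := by
    ext i j
    rw [ha3]
    rfl
  rw [e1, rk_copy D ρ hrk] at h1 h2
  have h3 : ρ.rk (one1 (x j)) = ρ.rk (one1 (Pi.evalRingHom (fun _ : ℕ => U) j x)) := rfl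
  have h4 : ρ.rk (one1 (x j')) = ρ.rk (one1 (Pi.evalRingHom (fun _ : ℕ => U) j' x)) := rfl
  rw [h3, h4]
  linarith

/-- the column of the first `m` copies -/
def colm (x : ℕ → U) (m : ℕ) : Matrix (Fin m) Unit U := Matrix.of fun i _ => x i

include hrk in
/-- the product formula for the copies -/
theorem rk_colm {x : ℕ → U} (hx : x ∈ RC (SN ((DW D).restrict ⊤) ⊤)) (m : ℕ) :
    1 - ρ.rk (colm x m) = (1 - ρ.rk (one1 (x 0))) ^ m := by
  induction m with
  | zero =>
    have h : ρ.rk (colm x 0) = 0 := by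
      apply le_antisymm _ (ρ.rk_nonneg _)
      refine (ρ.rk_le_card' _).trans ?_
      simp
    rw [h, pow_zero, sub_zero]
  | succ m ih =>
    have hmem : ∀ j, x j ∈ RC (SN (D.restrict ⊤) (sgl Γ j).range) := by
      intro j
      refine RC_hom (Pi.evalRingHom (fun _ : ℕ => U) j) (S' := SN (D.restrict ⊤) (sgl Γ j).range)
        (fun y hy => ?_) hx
      have : SN ((DW D).restrict ⊤) ⊤ ≤
          (SN (D.restrict ⊤) (sgl Γ j).range).comap (Pi.evalRingHom (fun _ : ℕ => U) j) := by
        apply Subring.closure_le.2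
        rintro y (⟨c, rfl⟩ | ⟨g, _, rfl⟩)
        · exact sc_mem_SN (D := D.restrict ⊤) _ c
        · exact ι_mem_SN (D := D.restrict ⊤) ⟨g, rfl⟩
      exact this hy
    have hcomm : ∀ f ∈ fst Γ m, ∀ g ∈ (sgl Γ m).range, f * g = g * f := by
      rintro f hf _ ⟨y, rfl⟩
      apply Subtype.ext
      funext i
      show (f : ℕ → Γ) i * (sgl Γ m y : ℕ → Γ) i = (sgl Γ m y : ℕ → Γ) i * (f : ℕ → Γ) i
      rw [sgl_apply]
      by_cases hi : i = m
      · rw [hf i (by omega)]
        simp
      · rw [if_neg hi, mul_one, one_mul]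
    have hpf : Pf ρ (colm x m) (one1 (x m)) := by
      refine Pf_RC ρ (SN (D.restrict ⊤) (fst Γ m)) (SN (D.restrict ⊤) (sgl Γ m).range) ?_ ?_ _ _
        ?_ ?_
      · intro y hy z hz
        exact SN_comm D ⊤ hcomm hy hz
      · intro a b p q _ _ _ _ _ _ X Y hX hY
        refine Pf_group ρ D hrk (fst Γ m) (sgl Γ m).range hcomm ?_ X Y hX hY
        rintro f hf ⟨y, rfl⟩
        apply Subtype.ext
        funext i
        rw [sgl_apply]
        by_cases hi : i = m
        · have h1 := hf m le_rfl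
          rw [sgl_apply, if_pos rfl] at h1
          rw [h1]
          simp
        · rw [if_neg hi]
          rfl
      · intro i j
        refine RC_mono (SN_mono (D.restrict ⊤) ?_) (hmem i)
        rintro _ ⟨y, rfl⟩ l hl
        rw [sgl_apply, if_neg]
        have := i.2
        omega
      · intro i j
        exact hmem m
    have hSt : ρ.rk (St (colm x m) (one1 (x m))) = ρ.rk (colm x (m + 1)) := by
      apply le_antisymm
      · have e : St (colm x m) (one1 (x m)) = (colm x (m + 1)).submatrix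
            (Sum.elim (fun s => s.1.castSucc) (fun _ => Fin.last m)) (fun _ => ()) := by
          ext (⟨i, j⟩ | ⟨i, j⟩) ⟨k, l⟩
          · simp [St, kl, colm]
          · simp [St, kr, colm, one1]
        rw [e]
        exact ρ.rk_submatrix_le _ _ _
      · have e : colm x (m + 1) = (St (colm x m) (one1 (x m))).submatrix
            (Fin.lastCases (Sum.inr ((), ())) (fun i => Sum.inl (i, ()))) (fun _ => ((), ())) := by
          ext i j
          rw [Matrix.submatrix_apply]
          refine Fin.lastCases ?_ (fun i => ?_) i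
          · rw [Fin.lastCases_last]
            simp [St, kr, colm, one1]
          · rw [Fin.lastCases_castSucc]
            simp [St, kl, colm]
        rw [e]
        exact ρ.rk_submatrix_le _ _ _
    unfold Pf at hpf
    simp only [Fintype.card_unit, Nat.cast_one, mul_one] at hpf
    rw [hSt, ih, rk_indep D ρ hrk hx m 0] at hpf
    rw [hpf, pow_succ]

/-- The heart of the matter: a finite combination of scalars with coefficients in the small
rational closure is zero or a unit. -/
theorem rk_zero_one (k : Subring ℂ) (hR : ∀ x ∈ RC (SN (D.restrict k) ⊤), x = 0 ∨ IsUnit x)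
    (hrk : ∀ {m n : Type} [Fintype m] [Fintype n] (a : m → n → (rpow Γ →₀ ℂ)),
      ρ.rk (Matrix.of fun i j => D.gr (a i j)) = (Fintype.card n : ℝ)
        - vdim (Sol (Set.range (colG a)) : Set (L2 n (rpow Γ))))
    {n : ℕ} (r : Fin n → ℕ → U) (hr : ∀ i, r i ∈ RC (SN ((DW D).restrict k) ⊤)) (z : Fin n → ℂ)
    {x : ℕ → U} (hx : x = ∑ i, r i * (DW D).sc (z i)) :
    ρ.rk (one1 (x 0)) = 0 ∨ ρ.rk (one1 (x 0)) = 1 := by
  have hle : SN ((DW D).restrict k) ⊤ ≤ SN ((DW D).restrict ⊤) ⊤ := by
    apply Subring.closure_le.2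
    rintro y (⟨c, rfl⟩ | ⟨g, hg, rfl⟩)
    · exact sc_mem_SN (D := (DW D).restrict ⊤) _ (⟨c, trivial⟩ : (⊤ : Subring ℂ))
    · exact ι_mem_SN (D := (DW D).restrict ⊤) hg
  have hxR : x ∈ RC (SN ((DW D).restrict ⊤) ⊤) := by
    rw [hx, ← mem_RCs]
    refine Subring.sum_mem _ fun i _ => Subring.mul_mem _ (RC_mono hle (hr i)) ?_
    exact RC_of_mem (sc_mem_SN (D := (DW D).restrict ⊤) _ (⟨z i, trivial⟩ : (⊤ : Subring ℂ)))
  obtain ⟨m, a, ha⟩ := exists_dep' (RCs (SN (D.restrict k) ⊤)) (fun y hy => hR y hy)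
    (fun y hy y' h1 h2 => RC_inv hy h1 h2) (fun i => D.sc (z i)) x (by
      intro j
      refine ⟨fun i => r i j, fun i => ?_, ?_⟩
      · refine RC_hom (Pi.evalRingHom (fun _ : ℕ => U) j) (S' := SN (D.restrict k) ⊤)
          (fun y hy => ?_) (hr i)
        have : SN ((DW D).restrict k) ⊤ ≤
            (SN (D.restrict k) ⊤).comap (Pi.evalRingHom (fun _ : ℕ => U) j) := by
          apply Subring.closure_le.2
          rintro y (⟨c, rfl⟩ | ⟨g, _, rfl⟩)
          · exact sc_mem_SN (D := D.restrict k) _ c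
          · exact ι_mem_SN (D := D.restrict k) (Subgroup.mem_top _)
        exact this hy
      · rw [hx, Finset.sum_apply]
        rfl)
  have h1 : ρ.rk (colm x (m + 1)) ≤ ρ.rk (colm x m) := by
    have e : colm x (m + 1) = (Matrix.of fun (i : Fin (m + 1)) (j : Fin m) =>
        (Fin.lastCases (a j) (fun i => if i = j then 1 else 0) i : U)) * colm x m := by
      ext i j
      rw [Matrix.mul_apply]
      refine Fin.lastCases ?_ (fun i => ?_) i
      · simp only [Matrix.of_apply, Fin.lastCases_last, colm, Fin.val_last]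
        exact ha
      · simp only [Matrix.of_apply, Fin.lastCases_castSucc, colm]
        rw [Finset.sum_eq_single i]
        · rw [if_pos rfl, one_mul]
          rfl
        · intro l _ hl
          rw [if_neg (Ne.symm hl), zero_mul]
        · intro h
          exact absurd (Finset.mem_univ _) h
    rw [e]
    exact ρ.rk_mul_le_right _ _
  have h2 := rk_colm D ρ hrk hxR m
  have h3 := rk_colm D ρ hrk hxR (m + 1)
  set d : ℝ := 1 - ρ.rk (one1 (x 0)) with hd
  have hd0 : 0 ≤ d := by
    have := ρ.rk_le_card (one1 (x 0))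
    rw [Fintype.card_unit, Nat.cast_one] at this
    linarith
  have hd1 : d ≤ 1 := by
    have := ρ.rk_nonneg (one1 (x 0))
    linarith
  have h4 : d ^ m ≤ d ^ (m + 1) := by
    rw [← h2, ← h3]
    linarith
  rcases hd0.eq_or_lt with h5 | h5
  · right
    linarith
  · left
    have h6 : 0 < d ^ m := pow_pos h5 m
    rw [pow_succ] at h4
    have h7 : 1 ≤ d := by
      by_contra hcon
      push Not at hcon
      nlinarith
    linarith

end Core

/-- the core step: adjoining one scalar -/
theorem atiyah_adjoin (k : Subring ℂ) (Γ : Type) [Group Γ] (h : AtiyahOver k (rpow Γ)) (c : ℂ) :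
    AtiyahOver (Subring.closure ((k : Set ℂ) ∪ {c})) Γ := by
  classical
  obtain ⟨U, _, ρ, D, hfaith, hunit, hrk⟩ := exists_gr (rpow Γ)
  have hR := zero_or_unit_of_atiyah ρ D hfaith hunit hrk k h
  set W := ℕ → U with hW
  set S : Subring W := RCs (SN ((DW D).restrict k) ⊤) with hS
  have hle : SN ((DW D).restrict k) ⊤ ≤ SN ((DW D).restrict ⊤) ⊤ := by
    apply Subring.closure_le.2
    rintro y (⟨c, rfl⟩ | ⟨g, hg, rfl⟩)
    · exact sc_mem_SN (D := (DW D).restrict ⊤) _ (⟨c, trivial⟩ : (⊤ : Subring ℂ))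
    · exact ι_mem_SN (D := (DW D).restrict ⊤) hg
  -- elements of the small rational closure are zero or units
  have hone : ∀ u : U, ρ.rk (one1 u) = 1 → IsUnit u := by
    intro u hu
    have : IsUnit (one1 u) := hunit Unit (one1 u) (by rw [hu, Fintype.card_unit, Nat.cast_one])
    rwa [isUnit_unit_matrix] at this
  have hSu : ∀ x ∈ S, x = 0 ∨ IsUnit x := by
    intro x hx
    have hxR : x ∈ RC (SN ((DW D).restrict ⊤) ⊤) := RC_mono hle hx
    have h01 := rk_zero_one D ρ k hR hrk (n := 1) (fun _ => x) (fun _ => hx) (fun _ => 1)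
      (x := x) (by simp)
    rcases h01 with h01 | h01
    · left
      funext j
      apply hfaith
      rw [rk_indep D ρ hrk hxR j 0, h01]
    · right
      rw [Pi.isUnit_iff]
      intro j
      apply hone
      rw [rk_indep D ρ hrk hxR j 0, h01]
  rcases subsingleton_or_nontrivial U with hU | hU
  · -- the ring cannot be trivial
    have h1 := ρ.rk_one (n := Unit)
    have h2 : (1 : Matrix Unit Unit U) = 0 := Subsingleton.elim _ _
    rw [h2, ρ.rk_zero, Fintype.card_unit, Nat.cast_one] at h1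
    exact absurd h1 (by norm_num)
  have hu : ∀ a : S, IsUnit a ∨ a = 0 := by
    rintro ⟨x, hx⟩
    rcases hSu x hx with h | ⟨⟨y, y', h1, h2⟩, h⟩
    · right
      exact Subtype.ext h
    · left
      have h' : y = x := h
      subst h'
      exact ⟨⟨⟨y, hx⟩, ⟨y', RC_inv hx h1 h2⟩, Subtype.ext h1, Subtype.ext h2⟩, rfl⟩
  letI : DivisionRing S := DivisionRing.ofIsUnitOrEqZero hu
  have hcen : ∀ a : S, Commute (S.subtype a) ((DW D).sc c) := by
    intro a
    refine (RC_comm (z := (DW D).sc c) ?_ a.2).symm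
    intro s hs
    have : SN ((DW D).restrict k) ⊤ ≤ Subring.centralizer {(DW D).sc c} := by
      apply Subring.closure_le.2
      rintro y (⟨c', rfl⟩ | ⟨g, _, rfl⟩)
      · rw [SetLike.mem_coe, Subring.mem_centralizer_iff]
        rintro _ rfl
        show (DW D).sc c * (DW D).sc c' = (DW D).sc c' * (DW D).sc c
        rw [← map_mul, ← map_mul, mul_comm]
      · rw [SetLike.mem_coe, Subring.mem_centralizer_iff]
        rintro _ rfl
        exact (DW D).comm c g
    exact Subring.mem_centralizer_iff.1 (this hs) _ rfl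
  let evW : Polynomial S →+* W := Polynomial.eval₂RingHom' S.subtype ((DW D).sc c) hcen
  have hev01 : ∀ f, ρ.rk (one1 (evW f 0)) = 0 ∨ ρ.rk (one1 (evW f 0)) = 1 := by
    intro f
    refine rk_zero_one D ρ k hR hrk (n := f.natDegree + 1) (fun i => (f.coeff i : W))
      (fun i => (f.coeff i).2) (fun i => c ^ (i : ℕ)) ?_
    show Polynomial.eval₂ S.subtype ((DW D).sc c) f = _
    rw [Polynomial.eval₂_eq_sum_range, Finset.sum_range]
    refine Finset.sum_congr rfl fun i _ => ?_
    rw [map_pow]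
    rfl
  let ev : Polynomial S →+* U := (Pi.evalRingHom (fun _ : ℕ => U) 0).comp evW
  have hev : ∀ f, ev f = 0 ∨ IsUnit (ev f) := by
    intro f
    rcases hev01 f with h1 | h1
    · exact Or.inl (hfaith _ h1)
    · exact Or.inr (hone _ h1)
  -- matrices over the bigger coefficient ring
  have hmem : ∀ x ∈ SN ((DW D).restrict (Subring.closure ((k : Set ℂ) ∪ {c}))) ⊤,
      x ∈ evW.range := by
    have hsc : ∀ z ∈ Subring.closure ((k : Set ℂ) ∪ {c}), (DW D).sc z ∈ evW.range := by
      have : Subring.closure ((k : Set ℂ) ∪ {c}) ≤ evW.range.comap (DW D).sc := by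
        apply Subring.closure_le.2
        rintro z (hz | rfl)
        · refine ⟨Polynomial.C ⟨(DW D).sc z, RC_of_mem
            (sc_mem_SN (D := (DW D).restrict k) _ (⟨z, hz⟩ : k))⟩, ?_⟩
          exact Polynomial.eval₂_C _ _
        · exact ⟨Polynomial.X, Polynomial.eval₂_X _ _⟩
      exact fun z hz => this hz
    have : SN ((DW D).restrict (Subring.closure ((k : Set ℂ) ∪ {c}))) ⊤ ≤ evW.range := by
      apply Subring.closure_le.2
      rintro y (⟨z, rfl⟩ | ⟨g, _, rfl⟩)
      · exact hsc z z.2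
      · refine ⟨Polynomial.C ⟨(DW D).ι g, RC_of_mem
          (ι_mem_SN (D := (DW D).restrict k) (Subgroup.mem_top g))⟩, ?_⟩
        exact Polynomial.eval₂_C _ _
    exact fun x hx => this hx
  intro m n A hA
  set a : Fin n → Fin m → (Γ →₀ ℂ) := fun j i => Finsupp.mapDomain (fun g => g⁻¹) (A i j) with ha
  have hak : ∀ i j g, a i j g ∈ Subring.closure ((k : Set ℂ) ∪ {c}) := by
    intro i j g
    have e : a i j g = A j i g⁻¹ := by
      have := Finsupp.mapDomain_apply (f := fun g : Γ => g⁻¹) inv_injective (A j i) g⁻¹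
      rw [inv_inv] at this
      exact this
    rw [e]
    exact hA j i _
  have hsn : ∀ i j, ∃ f : Polynomial S, evW f = (DW D).gr (a i j) := by
    intro i j
    apply hmem
    unfold Dat.gr Finsupp.sum
    refine Subring.sum_mem _ fun g _ => Subring.mul_mem _ ?_ ?_
    · exact sc_mem_SN (D := (DW D).restrict (Subring.closure ((k : Set ℂ) ∪ {c}))) _
        (⟨a i j g, hak i j g⟩ : Subring.closure ((k : Set ℂ) ∪ {c}))
    · exact ι_mem_SN (D := (DW D).restrict (Subring.closure ((k : Set ℂ) ∪ {c})))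
        (Subgroup.mem_top g)
  choose F hF using hsn
  obtain ⟨r, hr⟩ := int_of_poly ρ ev hev m (Matrix.of F)
  have e4 : (Matrix.of F).map ev = ((Matrix.of fun i l => (DW D).gr (a i l)).map
      (Pi.evalRingHom (fun _ : ℕ => U) 0)) := by
    ext i j
    show evW (F i j) 0 = (DW D).gr (a i j) 0
    rw [hF]
  rw [e4, rk_copy D ρ hrk a 0] at hr
  have e3 : colG a = colF A := by
    funext j
    exact colG_colF A j
  rw [e3, Fintype.card_fin] at hr
  refine ⟨(m : ℤ) - r, ?_⟩
  rw [kerDim_eq]
  push_cast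
  linarith

/-- Base change: if all finite powers of `G` have the Atiyah property over `k`, they have it over
the complex numbers. -/
theorem base_change (k : Subring ℂ) (G : Type) [Group G] (h : ∀ m : ℕ, AtiyahOver k (Fin m → G))
    (m : ℕ) : AtiyahOver ⊤ (Fin m → G) := by
  classical
  have hstep : ∀ (k : Subring ℂ), (∀ m : ℕ, AtiyahOver k (Fin m → G)) → ∀ (c : ℂ) (m : ℕ),
      AtiyahOver (Subring.closure ((k : Set ℂ) ∪ {c})) (Fin m → G) := by
    intro k hk c m
    apply atiyah_adjoin
    apply atiyah_rpow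
    intro j
    let f : (Fin j → Fin m → G) →* (Fin (j * m) → G) :=
      MonoidHom.mk' (fun u p => u (finProdFinEquiv.symm p).1 (finProdFinEquiv.symm p).2)
        (fun _ _ => rfl)
    refine (hk (j * m)).of_injective f ?_
    intro u v huv
    funext a b
    have e : ∀ w : Fin j → Fin m → G, f w (finProdFinEquiv (a, b)) = w a b := by
      intro w
      show w (finProdFinEquiv.symm (finProdFinEquiv (a, b))).1
        (finProdFinEquiv.symm (finProdFinEquiv (a, b))).2 = w a b
      rw [Equiv.symm_apply_apply]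
    rw [← e u, ← e v, huv]
  have hfin : ∀ s : Finset ℂ, ∀ m : ℕ,
      AtiyahOver (Subring.closure ((k : Set ℂ) ∪ s)) (Fin m → G) := by
    intro s
    induction s using Finset.induction_on with
    | empty =>
      intro m
      rw [Finset.coe_empty, Set.union_empty, Subring.closure_eq]
      exact h m
    | insert c s _ ih =>
      intro m
      refine atiyah_mono ?_ (hstep _ ih c m)
      apply Subring.closure_le.2
      rintro z (hz | hz)
      · exact Subring.subset_closure (Or.inl (Subring.subset_closure (Or.inl hz)))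
      · rw [Finset.coe_insert] at hz
        rcases hz with rfl | hz
        · exact Subring.subset_closure (Or.inr rfl)
        · exact Subring.subset_closure (Or.inl (Subring.subset_closure (Or.inr hz)))
  intro p q A _
  refine hfin (insert 0 (Finset.univ.biUnion fun i => Finset.univ.biUnion fun j =>
    (A i j).support.image (A i j))) m p q A ?_
  intro i j g
  apply Subring.subset_closure
  right
  rw [Finset.mem_coe]
  by_cases hg : A i j g = 0
  · rw [hg]
    exact Finset.mem_insert_self _ _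
  · refine Finset.mem_insert_of_mem (Finset.mem_biUnion.2 ⟨i, Finset.mem_univ _,
      Finset.mem_biUnion.2 ⟨j, Finset.mem_univ _, Finset.mem_image.2 ⟨g, ?_, rfl⟩⟩⟩)
    exact Finsupp.mem_support_iff.2 hg

end Pool.Agent.HX
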