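import Pool.Agent.VN.DefsK

set_option autoImplicit false

noncomputable section

open Filter Topology
open Pool.Agent.VN

namespace Pool.Agent.HX

/-- Approximation with coefficients in `k` along the family of homomorphisms `π i`: for every matrix
over `kG`, the von Neumann dimensions of the kernels of its images under the `π i` converge along
the filter `l` to the dimension of its kernel. -/
def ApproxAlong (k : Subring ℂ) {I : Type} (l : Filter I) {G : Type} [Group G] {H : I → Type}
    [∀ i, Group (H i)] (π : ∀ i, G →* H i) : Prop :=
  ∀ (m n : ℕ) (A : Matrix (Fin m) (Fin n) (G →₀ ℂ)), (∀ i j g, A i j g ∈ k) →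
    Tendsto (fun i => kerDim (pushMat (π i) A)) l (𝓝 (kerDim A))

end Pool.Agent.HX
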