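import Pool.Agent.HX.Indec
import Pool.Agent.HX.ApDef
import Pool.Agent.VN.Approx

set_option autoImplicit false
set_option linter.unusedSectionVars false

noncomputable section

open scoped InnerProductSpace ENNReal Topology
open Classical Filter
open Pool.Agent.VN

/-!
Approximation of the dimensions of kernels along a net of homomorphisms: a local criterion.
-/

namespace Pool.Agent.HX

section prod

variable {U₁ U₂ : Type} [Ring U₁] [Ring U₂]

lemma isUnit_prod {n : Type} [Fintype n] [DecidableEq n] (A : Matrix n n (U₁ × U₂)) :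
    IsUnit A ↔ IsUnit (A.map (RingHom.fst U₁ U₂)) ∧ IsUnit (A.map (RingHom.snd U₁ U₂)) := by
  constructor
  · intro h
    exact ⟨h.map (RingHom.fst U₁ U₂).mapMatrix, h.map (RingHom.snd U₁ U₂).mapMatrix⟩
  · rintro ⟨⟨⟨B, B', h1, h2⟩, hB⟩, ⟨⟨C, C', h3, h4⟩, hC⟩⟩
    have hB' : B = A.map (RingHom.fst U₁ U₂) := hB
    have hC' : C = A.map (RingHom.snd U₁ U₂) := hC
    set X : Matrix n n (U₁ × U₂) := Matrix.of fun i j => (B' i j, C' i j) with hX
    have hX1 : X.map (RingHom.fst U₁ U₂) = B' := rfl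
    have hX2 : X.map (RingHom.snd U₁ U₂) = C' := rfl
    have hext : ∀ Y Z : Matrix n n (U₁ × U₂), Y.map (RingHom.fst U₁ U₂) = Z.map (RingHom.fst U₁ U₂) →
        Y.map (RingHom.snd U₁ U₂) = Z.map (RingHom.snd U₁ U₂) → Y = Z := by
      intro Y Z h5 h6
      ext i j
      · exact congrFun (congrFun h5 i) j
      · exact congrFun (congrFun h6 i) j
    have h1m : (1 : Matrix n n (U₁ × U₂)).map (RingHom.fst U₁ U₂) = 1 :=
      Matrix.map_one _ (map_zero _) (map_one _)
    have h2m : (1 : Matrix n n (U₁ × U₂)).map (RingHom.snd U₁ U₂) = 1 :=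
      Matrix.map_one _ (map_zero _) (map_one _)
    refine ⟨⟨A, X, ?_, ?_⟩, rfl⟩
    · apply hext
      · rw [Matrix.map_mul, hX1, ← hB', h1, h1m]
      · rw [Matrix.map_mul, hX2, ← hC', h3, h2m]
    · apply hext
      · rw [Matrix.map_mul, hX1, ← hB', h2, h1m]
      · rw [Matrix.map_mul, hX2, ← hC', h4, h2m]

variable {G : Type} [Group G]

/-- the product of two data -/
def Dat.prod (D₁ : Dat G ℂ U₁) (D₂ : Dat G ℂ U₂) : Dat G ℂ (U₁ × U₂) where
  ι := D₁.ι.prod D₂.ι
  sc := D₁.sc.prod D₂.sc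
  comm c g := Prod.ext (D₁.comm c g) (D₂.comm c g)

lemma Dat.prod_gr (D₁ : Dat G ℂ U₁) (D₂ : Dat G ℂ U₂) (a : G →₀ ℂ) :
    (D₁.prod D₂).gr a = (D₁.gr a, D₂.gr a) := by
  unfold Dat.gr Finsupp.sum
  apply Prod.ext
  · rw [Prod.fst_sum]
    rfl
  · rw [Prod.snd_sum]
    rfl

end prod

section forms

/-- Every finite system is a matrix, functorially in the group; the coefficients are the same. -/
lemma exists_matrixHK {ι G : Type} [Group G] [Fintype ι] (k : Subring ℂ) (C : Set (ι × G →₀ ℂ))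
    (hC : C.Finite) (hk : ∀ c ∈ C, ∀ p, c p ∈ k) :
    ∃ (m n : ℕ) (A : Matrix (Fin m) (Fin n) (G →₀ ℂ)), (∀ i j g, A i j g ∈ k) ∧
      kerDim A = vdim (Sol C : Set (L2 ι G)) ∧ ∀ (H : Type) [Group H] (π : G →* H),
      kerDim (pushMat π A) = vdim (Sol (mapF π '' C) : Set (L2 ι H)) := by
  set e := Fintype.equivFin ι with he
  set s := hC.toFinset with hs
  set ec := s.equivFin with hec
  set c : Fin s.card → (ι × G →₀ ℂ) := fun j => (ec.symm j).1 with hc
  have hcC : ∀ j, c j ∈ C := fun j => hC.mem_toFinset.mp (ec.symm j).2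
  have hCc : ∀ a ∈ C, ∃ j, c j = a := by
    intro a ha
    refine ⟨ec ⟨a, hC.mem_toFinset.mpr ha⟩, ?_⟩
    simp [hc]
  set A : Matrix (Fin (Fintype.card ι)) (Fin s.card) (G →₀ ℂ) := Matrix.of fun k j =>
    (c j).comapDomain (fun g : G => ((e.symm k, g) : ι × G)) (fun _ _ _ _ h => by simpa using h)
    with hA
  have hAa : ∀ k j g, A k j g = c j (e.symm k, g) := fun k j g => rfl
  have hcol : ∀ j, colF A j
      = Finsupp.mapDomain (fun p : ι × G => ((e p.1, p.2) : Fin (Fintype.card ι) × G)) (c j) := by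
    intro j
    set u : ι × G ≃ Fin (Fintype.card ι) × G := e.prodCongr (Equiv.refl G) with hu
    have hu' : (fun p : ι × G => ((e p.1, p.2) : Fin (Fintype.card ι) × G)) = u := rfl
    rw [hu']
    ext q
    obtain ⟨k, g⟩ := q
    rw [colF_apply, hAa]
    have : ((k, g) : Fin (Fintype.card ι) × G) = u (e.symm k, g) := by simp [hu]
    rw [this, Finsupp.mapDomain_apply u.injective]
  have hmain : ∀ (H : Type) [Group H] (π : G →* H),
      vdim (Sol (mapF π '' Set.range (colF A)) : Set (L2 (Fin (Fintype.card ι)) H))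
        = vdim (Sol (mapF π '' C) : Set (L2 ι H)) := by
    intro H _ π
    symm
    apply vdim_reindex e
    intro x
    have key : ∀ j g, ev (mapF π (colF A j)) x g
        = ev (mapF π (c j)) (mulR (fun r => Finsupp.single (e r, (1 : H)) (1 : ℂ)) x) g := by
      intro j g
      rw [hcol, mapF_eq, ← Finsupp.mapDomain_comp, mapF_eq]
      have e1 : ((fun p : Fin (Fintype.card ι) × G => ((p.1, π p.2) : Fin (Fintype.card ι) × H)) ∘
          fun p : ι × G => ((e p.1, p.2) : Fin (Fintype.card ι) × G))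
          = (fun p : ι × H => ((e p.1, p.2) : Fin (Fintype.card ι) × H)) ∘
            fun p : ι × G => ((p.1, π p.2) : ι × H) := rfl
      rw [e1, Finsupp.mapDomain_comp]
      unfold ev
      rw [Finsupp.sum_mapDomain_index (by intro p; simp) (by intro p c d; ring)]
      refine Finsupp.sum_congr fun p _ => ?_
      rw [mulR_apply, ev_single]
      simp
    rw [mem_Sol, mem_Sol]
    constructor
    · rintro h _ ⟨a, ha, rfl⟩ g
      obtain ⟨j, rfl⟩ := hCc a ha
      rw [← key]
      exact h _ ⟨_, ⟨j, rfl⟩, rfl⟩ g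
    · rintro h _ ⟨_, ⟨j, rfl⟩, rfl⟩ g
      rw [key]
      exact h _ ⟨_, hcC j, rfl⟩ g
  refine ⟨_, _, A, fun i j g => (hAa i j g).symm ▸ hk _ (hcC j) _, ?_, fun H _ π => ?_⟩
  · rw [kerDim_eq]
    have h1 := hmain G (MonoidHom.id G)
    have h3 : ∀ {κ : Type} (D : Set (κ × G →₀ ℂ)), mapF (MonoidHom.id G) '' D = D := by
      intro κ D
      have : mapF (ι := κ) (MonoidHom.id G) = id := by
        funext a
        exact mapF_eq' a
      rw [this, Set.image_id]
    rw [h3, h3] at h1
    exact h1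
  · rw [kerDim_pushMat]
    exact hmain H π


lemma approx_forms {ι G : Type} [Group G] [Fintype ι] (k : Subring ℂ) {I : Type} (l : Filter I)
    {H : I → Type} [∀ i, Group (H i)] {π : ∀ i, G →* H i} (h : ApproxAlong k l π)
    (C : Set (ι × G →₀ ℂ)) (hC : C.Finite) (hk : ∀ c ∈ C, ∀ p, c p ∈ k) :
    Tendsto (fun i => vdim (Sol (mapF (π i) '' C) : Set (L2 ι (H i)))) l
      (𝓝 (vdim (Sol C : Set (L2 ι G)))) := by
  obtain ⟨m, n, A, hA, h1, h2⟩ := exists_matrixHK k C hC hk
  rw [← h1]
  refine (h m n A hA).congr fun i => ?_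
  exact h2 (H i) (π i)

end forms

/-- The local criterion for approximation. -/
theorem approx_of_fg (k : Subring ℂ) {G : Type} [Group G] {I : Type} (l : Filter I)
    {H : I → Type} [∀ i, Group (H i)] (π : ∀ i, G →* H i)
    (hπ : ∀ g : G, g ≠ 1 → ∀ᶠ i in l, π i g ≠ 1)
    (h : ∀ K : Subgroup G, K.FG → (∀ f : K →* Multiplicative ℤ, f = 1) →
      AtiyahOver k K ∧ ApproxAlong k l fun i => (π i).comp K.subtype) :
    ApproxAlong k l π := by
  obtain ⟨U₁, _, ρ₁, D₁, hfaith₁, hunit₁, hrk₁⟩ := exists_rankModel G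
  intro m n A hA
  -- reduction to ultrafilters
  rw [tendsto_iff_ultrafilter]
  intro 𝒱 h𝒱
  obtain ⟨𝒰, h𝒰⟩ : ∃ 𝒰 : Ultrafilter (I × ℕ), (𝒰 : Filter (I × ℕ)) ≤ (𝒱 : Filter I) ×ˢ atTop :=
    Ultrafilter.exists_le _
  have hfst : Tendsto Prod.fst (𝒰 : Filter (I × ℕ)) 𝒱 := tendsto_fst.mono_left h𝒰
  have hmap : 𝒰.map Prod.fst = 𝒱 := Ultrafilter.coe_le_coe.mp hfst
  have hε0 : Tendsto (fun p : I × ℕ => 1 / ((p.2 : ℝ) + 1)) 𝒰 (𝓝 0) :=
    (tendsto_one_div_add_atTop_nhds_zero_nat.comp tendsto_snd).mono_left h𝒰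
  obtain ⟨U₂, _, ρ₂, D₂, hfaith₂, hunit₂, hlim₂⟩ := exists_grModel (G := G) 𝒰
    (fun p : I × ℕ => 1 / ((p.2 : ℝ) + 1)) (fun p => by positivity) hε0
    (H := fun p : I × ℕ => H p.1) (fun p => π p.1)
  have hinj : ∀ g : G, g ≠ 1 → ∀ᶠ p in (𝒰 : Filter (I × ℕ)), π p.1 g ≠ 1 := fun g hg =>
    (hfst.mono_right h𝒱).eventually (hπ g hg)
  set D := D₁.prod D₂ with hD
  have hgr1 : ∀ {m n : Type} (a : m → n → (G →₀ ℂ)), (Matrix.of fun i j => D.gr (a i j)).map
      (RingHom.fst U₁ U₂) = Matrix.of fun i j => D₁.gr (a i j) := by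
    intro m n a
    ext i j
    show (D.gr (a i j)).1 = _
    rw [hD, Dat.prod_gr]
    rfl
  have hgr2 : ∀ {m n : Type} (a : m → n → (G →₀ ℂ)), (Matrix.of fun i j => D.gr (a i j)).map
      (RingHom.snd U₁ U₂) = Matrix.of fun i j => D₂.gr (a i j) := by
    intro m n a
    ext i j
    show (D.gr (a i j)).2 = _
    rw [hD, Dat.prod_gr]
    rfl
  have hu : ∀ (J : Type) [Fintype J] [DecidableEq J] (a : J → J → (G →₀ ℂ)),
      IsUnit (Matrix.of fun i j => D.gr (a i j)) ↔ Sol (Set.range (colG a)) = ⊥ := by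
    intro J _ _ a
    rw [isUnit_prod, hgr1, hgr2]
    constructor
    · rintro ⟨hA1, _⟩
      have h1 := rk_of_isUnit ρ₁ hA1
      rw [hrk₁] at h1
      exact eq_bot_of_vdim_eq_zero (Sol_invar _) (Sol_closed _) (by linarith)
    · intro hA1
      constructor
      · apply hunit₁
        rw [hrk₁, hA1, vdim_bot, sub_zero]
      · apply hunit₂
        apply le_antisymm (ρ₂.rk_le_card _)
        -- Kazhdan
        refine le_of_forall_pos_le_add fun ε hε => ?_
        obtain ⟨F, hF1, hF2⟩ := kazhdan (colG a) hε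
        have h1 : ∀ᶠ p in (𝒰 : Filter (I × ℕ)), ∀ g ∈ F, π p.1 g ≠ 1 := by
          rw [Filter.eventually_all_finset]
          exact fun g hg => hinj g (hF1 g hg)
        have h2 : ∀ᶠ p in (𝒰 : Filter (I × ℕ)), (Fintype.card J : ℝ) - ε ≤ (Fintype.card J : ℝ)
            - vdim (Sol (Set.range fun i => mapF (π p.1) (colG a i)) : Set (L2 J (H p.1))) := by
          filter_upwards [h1] with p hp
          have := hF2 (π p.1) hp
          rw [hA1, vdim_bot] at this
          linarith
        have h3 := ge_of_tendsto (hlim₂ a) h2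
        linarith
  have hF := hF_of D k hu
  have hE : ∀ (n : ℕ) (β : Matrix (Fin n) (Fin n) (U₁ × U₂)) (b c v : Fin n → U₁ × U₂),
      IsUnit (1 - β) → (∀ i, v i = ∑ j, β i j * v j + b i) →
      (∀ k : ℕ, ∑ i, c i * (Matrix.mulVec (β ^ k) b) i = 0) → ∑ i, c i * v i = 0 := by
    intro n β b c v hub hv h0
    have hs : ∀ {U' : Type} [Ring U'] (f : U₁ × U₂ →+* U') (ρ' : RankFn U'), ρ'.Faithful →
        f (∑ i, c i * v i) = 0 := by
      intro U' _ f ρ' hρ'
      have h1 := hE_of ρ' hρ' n (β.map f) (fun i => f (b i)) (fun i => f (c i)) (fun i => f (v i))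
        (by
          have := hub.map f.mapMatrix
          rw [map_sub, map_one] at this
          exact this)
        (fun i => by
          rw [hv i, map_add, map_sum]
          congr 1
          refine Finset.sum_congr rfl fun j _ => ?_
          rw [map_mul]
          rfl)
        (fun k => by
          have h2 := congrArg f (h0 k)
          rw [map_zero, map_sum] at h2
          rw [← h2]
          refine Finset.sum_congr rfl fun i _ => ?_
          rw [map_mul]
          congr 1
          have h3 : (β.map f) ^ k = (β ^ k).map f := (map_pow f.mapMatrix β k).symm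
          rw [h3]
          unfold Matrix.mulVec dotProduct
          rw [map_sum]
          refine Finset.sum_congr rfl fun j _ => ?_
          rw [map_mul]
          rfl)
      rw [map_sum, ← h1]
      refine Finset.sum_congr rfl fun i _ => ?_
      rw [map_mul]
    apply Prod.ext
    · exact hs (RingHom.fst U₁ U₂) ρ₁ hfaith₁
    · exact hs (RingHom.snd U₁ U₂) ρ₂ hfaith₂
  have hbase : ∀ K : Subgroup G, K.FG → (∀ f : K →* Multiplicative ℤ, f = 1) →
      ∀ x ∈ RCs (SN (D.restrict k) K), x = 0 ∨ IsUnit x := by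
    intro K hK hf x hx
    obtain ⟨hAt, hAp⟩ := h K hK hf
    obtain ⟨n, M, hM, hMrk⟩ := RC_schur hx
    have h1 := hMrk (RingHom.fst U₁ U₂) ρ₁
    have h2 := hMrk (RingHom.snd U₁ U₂) ρ₂
    choose a ha1 ha2 ha3 using fun i j => D.SN_form k K (hM i j)
    have e1 : M = Matrix.of fun i j => D.gr (a i j) := by
      ext1 i j
      rw [ha3]
      rfl
    obtain ⟨b, hb1, hb2⟩ := exists_restrict K k a ha1 ha2
    have e2 : Set.range (colG a) = mapF K.subtype '' Set.range (colG b) := by
      rw [← Set.range_comp]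
      congr 1
      funext i
      exact hb2 i
    have hbk : ∀ c ∈ Set.range (colG b), ∀ p, c p ∈ k := by
      rintro _ ⟨i, rfl⟩ p
      exact colG_coef b hb1 i p
    obtain ⟨z, hz⟩ := hAt.forms (Set.range (colG b)) (Set.finite_range _) hbk
    -- the rank over the net
    have h3 : Tendsto (fun p : I × ℕ => vdim (Sol (Set.range fun i => mapF (π p.1) (colG a i)) :
        Set (L2 (Fin n ⊕ Unit) (H p.1)))) 𝒰 (𝓝 (vdim (Sol (Set.range (colG b)) :
          Set (L2 (Fin n ⊕ Unit) K)))) := by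
      have h4 := approx_forms k l hAp (Set.range (colG b)) (Set.finite_range _) hbk
      have h5 := (h4.mono_left h𝒱).comp hfst
      refine h5.congr fun p => ?_
      have e3 : mapF ((π p.1).comp K.subtype) '' Set.range (colG b)
          = Set.range fun i => mapF (π p.1) (colG a i) := by
        rw [← Set.range_comp]
        refine congrArg Set.range (funext fun i => ?_)
        show mapF ((π p.1).comp K.subtype) (colG b i) = mapF (π p.1) (colG a i)
        rw [hb2, mapF_comp]
      show vdim (Sol (mapF ((π p.1).comp K.subtype) '' Set.range (colG b)) :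
        Set (L2 (Fin n ⊕ Unit) (H p.1))) = _
      rw [e3]
    have h4 := hlim₂ a
    have h5 := tendsto_nhds_unique h4 (h3.const_sub (Fintype.card (Fin n ⊕ Unit) : ℝ))
    rw [e1, hgr1, hrk₁, e2, vdim_induced _ (Subgroup.subtype_injective _), hz] at h1
    rw [e1, hgr2, h5, hz] at h2
    have h6 : ρ₁.rk (one1 (RingHom.fst U₁ U₂ x)) = ((1 - z : ℤ) : ℝ) := by
      rw [Fintype.card_sum, Fintype.card_fin, Fintype.card_unit] at h1
      push_cast at h1 ⊢
      linarith
    have h7 : ρ₂.rk (one1 (RingHom.snd U₁ U₂ x)) = ((1 - z : ℤ) : ℝ) := by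
      rw [Fintype.card_sum, Fintype.card_fin, Fintype.card_unit] at h2
      push_cast at h2 ⊢
      linarith
    have h8 : 0 ≤ 1 - z := by
      have := ρ₁.rk_nonneg (one1 (RingHom.fst U₁ U₂ x))
      rw [h6] at this
      exact_mod_cast this
    have h9 : 1 - z ≤ 1 := by
      have := ρ₁.rk_le_card (one1 (RingHom.fst U₁ U₂ x))
      rw [h6, Fintype.card_unit] at this
      exact_mod_cast this
    rcases (by omega : 1 - z = 0 ∨ 1 - z = 1) with h10 | h10
    · left
      rw [h10, Int.cast_zero] at h6 h7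
      exact Prod.ext (hfaith₁ _ h6) (hfaith₂ _ h7)
    · right
      rw [h10, Int.cast_one] at h6 h7
      have h11 : IsUnit (one1 x) := by
        rw [isUnit_prod]
        constructor
        · apply hunit₁
          rw [Fintype.card_unit, Nat.cast_one, ← h6]
          rfl
        · apply hunit₂
          rw [Fintype.card_unit, Nat.cast_one, ← h7]
          rfl
      rw [isUnit_unit_matrix] at h11
      exact h11
  obtain ⟨𝓓, hD1, hD2, hD3⟩ := exists_div (D.restrict k) (main_alg (D.restrict k) hF hE hbase)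
  -- conclusion
  set a : Fin n → Fin m → (G →₀ ℂ) := fun j i => Finsupp.mapDomain (fun g => g⁻¹) (A i j) with ha
  have hak : ∀ i j g, a i j g ∈ k := by
    intro i j g
    have e : a i j g = A j i g⁻¹ := by
      have := Finsupp.mapDomain_apply (f := fun g : G => g⁻¹) inv_injective (A j i) g⁻¹
      rw [inv_inv] at this
      exact this
    rw [e]
    exact hA j i _
  have h1 := rk_eq_of_div ρ₁ ρ₂ 𝓓 hD3 (Matrix.of fun i j => D.gr (a i j))
    (fun i j => D.gr_mem k 𝓓 hD1 hD2 _ (hak i j))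
  have e3 : colG a = colF A := by
    funext j
    exact colG_colF A j
  have h2 : ρ₁.rk (Matrix.of fun i j => D₁.gr (a i j)) = (m : ℝ) - kerDim A := by
    rw [hrk₁, e3, Fintype.card_fin, kerDim_eq]
  have h3 := hlim₂ a
  have e4 : (Matrix.of fun i j => D.gr (a i j)).map Prod.fst = Matrix.of fun i j => D₁.gr (a i j) :=
    hgr1 a
  have e5 : (Matrix.of fun i j => D.gr (a i j)).map Prod.snd = Matrix.of fun i j => D₂.gr (a i j) :=
    hgr2 a
  rw [e4, e5, h2] at h1
  rw [← h1] at h3
  have h4 : Tendsto (fun p : I × ℕ => kerDim (pushMat (π p.1) A)) 𝒰 (𝓝 (kerDim A)) := by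
    have h5 := h3.const_sub (m : ℝ)
    rw [sub_sub_cancel] at h5
    refine h5.congr fun p => ?_
    rw [kerDim_pushMat, ← Set.range_comp, Fintype.card_fin, sub_sub_cancel, e3]
    rfl
  rw [← hmap]
  exact h4

end Pool.Agent.HX
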