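import Pool.Agent.HX.FPApprox

set_option autoImplicit false
set_option linter.unusedSectionVars false

noncomputable section

open scoped InnerProductSpace ENNReal Topology
open Classical Filter Monoid
open Pool.Agent.VN

/-!
Approximation over the complex numbers: only freely indecomposable subgroups matter.
-/

namespace Pool.Agent.HX

/-- approximation along a composition with an isomorphism -/
lemma ApproxAlong.comp_equiv {k : Subring ℂ} {A B : Type} [Group A] [Group B] (e : A ≃* B)
    {I : Type} {l : Filter I} {H : I → Type} [∀ i, Group (H i)] {π : ∀ i, A →* H i}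
    (h : ApproxAlong k l fun i => (π i).comp e.symm.toMonoidHom) : ApproxAlong k l π := by
  intro m n M hM
  have h3 := h m n (pushMat e.toMonoidHom M) (pushMat_coef k _ M hM)
  have h4 : kerDim (pushMat e.toMonoidHom M) = kerDim M := by
    rw [kerDim_pushMat, vdim_induced e.toMonoidHom e.injective, kerDim_eq]
  have h5 : ∀ i, kerDim (pushMat ((π i).comp e.symm.toMonoidHom) (pushMat e.toMonoidHom M))
      = kerDim (pushMat (π i) M) := by
    intro i
    congr 1
    funext a b
    unfold pushMat
    rw [← Finsupp.mapDomain_comp]
    congr 1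
    funext x
    show π i (e.symm (e x)) = π i x
    rw [e.symm_apply_apply]
  rw [h4] at h3
  exact h3.congr h5

/-- The local criterion for approximation over the complex numbers, with freely indecomposable
subgroups. -/
theorem approx_of_indec {G : Type} [Group G] (htf : ∀ g : G, ∀ n : ℕ, 0 < n → g ^ n = 1 → g = 1)
    {I : Type} (l : Filter I) {H : I → Type} [∀ i, Group (H i)] (π : ∀ i, G →* H i)
    (hπ : ∀ g : G, g ≠ 1 → ∀ᶠ i in l, π i g ≠ 1)
    (h : ∀ K : Subgroup G, K.FG → (∀ f : K →* Multiplicative ℤ, f = 1) → FreelyIndec K →
      AtiyahOver ⊤ K ∧ ApproxAlong ⊤ l fun i => (π i).comp K.subtype) :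
    ApproxAlong ⊤ l π := by
  obtain ⟨U, hU, ρ, D, hfaith, hunit, hrk⟩ := exists_rankModel G
  have hne : ∀ (A : Type) [Group A] (f : A →* G), Function.Injective f → ¬ Subsingleton A →
      QR Unit (D.ι.comp f) := by
    intro A _ f hf hA
    rw [not_subsingleton_iff_nontrivial] at hA
    obtain ⟨a, ha⟩ := exists_ne (1 : A)
    apply QR_unit _ a
    apply isUnit_sub_one ρ D hunit hrk
    intro n hn h1
    have h2 := htf _ n hn h1
    exact ha (hf (h2.trans (map_one f).symm))
  have hsub : ∀ (A : Type) [Group A] (f : A →* G), Function.Injective f → Group.FG A →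
      (∀ φ : A →* Multiplicative ℤ, φ = 1) → FreelyIndec A →
      AtiyahOver ⊤ A ∧ ApproxAlong ⊤ l fun i => (π i).comp f := by
    intro A _ f hf hfg hz hA
    set e : A ≃* f.range := MonoidHom.ofInjective hf with he
    obtain ⟨h1, h2⟩ := h f.range (by
        rw [← Group.fg_iff_subgroup_fg]
        exact Group.fg_of_surjective e.surjective) (by
        intro φ
        have h2 := hz (φ.comp e.toMonoidHom)
        ext x
        obtain ⟨a, rfl⟩ := e.surjective x
        have h3 := DFunLike.congr_fun h2 a
        exact h3) (by
        intro B C _ _ ⟨e'⟩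
        exact hA B C ⟨e.trans e'⟩)
    refine ⟨h1.of_injective e.toMonoidHom e.injective, ?_⟩
    apply ApproxAlong.comp_equiv e
    have h3 : (fun i => ((π i).comp f).comp e.symm.toMonoidHom)
        = fun i => (π i).comp f.range.subtype := by
      funext i
      ext x
      obtain ⟨a, rfl⟩ := e.surjective x
      show π i (f (e.symm (e a))) = π i (e a : G)
      rw [e.symm_apply_apply]
      rfl
    rw [h3]
    exact h2
  have main : ∀ N : ℕ, ∀ (A : Type) [Group A] (f : A →* G), Function.Injective f → Group.FG A →
      (∀ φ : A →* Multiplicative ℤ, φ = 1) →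
      (∀ (J : Type) [Fintype J] [DecidableEq J], QR J (D.ι.comp f) → Fintype.card J ≤ N) →
      AtiyahOver ⊤ A ∧ ApproxAlong ⊤ l fun i => (π i).comp f := by
    intro N
    induction N with
    | zero =>
      intro A _ f hf hfg hz hN
      refine hsub A f hf hfg hz ?_
      intro B C _ _ ⟨e⟩
      by_contra hcon
      push Not at hcon
      have hA : ¬ Subsingleton A := by
        intro hA
        apply not_subsingleton_iff_nontrivial.mpr hcon.1
        have hi : Function.Injective (e.symm.toMonoidHom.comp (Monoid.Coprod.inl : B →* _)) :=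
          e.symm.injective.comp Monoid.Coprod.inl_injective
        exact hi.subsingleton
      have := hN Unit (hne A f hf hA)
      simp at this
    | succ N ih =>
      intro A _ f hf hfg hz hN
      by_cases hA : FreelyIndec A
      · exact hsub A f hf hfg hz hA
      unfold FreelyIndec at hA
      push Not at hA
      obtain ⟨B, C, hBg, hCg, ⟨e⟩, hB, hC⟩ := hA
      set f' : Monoid.Coprod B C →* G := f.comp e.symm.toMonoidHom with hf'
      have hf'i : Function.Injective f' := hf.comp e.symm.injective
      have hQ : ∀ (J : Type) [Fintype J] [DecidableEq J], QR J (D.ι.comp f') →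
          Fintype.card J ≤ N + 1 := by
        intro J _ _ hJ
        exact hN J (QR_equiv e _ hJ)
      obtain ⟨hBA, hBP⟩ : AtiyahOver ⊤ B ∧ ApproxAlong ⊤ l fun i =>
          (π i).comp (f'.comp Monoid.Coprod.inl) := by
        apply ih B (f'.comp Monoid.Coprod.inl) (hf'i.comp Monoid.Coprod.inl_injective)
        · exact Group.fg_of_surjective (f := (Monoid.Coprod.fst : Monoid.Coprod B C →* B).comp
            e.toMonoidHom) ((Monoid.Coprod.fst_surjective).comp e.surjective)
        · intro φ
          have h2 := hz ((φ.comp Monoid.Coprod.fst).comp e.toMonoidHom)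
          ext b
          have h3 := DFunLike.congr_fun h2 (e.symm (Monoid.Coprod.inl b))
          have h4 : φ (Monoid.Coprod.fst (e (e.symm (Monoid.Coprod.inl b)))) = 1 := h3
          rw [e.apply_symm_apply, Monoid.Coprod.fst_apply_inl] at h4
          rw [h4]
          rfl
        · intro J _ _ hJ
          have h1 := hQ (J ⊕ Unit) (QR_coprod (D.ι.comp f') hJ
            (hne C (f'.comp Monoid.Coprod.inr) (hf'i.comp Monoid.Coprod.inr_injective)
              (not_subsingleton_iff_nontrivial.mpr hC)))
          rw [Fintype.card_sum, Fintype.card_unit] at h1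
          omega
      obtain ⟨hCA, hCP⟩ : AtiyahOver ⊤ C ∧ ApproxAlong ⊤ l fun i =>
          (π i).comp (f'.comp Monoid.Coprod.inr) := by
        apply ih C (f'.comp Monoid.Coprod.inr) (hf'i.comp Monoid.Coprod.inr_injective)
        · exact Group.fg_of_surjective (f := (Monoid.Coprod.snd : Monoid.Coprod B C →* C).comp
            e.toMonoidHom) ((Monoid.Coprod.snd_surjective).comp e.surjective)
        · intro φ
          have h2 := hz ((φ.comp Monoid.Coprod.snd).comp e.toMonoidHom)
          ext b
          have h3 := DFunLike.congr_fun h2 (e.symm (Monoid.Coprod.inr b))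
          have h4 : φ (Monoid.Coprod.snd (e (e.symm (Monoid.Coprod.inr b)))) = 1 := h3
          rw [e.apply_symm_apply, Monoid.Coprod.snd_apply_inr] at h4
          rw [h4]
          rfl
        · intro J _ _ hJ
          have h1 := hQ (Unit ⊕ J) (QR_coprod (D.ι.comp f')
            (hne B (f'.comp Monoid.Coprod.inl) (hf'i.comp Monoid.Coprod.inl_injective)
              (not_subsingleton_iff_nontrivial.mpr hB)) hJ)
          rw [Fintype.card_sum, Fintype.card_unit] at h1
          omega
      refine ⟨(atiyah_coprod hBA hCA).of_injective e.toMonoidHom e.injective, ?_⟩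
      apply ApproxAlong.comp_equiv e
      apply approx_coprod l (fun i => ((π i).comp f).comp e.symm.toMonoidHom)
      · intro g hg
        exact hπ (f' g) fun h1 => hg (hf'i (h1.trans (map_one f').symm))
      · exact hBP
      · exact hCP
  apply approx_of_fg ⊤ l π hπ
  intro K hK hz
  have hfg : Group.FG K := by
    rw [Group.fg_iff_subgroup_fg]
    exact hK
  obtain ⟨S, hS⟩ := hfg.out
  apply main S.card K K.subtype (Subgroup.subtype_injective K) hfg hz
  intro J _ _ hJ
  exact QR_le ρ _ hJ S hS

end Pool.Agent.HX
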