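import Pool.Agent.VN.Dim

set_option autoImplicit false
set_option linter.unusedSectionVars false

noncomputable section

open scoped InnerProductSpace ENNReal Topology
open Classical Filter
open Pool.Agent.VN

/-!
Approximate inverses of equivariant operators.
-/

namespace Pool.Agent.HX

/-- approximate inverse function -/
def fE (e s : ℝ) : ℝ := s / max (s ^ 2) (e ^ 2)

/-- defect function -/
def gE (e s : ℝ) : ℝ := 1 - fE e s * s

/-- cutoff function -/
def hE (e s : ℝ) : ℝ := min 1 (max 0 (2 - |s| / e))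

lemma fE_cont {e : ℝ} (he : 0 < e) : Continuous (fE e) := by
  unfold fE
  refine continuous_id.div (by fun_prop) fun s => ?_
  have : 0 < max (s ^ 2) (e ^ 2) := lt_max_of_lt_right (by positivity)
  exact this.ne'

lemma gE_cont {e : ℝ} (he : 0 < e) : Continuous (gE e) := by
  unfold gE
  exact continuous_const.sub ((fE_cont he).mul continuous_id)

lemma hE_cont (e : ℝ) : Continuous (hE e) := by
  unfold hE
  fun_prop

lemma hE_mul_gE {e : ℝ} (he : 0 < e) (s : ℝ) : hE e s * gE e s = gE e s := by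
  by_cases h : |s| < e
  · have h1 : hE e s = 1 := by
      unfold hE
      have h2 : |s| / e ≤ 1 := by rw [div_le_one he]; exact h.le
      rw [max_eq_right (by linarith), min_eq_left (by linarith)]
    rw [h1, one_mul]
  · push Not at h
    have h1 : gE e s = 0 := by
      unfold gE fE
      have h2 : e ^ 2 ≤ s ^ 2 := by
        rw [← sq_abs s]
        exact pow_le_pow_left₀ he.le h 2
      rw [max_eq_left h2]
      have h3 : s ≠ 0 := by
        intro h0
        rw [h0, abs_zero] at h
        linarith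
      field_simp
      ring
    rw [h1, mul_zero]

lemma norm_mul_hE {e : ℝ} (he : 0 < e) (s : ℝ) : ‖s * hE e s‖ ≤ 2 * e := by
  rw [norm_mul, Real.norm_eq_abs, Real.norm_eq_abs]
  have h0 : 0 ≤ hE e s := by
    unfold hE
    exact le_min zero_le_one (le_max_left _ _)
  have h1 : hE e s ≤ 1 := min_le_left _ _
  rw [abs_of_nonneg h0]
  by_cases h : |s| < 2 * e
  · calc |s| * hE e s ≤ |s| * 1 := mul_le_mul_of_nonneg_left h1 (abs_nonneg _)
      _ ≤ 2 * e := by linarith
  · push Not at h
    have h2 : hE e s = 0 := by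
      unfold hE
      have h3 : 2 ≤ |s| / e := by rw [le_div_iff₀ he]; exact h
      rw [max_eq_left (by linarith), min_eq_right zero_le_one]
    rw [h2, mul_zero]
    positivity

lemma hE_zero (e : ℝ) : hE e 0 = 1 := by
  unfold hE
  simp

section Hilbert

variable {E : Type*} [NormedAddCommGroup E] [InnerProductSpace ℂ E] [CompleteSpace E]

/-- the spectral subspace of `S` near zero -/
def LE (S : E →L[ℂ] E) (e : ℝ) : Submodule ℂ E :=
  LinearMap.ker (1 - cfc (hE e) S).toLinearMap

lemma LE_closed (S : E →L[ℂ] E) (e : ℝ) : IsClosed (LE S e : Set E) :=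
  (1 - cfc (hE e) S : E →L[ℂ] E).isClosed_ker

instance (S : E →L[ℂ] E) (e : ℝ) : CompleteSpace (LE S e) := (LE_closed S e).completeSpace_coe

lemma mem_LE {S : E →L[ℂ] E} {e : ℝ} {x : E} : x ∈ LE S e ↔ (cfc (hE e) S) x = x := by
  unfold LE
  rw [LinearMap.mem_ker]
  simp only [ContinuousLinearMap.coe_coe, _root_.sub_apply, one_apply_eq_self]
  rw [sub_eq_zero]
  exact eq_comm

lemma hE_sub_one {e : ℝ} (he : 0 < e) (s : ℝ) : 1 - hE e s = (1 - hE e s) * fE e s * s := by
  have h := hE_mul_gE he s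
  unfold gE at h
  linear_combination -h

lemma ker_le_LE {S : E →L[ℂ] E} (hS : IsSelfAdjoint S) {e : ℝ} (he : 0 < e) :
    LinearMap.ker S.toLinearMap ≤ LE S e := by
  intro x hx
  have hx' : S x = 0 := hx
  have h1 : 1 - cfc (hE e) S = cfc (fun s => (1 - hE e s) * fE e s) S * S := by
    have hc : Continuous fun s => (1 - hE e s) * fE e s :=
      (continuous_const.sub (hE_cont e)).mul (fE_cont he)
    have h2 : cfc (fun s => (1 - hE e s) * fE e s * s) S
        = cfc (fun s => (1 - hE e s) * fE e s) S * S := by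
      rw [cfc_mul (fun s => (1 - hE e s) * fE e s) (fun s => s) S hc.continuousOn (by fun_prop),
        cfc_id' ℝ S]
    rw [← h2]
    have h3 : (fun s => (1 - hE e s) * fE e s * s) = fun s => 1 - hE e s := by
      funext s
      exact (hE_sub_one he s).symm
    rw [h3, cfc_sub (fun _ => (1 : ℝ)) (hE e) S (by fun_prop) (hE_cont e).continuousOn,
      cfc_const_one ℝ S]
  show (1 - cfc (hE e) S) x = 0
  rw [h1]
  show cfc (fun s => (1 - hE e s) * fE e s) S (S x) = 0
  rw [hx', map_zero]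

lemma norm_apply_LE {S : E →L[ℂ] E} (hS : IsSelfAdjoint S) {e : ℝ} (he : 0 < e) {x : E}
    (hx : x ∈ LE S e) : ‖S x‖ ≤ 2 * e * ‖x‖ := by
  have h1 : S x = (cfc (fun s => s * hE e s) S) x := by
    rw [cfc_mul (fun s => s) (hE e) S (by fun_prop) (hE_cont e).continuousOn, cfc_id' ℝ S]
    show S x = S ((cfc (hE e) S) x)
    rw [mem_LE.mp hx]
  rw [h1]
  refine ContinuousLinearMap.le_of_opNorm_le _ ?_ x
  exact norm_cfc_le (by positivity) fun s _ => norm_mul_hE he s

lemma tendsto_LE {S : E →L[ℂ] E} (hS : IsSelfAdjoint S) (x : E) :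
    Tendsto (fun e : ℝ => (LE S e).starProjection x) (𝓝[>] 0)
      (𝓝 ((LinearMap.ker S.toLinearMap).starProjection x)) := by
  set K : Submodule ℂ E := LinearMap.ker S.toLinearMap with hK
  set x0 := K.starProjection x with hx0
  have h1 : x - x0 ∈ Kᗮ := K.sub_starProjection_mem_orthogonal x
  have h2 : Kᗮ = (LinearMap.range S.toLinearMap).topologicalClosure := by
    have := S.orthogonal_ker
    rw [← ContinuousLinearMap.star_eq_adjoint, hS.star_eq] at this
    exact this
  rw [h2] at h1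
  rw [Metric.tendsto_nhds]
  intro η hη
  have h3 : ∃ y, ‖(x - x0) - S y‖ < η / 2 := by
    have h4 : x - x0 ∈ closure ((LinearMap.range S.toLinearMap : Submodule ℂ E) : Set E) := h1
    obtain ⟨z, ⟨y, rfl⟩, hz⟩ := Metric.mem_closure_iff.mp h4 (η / 2) (by positivity)
    exact ⟨y, by rw [← dist_eq_norm]; exact hz⟩
  obtain ⟨y, hy⟩ := h3
  have h5 : ∀ᶠ e in 𝓝[>] (0 : ℝ), 2 * e * ‖y‖ < η / 2 := by
    have : Tendsto (fun e : ℝ => 2 * e * ‖y‖) (𝓝[>] 0) (𝓝 (2 * 0 * ‖y‖)) := by
      refine Tendsto.mono_left ?_ nhdsWithin_le_nhds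
      exact Continuous.tendsto (by fun_prop) 0
    rw [mul_zero, zero_mul] at this
    exact this.eventually (gt_mem_nhds (by positivity))
  filter_upwards [h5, self_mem_nhdsWithin] with e he5 he
  have he0 : 0 < e := he
  have h6 : (LE S e).starProjection x0 = x0 :=
    Submodule.starProjection_eq_self_iff.mpr (ker_le_LE hS he0 (K.starProjection_apply_mem x))
  have h7 : ‖(LE S e).starProjection (S y)‖ ≤ 2 * e * ‖y‖ := by
    set z := (LE S e).starProjection (S y) with hz
    have hzL : z ∈ LE S e := (LE S e).starProjection_apply_mem _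
    have h8 : ⟪z, z⟫_ℂ = ⟪S z, y⟫_ℂ := by
      have h9 : ⟪z, z⟫_ℂ = ⟪z, S y⟫_ℂ := by
        have h10 := (LE S e).starProjection_inner_eq_zero (S y) z hzL
        rw [← hz] at h10
        have h11 := congrArg (starRingEnd ℂ) h10
        rw [inner_conj_symm, map_zero, inner_sub_right, sub_eq_zero] at h11
        exact h11.symm
      rw [h9]
      have h10 := hS.isSymmetric z y
      exact h10.symm
    have h11 : ‖z‖ ^ 2 ≤ 2 * e * ‖y‖ * ‖z‖ := by
      have h12 : (‖z‖ ^ 2 : ℝ) = ‖⟪z, z⟫_ℂ‖ := by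
        rw [inner_self_eq_norm_sq_to_K]
        simp
      rw [h12, h8]
      calc ‖⟪S z, y⟫_ℂ‖ ≤ ‖S z‖ * ‖y‖ := norm_inner_le_norm _ _
        _ ≤ (2 * e * ‖z‖) * ‖y‖ :=
          mul_le_mul_of_nonneg_right (norm_apply_LE hS he0 hzL) (norm_nonneg _)
        _ = 2 * e * ‖y‖ * ‖z‖ := by ring
    by_cases hz0 : ‖z‖ = 0
    · rw [hz0]; positivity
    · have hz1 : 0 < ‖z‖ := lt_of_le_of_ne (norm_nonneg _) (Ne.symm hz0)
      nlinarith
  have h13 : (LE S e).starProjection x - x0
      = (LE S e).starProjection ((x - x0) - S y) + (LE S e).starProjection (S y) := by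
    rw [← map_add, sub_add_cancel, map_sub, h6]
  rw [dist_eq_norm, h13]
  calc ‖(LE S e).starProjection ((x - x0) - S y) + (LE S e).starProjection (S y)‖
      ≤ ‖(LE S e).starProjection ((x - x0) - S y)‖ + ‖(LE S e).starProjection (S y)‖ :=
        norm_add_le _ _
    _ ≤ ‖(x - x0) - S y‖ + 2 * e * ‖y‖ :=
        add_le_add (Submodule.norm_starProjection_apply_le _ _) h7
    _ < η := by linarith

/-- functional calculus, in a form that avoids instance problems -/
def cF (S : E →L[ℂ] E) (f : ℝ → ℝ) : E →L[ℂ] E := cfc f S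

lemma cF_comm {S T : E →L[ℂ] E} (h : ∀ x, S (T x) = T (S x)) (f : ℝ → ℝ) (x : E) :
    cF S f (T x) = T (cF S f x) := by
  have h1 : Commute S T := by
    ext1 y
    exact h y
  have h2 := h1.cfc_real f
  exact congrArg (fun T : E →L[ℂ] E => T x) h2.eq

lemma one_sub_cF {S : E →L[ℂ] E} (hS : IsSelfAdjoint S) {e : ℝ} (he : 0 < e) :
    1 - (cF S (fE e)) ∘L S = cF S (gE e) := by
  unfold cF gE
  rw [cfc_sub (fun _ => (1 : ℝ)) (fun s => fE e s * s) S (by fun_prop)
    ((fE_cont he).mul continuous_id).continuousOn, cfc_const_one ℝ S,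
    cfc_mul (fE e) (fun s => s) S (fE_cont he).continuousOn (by fun_prop), cfc_id' ℝ S]
  rfl

lemma cF_mem_LE {S : E →L[ℂ] E} {e : ℝ} (he : 0 < e) (x : E) :
    cF S (gE e) x ∈ LE S e := by
  rw [mem_LE]
  have h7 : cfc (hE e) S * cfc (gE e) S = cfc (gE e) S := by
    rw [← cfc_mul (hE e) (gE e) S (hE_cont e).continuousOn (gE_cont he).continuousOn]
    congr 1
    funext s
    exact hE_mul_gE he s
  exact congrArg (fun T : E →L[ℂ] E => T x) h7

end Hilbert

variable {n G : Type} [Group G] [Fintype n]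

/-- functions of an equivariant self-adjoint operator are equivariant -/
lemma equivar_cF {S : L2 n G →L[ℂ] L2 n G} (hS : Equivar S) (f : ℝ → ℝ) :
    Equivar (cF S f) := fun s x => cF_comm (T := lt s) (fun y => hS s y) f x

/-- Let `Q` be an equivariant bounded operator on `ℓ²(G)^n`. For every `δ > 0` there is an
equivariant bounded operator `X` such that the closure of the range of `1 - X Q` has dimension
at most `dim ker Q + δ`. -/
theorem exists_approx_inv (Q : L2 n G →L[ℂ] L2 n G) (hQ : Equivar Q) (δ : ℝ) (hδ : 0 < δ) :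
    ∃ X : L2 n G →L[ℂ] L2 n G, Equivar X ∧
      (Fintype.card n : ℝ) - vdim ((LinearMap.ker (1 - X ∘L Q).toLinearMap :
        Submodule ℂ (L2 n G)) : Set (L2 n G))
      ≤ vdim ((LinearMap.ker Q.toLinearMap : Submodule ℂ (L2 n G)) : Set (L2 n G)) + δ := by
  set S : L2 n G →L[ℂ] L2 n G := (ContinuousLinearMap.adjoint Q) ∘L Q with hSdef
  have hSa : IsSelfAdjoint S := IsSelfAdjoint.star_mul_self Q
  have hSe : Equivar S := hQ.adjoint.comp hQ
  have hker : LinearMap.ker S.toLinearMap = LinearMap.ker Q.toLinearMap :=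
    Q.ker_adjoint_comp_self
  have h1 : Tendsto (fun e : ℝ => vdim (LE S e : Set (L2 n G))) (𝓝[>] 0)
      (𝓝 (vdim ((LinearMap.ker S.toLinearMap : Submodule ℂ (L2 n G)) : Set (L2 n G)))) := by
    simp only [vdim_eq_sum]
    exact tendsto_finsetSum _ fun i _ => ((tendsto_LE hSa (dl (i, (1 : G)))).norm).pow 2
  have h2 := h1.eventually (gt_mem_nhds (lt_add_of_pos_right _ hδ))
  obtain ⟨e, he2, he⟩ := (h2.and self_mem_nhdsWithin).exists
  have he0 : 0 < e := he
  refine ⟨(cF S (fE e)) ∘L (ContinuousLinearMap.adjoint Q),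
    (equivar_cF hSe _).comp hQ.adjoint, ?_⟩
  have h3 : (1 : L2 n G →L[ℂ] L2 n G) - ((cF S (fE e)) ∘L (ContinuousLinearMap.adjoint Q)) ∘L Q
      = cF S (gE e) := by
    rw [← one_sub_cF hSa he0]
    rfl
  rw [h3]
  have hge : Equivar (cF S (gE e)) := equivar_cF hSe _
  have h5 := vdim_map hge (K := ⊤) (fun _ _ _ => trivial) isClosed_univ
  rw [vdim_top, top_inf_eq] at h5
  have h6 : (⊤ : Submodule ℂ (L2 n G)).map (cF S (gE e)).toLinearMap ≤ LE S e := by
    rintro _ ⟨x, -, rfl⟩
    exact cF_mem_LE he0 x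
  have h8 := vdim_mono h6
  rw [hker] at he2
  linarith

end Pool.Agent.HX
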