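import Pool.Agent.HX.CxDef

set_option autoImplicit false

/-!
# The semiring of complexities

`CxPol` is the semiring of polynomials with natural coefficients in variables indexed by the
ordinals, ordered by the largest monomial at which two polynomials differ (the monomials are
ordered in the same way).
-/

namespace Pool.Agent.HX

open Finsupp

/-- monomials in variables indexed by ordinals, with the colexicographic order -/
abbrev CxMon : Type 1 := Colex (Ordinal.{0} →₀ ℕ)

/-- polynomials with natural coefficients -/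
abbrev CxPol : Type 1 := AddMonoidAlgebra ℕ CxMon

theorem cx_colex_lt_single {α : Type*} [LinearOrder α] (f : Colex (α →₀ ℕ)) (a : α) :
    f < toColex (single a 1) ↔ ∀ b ∈ (ofColex f).support, b < a := by
  constructor
  · intro h b hb
    obtain ⟨i, h1, h2⟩ := Finsupp.Colex.lt_iff.1 h
    have hfb : (ofColex f) b ≠ 0 := Finsupp.mem_support_iff.1 hb
    have hi : a = i := by
      by_contra hne
      have h3 : (ofColex (toColex (single a 1 : α →₀ ℕ))) i = 0 := by
        simp [hne]
      have h4 : (ofColex f) i < (ofColex (toColex (single a 1 : α →₀ ℕ))) i := h2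
      omega
    subst hi
    have h4 : (ofColex f) a < (ofColex (toColex (single a 1 : α →₀ ℕ))) a := h2
    have h5 : (ofColex (toColex (single a 1 : α →₀ ℕ))) a = 1 := by simp
    rcases lt_trichotomy b a with hlt | rfl | hgt
    · exact hlt
    · omega
    · exfalso
      have h6 : (ofColex f) b = (ofColex (toColex (single a 1 : α →₀ ℕ))) b := h1 b hgt
      rw [h6] at hfb
      apply hfb
      simp [hgt.ne]
  · intro h
    refine Finsupp.Colex.lt_iff.2 ⟨a, ?_, ?_⟩
    · intro j hj
      change (ofColex f) j = (single a 1 : α →₀ ℕ) j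
      rw [Finsupp.single_apply, if_neg hj.ne]
      by_contra h0
      exact absurd (h j (Finsupp.mem_support_iff.2 h0)) (not_lt.2 hj.le)
    · change (ofColex f) a < (single a 1 : α →₀ ℕ) a
      rw [Finsupp.single_apply, if_pos rfl]
      by_contra h0
      have h1 : (ofColex f) a ≠ 0 := by omega
      exact absurd (h a (Finsupp.mem_support_iff.2 h1)) (lt_irrefl a)

noncomputable instance cxLinearOrder : LinearOrder CxPol :=
  LinearOrder.lift' (fun x : CxPol => toColex x.coeff) (fun _ _ h =>
    AddMonoidAlgebra.coeff_injective (toColex.injective h))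

theorem cx_lt_iff {x y : CxPol} :
    x < y ↔ ∃ i, (∀ j, i < j → x.coeff j = y.coeff j) ∧ x.coeff i < y.coeff i :=
  Iff.rfl

theorem cx_wf : WellFounded ((· < ·) : CxPol → CxPol → Prop) :=
  InvImage.wf (fun x : CxPol => toColex x.coeff) wellFounded_lt

theorem cx_add_lt {a b : CxPol} (c : CxPol) (h : a < b) : a + c < b + c := by
  obtain ⟨i, h1, h2⟩ := cx_lt_iff.1 h
  refine cx_lt_iff.2 ⟨i, fun j hj => ?_, ?_⟩
  · rw [AddMonoidAlgebra.coeff_add, AddMonoidAlgebra.coeff_add, Finsupp.add_apply,
      Finsupp.add_apply, h1 j hj]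
  · rw [AddMonoidAlgebra.coeff_add, AddMonoidAlgebra.coeff_add, Finsupp.add_apply,
      Finsupp.add_apply]
    omega

theorem cx_mul_single_lt {a b : CxPol} (h : a < b) (m : CxMon) {k : ℕ} (hk : 0 < k) :
    a * AddMonoidAlgebra.single m k < b * AddMonoidAlgebra.single m k := by
  obtain ⟨i, h1, h2⟩ := cx_lt_iff.1 h
  refine cx_lt_iff.2 ⟨i + m, fun j hj => ?_, ?_⟩
  · by_cases hex : ∃ d, d + m = j
    · obtain ⟨d, rfl⟩ := hex
      rw [AddMonoidAlgebra.coeff_mul_single_add, AddMonoidAlgebra.coeff_mul_single_add,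
        h1 d (lt_of_add_lt_add_right hj)]
    · push Not at hex
      rw [AddMonoidAlgebra.coeff_mul_single_of_forall_add_ne _ _ hex,
        AddMonoidAlgebra.coeff_mul_single_of_forall_add_ne _ _ hex]
  · rw [AddMonoidAlgebra.coeff_mul_single_add, AddMonoidAlgebra.coeff_mul_single_add]
    exact Nat.mul_lt_mul_of_pos_right h2 hk

theorem cx_sum_lt {a b : CxPol} (h : a < b) (c : CxMon → ℕ) (s : Finset CxMon)
    (hs : ∀ m ∈ s, 0 < c m) :
    a * (∑ m ∈ s, AddMonoidAlgebra.single m (c m)) ≤ b * (∑ m ∈ s, AddMonoidAlgebra.single m (c m)) ∧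
      (s.Nonempty → a * (∑ m ∈ s, AddMonoidAlgebra.single m (c m)) <
        b * (∑ m ∈ s, AddMonoidAlgebra.single m (c m))) := by
  classical
  induction s using Finset.induction_on with
  | empty => simp
  | insert m s hm ih =>
    have h1 := cx_mul_single_lt h m (hs m (Finset.mem_insert_self _ _))
    have h2 := (ih fun m' hm' => hs m' (Finset.mem_insert_of_mem hm')).1
    have h3 : a * (∑ m' ∈ insert m s, AddMonoidAlgebra.single m' (c m')) <
        b * (∑ m' ∈ insert m s, AddMonoidAlgebra.single m' (c m')) := by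
      rw [Finset.sum_insert hm, mul_add, mul_add]
      calc a * AddMonoidAlgebra.single m (c m) + a * ∑ x ∈ s, AddMonoidAlgebra.single x (c x)
          < b * AddMonoidAlgebra.single m (c m) + a * ∑ x ∈ s, AddMonoidAlgebra.single x (c x) :=
            cx_add_lt _ h1
        _ ≤ b * AddMonoidAlgebra.single m (c m) + b * ∑ x ∈ s, AddMonoidAlgebra.single x (c x) := by
            rcases h2.lt_or_eq with h4 | h4
            · rw [add_comm (b * AddMonoidAlgebra.single m (c m)),
                add_comm (b * AddMonoidAlgebra.single m (c m))]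
              exact (cx_add_lt _ h4).le
            · rw [h4]
    exact ⟨h3.le, fun _ => h3⟩

theorem cx_mul_lt {a b c : CxPol} (h : a < b) (hc : 0 < c) : a * c < b * c := by
  have h0 : c.coeff.support.Nonempty := by
    rw [Finset.nonempty_iff_ne_empty]
    intro h1
    rw [Finsupp.support_eq_empty, AddMonoidAlgebra.coeff_eq_zero] at h1
    exact hc.ne' h1
  have h1 : c = ∑ m ∈ c.coeff.support, AddMonoidAlgebra.single m (c.coeff m) :=
    (AddMonoidAlgebra.sum_coeff_single c).symm
  rw [h1]
  refine (cx_sum_lt h (fun m => c.coeff m) _ fun m hm => ?_).2 h0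
  exact Nat.pos_of_ne_zero (Finsupp.mem_support_iff.1 hm)

theorem cx_zero_le (a : CxPol) : 0 ≤ a := by
  rcases eq_or_ne a 0 with rfl | ha
  · exact le_rfl
  · by_contra hcon
    rw [not_le] at hcon
    obtain ⟨i, -, h2⟩ := cx_lt_iff.1 hcon
    simp at h2

theorem cx_zero_lt_one : (0 : CxPol) < 1 := by
  refine lt_of_le_of_ne (cx_zero_le 1) ?_
  exact zero_ne_one

/-- the variables -/
noncomputable def cxX (p : Ordinal.{0}) : CxPol :=
  AddMonoidAlgebra.single (toColex (Finsupp.single p 1)) 1

/-- all variables occurring in `x` have index less than `p` -/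
def CxBd (p : Ordinal.{0}) (x : CxPol) : Prop :=
  ∀ m ∈ x.coeff.support, ∀ q ∈ (ofColex m).support, q < p

theorem cx_lt_X {x : CxPol} {p : Ordinal.{0}} : x < cxX p ↔ CxBd p x := by
  have h1 : x < cxX p ↔ toColex x.coeff <
      toColex (Finsupp.single (toColex (Finsupp.single p 1) : CxMon) 1) := Iff.rfl
  rw [h1, cx_colex_lt_single]
  unfold CxBd
  constructor
  · intro h m hm
    exact (cx_colex_lt_single m p).1 (h m hm)
  · intro h m hm
    exact (cx_colex_lt_single m p).2 (h m hm)

theorem cxBd_add {x y : CxPol} {p : Ordinal.{0}} (hx : CxBd p x) (hy : CxBd p y) :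
    CxBd p (x + y) := by
  classical
  intro m hm
  rw [AddMonoidAlgebra.coeff_add] at hm
  rcases Finset.mem_union.1 (Finsupp.support_add hm) with h | h
  · exact hx m h
  · exact hy m h

theorem cxBd_mul {x y : CxPol} {p : Ordinal.{0}} (hx : CxBd p x) (hy : CxBd p y) :
    CxBd p (x * y) := by
  classical
  intro m hm q hq
  have h1 := AddMonoidAlgebra.support_coeff_mul_subset x y hm
  rw [Finset.mem_add] at h1
  obtain ⟨m1, hm1, m2, hm2, rfl⟩ := h1
  have h2 : q ∈ (ofColex m1).support ∪ (ofColex m2).support :=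
    Finsupp.support_add (show q ∈ (ofColex m1 + ofColex m2).support from hq)
  rcases Finset.mem_union.1 h2 with h | h
  · exact hx m1 hm1 q h
  · exact hy m2 hm2 q h

theorem cx_exists_bd (x : CxPol) : ∃ p : Ordinal.{0}, CxBd p x := by
  classical
  obtain ⟨p, hp⟩ := (x.coeff.support.biUnion fun m => (ofColex m).support).bddAbove
  refine ⟨Order.succ p, fun m hm q hq => Order.lt_succ_of_le (hp ?_)⟩
  rw [Finset.mem_coe, Finset.mem_biUnion]
  exact ⟨m, hm, hq⟩

theorem cx_small_mon (p : Ordinal.{0}) :
    Small.{0} {m : CxMon // ∀ q ∈ (ofColex m).support, q < p} := by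
  have : Small.{0} (Set.Iio p) := Ordinal.small_Iio p
  refine small_of_injective (β := Set.Iio p → ℕ)
    (f := fun m q => (ofColex m.1) q.1) ?_
  intro m m' h
  apply Subtype.ext
  apply ofColex.injective
  ext q
  by_cases hq : q < p
  · exact congrFun h ⟨q, hq⟩
  · have h1 : (ofColex m.1) q = 0 := by
      by_contra h0
      exact hq (m.2 q (Finsupp.mem_support_iff.2 h0))
    have h2 : (ofColex m'.1) q = 0 := by
      by_contra h0
      exact hq (m'.2 q (Finsupp.mem_support_iff.2 h0))
    rw [h1, h2]

theorem cx_small_bd (p : Ordinal.{0}) : Small.{0} {x : CxPol // CxBd p x} := by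
  have := cx_small_mon p
  refine small_of_injective (β := {m : CxMon // ∀ q ∈ (ofColex m).support, q < p} → ℕ)
    (f := fun x m => x.1.coeff m.1) ?_
  intro x x' h
  apply Subtype.ext
  apply AddMonoidAlgebra.coeff_injective
  ext m
  by_cases hm : ∀ q ∈ (ofColex m).support, q < p
  · exact congrFun h ⟨m, hm⟩
  · have h1 : x.1.coeff m = 0 := by
      by_contra h0
      exact hm (x.2 m (Finsupp.mem_support_iff.2 h0))
    have h2 : x'.1.coeff m = 0 := by
      by_contra h0
      exact hm (x'.2 m (Finsupp.mem_support_iff.2 h0))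
    rw [h1, h2]

theorem cx_small_Iio (x : CxPol) : Small.{0} {y : CxPol // y < x} := by
  obtain ⟨p, hp⟩ := cx_exists_bd x
  have := cx_small_bd p
  refine small_of_injective (β := {y : CxPol // CxBd p y})
    (f := fun y => ⟨y.1, cx_lt_X.1 (y.2.trans (cx_lt_X.2 hp))⟩) ?_
  intro y y' h
  apply Subtype.ext
  exact congrArg (fun z : {y : CxPol // CxBd p y} => z.1) h

/-- the rank in the well-order -/
noncomputable def cxRk : CxPol → Ordinal.{0} :=
  cx_wf.fix fun x ih => ⨆ y : {y : CxPol // y < x}, Order.succ (ih y.1 y.2)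

theorem cxRk_lt {x y : CxPol} (h : y < x) : cxRk y < cxRk x := by
  have := cx_small_Iio x
  have h1 : cxRk x = ⨆ y : {y : CxPol // y < x}, Order.succ (cxRk y.1) := by
    unfold cxRk
    rw [WellFounded.fix_eq]
  rw [h1]
  refine lt_of_lt_of_le (Order.lt_succ (cxRk y)) ?_
  exact le_ciSup (f := fun y : {y : CxPol // y < x} => Order.succ (cxRk y.1))
    Ordinal.bddAbove_of_small ⟨y, h⟩

theorem cx_le_rk (p : Ordinal.{0}) : p ≤ cxRk (cxX p) := by
  have hmono : StrictMono fun p => cxRk (cxX p) := by
    intro p q hpq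
    refine cxRk_lt (cx_lt_X.2 ?_)
    intro m hm r hr
    unfold cxX at hm
    rw [AddMonoidAlgebra.coeff_single] at hm
    have h1 := Finset.mem_singleton.1 (Finsupp.support_single_subset hm)
    rw [h1] at hr
    have h2 := Finset.mem_singleton.1 (Finsupp.support_single_subset
      (show r ∈ (Finsupp.single p 1 : Ordinal.{0} →₀ ℕ).support from hr))
    rw [h2]
    exact hpq
  exact hmono.le_apply

/-- the closure operation -/
noncomputable def cxF (x : CxPol) : CxPol := cxX (Order.succ (cxRk x))

theorem cx_lt_F (x : CxPol) : x < cxF x := by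
  refine cx_lt_X.2 fun m hm q hq => Order.lt_succ_of_le ?_
  refine (cx_le_rk q).trans ?_
  have h1 : cxX q ≤ x := by
    by_contra hcon
    rw [not_le] at hcon
    exact absurd (cx_lt_X.1 hcon m hm q hq) (lt_irrefl q)
  rcases h1.lt_or_eq with h2 | h2
  · exact (cxRk_lt h2).le
  · rw [h2]

theorem cxX_strictMono : StrictMono cxX := by
  intro p q hpq
  refine cx_lt_X.2 ?_
  intro m hm r hr
  unfold cxX at hm
  rw [AddMonoidAlgebra.coeff_single] at hm
  have h1 := Finset.mem_singleton.1 (Finsupp.support_single_subset hm)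
  rw [h1] at hr
  have h2 := Finset.mem_singleton.1 (Finsupp.support_single_subset
    (show r ∈ (Finsupp.single p 1 : Ordinal.{0} →₀ ℕ).support from hr))
  rw [h2]
  exact hpq

noncomputable instance cxInstance : CxS CxPol :=
  { (inferInstance : CommSemiring CxPol), cxLinearOrder with
    F := cxF
    wf := cx_wf
    add_lt := fun _ _ c h => cx_add_lt c h
    mul_lt := fun _ _ _ h hc => cx_mul_lt h hc
    zero_le' := cx_zero_le
    zero_lt_one' := cx_zero_lt_one
    F_strictMono := fun _ _ h => cxX_strictMono (Order.succ_lt_succ (cxRk_lt h))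
    lt_F := cx_lt_F
    add_lt_F := fun _ _ _ hx hy => cx_lt_X.2 (cxBd_add (cx_lt_X.1 hx) (cx_lt_X.1 hy))
    mul_lt_F := fun _ _ _ hx hy => cx_lt_X.2 (cxBd_mul (cx_lt_X.1 hx) (cx_lt_X.1 hy)) }

theorem exists_CxS : ∃ O : Type 1, Nonempty (CxS O) :=
  ⟨CxPol, ⟨cxInstance⟩⟩

end Pool.Agent.HX
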