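import Mathlib

set_option autoImplicit false

namespace Pool.Agent.HX

/-- a well-ordered commutative semiring of complexities, with an operation `F` whose values are
closed under sums and products -/
class CxS (O : Type*) extends CommSemiring O, LinearOrder O where
  F : O → O
  wf : WellFounded ((· < ·) : O → O → Prop)
  add_lt : ∀ a b c : O, a < b → a + c < b + c
  mul_lt : ∀ a b c : O, a < b → 0 < c → a * c < b * c
  zero_le' : ∀ a : O, 0 ≤ a
  zero_lt_one' : (0 : O) < 1
  F_strictMono : StrictMono F
  lt_F : ∀ a, a < F a
  add_lt_F : ∀ a x y, x < F a → y < F a → x + y < F a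
  mul_lt_F : ∀ a x y, x < F a → y < F a → x * y < F a

end Pool.Agent.HX
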