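import Pool.Agent.HX.Ser
import Pool.Agent.HX.CxDef

set_option autoImplicit false
set_option linter.unusedSectionVars false

/-!
Rational expressions over a group.
-/

namespace Pool.Agent.HX

section Order

variable {O : Type*} [CxS O]

instance : IsStrictOrderedRing O where
  add_le_add_left a b h c := by
    rcases h.lt_or_eq with h | rfl
    · exact (CxS.add_lt a b c h).le
    · exact le_refl _
  le_of_add_le_add_left a b c h := by
    by_contra hcon
    push Not at hcon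
    have := CxS.add_lt c b a hcon
    rw [add_comm c a, add_comm b a] at this
    exact absurd h (not_le.mpr this)
  zero_le_one := CxS.zero_lt_one'.le
  exists_pair_ne := ⟨0, 1, CxS.zero_lt_one'.ne⟩
  mul_lt_mul_of_pos_left a ha b c h := by
    have := CxS.mul_lt b c a h ha
    rw [mul_comm b a, mul_comm c a] at this
    exact this
  mul_lt_mul_of_pos_right a ha b c h := CxS.mul_lt b c a h ha

lemma F_pos (a : O) : 0 < CxS.F a := lt_of_le_of_lt (CxS.zero_le' a) (CxS.lt_F a)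

lemma sum_lt_F {ι : Type*} (s : Finset ι) (f : ι → O) (a : O) (h : ∀ i ∈ s, f i < CxS.F a) :
    ∑ i ∈ s, f i < CxS.F a := by
  classical
  induction s using Finset.induction_on with
  | empty => rw [Finset.sum_empty]; exact F_pos a
  | insert i s hi ih =>
    rw [Finset.sum_insert hi]
    exact CxS.add_lt_F _ _ _ (h i (Finset.mem_insert_self i s))
      (ih fun j hj => h j (Finset.mem_insert_of_mem hj))

lemma sum_pairs_le {s : Finset (ℤ × ℤ)} (f g : ℤ → O) :
    ∑ p ∈ s, f p.1 * g p.2 ≤ (∑ i ∈ s.image Prod.fst, f i) * ∑ j ∈ s.image Prod.snd, g j := by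
  rw [Finset.sum_mul_sum, ← Finset.sum_product']
  refine Finset.sum_le_sum_of_subset_of_nonneg ?_ fun _ _ _ => CxS.zero_le' _
  intro p hp
  rw [Finset.mem_product]
  exact ⟨Finset.mem_image_of_mem _ hp, Finset.mem_image_of_mem _ hp⟩

end Order

/-- rational expressions over a group, in normalised form: scalars, `a + b u`, `a b` and `a⁻¹` -/
inductive Ex (G κ : Type) : Type
  | sc (c : κ) : Ex G κ
  | ad (a b : Ex G κ) (u : G) : Ex G κ
  | mu (a b : Ex G κ) : Ex G κ
  | iv (a : Ex G κ) : Ex G κ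

/-- a group and scalars acting in a ring -/
structure Dat (G κ U : Type) [Group G] [Ring κ] [Ring U] where
  ι : G →* U
  sc : κ →+* U
  comm : ∀ (c : κ) (g : G), sc c * ι g = ι g * sc c

namespace Ex

variable {G κ U : Type} [Group G] [Ring κ] [Ring U] (D : Dat G κ U)

/-- value of an expression -/
noncomputable def val : Ex G κ → U
  | sc c => D.sc c
  | ad a b u => val a + val b * D.ι u
  | mu a b => val a * val b
  | iv a => Ring.inverse (val a)

/-- group elements occurring in an expression -/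
def supp : Ex G κ → Set G
  | sc _ => ∅
  | ad a b u => insert u (supp a ∪ supp b)
  | mu a b => supp a ∪ supp b
  | iv a => supp a

/-- complexity -/
def cy (O : Type*) [CxS O] : Ex G κ → O
  | sc _ => 1
  | ad a b _ => cy O a + cy O b
  | mu a b => cy O a * cy O b
  | iv a => CxS.F (cy O a)

/-- conjugation -/
def conj (g : G) : Ex G κ → Ex G κ
  | sc c => sc c
  | ad a b u => ad (conj g a) (conj g b) (g * u * g⁻¹)
  | mu a b => mu (conj g a) (conj g b)
  | iv a => iv (conj g a)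

lemma supp_finite (E : Ex G κ) : E.supp.Finite := by
  induction E with
  | sc c => exact Set.finite_empty
  | ad a b u iha ihb => exact (iha.union ihb).insert u
  | mu a b iha ihb => exact iha.union ihb
  | iv a iha => exact iha

lemma cy_conj (O : Type*) [CxS O] (g : G) (E : Ex G κ) : cy O (conj g E) = cy O E := by
  induction E with
  | sc c => rfl
  | ad a b u iha ihb => show cy O (conj g a) + cy O (conj g b) = cy O a + cy O b; rw [iha, ihb]
  | mu a b iha ihb => show cy O (conj g a) * cy O (conj g b) = cy O a * cy O b; rw [iha, ihb]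
  | iv a iha => show CxS.F (cy O (conj g a)) = CxS.F (cy O a); rw [iha]

lemma one_le_cy (O : Type*) [CxS O] (E : Ex G κ) : (1 : O) ≤ cy O E := by
  induction E with
  | sc c => exact le_refl _
  | ad a b u iha ihb =>
    show (1 : O) ≤ cy O a + cy O b
    exact le_add_of_le_of_nonneg iha (CxS.zero_le' _)
  | mu a b iha ihb =>
    show (1 : O) ≤ cy O a * cy O b
    calc (1 : O) = 1 * 1 := (one_mul 1).symm
      _ ≤ cy O a * cy O b := mul_le_mul iha ihb (CxS.zero_le' _) (CxS.zero_le' _)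
  | iv a iha =>
    show (1 : O) ≤ CxS.F (cy O a)
    exact iha.trans (CxS.lt_F _).le

lemma cy_pos (O : Type*) [CxS O] (E : Ex G κ) : (0 : O) < cy O E :=
  lt_of_lt_of_le CxS.zero_lt_one' (one_le_cy O E)

lemma supp_conj {g : G} {E : Ex G κ} {N : Set G} (hN : ∀ n ∈ N, g * n * g⁻¹ ∈ N)
    (hE : ∀ u ∈ E.supp, u ∈ N) : ∀ u ∈ (conj g E).supp, u ∈ N := by
  induction E with
  | sc c => intro u hu; exact absurd hu (Set.notMem_empty u)
  | ad a b u iha ihb =>
    intro v hv
    rcases hv with rfl | hv | hv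
    · exact hN u (hE u (Set.mem_insert _ _))
    · exact iha (fun w hw => hE w (Or.inr (Or.inl hw))) v hv
    · exact ihb (fun w hw => hE w (Or.inr (Or.inr hw))) v hv
  | mu a b iha ihb =>
    intro v hv
    rcases hv with hv | hv
    · exact iha (fun w hw => hE w (Or.inl hw)) v hv
    · exact ihb (fun w hw => hE w (Or.inr hw)) v hv
  | iv a iha => exact iha hE

end Ex

variable {G κ U : Type} [Group G] [Ring κ] [Ring U] (D : Dat G κ U)

namespace Dat

lemma ι_mul_inv (g : G) : D.ι g * D.ι g⁻¹ = 1 := by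
  rw [← map_mul, mul_inv_cancel, map_one]

lemma ι_inv_mul (g : G) : D.ι g⁻¹ * D.ι g = 1 := by
  rw [← map_mul, inv_mul_cancel, map_one]

lemma isUnit_ι (g : G) : IsUnit (D.ι g) := ⟨⟨D.ι g, D.ι g⁻¹, D.ι_mul_inv g, D.ι_inv_mul g⟩, rfl⟩

lemma inverse_ι (g : G) : Ring.inverse (D.ι g) = D.ι g⁻¹ :=
  Ring.inverse_unit ⟨D.ι g, D.ι g⁻¹, D.ι_mul_inv g, D.ι_inv_mul g⟩

end Dat

open Ex

lemma val_conj (g : G) (E : Ex G κ) : (conj g E).val D = D.ι g * E.val D * D.ι g⁻¹ := by
  induction E with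
  | sc c =>
    show D.sc c = D.ι g * D.sc c * D.ι g⁻¹
    rw [← D.comm, mul_assoc, D.ι_mul_inv, mul_one]
  | ad a b u iha ihb =>
    show (conj g a).val D + (conj g b).val D * D.ι (g * u * g⁻¹)
      = D.ι g * (a.val D + b.val D * D.ι u) * D.ι g⁻¹
    rw [iha, ihb, mul_add, add_mul, map_mul, map_mul]
    congr 1
    calc D.ι g * b.val D * D.ι g⁻¹ * (D.ι g * D.ι u * D.ι g⁻¹)
        = D.ι g * b.val D * (D.ι g⁻¹ * D.ι g) * D.ι u * D.ι g⁻¹ := by simp only [mul_assoc]
      _ = _ := by rw [D.ι_inv_mul, mul_one]; simp only [mul_assoc]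
  | mu a b iha ihb =>
    show (conj g a).val D * (conj g b).val D = D.ι g * (a.val D * b.val D) * D.ι g⁻¹
    rw [iha, ihb]
    calc D.ι g * a.val D * D.ι g⁻¹ * (D.ι g * b.val D * D.ι g⁻¹)
        = D.ι g * a.val D * (D.ι g⁻¹ * D.ι g) * b.val D * D.ι g⁻¹ := by simp only [mul_assoc]
      _ = _ := by rw [D.ι_inv_mul, mul_one]; simp only [mul_assoc]
  | iv a iha =>
    show Ring.inverse ((conj g a).val D) = D.ι g * Ring.inverse (a.val D) * D.ι g⁻¹
    rw [iha, Ring.inverse_mul (Or.inr (D.isUnit_ι _)), Ring.inverse_mul (Or.inl (D.isUnit_ι _)),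
      D.inverse_ι, D.inverse_ι, inv_inv, mul_assoc]

/-- the subring generated by the scalars and a subgroup -/
def SN (N : Subgroup G) : Subring U :=
  Subring.closure (Set.range D.sc ∪ D.ι '' (N : Set G))

/-- the rational closure as a subring -/
def RCs (S : Subring U) : Subring U where
  carrier := RC S
  mul_mem' := RC_mul
  one_mem' := RC_of_mem S.one_mem
  add_mem' := RC_add
  zero_mem' := RC_of_mem S.zero_mem
  neg_mem' := by
    intro x hx
    have := RC_mul (RC_of_mem (S := S) (S.neg_mem S.one_mem)) hx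
    rwa [neg_one_mul] at this

lemma mem_RCs {S : Subring U} {x : U} : x ∈ RCs S ↔ x ∈ RC S := Iff.rfl

lemma RCs_inverse {S : Subring U} {x : U} (hx : x ∈ RCs S) : Ring.inverse x ∈ RCs S := by
  by_cases h : IsUnit x
  · exact RC_inv hx (Ring.mul_inverse_cancel x h) (Ring.inverse_mul_cancel x h)
  · rw [Ring.inverse_non_unit x h]
    exact (RCs S).zero_mem

lemma ι_mem_SN {N : Subgroup G} {g : G} (h : g ∈ N) : D.ι g ∈ SN D N :=
  Subring.subset_closure (Or.inr ⟨g, h, rfl⟩)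

lemma sc_mem_SN (N : Subgroup G) (c : κ) : D.sc c ∈ SN D N :=
  Subring.subset_closure (Or.inl ⟨c, rfl⟩)

lemma val_mem_RCs {N : Subgroup G} {E : Ex G κ} (hE : ∀ u ∈ E.supp, u ∈ N) :
    E.val D ∈ RCs (SN D N) := by
  induction E with
  | sc c => exact RC_of_mem (sc_mem_SN D N c)
  | ad a b u iha ihb =>
    exact (RCs (SN D N)).add_mem (iha fun w hw => hE w (Or.inr (Or.inl hw)))
      ((RCs (SN D N)).mul_mem (ihb fun w hw => hE w (Or.inr (Or.inr hw)))
        (RC_of_mem (ι_mem_SN D (hE u (Set.mem_insert _ _)))))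
  | mu a b iha ihb =>
    exact (RCs (SN D N)).mul_mem (iha fun w hw => hE w (Or.inl hw))
      (ihb fun w hw => hE w (Or.inr hw))
  | iv a iha => exact RCs_inverse (iha hE)

section Coef

variable (O : Type*) [CxS O] (N : Subgroup G) (t : G)

/-- coefficients in degree `n`: zero, or the value of an expression over `N` of complexity at most
`α`, times an element of `N tⁿ` -/
def Cf (n : ℤ) (α : O) (y : U) : Prop :=
  y = 0 ∨ ∃ (E : Ex G κ) (g : G), (∀ u ∈ E.supp, u ∈ N) ∧ cy O E ≤ α ∧ g ∈ N ∧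
    y = E.val D * D.ι (g * t ^ n)

variable {O N t}

lemma Cf_zero (n : ℤ) (α : O) : Cf D O N t n α (0 : U) := Or.inl rfl

lemma Cf_mono {n : ℤ} {α β : O} {y : U} (h : Cf D O N t n α y) (hab : α ≤ β) :
    Cf D O N t n β y := by
  rcases h with h | ⟨E, g, h1, h2, h3, h4⟩
  · exact Or.inl h
  · exact Or.inr ⟨E, g, h1, h2.trans hab, h3, h4⟩

lemma zpow_conj (hN : ∀ n ∈ N, t * n * t⁻¹ ∈ N) (hN' : ∀ n ∈ N, t⁻¹ * n * t ∈ N) (j : ℤ) :
    ∀ n ∈ N, t ^ j * n * t ^ (-j) ∈ N := by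
  induction j using Int.induction_on with
  | zero => intro n hn; simpa using hn
  | succ j ih =>
    intro n hn
    have := hN _ (ih n hn)
    have e : t ^ ((j : ℤ) + 1) * n * t ^ (-((j : ℤ) + 1)) = t * (t ^ (j : ℤ) * n * t ^ (-(j : ℤ))) * t⁻¹ := by
      rw [add_comm (j : ℤ) 1, zpow_add, zpow_one, neg_add_rev, zpow_add, zpow_neg_one]
      simp only [mul_assoc]
    rw [e]
    exact this
  | pred j ih =>
    intro n hn
    have := hN' _ (ih n hn)
    have e : t ^ (-(j : ℤ) - 1) * n * t ^ (-(-(j : ℤ) - 1))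
        = t⁻¹ * (t ^ (-(j : ℤ)) * n * t ^ (-(-(j : ℤ)))) * t := by
      have e1 : (-(j : ℤ) - 1) = -1 + -(j : ℤ) := by ring
      have e2 : -(-(j : ℤ) - 1) = (-(-(j : ℤ))) + 1 := by ring
      rw [e2, e1, zpow_add, zpow_add, zpow_one, zpow_neg_one]
      simp only [mul_assoc]
    rw [e]
    exact this

variable (hN : ∀ n ∈ N, t * n * t⁻¹ ∈ N) (hN' : ∀ n ∈ N, t⁻¹ * n * t ∈ N)

lemma Cf_add {n : ℤ} {α β : O} {y z : U} (hy : Cf D O N t n α y) (hz : Cf D O N t n β z) :
    Cf D O N t n (α + β) (y + z) := by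
  rcases hy with rfl | ⟨E, g, h1, h2, h3, h4⟩
  · rw [zero_add]
    exact Cf_mono D hz (le_add_of_nonneg_left (CxS.zero_le' _))
  rcases hz with rfl | ⟨E', g', h1', h2', h3', h4'⟩
  · rw [add_zero]
    exact Or.inr ⟨E, g, h1, h2.trans (le_add_of_nonneg_right (CxS.zero_le' _)), h3, h4⟩
  refine Or.inr ⟨Ex.ad E E' (g' * g⁻¹), g, ?_, add_le_add h2 h2', h3, ?_⟩
  · intro u hu
    rcases hu with rfl | hu | hu
    · exact N.mul_mem h3' (N.inv_mem h3)
    · exact h1 u hu
    · exact h1' u hu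
  · show y + z = (E.val D + E'.val D * D.ι (g' * g⁻¹)) * D.ι (g * t ^ n)
    rw [add_mul, mul_assoc, ← map_mul, ← h4]
    congr 1
    rw [h4']
    congr 2
    group

include hN hN' in
lemma Cf_mul {n m : ℤ} {α β : O} {y z : U} (hy : Cf D O N t n α y) (hz : Cf D O N t m β z) :
    Cf D O N t (n + m) (α * β) (y * z) := by
  rcases hy with rfl | ⟨E, g, h1, h2, h3, h4⟩
  · rw [zero_mul]; exact Cf_zero D _ _
  rcases hz with rfl | ⟨E', g', h1', h2', h3', h4'⟩
  · rw [mul_zero]; exact Cf_zero D _ _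
  have hg : ∀ x ∈ N, (g * t ^ n) * x * (g * t ^ n)⁻¹ ∈ N := by
    intro x hx
    have h5 := zpow_conj hN hN' n x hx
    have e : (g * t ^ n) * x * (g * t ^ n)⁻¹ = g * (t ^ n * x * t ^ (-n)) * g⁻¹ := by
      group
    rw [e]
    exact N.mul_mem (N.mul_mem h3 h5) (N.inv_mem h3)
  refine Or.inr ⟨Ex.mu E (conj (g * t ^ n) E'), g * (t ^ n * g' * t ^ (-n)), ?_, ?_, ?_, ?_⟩
  · intro u hu
    rcases hu with hu | hu
    · exact h1 u hu
    · exact supp_conj (N := (N : Set G)) hg h1' u hu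
  · show cy O E * cy O (conj (g * t ^ n) E') ≤ α * β
    rw [cy_conj]
    exact mul_le_mul h2 h2' (CxS.zero_le' _) (CxS.zero_le' _)
  · exact N.mul_mem h3 (zpow_conj hN hN' n _ h3')
  · show y * z = E.val D * (conj (g * t ^ n) E').val D * D.ι _
    rw [val_conj, h4, h4']
    have e : g * (t ^ n * g' * t ^ (-n)) * t ^ (n + m) = (g * t ^ n) * (g' * t ^ m) := by
      group
    rw [e, map_mul D.ι (g * t ^ n) (g' * t ^ m)]
    calc E.val D * D.ι (g * t ^ n) * (E'.val D * D.ι (g' * t ^ m))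
        = E.val D * D.ι (g * t ^ n) * E'.val D * 1 * D.ι (g' * t ^ m) := by
          rw [mul_one]; simp only [mul_assoc]
      _ = E.val D * D.ι (g * t ^ n) * E'.val D * (D.ι (g * t ^ n)⁻¹ * D.ι (g * t ^ n)) *
          D.ι (g' * t ^ m) := by rw [D.ι_inv_mul]
      _ = _ := by simp only [mul_assoc]

lemma Cf_neg {n : ℤ} {α : O} {y : U} (hy : Cf D O N t n α y) : Cf D O N t n α (-y) := by
  rcases hy with rfl | ⟨E, g, h1, h2, h3, h4⟩
  · rw [neg_zero]; exact Cf_zero D _ _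
  refine Or.inr ⟨Ex.mu (Ex.sc (-1)) E, g, ?_, ?_, h3, ?_⟩
  · intro u hu
    rcases hu with hu | hu
    · exact absurd hu (Set.notMem_empty u)
    · exact h1 u hu
  · show 1 * cy O E ≤ α
    rw [one_mul]
    exact h2
  · show -y = D.sc (-1) * E.val D * D.ι _
    rw [map_neg, map_one, neg_one_mul, neg_mul, ← h4]

lemma Cf_mul_ι {n m : ℤ} {α : O} {y : U} {u : G} (hN : ∀ n ∈ N, t * n * t⁻¹ ∈ N)
    (hN' : ∀ n ∈ N, t⁻¹ * n * t ∈ N) (hu : u * t ^ (-m) ∈ N)
    (hy : Cf D O N t n α y) : Cf D O N t (n + m) α (y * D.ι u) := by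
  rcases hy with rfl | ⟨E, g, h1, h2, h3, h4⟩
  · rw [zero_mul]; exact Cf_zero D _ _
  refine Or.inr ⟨E, g * (t ^ n * (u * t ^ (-m)) * t ^ (-n)), h1, h2,
    N.mul_mem h3 (zpow_conj hN hN' n _ hu), ?_⟩
  rw [h4, mul_assoc, ← map_mul]
  congr 2
  have e : t ^ (n + m) = t ^ m * t ^ n := by rw [← zpow_add, add_comm]
  have e2 : t ^ (-n) * t ^ (n + m) = t ^ m := by rw [← zpow_add]; congr 1; ring
  calc g * t ^ n * u = g * (t ^ n * (u * (t ^ (-m) * t ^ m))) := by
        rw [← zpow_add, neg_add_cancel, zpow_zero, mul_one, mul_assoc]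
    _ = g * (t ^ n * (u * (t ^ (-m) * (t ^ (-n) * t ^ (n + m))))) := by rw [e2]
    _ = _ := by simp only [mul_assoc]

include hN hN' in
lemma Cf_inv {n : ℤ} {α : O} {y : U} (hy : Cf D O N t n α y) :
    Cf D O N t (-n) (CxS.F α) (Ring.inverse y) := by
  rcases hy with rfl | ⟨E, g, h1, h2, h3, h4⟩
  · rw [Ring.inverse_zero]; exact Cf_zero D _ _
  have hg : ∀ x ∈ N, (g * t ^ n)⁻¹ * x * ((g * t ^ n)⁻¹)⁻¹ ∈ N := by
    intro x hx
    have h5 := zpow_conj hN hN' (-n) (g⁻¹ * x * g) (N.mul_mem (N.mul_mem (N.inv_mem h3) hx) h3)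
    have e : (g * t ^ n)⁻¹ * x * ((g * t ^ n)⁻¹)⁻¹ = t ^ (-n) * (g⁻¹ * x * g) * t ^ (-(-n)) := by
      group
    rw [e]
    exact h5
  refine Or.inr ⟨Ex.iv (conj (g * t ^ n)⁻¹ E), t ^ (-n) * g⁻¹ * t ^ (-(-n)), ?_, ?_, ?_, ?_⟩
  · exact supp_conj (N := (N : Set G)) hg h1
  · show CxS.F (cy O (conj (g * t ^ n)⁻¹ E)) ≤ CxS.F α
    rw [cy_conj]
    exact CxS.F_strictMono.monotone h2
  · exact zpow_conj hN hN' (-n) _ (N.inv_mem h3)
  · show Ring.inverse y = Ring.inverse ((conj (g * t ^ n)⁻¹ E).val D) * D.ι _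
    have e : t ^ (-n) * g⁻¹ * t ^ (-(-n)) * t ^ (-n) = (g * t ^ n)⁻¹ := by
      group
    rw [e, h4, val_conj, Ring.inverse_mul (Or.inr (D.isUnit_ι _)),
      Ring.inverse_mul (Or.inr (D.isUnit_ι _)), Ring.inverse_mul (Or.inl (D.isUnit_ι _)),
      D.inverse_ι, D.inverse_ι, D.inverse_ι, inv_inv]
    calc D.ι (g * t ^ n)⁻¹ * Ring.inverse (E.val D)
        = D.ι (g * t ^ n)⁻¹ * (Ring.inverse (E.val D) * (D.ι (g * t ^ n) * D.ι (g * t ^ n)⁻¹)) := by
          rw [D.ι_mul_inv, mul_one]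
      _ = _ := by simp only [mul_assoc, inv_inv]

lemma Cf_sum {σ : Type*} (s : Finset σ) {n : ℤ} (α : σ → O) (y : σ → U)
    (h : ∀ i ∈ s, Cf D O N t n (α i) (y i)) : Cf D O N t n (∑ i ∈ s, α i) (∑ i ∈ s, y i) := by
  classical
  induction s using Finset.induction_on with
  | empty => rw [Finset.sum_empty, Finset.sum_empty]; exact Cf_zero D _ _
  | insert i s hi ih =>
    rw [Finset.sum_insert hi, Finset.sum_insert hi]
    exact Cf_add D (h i (Finset.mem_insert_self i s))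
      (ih fun j hj => h j (Finset.mem_insert_of_mem hj))

/-- values of small complexity are zero or units -/
lemma Cf_dichotomy {κ₀ : O} (IH : ∀ E : Ex G κ, cy O E < κ₀ → E.val D = 0 ∨ IsUnit (E.val D))
    {n : ℤ} {α : O} {y : U} (hy : Cf D O N t n α y) (hα : α < κ₀) : y = 0 ∨ IsUnit y := by
  rcases hy with rfl | ⟨E, g, h1, h2, h3, h4⟩
  · exact Or.inl rfl
  · rcases IH E (lt_of_le_of_lt h2 hα) with h5 | h5
    · left; rw [h4, h5, zero_mul]
    · right; rw [h4]; exact h5.mul (D.isUnit_ι _)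

end Coef

end Pool.Agent.HX
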