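import Pool.Agent.HX.Ex

set_option autoImplicit false
set_option linter.unusedSectionVars false

/-!
Expansions of rational expressions along a homomorphism to the integers.
-/

namespace Pool.Agent.HX

open Ex

variable {G κ U : Type} [Group G] [Ring κ] [Ring U] (D : Dat G κ U)
variable {O : Type*} [CxS O]

/-- monomials have expansions -/
lemma PQ_ι {N : Subgroup G} {t : G} (hN : ∀ n ∈ N, t * n * t⁻¹ ∈ N) {u : G} {m : ℤ}
    (hu : u * t ^ (-m) ∈ N) :
    PQ (RCs (SN D N)) (D.ι t) (D.ι u) (HahnSeries.single m (D.ι u)) := by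
  have h1 : D.ι t * D.ι t⁻¹ = 1 := D.ι_mul_inv t
  have h2 : D.ι t⁻¹ * D.ι t = 1 := D.ι_inv_mul t
  have hR : ∀ x ∈ RCs (SN D N), D.ι t * x * D.ι t⁻¹ ∈ RCs (SN D N) := by
    intro x hx
    have hS : ∀ x ∈ SN D N, D.ι t * x * D.ι t⁻¹ ∈ SN D N := by
      intro x hx
      induction hx using Subring.closure_induction with
      | mem x hx =>
        rcases hx with ⟨c, rfl⟩ | ⟨g, hg, rfl⟩
        · rw [← D.comm, mul_assoc, h1, mul_one]
          exact sc_mem_SN D N c
        · rw [← map_mul, ← map_mul]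
          exact ι_mem_SN D (hN g hg)
      | zero => rw [mul_zero, zero_mul]; exact Subring.zero_mem _
      | one => rw [mul_one, h1]; exact Subring.one_mem _
      | add x y _ _ hx hy =>
        rw [mul_add, add_mul]
        exact Subring.add_mem _ hx hy
      | neg x _ hx =>
        rw [mul_neg, neg_mul]
        exact Subring.neg_mem _ hx
      | mul x y _ _ hx hy =>
        have : D.ι t * (x * y) * D.ι t⁻¹
            = (D.ι t * x * D.ι t⁻¹) * (D.ι t * y * D.ι t⁻¹) := by
          calc D.ι t * (x * y) * D.ι t⁻¹ = D.ι t * x * 1 * y * D.ι t⁻¹ := by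
                rw [mul_one]; simp only [mul_assoc]
            _ = D.ι t * x * (D.ι t⁻¹ * D.ι t) * y * D.ι t⁻¹ := by rw [h2]
            _ = _ := by simp only [mul_assoc]
        rw [this]
        exact Subring.mul_mem _ hx hy
    have := RC_map (S := SN D N) (x := x)
      { toFun := fun x => D.ι t * x * D.ι t⁻¹
        invFun := fun x => D.ι t⁻¹ * x * D.ι t
        left_inv := by
          intro x
          show D.ι t⁻¹ * (D.ι t * x * D.ι t⁻¹) * D.ι t = x
          calc D.ι t⁻¹ * (D.ι t * x * D.ι t⁻¹) * D.ι t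
              = (D.ι t⁻¹ * D.ι t) * x * (D.ι t⁻¹ * D.ι t) := by simp only [mul_assoc]
            _ = x := by rw [h2, one_mul, mul_one]
        right_inv := by
          intro x
          show D.ι t * (D.ι t⁻¹ * x * D.ι t) * D.ι t⁻¹ = x
          calc D.ι t * (D.ι t⁻¹ * x * D.ι t) * D.ι t⁻¹
              = (D.ι t * D.ι t⁻¹) * x * (D.ι t * D.ι t⁻¹) := by simp only [mul_assoc]
            _ = x := by rw [h1, one_mul, mul_one]
        map_mul' := by
          intro x y
          show D.ι t * (x * y) * D.ι t⁻¹ = (D.ι t * x * D.ι t⁻¹) * (D.ι t * y * D.ι t⁻¹)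
          calc D.ι t * (x * y) * D.ι t⁻¹ = D.ι t * x * 1 * y * D.ι t⁻¹ := by
                rw [mul_one]; simp only [mul_assoc]
            _ = D.ι t * x * (D.ι t⁻¹ * D.ι t) * y * D.ι t⁻¹ := by rw [h2]
            _ = _ := by simp only [mul_assoc]
        map_add' := by
          intro x y
          show D.ι t * (x + y) * D.ι t⁻¹ = D.ι t * x * D.ι t⁻¹ + D.ι t * y * D.ι t⁻¹
          rw [mul_add, add_mul] } hS hx
    exact this
  have hz : ∀ m : ℤ, PQ (RCs (SN D N)) (D.ι t) (D.ι (t ^ m)) (HahnSeries.single m (D.ι (t ^ m))) := by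
    intro m
    induction m using Int.induction_on with
    | zero =>
      rw [zpow_zero, map_one]
      exact PQ_of_mem (Subring.one_mem _)
    | succ j ih =>
      have := PQ_mul h1 h2 hR ih (PQ_tau (R := RCs (SN D N)) (τ := D.ι t))
      rw [HahnSeries.single_mul_single, ← map_mul, ← zpow_add_one] at this
      exact this
    | pred j ih =>
      have := PQ_mul h1 h2 hR ih (PQ_sigma (R := RCs (SN D N)) h1)
      rw [HahnSeries.single_mul_single, ← map_mul, ← zpow_sub_one] at this
      exact this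
  have h3 : PQ (RCs (SN D N)) (D.ι t) (D.ι (u * t ^ (-m))) (HahnSeries.C (D.ι (u * t ^ (-m)))) :=
    PQ_of_mem (RC_of_mem (ι_mem_SN D hu))
  have := PQ_mul h1 h2 hR h3 (hz m)
  rw [HahnSeries.C_apply, HahnSeries.single_mul_single, ← map_mul, zero_add, mul_assoc,
    ← zpow_add, neg_add_cancel, zpow_zero, mul_one] at this
  exact this

/-- the data of an expansion -/
structure Setup (D : Dat G κ U) (H N : Subgroup G) (t : G) (dg : G → ℤ) : Prop where
  hN : ∀ n ∈ N, t * n * t⁻¹ ∈ N
  hN' : ∀ n ∈ N, t⁻¹ * n * t ∈ N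
  hdg : ∀ u ∈ H, u * t ^ (-dg u) ∈ N
  hUF : UF (RCs (SN D N)) (D.ι t)
  hE : ∀ (n : ℕ) (β : Matrix (Fin n) (Fin n) U) (b c v : Fin n → U), IsUnit (1 - β) →
      (∀ i, v i = ∑ j, β i j * v j + b i) → (∀ k : ℕ, ∑ i, c i * (Matrix.mulVec (β ^ k) b) i = 0) →
      ∑ i, c i * v i = 0

section

variable {D} {H N : Subgroup G} {t : G} {dg : G → ℤ}

lemma Setup.conjR (S : Setup D H N t dg) : ∀ x ∈ RCs (SN D N), D.ι t * x * D.ι t⁻¹ ∈ RCs (SN D N) ∧
    D.ι t⁻¹ * x * D.ι t ∈ RCs (SN D N) := by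
  have key : ∀ t : G, (∀ n ∈ N, t * n * t⁻¹ ∈ N) → ∀ x ∈ RCs (SN D N),
      D.ι t * x * D.ι t⁻¹ ∈ RCs (SN D N) := by
    intro t hN x hx
    have h1 : D.ι t * D.ι t⁻¹ = 1 := D.ι_mul_inv t
    have h2 : D.ι t⁻¹ * D.ι t = 1 := D.ι_inv_mul t
    have hS : ∀ x ∈ SN D N, D.ι t * x * D.ι t⁻¹ ∈ SN D N := by
      intro x hx
      induction hx using Subring.closure_induction with
      | mem x hx =>
        rcases hx with ⟨c, rfl⟩ | ⟨g, hg, rfl⟩
        · rw [← D.comm, mul_assoc, h1, mul_one]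
          exact sc_mem_SN D N c
        · rw [← map_mul, ← map_mul]
          exact ι_mem_SN D (hN g hg)
      | zero => rw [mul_zero, zero_mul]; exact Subring.zero_mem _
      | one => rw [mul_one, h1]; exact Subring.one_mem _
      | add x y _ _ hx hy =>
        rw [mul_add, add_mul]
        exact Subring.add_mem _ hx hy
      | neg x _ hx =>
        rw [mul_neg, neg_mul]
        exact Subring.neg_mem _ hx
      | mul x y _ _ hx hy =>
        have : D.ι t * (x * y) * D.ι t⁻¹
            = (D.ι t * x * D.ι t⁻¹) * (D.ι t * y * D.ι t⁻¹) := by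
          calc D.ι t * (x * y) * D.ι t⁻¹ = D.ι t * x * 1 * y * D.ι t⁻¹ := by
                rw [mul_one]; simp only [mul_assoc]
            _ = D.ι t * x * (D.ι t⁻¹ * D.ι t) * y * D.ι t⁻¹ := by rw [h2]
            _ = _ := by simp only [mul_assoc]
        rw [this]
        exact Subring.mul_mem _ hx hy
    exact RC_map (S := SN D N) (x := x)
      { toFun := fun x => D.ι t * x * D.ι t⁻¹
        invFun := fun x => D.ι t⁻¹ * x * D.ι t
        left_inv := by
          intro x
          show D.ι t⁻¹ * (D.ι t * x * D.ι t⁻¹) * D.ι t = x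
          calc D.ι t⁻¹ * (D.ι t * x * D.ι t⁻¹) * D.ι t
              = (D.ι t⁻¹ * D.ι t) * x * (D.ι t⁻¹ * D.ι t) := by simp only [mul_assoc]
            _ = x := by rw [h2, one_mul, mul_one]
        right_inv := by
          intro x
          show D.ι t * (D.ι t⁻¹ * x * D.ι t) * D.ι t⁻¹ = x
          calc D.ι t * (D.ι t⁻¹ * x * D.ι t) * D.ι t⁻¹
              = (D.ι t * D.ι t⁻¹) * x * (D.ι t * D.ι t⁻¹) := by simp only [mul_assoc]
            _ = x := by rw [h1, one_mul, mul_one]
        map_mul' := by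
          intro x y
          show D.ι t * (x * y) * D.ι t⁻¹ = (D.ι t * x * D.ι t⁻¹) * (D.ι t * y * D.ι t⁻¹)
          calc D.ι t * (x * y) * D.ι t⁻¹ = D.ι t * x * 1 * y * D.ι t⁻¹ := by
                rw [mul_one]; simp only [mul_assoc]
            _ = D.ι t * x * (D.ι t⁻¹ * D.ι t) * y * D.ι t⁻¹ := by rw [h2]
            _ = _ := by simp only [mul_assoc]
        map_add' := by
          intro x y
          show D.ι t * (x + y) * D.ι t⁻¹ = D.ι t * x * D.ι t⁻¹ + D.ι t * y * D.ι t⁻¹
          rw [mul_add, add_mul] } hS hx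
  intro x hx
  refine ⟨key t S.hN x hx, ?_⟩
  have := key t⁻¹ (by simpa using S.hN') x hx
  rwa [inv_inv] at this

/-- the conclusion of the expansion lemma -/
def Good (D : Dat G κ U) (O : Type*) [CxS O] (N : Subgroup G) (t : G) (E : Ex G κ) : Prop :=
  ∃ (X : HahnSeries ℤ U) (α : ℤ → O), PQ (RCs (SN D N)) (D.ι t) (E.val D) X ∧
    (∀ n, Cf D O N t n (α n) (X.coeff n)) ∧ (∀ I : Finset ℤ, ∑ n ∈ I, α n ≤ cy O E) ∧
    (((∀ u ∈ E.supp, u ∈ N) ∧ α = fun n => if n = 0 then cy O E else 0) ∨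
      ((¬ ∀ u ∈ E.supp, u ∈ N) ∧ ∀ n, α n < cy O E))

lemma good_of_supp (E : Ex G κ) (h : ∀ u ∈ E.supp, u ∈ N) : Good D O N t E := by
  refine ⟨HahnSeries.C (E.val D), fun n => if n = 0 then cy O E else 0,
    PQ_of_mem (val_mem_RCs D h), ?_, ?_, Or.inl ⟨h, rfl⟩⟩
  · intro n
    by_cases hn : n = 0
    · subst hn
      right
      refine ⟨E, 1, h, by simp, N.one_mem, ?_⟩
      rw [zpow_zero, mul_one, map_one, mul_one, HahnSeries.C_apply, HahnSeries.coeff_single_same]
    · left
      rw [HahnSeries.C_apply, HahnSeries.coeff_single_of_ne hn]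
  · intro I
    rw [Finset.sum_ite_eq']
    split_ifs
    · exact le_refl _
    · exact CxS.zero_le' _

lemma good_ad (S : Setup D H N t dg) {a b : Ex G κ} {u : G} (hu : u ∈ H)
    (hs : ¬ ∀ w ∈ (Ex.ad a b u).supp, w ∈ N) (ha : Good D O N t a) (hb : Good D O N t b) :
    Good D O N t (Ex.ad a b u) := by
  obtain ⟨X, α, hX, hXc, hXs, hXd⟩ := ha
  obtain ⟨Y, β, hY, hYc, hYs, hYd⟩ := hb
  set m := dg u with hm
  have h1 : D.ι t * D.ι t⁻¹ = 1 := D.ι_mul_inv t
  have h2 : D.ι t⁻¹ * D.ι t = 1 := D.ι_inv_mul t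
  have hR := fun x hx => (S.conjR x hx).1
  have hαle : ∀ n, α n ≤ cy O a := fun n => by simpa using hXs {n}
  have hβle : ∀ n, β n ≤ cy O b := fun n => by simpa using hYs {n}
  refine ⟨X + Y * HahnSeries.single m (D.ι u), fun n => α n + β (n - m), ?_, ?_, ?_,
    Or.inr ⟨hs, ?_⟩⟩
  · exact PQ_add hX (PQ_mul h1 h2 hR hY (PQ_ι D S.hN (S.hdg u hu)))
  · intro n
    rw [HahnSeries.coeff_add, HahnSeries.coeff_mul_single]
    refine Cf_add D (hXc n) ?_
    have := Cf_mul_ι D S.hN S.hN' (S.hdg u hu) (hYc (n - m))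
    rw [← hm, sub_add_cancel] at this
    exact this
  · intro I
    rw [Finset.sum_add_distrib]
    refine add_le_add (hXs I) ?_
    have : ∑ n ∈ I, β (n - m) = ∑ n ∈ I.image (fun n => n - m), β n := by
      rw [Finset.sum_image]
      intro x _ y _ hxy
      simpa using hxy
    rw [this]
    exact hYs _
  · intro n
    show α n + β (n - m) < cy O a + cy O b
    rcases hXd with ⟨ha1, ha2⟩ | ⟨ha1, ha2⟩
    · rcases hYd with ⟨hb1, hb2⟩ | ⟨hb1, hb2⟩
      · -- both homogeneous
        have hm0 : m ≠ 0 := by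
          intro h0
          apply hs
          intro w hw
          rcases hw with rfl | hw | hw
          · have := S.hdg w hu
            rw [← hm, h0, neg_zero, zpow_zero, mul_one] at this
            exact this
          · exact ha1 w hw
          · exact hb1 w hw
        rw [ha2, hb2]
        simp only
        have pa := cy_pos O a
        have pb := cy_pos O b
        by_cases hn : n = 0
        · rw [if_pos hn, if_neg (by omega), add_zero]
          exact lt_add_of_pos_right _ pb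
        · rw [if_neg hn, zero_add]
          split_ifs
          · exact lt_add_of_pos_left _ pa
          · exact add_pos pa pb
      · exact add_lt_add_of_le_of_lt (hαle n) (hb2 _)
    · exact add_lt_add_of_lt_of_le (ha2 n) (hβle _)

lemma good_mu (S : Setup D H N t dg) {a b : Ex G κ}
    (hs : ¬ ∀ w ∈ (Ex.mu a b).supp, w ∈ N) (ha : Good D O N t a) (hb : Good D O N t b) :
    Good D O N t (Ex.mu a b) := by
  obtain ⟨X, α, hX, hXc, hXs, hXd⟩ := ha
  obtain ⟨Y, β, hY, hYc, hYs, hYd⟩ := hb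
  have h1 : D.ι t * D.ι t⁻¹ = 1 := D.ι_mul_inv t
  have h2 : D.ι t⁻¹ * D.ι t = 1 := D.ι_inv_mul t
  have hR := fun x hx => (S.conjR x hx).1
  have hαle : ∀ n, α n ≤ cy O a := fun n => by simpa using hXs {n}
  have hβle : ∀ n, β n ≤ cy O b := fun n => by simpa using hYs {n}
  have hαβ : (∀ n, α n < cy O a) ∨ (∀ n, β n < cy O b) := by
    rcases hXd with ⟨ha1, ha2⟩ | ⟨ha1, ha2⟩
    · rcases hYd with ⟨hb1, hb2⟩ | ⟨hb1, hb2⟩
      · exfalso
        apply hs
        intro w hw
        rcases hw with hw | hw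
        · exact ha1 w hw
        · exact hb1 w hw
      · exact Or.inr hb2
    · exact Or.inl ha2
  set AD : ℤ → Finset (ℤ × ℤ) := fun n =>
    Finset.antidiagonal X.isPWO_support Y.isPWO_support n with hAD
  have hADmem : ∀ n p, p ∈ AD n → p.1 + p.2 = n := by
    intro n p hp
    simp only [hAD, Finset.mem_antidiagonal] at hp
    exact hp.2.2
  refine ⟨X * Y, fun n => ∑ p ∈ AD n, α p.1 * β p.2, PQ_mul h1 h2 hR hX hY, ?_, ?_,
    Or.inr ⟨hs, ?_⟩⟩
  · intro n
    rw [HahnSeries.coeff_mul]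
    refine Cf_sum D _ _ _ fun p hp => ?_
    have := Cf_mul D S.hN S.hN' (hXc p.1) (hYc p.2)
    rw [hADmem n p hp] at this
    exact this
  · intro I
    rw [← Finset.sum_biUnion]
    · exact (sum_pairs_le α β).trans
        (mul_le_mul (hXs _) (hYs _) (Finset.sum_nonneg fun _ _ => CxS.zero_le' _)
          (CxS.zero_le' _))
    · intro i _ j _ hij
      rw [Function.onFun, Finset.disjoint_left]
      intro p hp hp'
      exact hij ((hADmem i p hp).symm.trans (hADmem j p hp'))
  · intro n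
    show ∑ p ∈ AD n, α p.1 * β p.2 < cy O a * cy O b
    have pa := cy_pos O a
    have pb := cy_pos O b
    rcases (AD n).eq_empty_or_nonempty with he | hne
    · rw [he, Finset.sum_empty]
      exact mul_pos pa pb
    rcases hαβ with h | h
    · obtain ⟨p0, hp0, hmax⟩ := Finset.exists_max_image (AD n) (fun p => α p.1) hne
      calc ∑ p ∈ AD n, α p.1 * β p.2 ≤ ∑ p ∈ AD n, α p0.1 * β p.2 :=
            Finset.sum_le_sum fun p hp => mul_le_mul_of_nonneg_right (hmax p hp) (CxS.zero_le' _)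
        _ = α p0.1 * ∑ j ∈ (AD n).image Prod.snd, β j := by
            rw [← Finset.mul_sum, Finset.sum_image]
            intro p hp q hq hpq
            have e1 := hADmem n p hp
            have e2 := hADmem n q hq
            exact Prod.ext (by omega) hpq
        _ ≤ α p0.1 * cy O b := mul_le_mul_of_nonneg_left (hYs _) (CxS.zero_le' _)
        _ < cy O a * cy O b := mul_lt_mul_of_pos_right (h _) pb
    · obtain ⟨p0, hp0, hmax⟩ := Finset.exists_max_image (AD n) (fun p => β p.2) hne
      calc ∑ p ∈ AD n, α p.1 * β p.2 ≤ ∑ p ∈ AD n, α p.1 * β p0.2 :=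
            Finset.sum_le_sum fun p hp => mul_le_mul_of_nonneg_left (hmax p hp) (CxS.zero_le' _)
        _ = (∑ j ∈ (AD n).image Prod.fst, α j) * β p0.2 := by
            rw [← Finset.sum_mul, Finset.sum_image]
            intro p hp q hq hpq
            have e1 := hADmem n p hp
            have e2 := hADmem n q hq
            exact Prod.ext hpq (by omega)
        _ ≤ cy O a * β p0.2 := mul_le_mul_of_nonneg_right (hXs _) (CxS.zero_le' _)
        _ < cy O a * cy O b := mul_lt_mul_of_pos_left (h _) pa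

lemma good_iv (S : Setup D H N t dg) {a : Ex G κ}
    (IH : ∀ E : Ex G κ, cy O E < cy O a → E.val D = 0 ∨ IsUnit (E.val D))
    (hs : ¬ ∀ w ∈ (Ex.iv a).supp, w ∈ N) (ha : Good D O N t a) :
    Good D O N t (Ex.iv a) := by
  obtain ⟨X, α, hX, hXc, hXs, hXd⟩ := ha
  have h1 : D.ι t * D.ι t⁻¹ = 1 := D.ι_mul_inv t
  have h2 : D.ι t⁻¹ * D.ι t = 1 := D.ι_inv_mul t
  have hα : ∀ n, α n < cy O a := by
    rcases hXd with ⟨ha1, _⟩ | ⟨_, ha2⟩
    · exact absurd ha1 hs
    · exact ha2
  have hdich : ∀ n, X.coeff n = 0 ∨ IsUnit (X.coeff n) := fun n =>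
    Cf_dichotomy D IH (hXc n) (hα n)
  by_cases hX0 : X = 0
  · have hv : a.val D = 0 := by
      rw [hX0] at hX
      exact PQ_zero S.hUF S.hE h2 hX
    have hv' : (Ex.iv a).val D = 0 := by
      show Ring.inverse (a.val D) = 0
      rw [hv, Ring.inverse_zero]
    refine ⟨0, fun _ => 0, ?_, fun n => Cf_zero D _ _, ?_, Or.inr ⟨hs, fun n => ?_⟩⟩
    · rw [hv']
      exact PQ_zero_mem
    · intro I
      rw [Finset.sum_const_zero]
      exact CxS.zero_le' _
    · exact cy_pos O _
  have hn0 : X.coeff X.order ≠ 0 := fun h => hX0 (HahnSeries.coeff_order_eq_zero.mp h)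
  have hlow : ∀ k < X.order, X.coeff k = 0 := fun k hk => HahnSeries.coeff_eq_zero_of_lt_order hk
  have hu : IsUnit (X.coeff X.order) := (hdich _).resolve_left hn0
  obtain ⟨y, Y, hY, hxy, hyx, hXY, hYX⟩ := PQ_inv S.hUF h1 h2 (fun x hx => (S.conjR x hx).1)
    (fun x hx => (S.conjR x hx).2) (fun x hx y hxy hyx => RC_inv hx hxy hyx) hX hlow hn0 hu
  have hval : (Ex.iv a).val D = y := by
    show Ring.inverse (a.val D) = y
    exact Ring.inverse_unit ⟨a.val D, y, hxy, hyx⟩
  set n₀ := X.order with hn₀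
  -- complexities of the coefficients of the inverse
  have hco : ∀ (r : ℕ) (n : ℤ), n < Y.order + r → ∃ β : O, β < CxS.F (cy O a) ∧
      Cf D O N t n β (Y.coeff n) := by
    intro r
    induction r with
    | zero =>
      intro n hn
      refine ⟨0, F_pos _, ?_⟩
      rw [HahnSeries.coeff_eq_zero_of_lt_order (by simpa using hn)]
      exact Cf_zero D _ _
    | succ r ih =>
      intro n hn
      by_cases hlt : n < Y.order + r
      · exact ih n hlt
      have ih' : ∀ k, k < n → ∃ β : O, β < CxS.F (cy O a) ∧ Cf D O N t k β (Y.coeff k) := by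
        intro k hk
        apply ih
        push_cast at hn
        omega
      choose! β hβ1 hβ2 using ih'
      classical
      set AD := Finset.antidiagonal X.isPWO_support Y.isPWO_support (n₀ + n) with hAD
      have hADmem : ∀ p ∈ AD, p.1 + p.2 = n₀ + n ∧ X.coeff p.1 ≠ 0 := by
        intro p hp
        simp only [hAD, Finset.mem_antidiagonal] at hp
        exact ⟨hp.2.2, hp.1⟩
      have hcoef : (X * Y).coeff (n₀ + n) = X.coeff n₀ * Y.coeff n
          + ∑ p ∈ AD.filter (fun p => p.1 ≠ n₀), X.coeff p.1 * Y.coeff p.2 := by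
        rw [HahnSeries.coeff_mul, ← Finset.sum_filter_add_sum_filter_not AD (fun p => p.1 = n₀)]
        congr 1
        by_cases hYn : Y.coeff n = 0
        · rw [hYn, mul_zero]
          refine Finset.sum_eq_zero fun p hp => ?_
          obtain ⟨hp1, hp2⟩ := Finset.mem_filter.mp hp
          have := (hADmem p hp1).1
          have e : p.2 = n := by omega
          rw [e, hYn, mul_zero]
        · rw [Finset.sum_eq_single (n₀, n)]
          · intro p hp hne
            obtain ⟨hp1, hp2⟩ := Finset.mem_filter.mp hp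
            have := (hADmem p hp1).1
            exact absurd (Prod.ext hp2 (by simp only; omega)) hne
          · intro hnot
            exfalso
            apply hnot
            rw [Finset.mem_filter, hAD, Finset.mem_antidiagonal]
            exact ⟨⟨hn0, hYn, rfl⟩, rfl⟩
      have hone : Cf D O N t (n₀ + n) 1 ((X * Y).coeff (n₀ + n)) := by
        rw [hXY, HahnSeries.coeff_one]
        split_ifs with h0
        · right
          refine ⟨Ex.sc 1, 1, fun u hu => absurd hu (Set.notMem_empty u), le_refl _, N.one_mem, ?_⟩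
          show (1 : U) = D.sc 1 * D.ι (1 * t ^ (n₀ + n))
          rw [h0, zpow_zero, mul_one, map_one, map_one, mul_one]
        · exact Cf_zero D _ _
      set T := AD.filter (fun p => p.1 ≠ n₀) with hT
      have hTlt : ∀ p ∈ T, p.2 < n ∧ p.1 + p.2 = n₀ + n := by
        intro p hp
        obtain ⟨hp1, hp2⟩ := Finset.mem_filter.mp hp
        obtain ⟨e1, e2⟩ := hADmem p hp1
        have : ¬ p.1 < n₀ := fun hlt => e2 (hlow _ hlt)
        refine ⟨?_, e1⟩
        have hne : p.1 ≠ n₀ := hp2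
        omega
      have hsum : Cf D O N t (n₀ + n) (∑ p ∈ T, α p.1 * β p.2)
          (∑ p ∈ T, X.coeff p.1 * Y.coeff p.2) := by
        refine Cf_sum D _ _ _ fun p hp => ?_
        have := Cf_mul D S.hN S.hN' (hXc p.1) (hβ2 p.2 (hTlt p hp).1)
        rw [(hTlt p hp).2] at this
        exact this
      have hYn : Y.coeff n = Ring.inverse (X.coeff n₀) *
          ((X * Y).coeff (n₀ + n) + -(∑ p ∈ T, X.coeff p.1 * Y.coeff p.2)) := by
        rw [hcoef, add_neg_cancel_right, Ring.inverse_mul_cancel_left _ _ hu]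
      have hfin := Cf_mul D S.hN S.hN' (Cf_inv D S.hN S.hN' (hXc n₀))
        (Cf_add D hone (Cf_neg D hsum))
      rw [← hYn, show -n₀ + (n₀ + n) = n by ring] at hfin
      refine ⟨_, ?_, hfin⟩
      have hlF : cy O a < CxS.F (cy O a) := CxS.lt_F _
      refine CxS.mul_lt_F _ _ _ (CxS.F_strictMono (hα n₀)) (CxS.add_lt_F _ _ _ ?_ ?_)
      · exact lt_of_le_of_lt (one_le_cy O a) hlF
      · refine sum_lt_F _ _ _ fun p hp => ?_
        exact CxS.mul_lt_F _ _ _ ((hα _).trans hlF) (hβ1 _ (hTlt p hp).1)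
  have hco' : ∀ n : ℤ, ∃ β : O, β < CxS.F (cy O a) ∧ Cf D O N t n β (Y.coeff n) := by
    intro n
    apply hco ((n - Y.order).toNat + 1) n
    push_cast
    have := Int.self_le_toNat (n - Y.order)
    omega
  choose β hβ1 hβ2 using hco'
  refine ⟨Y, β, ?_, hβ2, ?_, Or.inr ⟨hs, hβ1⟩⟩
  · rw [hval]
    exact hY
  · intro I
    exact (sum_lt_F I β _ fun i _ => hβ1 i).le

/-- the expansion lemma -/
theorem good_all (S : Setup D H N t dg) (κ₀ : O)
    (IH : ∀ E : Ex G κ, cy O E < κ₀ → E.val D = 0 ∨ IsUnit (E.val D)) :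
    ∀ E : Ex G κ, (∀ u ∈ E.supp, u ∈ H) → cy O E ≤ κ₀ → Good D O N t E := by
  intro E
  induction E with
  | sc c =>
    intro _ _
    exact good_of_supp _ fun u hu => absurd hu (Set.notMem_empty u)
  | ad a b u iha ihb =>
    intro hE hc
    by_cases hs : ∀ w ∈ (Ex.ad a b u).supp, w ∈ N
    · exact good_of_supp _ hs
    have hc' : cy O a + cy O b ≤ κ₀ := hc
    exact good_ad S (hE u (Set.mem_insert _ _)) hs
      (iha (fun w hw => hE w (Or.inr (Or.inl hw)))
        ((le_add_of_nonneg_right (CxS.zero_le' _)).trans hc'))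
      (ihb (fun w hw => hE w (Or.inr (Or.inr hw)))
        ((le_add_of_nonneg_left (CxS.zero_le' _)).trans hc'))
  | mu a b iha ihb =>
    intro hE hc
    by_cases hs : ∀ w ∈ (Ex.mu a b).supp, w ∈ N
    · exact good_of_supp _ hs
    have hc' : cy O a * cy O b ≤ κ₀ := hc
    have ha : cy O a ≤ cy O a * cy O b := by
      calc cy O a = cy O a * 1 := (mul_one _).symm
        _ ≤ cy O a * cy O b := mul_le_mul_of_nonneg_left (one_le_cy O b) (CxS.zero_le' _)
    have hb : cy O b ≤ cy O a * cy O b := by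
      calc cy O b = 1 * cy O b := (one_mul _).symm
        _ ≤ cy O a * cy O b := mul_le_mul_of_nonneg_right (one_le_cy O a) (CxS.zero_le' _)
    exact good_mu S hs (iha (fun w hw => hE w (Or.inl hw)) (ha.trans hc'))
      (ihb (fun w hw => hE w (Or.inr hw)) (hb.trans hc'))
  | iv a iha =>
    intro hE hc
    by_cases hs : ∀ w ∈ (Ex.iv a).supp, w ∈ N
    · exact good_of_supp _ hs
    have hc' : CxS.F (cy O a) ≤ κ₀ := hc
    have hlt : cy O a < κ₀ := lt_of_lt_of_le (CxS.lt_F _) hc'
    exact good_iv S (fun E hE' => IH E (hE'.trans hlt)) hs (iha hE hlt.le)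

/-- the dichotomy for an expression which is not supported in `N` -/
theorem dichotomy_step (S : Setup D H N t dg) (E : Ex G κ)
    (IH : ∀ E' : Ex G κ, cy O E' < cy O E → E'.val D = 0 ∨ IsUnit (E'.val D))
    (hE : ∀ u ∈ E.supp, u ∈ H) (hs : ¬ ∀ u ∈ E.supp, u ∈ N) :
    E.val D = 0 ∨ IsUnit (E.val D) := by
  obtain ⟨X, α, hX, hXc, hXs, hXd⟩ := good_all S (cy O E) IH E hE (le_refl _)
  have h1 : D.ι t * D.ι t⁻¹ = 1 := D.ι_mul_inv t
  have h2 : D.ι t⁻¹ * D.ι t = 1 := D.ι_inv_mul t
  have hα : ∀ n, α n < cy O E := by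
    rcases hXd with ⟨ha1, _⟩ | ⟨_, ha2⟩
    · exact absurd ha1 hs
    · exact ha2
  have hdich : ∀ n, X.coeff n = 0 ∨ IsUnit (X.coeff n) := fun n =>
    Cf_dichotomy D IH (hXc n) (hα n)
  by_cases hX0 : X = 0
  · left
    rw [hX0] at hX
    exact PQ_zero S.hUF S.hE h2 hX
  · right
    have hn0 : X.coeff X.order ≠ 0 := fun h => hX0 (HahnSeries.coeff_order_eq_zero.mp h)
    have hlow : ∀ k < X.order, X.coeff k = 0 := fun k hk =>
      HahnSeries.coeff_eq_zero_of_lt_order hk
    obtain ⟨y, Y, hY, hxy, hyx, hXY, hYX⟩ := PQ_inv S.hUF h1 h2 (fun x hx => (S.conjR x hx).1)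
      (fun x hx => (S.conjR x hx).2) (fun x hx y hxy hyx => RC_inv hx hxy hyx) hX hlow hn0
      ((hdich _).resolve_left hn0)
    exact ⟨⟨_, y, hxy, hyx⟩, rfl⟩

end

end Pool.Agent.HX
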