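import Pool.Agent.HX.ApMain
import Pool.Agent.VN.Lin2
import Pool.Agent.VN.FreeFinal
import Pool.Agent.VN.Ind

set_option autoImplicit false
set_option linter.unusedSectionVars false

noncomputable section

open scoped InnerProductSpace ENNReal Topology
open Classical Filter Monoid
open Pool.Agent.VN

/-!
Approximation along a net of homomorphisms passes from the factors of a free product to the free
product.
-/

namespace Pool.Agent.HX

section Scal

variable {ι : Type} [Fintype ι]

/-- dimension of the space of functions with values in the range of an idempotent -/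
lemma vdim_scalF (H : Type) [Group H] (π : (ι → ℂ) →ₗ[ℂ] (ι → ℂ)) (hπ : ∀ v, π (π v) = π v)
    (d : ℕ) (hd : ∑ l : ι, π (Pi.single l 1) l = (d : ℂ)) :
    vdim (Sol (Set.range (scalF H π)) : Set (L2 ι H)) = d := by
  set T : L2 ι H →L[ℂ] L2 ι H := 1 - mulR (scalF H π) with hT
  have hTe : Equivar T := Equivar.one.sub (mulR_equivar _)
  have hTa : ∀ (x : L2 ι H) (b : H) (k : ι), (T x) (k, b) = π (valAt b x) k := by
    intro x b k
    have h1 : (T x) (k, b) = x (k, b) - (mulR (scalF H π) x) (k, b) := rfl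
    rw [h1, mulR_apply, ev_scalF, valAt_apply]
    ring
  have h1 : ∀ x, T x ∈ Sol (Set.range (scalF H π)) := by
    intro x
    rw [mem_Sol_scalF]
    intro b
    have h2 : valAt b (T x) = π (valAt b x) := by
      funext k
      exact hTa x b k
    rw [h2, hπ]
  have h2 : ∀ x ∈ Sol (Set.range (scalF H π)), T x = x := by
    intro x hx
    rw [mem_Sol_scalF] at hx
    ext p
    obtain ⟨k, b⟩ := p
    rw [hTa, hx]
    rfl
  have h3 := tr_idem (Sol_invar _) (Sol_closed _) hTe h1 h2
  have h4 : tr T = (d : ℂ) := by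
    rw [← hd]
    unfold tr
    refine Finset.sum_congr rfl fun l _ => ?_
    rw [inner_dl_left, hTa]
    have h5 : valAt (1 : H) (dl (l, (1 : H)) : L2 ι H) = Pi.single l 1 := by
      funext k
      rw [valAt_apply, dl_apply]
      by_cases hk : k = l
      · subst hk; simp
      · rw [if_neg, Pi.single_eq_of_ne hk]
        intro h
        exact hk (congrArg Prod.fst h)
    rw [h5]
  rw [h4] at h3
  exact_mod_cast h3.symm

lemma mapF_scalF {A H : Type} [Group A] [Group H] (f : A →* H) (π : (ι → ℂ) →ₗ[ℂ] (ι → ℂ)) (k : ι) :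
    mapF f (scalF A π k) = scalF H π k := by
  unfold scalF
  rw [mapF_sum]
  refine Finset.sum_congr rfl fun l _ => ?_
  rw [mapF_single, map_one]

/-- the intersection inequality for finitely many subspaces -/
lemma vdim_inter_fin {G J : Type} [Group G] {P : J → Submodule ℂ (L2 ι G)}
    {R : Submodule ℂ (L2 ι G)} (hP : ∀ j, Invar (P j)) (hPc : ∀ j, IsClosed (P j : Set (L2 ι G)))
    (hR : Invar R) (hRc : IsClosed (R : Set (L2 ι G))) (hPR : ∀ j, P j ≤ R) (s : Finset J) :
    ∑ j ∈ s, vdim (P j : Set (L2 ι G)) + vdim (R : Set (L2 ι G))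
      ≤ s.card * vdim (R : Set (L2 ι G))
        + vdim ((R ⊓ ⨅ j ∈ s, P j : Submodule ℂ (L2 ι G)) : Set (L2 ι G)) := by
  have hinv : ∀ s : Finset J, Invar (R ⊓ ⨅ j ∈ s, P j) := by
    intro s t x hx
    rw [Submodule.mem_inf, Submodule.mem_iInf] at hx ⊢
    refine ⟨hR t x hx.1, fun j => ?_⟩
    have h1 := hx.2 j
    rw [Submodule.mem_iInf] at h1 ⊢
    exact fun hj => hP j t x (h1 hj)
  have hcl : ∀ s : Finset J, IsClosed ((R ⊓ ⨅ j ∈ s, P j : Submodule ℂ (L2 ι G)) : Set (L2 ι G)) := by
    intro s
    have e : ((R ⊓ ⨅ j ∈ s, P j : Submodule ℂ (L2 ι G)) : Set (L2 ι G))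
        = (R : Set (L2 ι G)) ∩ ⋂ j ∈ s, (P j : Set (L2 ι G)) := by
      rw [Submodule.coe_inf, Submodule.coe_iInf]
      congr 1
      refine Set.iInter_congr fun j => ?_
      rw [Submodule.coe_iInf]
    rw [e]
    exact hRc.inter (isClosed_biInter fun j _ => hPc j)
  induction s using Finset.induction_on with
  | empty => simp
  | insert j s hj ih =>
    rw [Finset.sum_insert hj, Finset.card_insert_of_notMem hj]
    have h1 := vdim_inter_rel (hP j) (hPc j) (hinv s) (hcl s) hR hRc (hPR j) inf_le_left
    have h2 : P j ⊓ (R ⊓ ⨅ j ∈ s, P j) = R ⊓ ⨅ j' ∈ insert j s, P j' := by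
      rw [Finset.iInf_insert, ← inf_assoc, ← inf_assoc, inf_comm (P j) R]
    rw [h2] at h1
    push_cast
    linarith

end Scal

/-- approximation for free products -/
theorem approx_coprodI {J₀ : Type} [Nonempty J₀] (A : J₀ → Type) [∀ j, Group (A j)] {I : Type}
    (l : Filter I) {H : I → Type} [∀ i, Group (H i)] (π : ∀ i, CoprodI A →* H i)
    (hπ : ∀ g : CoprodI A, g ≠ 1 → ∀ᶠ i in l, π i g ≠ 1)
    (h : ∀ j, ApproxAlong ⊤ l fun i => (π i).comp (CoprodI.of : A j →* CoprodI A)) :
    ApproxAlong ⊤ l π := by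
  intro m n M _
  obtain ⟨i0⟩ := ‹Nonempty J₀›
  set C := Set.range (colF M) with hC
  obtain ⟨κ, hκ, J, D, hi0, hDf, hDe, -, hv⟩ :=
    lineariseH (fun i => (CoprodI.of : A i →* CoprodI A)) ⊤ lpr_surj C (Set.finite_range _)
      (fun c _ => fun p => Subring.mem_top _) i0
  have hmain : vdim (Sol (⋃ i, mapF (CoprodI.of : A i →* CoprodI A) '' D i) :
      Set (L2 κ (CoprodI A))) = kerDim M := by
    have h1 := hv (MonoidHom.id (CoprodI A))
    rw [mapF_id_image] at h1
    rw [kerDim_eq, ← h1]
    rfl
  -- reduction to finitely many factors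
  have hU : (⋃ i, mapF (CoprodI.of : A i →* CoprodI A) '' D i)
      = mapF (embJ A J) '' (⋃ j : J, mapF (CoprodI.of (M := fun j : J => A j.1) (i := j))
        '' D j.1) := by
    ext c
    constructor
    · intro hc
      obtain ⟨i, a, ha, rfl⟩ := Set.mem_iUnion.mp hc
      by_cases hi : i ∈ J
      · refine ⟨mapF (CoprodI.of (M := fun j : J => A j.1) (i := ⟨i, hi⟩)) a,
          Set.mem_iUnion.mpr ⟨⟨i, hi⟩, a, ha, rfl⟩, ?_⟩
        rw [mapF_comp, embJ_comp_of]
      · rw [hDe i hi] at ha
        exact absurd ha (Set.notMem_empty _)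
    · rintro ⟨b, hb, rfl⟩
      obtain ⟨j, a, ha, rfl⟩ := Set.mem_iUnion.mp hb
      rw [mapF_comp, embJ_comp_of]
      exact Set.mem_iUnion.mpr ⟨j.1, a, ha, rfl⟩
  rw [hU, vdim_induced _ (embJ_injective J)] at hmain
  obtain ⟨d, π0, hid, hd, hf⟩ :=
    (secs_coprodI (fun j : J => A j.1)).formula' (ι := κ) (fun j => D j.1)
  rw [hmain] at hf
  -- the lower bound
  have hlow : ∀ i, ∑ j : J, vdim (Sol (mapF ((π i).comp (CoprodI.of : A j.1 →* CoprodI A)) ''
      (D j.1 ∪ Set.range (scalF (A j.1) π0))) : Set (L2 κ (H i)))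
      ≤ ((Fintype.card J : ℝ) - 1) * d + kerDim (pushMat (π i) M) := by
    intro i
    have h1 := vdim_inter_fin (ι := κ) (J := J)
      (P := fun j => Sol (mapF ((π i).comp (CoprodI.of : A j.1 →* CoprodI A)) ''
        (D j.1 ∪ Set.range (scalF (A j.1) π0))))
      (R := Sol (Set.range (scalF (H i) π0))) (fun j => Sol_invar _) (fun j => Sol_closed _)
      (Sol_invar _) (Sol_closed _) (by
        intro j x hx a ha g
        obtain ⟨k, rfl⟩ := ha
        rw [← mapF_scalF ((π i).comp (CoprodI.of : A j.1 →* CoprodI A)) π0 k]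
        exact hx _ ⟨_, Or.inr ⟨k, rfl⟩, rfl⟩ g) Finset.univ
    rw [vdim_scalF (H i) π0 hid d hd, Finset.card_univ] at h1
    have h2 : vdim ((Sol (Set.range (scalF (H i) π0)) ⊓ ⨅ j ∈ (Finset.univ : Finset J),
        Sol (mapF ((π i).comp (CoprodI.of : A j.1 →* CoprodI A)) ''
        (D j.1 ∪ Set.range (scalF (A j.1) π0))) : Submodule ℂ (L2 κ (H i))) : Set (L2 κ (H i)))
        ≤ kerDim (pushMat (π i) M) := by
      rw [kerDim_pushMat, ← hC, ← hv (π i)]
      apply vdim_mono
      intro x hx a ha g
      obtain ⟨j, b, hb, rfl⟩ := Set.mem_iUnion.mp ha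
      by_cases hj : j ∈ J
      · rw [Submodule.mem_inf, Submodule.mem_iInf] at hx
        have h3 := hx.2 ⟨j, hj⟩
        rw [Submodule.mem_iInf] at h3
        exact h3 (Finset.mem_univ _) _ ⟨b, Or.inl hb, rfl⟩ g
      · rw [hDe j hj] at hb
        exact absurd hb (Set.notMem_empty _)
    linarith
  have hlim : Tendsto (fun i => ∑ j : J, vdim (Sol (mapF ((π i).comp
      (CoprodI.of : A j.1 →* CoprodI A)) '' (D j.1 ∪ Set.range (scalF (A j.1) π0))) :
        Set (L2 κ (H i)))) l (𝓝 (((Fintype.card J : ℝ) - 1) * d + kerDim M)) := by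
    rw [← hf]
    refine tendsto_finsetSum _ fun j _ => ?_
    exact approx_forms ⊤ l (h j.1) (D j.1 ∪ Set.range (scalF (A j.1) π0))
      ((hDf j.1).union (Set.finite_range _)) (fun c _ p => Subring.mem_top _)
  rw [Metric.tendsto_nhds]
  intro ε hε
  filter_upwards [eventually_le_add π hπ M (half_pos hε),
    hlim.eventually (lt_mem_nhds (show ((Fintype.card J : ℝ) - 1) * d + kerDim M - ε / 2
      < ((Fintype.card J : ℝ) - 1) * d + kerDim M by linarith))] with i h1 h2
  have h3 := hlow i
  rw [Real.dist_eq, abs_lt]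
  constructor <;> linarith

/-- approximation for the free product of two groups -/
theorem approx_coprod {B C : Type} [Group B] [Group C] {I : Type} (l : Filter I) {H : I → Type}
    [∀ i, Group (H i)] (π : ∀ i, Coprod B C →* H i)
    (hπ : ∀ g : Coprod B C, g ≠ 1 → ∀ᶠ i in l, π i g ≠ 1)
    (hB : ApproxAlong ⊤ l fun i => (π i).comp (Coprod.inl : B →* Coprod B C))
    (hC : ApproxAlong ⊤ l fun i => (π i).comp (Coprod.inr : C →* Coprod B C)) :
    ApproxAlong ⊤ l π := by
  let F : Bool → Type := fun b => match b with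
    | true => B
    | false => C
  let _ : ∀ b, Group (F b) := fun b => match b with
    | true => (inferInstance : Group B)
    | false => (inferInstance : Group C)
  let q : ∀ b, F b →* Coprod B C := fun b => match b with
    | true => (Coprod.inl : B →* Coprod B C)
    | false => (Coprod.inr : C →* Coprod B C)
  set g : CoprodI F →* Coprod B C := CoprodI.lift q with hg
  set i1 : B →* CoprodI F := CoprodI.of (M := F) (i := true) with hi1
  set i2 : C →* CoprodI F := CoprodI.of (M := F) (i := false) with hi2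
  set e : Coprod B C →* CoprodI F := Coprod.lift i1 i2 with he
  have h1 : g.comp e = MonoidHom.id _ := by
    apply Coprod.hom_ext
    · ext a
      show g (e (Coprod.inl a)) = Coprod.inl a
      rw [he, Coprod.lift_apply_inl, hi1, hg]
      exact CoprodI.lift_of (N := Coprod B C) _ _
    · ext a
      show g (e (Coprod.inr a)) = Coprod.inr a
      rw [he, Coprod.lift_apply_inr, hi2, hg]
      exact CoprodI.lift_of (N := Coprod B C) _ _
  have h2 : e.comp g = MonoidHom.id _ := by
    apply CoprodI.ext_hom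
    intro b
    ext a
    show e (g (CoprodI.of a)) = CoprodI.of a
    rw [hg, CoprodI.lift_of (N := Coprod B C)]
    match b, a with
    | true, a =>
      show e (Coprod.inl a) = _
      rw [he, Coprod.lift_apply_inl]
    | false, a =>
      show e (Coprod.inr a) = _
      rw [he, Coprod.lift_apply_inr]
  have hge : ∀ x, g (e x) = x := fun x => DFunLike.congr_fun h1 x
  have heg : ∀ x, e (g x) = x := fun x => DFunLike.congr_fun h2 x
  have hF : ApproxAlong ⊤ l fun i => (π i).comp g := by
    apply approx_coprodI F l (fun i => (π i).comp g)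
    · intro x hx
      have h3 : g x ≠ 1 := by
        intro h4
        apply hx
        rw [← heg x, h4, map_one]
      exact hπ _ h3
    · intro b
      have h3 : (fun i => ((π i).comp g).comp (CoprodI.of : F b →* CoprodI F))
          = fun i => (π i).comp (q b) := by
        funext i
        rw [MonoidHom.comp_assoc, hg, CoprodI.lift_comp_of (N := Coprod B C)]
      rw [h3]
      match b with
      | true => exact hB
      | false => exact hC
  intro m n M _
  have h3 := hF m n (pushMat e M) (fun _ _ _ => Subring.mem_top _)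
  have h4 : kerDim (pushMat e M) = kerDim M := by
    rw [kerDim_pushMat, vdim_induced e (fun x y hxy => by rw [← hge x, ← hge y, hxy]), kerDim_eq]
  have h5 : ∀ i, kerDim (pushMat ((π i).comp g) (pushMat e M)) = kerDim (pushMat (π i) M) := by
    intro i
    congr 1
    funext a b
    unfold pushMat
    rw [← Finsupp.mapDomain_comp]
    congr 1
    funext x
    show π i (g (e x)) = π i x
    rw [hge]
  rw [h4] at h3
  exact h3.congr h5

end Pool.Agent.HX
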