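import Mathlib

set_option autoImplicit false

namespace Pool.Agent.HX

/-- `A` is freely indecomposable: it is not the free product of two nontrivial groups. -/
def FreelyIndec (A : Type) [Group A] : Prop :=
  ∀ (B C : Type) [Group B] [Group C], Nonempty (A ≃* Monoid.Coprod B C) →
    Subsingleton B ∨ Subsingleton C

end Pool.Agent.HX
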