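import Pool.Agent.HX.AtMain
import Pool.Agent.HX.IndecDef
import Pool.Agent.VN.FreeFinal

set_option autoImplicit false
set_option linter.unusedSectionVars false

noncomputable section

open scoped InnerProductSpace ENNReal Topology
open Classical Filter Matrix
open Pool.Agent.VN

/-!
Reduction of the Atiyah property over the complex numbers to freely indecomposable subgroups: the
number of free factors of a finitely generated group is bounded by a rank argument.
-/

namespace Pool.Agent.HX

section Rank

variable {U : Type} [Ring U]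

/-- affine maps -/
@[ext]
structure Aff (J U : Type) where
  v : J → U
  u : U

instance (J : Type) : Monoid (Aff J U) where
  mul p q := ⟨fun j => p.v j + p.u * q.v j, p.u * q.u⟩
  one := ⟨0, 1⟩
  mul_assoc p q r := by
    apply Aff.ext
    · funext j
      show (p.v j + p.u * q.v j) + (p.u * q.u) * r.v j = p.v j + p.u * (q.v j + q.u * r.v j)
      rw [mul_add, mul_assoc, add_assoc]
    · exact mul_assoc _ _ _
  one_mul p := by
    apply Aff.ext
    · funext j
      show (0 : U) + 1 * p.v j = p.v j
      rw [one_mul, zero_add]
    · exact one_mul _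
  mul_one p := by
    apply Aff.ext
    · funext j
      show p.v j + p.u * (0 : U) = p.v j
      rw [mul_zero, add_zero]
    · exact mul_one _

lemma Aff.mul_v {J : Type} (p q : Aff J U) (j : J) : (p * q).v j = p.v j + p.u * q.v j := rfl

lemma Aff.mul_u {J : Type} (p q : Aff J U) : (p * q).u = p.u * q.u := rfl

/-- a crossed homomorphism to a free module with independent values at elements `a j` -/
def QR {A : Type} [Group A] (J : Type) [DecidableEq J] (f : A →* U) : Prop :=
  ∃ (d : A → J → U) (a : J → A), (∀ g h j, d (g * h) j = d g j + f g * d h j) ∧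
    (∀ j, d (a j) = Pi.single j (f (a j) - 1)) ∧ ∀ j, IsUnit (f (a j) - 1)

lemma QR_unit {A : Type} [Group A] (f : A →* U) (a : A) (ha : IsUnit (f a - 1)) : QR Unit f := by
  refine ⟨fun g _ => f g - 1, fun _ => a, fun g h _ => ?_, fun j => ?_, fun _ => ha⟩
  · show f (g * h) - 1 = f g - 1 + f g * (f h - 1)
    rw [map_mul, mul_sub, mul_one]
    abel
  · funext j'
    rw [Pi.single_apply, if_pos (Subsingleton.elim _ _)]

lemma QR_equiv {A B : Type} [Group A] [Group B] (e : A ≃* B) {J : Type} [DecidableEq J]
    (f : A →* U) (h : QR J (f.comp e.symm.toMonoidHom)) : QR J f := by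
  obtain ⟨d, a, h1, h2, h3⟩ := h
  refine ⟨fun g => d (e g), fun j => e.symm (a j), fun g h j => ?_, fun j => ?_, fun j => ?_⟩
  · show d (e (g * h)) j = d (e g) j + f g * d (e h) j
    rw [map_mul, h1]
    have e1 : (f.comp e.symm.toMonoidHom) (e g) = f g := by
      show f (e.symm (e g)) = f g
      rw [e.symm_apply_apply]
    rw [e1]
  · show d (e (e.symm (a j))) = _
    rw [e.apply_symm_apply, h2]
    rfl
  · exact h3 j

/-- the values in a free product -/
lemma QR_coprod {A B : Type} [Group A] [Group B] {J K : Type} [DecidableEq J] [DecidableEq K]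
    (f : Monoid.Coprod A B →* U) (hA : QR J (f.comp Monoid.Coprod.inl))
    (hB : QR K (f.comp Monoid.Coprod.inr)) : QR (J ⊕ K) f := by
  obtain ⟨d, a, h1, h2, h3⟩ := hA
  obtain ⟨d', b, h1', h2', h3'⟩ := hB
  have hd1 : ∀ j, d 1 j = 0 := by
    intro j
    have := h1 1 1 j
    rw [mul_one, map_one, one_mul] at this
    exact left_eq_add.mp this
  have hd1' : ∀ j, d' 1 j = 0 := by
    intro j
    have := h1' 1 1 j
    rw [mul_one, map_one, one_mul] at this
    exact left_eq_add.mp this
  set F1 : A →* Aff (J ⊕ K) U :=
    { toFun := fun g => ⟨Sum.elim (d g) 0, f (Monoid.Coprod.inl g)⟩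
      map_one' := by
        apply Aff.ext
        · funext j
          rcases j with j | j
          · exact hd1 j
          · rfl
        · show f (Monoid.Coprod.inl 1) = 1
          rw [map_one, map_one]
      map_mul' := fun g h => by
        apply Aff.ext
        · funext j
          rcases j with j | j
          · exact h1 g h j
          · show (0 : U) = 0 + f (Monoid.Coprod.inl g) * 0
            rw [mul_zero, add_zero]
        · show f (Monoid.Coprod.inl (g * h)) = f (Monoid.Coprod.inl g) * f (Monoid.Coprod.inl h)
          rw [map_mul, map_mul] } with hF1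
  set F2 : B →* Aff (J ⊕ K) U :=
    { toFun := fun g => ⟨Sum.elim 0 (d' g), f (Monoid.Coprod.inr g)⟩
      map_one' := by
        apply Aff.ext
        · funext j
          rcases j with j | j
          · rfl
          · exact hd1' j
        · show f (Monoid.Coprod.inr 1) = 1
          rw [map_one, map_one]
      map_mul' := fun g h => by
        apply Aff.ext
        · funext j
          rcases j with j | j
          · show (0 : U) = 0 + f (Monoid.Coprod.inr g) * 0
            rw [mul_zero, add_zero]
          · exact h1' g h j
        · show f (Monoid.Coprod.inr (g * h)) = f (Monoid.Coprod.inr g) * f (Monoid.Coprod.inr h)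
          rw [map_mul, map_mul] } with hF2
  set F : Monoid.Coprod A B →* Aff (J ⊕ K) U := Monoid.Coprod.lift F1 F2 with hF
  set P : Aff (J ⊕ K) U →* U := { toFun := fun p => p.u, map_one' := rfl, map_mul' := fun _ _ => rfl }
    with hP
  have hu : ∀ g, (F g).u = f g := by
    have : P.comp F = f := by
      apply Monoid.Coprod.hom_ext
      · ext g
        show (F (Monoid.Coprod.inl g)).u = f (Monoid.Coprod.inl g)
        rw [hF, Monoid.Coprod.lift_apply_inl]
        rfl
      · ext g
        show (F (Monoid.Coprod.inr g)).u = f (Monoid.Coprod.inr g)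
        rw [hF, Monoid.Coprod.lift_apply_inr]
        rfl
    intro g
    rw [← this]
    rfl
  refine ⟨fun g => (F g).v, Sum.elim (fun j => Monoid.Coprod.inl (a j))
    (fun j => Monoid.Coprod.inr (b j)), fun g h j => ?_, ?_, ?_⟩
  · show (F (g * h)).v j = (F g).v j + f g * (F h).v j
    rw [map_mul, Aff.mul_v, hu]
  · rintro (j | j)
    · show (F (Monoid.Coprod.inl (a j))).v = Pi.single (Sum.inl j) (f (Monoid.Coprod.inl (a j)) - 1)
      rw [hF, Monoid.Coprod.lift_apply_inl]
      funext l
      rcases l with l | l
      · show d (a j) l = _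
        rw [h2]
        show (Pi.single j (f (Monoid.Coprod.inl (a j)) - 1) : J → U) l = _
        rw [Pi.single_apply, Pi.single_apply]
        simp
      · show (0 : U) = _
        rw [Pi.single_apply, if_neg (by simp)]
    · show (F (Monoid.Coprod.inr (b j))).v = Pi.single (Sum.inr j) (f (Monoid.Coprod.inr (b j)) - 1)
      rw [hF, Monoid.Coprod.lift_apply_inr]
      funext l
      rcases l with l | l
      · show (0 : U) = _
        rw [Pi.single_apply, if_neg (by simp)]
      · show d' (b j) l = _
        rw [h2']
        show (Pi.single j (f (Monoid.Coprod.inr (b j)) - 1) : K → U) l = _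
        rw [Pi.single_apply, Pi.single_apply]
        simp
  · rintro (j | j)
    · exact h3 j
    · exact h3' j

/-- the rank bound -/
theorem QR_le (ρ : RankFn U) {A : Type} [Group A] (f : A →* U) {J : Type} [Fintype J]
    [DecidableEq J] (h : QR J f) (S : Finset A) (hS : Subgroup.closure (S : Set A) = ⊤) :
    Fintype.card J ≤ S.card := by
  obtain ⟨d, a, h1, h2, h3⟩ := h
  have hd1 : ∀ j, d 1 j = 0 := by
    intro j
    have := h1 1 1 j
    rw [mul_one, map_one, one_mul] at this
    exact left_eq_add.mp this
  have key : ∀ g : A, ∃ c : S → U, ∀ j, d g j = ∑ s, c s * d s j := by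
    intro g
    have hg : g ∈ Subgroup.closure (S : Set A) := by
      rw [hS]
      exact Subgroup.mem_top g
    induction hg using Subgroup.closure_induction with
    | mem x hx =>
      refine ⟨Pi.single ⟨x, hx⟩ 1, fun j => ?_⟩
      rw [Finset.sum_eq_single (⟨x, hx⟩ : S)]
      · rw [Pi.single_eq_same, one_mul]
      · intro s _ hs
        rw [Pi.single_eq_of_ne hs, zero_mul]
      · intro hcon
        exact absurd (Finset.mem_univ _) hcon
    | one => exact ⟨0, fun j => by rw [hd1]; simp⟩
    | mul x y _ _ hx hy =>
      obtain ⟨c, hc⟩ := hx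
      obtain ⟨c', hc'⟩ := hy
      refine ⟨fun s => c s + f x * c' s, fun j => ?_⟩
      rw [h1, hc, hc', Finset.mul_sum, ← Finset.sum_add_distrib]
      refine Finset.sum_congr rfl fun s _ => ?_
      rw [add_mul, mul_assoc]
    | inv x _ hx =>
      obtain ⟨c, hc⟩ := hx
      refine ⟨fun s => -(f x⁻¹ * c s), fun j => ?_⟩
      have e := h1 x⁻¹ x j
      rw [inv_mul_cancel, hd1] at e
      have e' : d x⁻¹ j = -(f x⁻¹ * d x j) := eq_neg_of_add_eq_zero_left e.symm
      rw [e', hc, Finset.mul_sum, ← Finset.sum_neg_distrib]
      refine Finset.sum_congr rfl fun s _ => ?_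
      rw [neg_mul, mul_assoc]
  choose c hc using fun j => key (a j)
  set C : Matrix J S U := Matrix.of fun j s => c j s with hC
  set D : Matrix S J U := Matrix.of fun s j => d s j with hD
  have hCD : C * D = Matrix.diagonal fun j => f (a j) - 1 := by
    ext j l
    rw [Matrix.mul_apply]
    show ∑ s, c j s * d s l = _
    rw [← hc, h2, Matrix.diagonal_apply, Pi.single_apply]
    by_cases hjl : j = l
    · subst hjl
      simp
    · rw [if_neg hjl, if_neg (Ne.symm hjl)]
  have hunit : IsUnit (C * D) := by
    rw [hCD]
    choose b hb using h3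
    refine ⟨⟨Matrix.diagonal fun j => ((b j : Uˣ) : U), Matrix.diagonal fun j => ((b j)⁻¹ : Uˣ), ?_, ?_⟩, ?_⟩
    · rw [Matrix.diagonal_mul_diagonal, ← Matrix.diagonal_one]
      congr 1
      funext j
      simp
    · rw [Matrix.diagonal_mul_diagonal, ← Matrix.diagonal_one]
      congr 1
      funext j
      simp
    · show Matrix.diagonal _ = _
      congr 1
      funext j
      exact hb j
  have hr := rk_of_isUnit ρ hunit
  have hle : ρ.rk (C * D) ≤ S.card := by
    refine (ρ.rk_mul_le_right _ _).trans ((ρ.rk_le_card' _).trans ?_)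
    rw [Fintype.card_coe]
  rw [hr] at hle
  exact_mod_cast hle

end Rank

section Closure

/-- the Atiyah property over the complex numbers passes to free products of two groups -/
theorem atiyah_coprod {A B : Type} [Group A] [Group B] (hA : AtiyahOver ⊤ A)
    (hB : AtiyahOver ⊤ B) : AtiyahOver ⊤ (Monoid.Coprod A B) := by
  let F : Bool → Type := fun b => match b with
    | true => A
    | false => B
  letI : ∀ b, Group (F b) := fun b => match b with
    | true => (inferInstance : Group A)
    | false => (inferInstance : Group B)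
  have hF : ∀ b, AtiyahOver ⊤ (F b) := fun b => match b with
    | true => hA
    | false => hB
  have h1 : AtiyahOver ⊤ (Monoid.CoprodI F) := by
    intro m n M _
    set Λ : AddSubgroup ℝ := (Int.castAddHom ℝ).range with hΛ
    have h2 := coprod_mem F Λ ⟨1, by simp⟩ (by
      intro i m n M
      obtain ⟨z, hz⟩ := hF i m n M (fun _ _ _ => Subring.mem_top _)
      exact ⟨z, by rw [hz]; rfl⟩) (Set.range (colF M)) (Set.finite_range _)
    rw [← kerDim_eq] at h2
    obtain ⟨z, hz⟩ := h2
    exact ⟨z, hz.symm⟩
  set i1 : A →* Monoid.CoprodI F := Monoid.CoprodI.of (M := F) (i := true) with hi1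
  set i2 : B →* Monoid.CoprodI F := Monoid.CoprodI.of (M := F) (i := false) with hi2
  have hinj : Function.Injective (Monoid.Coprod.lift i1 i2) := by
    set g : Monoid.CoprodI F →* Monoid.Coprod A B := Monoid.CoprodI.lift (fun b => match b with
      | true => (Monoid.Coprod.inl : A →* Monoid.Coprod A B)
      | false => (Monoid.Coprod.inr : B →* Monoid.Coprod A B)) with hg
    have : g.comp (Monoid.Coprod.lift i1 i2) = MonoidHom.id _ := by
      apply Monoid.Coprod.hom_ext
      · ext a
        show g (Monoid.Coprod.lift i1 i2 (Monoid.Coprod.inl a)) = Monoid.Coprod.inl a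
        rw [Monoid.Coprod.lift_apply_inl, hi1, hg]
        exact Monoid.CoprodI.lift_of (N := Monoid.Coprod A B) _ _
      · ext a
        show g (Monoid.Coprod.lift i1 i2 (Monoid.Coprod.inr a)) = Monoid.Coprod.inr a
        rw [Monoid.Coprod.lift_apply_inr, hi2, hg]
        exact Monoid.CoprodI.lift_of (N := Monoid.Coprod A B) _ _
    intro x y hxy
    have h3 := DFunLike.congr_fun this x
    have h4 := DFunLike.congr_fun this y
    have h5 : g (Monoid.Coprod.lift i1 i2 x) = x := h3
    have h6 : g (Monoid.Coprod.lift i1 i2 y) = y := h4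
    rw [← h5, ← h6, hxy]
  exact h1.of_injective _ hinj

end Closure

/-- a ring with a faithful rank function computing the dimensions of kernels -/
theorem exists_rankModel (G : Type) [Group G] :
    ∃ (U : Type) (_ : Ring U) (ρ : RankFn U) (D : Dat G ℂ U), ρ.Faithful ∧
      (∀ (n : Type) [Fintype n] [DecidableEq n] (A : Matrix n n U),
        ρ.rk A = Fintype.card n → IsUnit A) ∧
      ∀ {m n : Type} [Fintype m] [Fintype n] (a : m → n → (G →₀ ℂ)),
        ρ.rk (Matrix.of fun i j => D.gr (a i j)) = (Fintype.card n : ℝ)
          - vdim (Sol (Set.range (colG a)) : Set (L2 n G)) := by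
  have hε0 : Tendsto (fun j : ℕ => 1 / ((j : ℝ) + 1)) (hyperfilter ℕ : Ultrafilter ℕ) (𝓝 0) :=
    tendsto_one_div_add_atTop_nhds_zero_nat.mono_left Nat.hyperfilter_le_atTop
  obtain ⟨U, hU, ρ, D, hfaith, hunit, hlim⟩ := exists_grModel (G := G) (hyperfilter ℕ)
    (fun j : ℕ => 1 / ((j : ℝ) + 1)) (fun j => by positivity) hε0
    (H := fun _ => G) (fun _ => MonoidHom.id G)
  refine ⟨U, hU, ρ, D, hfaith, hunit, ?_⟩
  intro m n _ _ a
  refine tendsto_nhds_unique (hlim a) ?_
  have e : (fun i => mapF (MonoidHom.id G) (colG a i)) = colG a := by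
    funext i
    exact mapF_eq' _
  rw [e]
  exact tendsto_const_nhds

/-- elements of infinite order -/
lemma isUnit_sub_one {G U : Type} [Group G] [Ring U] (ρ : RankFn U) (D : Dat G ℂ U)
    (hunit : ∀ (n : Type) [Fintype n] [DecidableEq n] (A : Matrix n n U),
        ρ.rk A = Fintype.card n → IsUnit A)
    (hrk : ∀ {m n : Type} [Fintype m] [Fintype n] (a : m → n → (G →₀ ℂ)),
        ρ.rk (Matrix.of fun i j => D.gr (a i j)) = (Fintype.card n : ℝ)
          - vdim (Sol (Set.range (colG a)) : Set (L2 n G)))
    (t : G) (ht : ∀ n : ℕ, 0 < n → t ^ n ≠ 1) : IsUnit (D.ι t - 1) := by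
  set a : Unit → Unit → (G →₀ ℂ) := fun _ _ => Finsupp.single t 1 + Finsupp.single 1 (-1) with ha
  have e1 : (Matrix.of fun i j => D.gr (a i j)) = one1 (D.ι t - 1) := by
    ext i j
    show D.gr (Finsupp.single t 1 + Finsupp.single 1 (-1)) = D.ι t - 1
    rw [D.gr_add, D.gr_single, D.gr_single, map_one, one_mul, map_neg, map_one, map_one, mul_one,
      sub_eq_add_neg]
  have hinj : Function.Injective (zpowersHom G t) := by
    intro m n hmn
    rw [zpowersHom_apply, zpowersHom_apply] at hmn
    have h1 := (injective_zpow_iff_not_isOfFinOrder (x := t)).mpr (by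
      rw [isOfFinOrder_iff_pow_eq_one]
      rintro ⟨n, hn, h⟩
      exact ht n hn h)
    exact Multiplicative.toAdd.injective (h1 hmn)
  have h1 : Sol (Set.range (colG a)) = ⊥ := by
    set c0 : Unit → (Unit × Multiplicative ℤ →₀ ℂ) := fun _ => Finsupp.single ((), 1) (-1) with hc0
    set c1 : Unit → (Unit × Multiplicative ℤ →₀ ℂ) :=
      fun _ => Finsupp.single ((), (Multiplicative.ofAdd 1)⁻¹) 1 with hc1
    have e2 : Set.range (colG a) = Set.range fun i => mapF (zpowersHom G t) (c0 i + c1 i) := by
      congr 1
      funext i
      rw [mapF_eq, Finsupp.mapDomain_add, hc0, hc1, Finsupp.mapDomain_single,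
        Finsupp.mapDomain_single]
      unfold colG
      rw [Fintype.sum_unique, ha]
      show (Finsupp.single t (1 : ℂ) + Finsupp.single 1 (-1)).sum _ = _
      rw [Finsupp.sum_add_index' (by intro g; simp) (by intro g c c'; rw [Finsupp.single_add]),
        Finsupp.sum_single_index (by simp), Finsupp.sum_single_index (by simp), add_comm]
      congr 2
      · simp
      · simp
    rw [e2]
    apply sol_eq_bot (zpowersHom G t) hinj (fun h => Multiplicative.toAdd h)
      (fun a b => toAdd_mul a b) c0 c1
    · intro i p hp
      have := Finsupp.support_single_subset hp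
      rw [Finset.mem_singleton] at this
      rw [this]
      rfl
    · intro i p hp
      have := Finsupp.support_single_subset hp
      rw [Finset.mem_singleton] at this
      rw [this]
      rfl
    · rw [Submodule.eq_bot_iff]
      intro x hx
      ext p
      obtain ⟨u, g⟩ := p
      have h2 := hx (mapF (zpowersHom G t) (c0 ())) ⟨(), rfl⟩ g
      rw [hc0, mapF_single, ev_single] at h2
      simpa using h2
  have h2 : ρ.rk (one1 (D.ι t - 1)) = 1 := by
    rw [← e1, hrk, h1, vdim_bot, Fintype.card_unit]
    simp
  have h3 : IsUnit (one1 (D.ι t - 1)) := by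
    apply hunit
    rw [h2, Fintype.card_unit, Nat.cast_one]
  rw [isUnit_unit_matrix] at h3
  exact h3

/-- transport of the hypothesis to a group embedded in `G` -/
lemma atiyah_sub {G A : Type} [Group G] [Group A] (f : A →* G) (hf : Function.Injective f)
    (hfg : Group.FG A) (hz : ∀ φ : A →* Multiplicative ℤ, φ = 1) (hA : FreelyIndec A)
    (h : ∀ H : Subgroup G, H.FG → (∀ f : H →* Multiplicative ℤ, f = 1) → FreelyIndec H →
      AtiyahOver ⊤ H) : AtiyahOver ⊤ A := by
  set e : A ≃* f.range := MonoidHom.ofInjective hf with he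
  have h1 : AtiyahOver ⊤ f.range := by
    apply h
    · rw [← Group.fg_iff_subgroup_fg]
      exact Group.fg_of_surjective e.surjective
    · intro φ
      have h2 := hz (φ.comp e.toMonoidHom)
      ext x
      obtain ⟨a, rfl⟩ := e.surjective x
      have h3 := DFunLike.congr_fun h2 a
      exact h3
    · intro B C _ _ ⟨e'⟩
      exact hA B C ⟨e.trans e'⟩
  exact h1.of_injective e.toMonoidHom e.injective

/-- Only the finitely generated, freely indecomposable subgroups without nontrivial homomorphism to
the integers matter. -/
theorem atiyah_of_indec (G : Type) [Group G] (htf : ∀ g : G, ∀ n : ℕ, 0 < n → g ^ n = 1 → g = 1)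
    (h : ∀ H : Subgroup G, H.FG → (∀ f : H →* Multiplicative ℤ, f = 1) → FreelyIndec H →
      AtiyahOver ⊤ H) : AtiyahOver ⊤ G := by
  obtain ⟨U, hU, ρ, D, hfaith, hunit, hrk⟩ := exists_rankModel G
  have hne : ∀ (A : Type) [Group A] (f : A →* G), Function.Injective f → ¬ Subsingleton A →
      QR Unit (D.ι.comp f) := by
    intro A _ f hf hA
    rw [not_subsingleton_iff_nontrivial] at hA
    obtain ⟨a, ha⟩ := exists_ne (1 : A)
    apply QR_unit _ a
    apply isUnit_sub_one ρ D hunit hrk
    intro n hn h1
    have h2 := htf _ n hn h1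
    exact ha (hf (h2.trans (map_one f).symm))
  have main : ∀ N : ℕ, ∀ (A : Type) [Group A] (f : A →* G), Function.Injective f → Group.FG A →
      (∀ φ : A →* Multiplicative ℤ, φ = 1) →
      (∀ (J : Type) [Fintype J] [DecidableEq J], QR J (D.ι.comp f) → Fintype.card J ≤ N) →
      AtiyahOver ⊤ A := by
    intro N
    induction N with
    | zero =>
      intro A _ f hf hfg hz hN
      refine atiyah_sub f hf hfg hz ?_ h
      intro B C _ _ ⟨e⟩
      by_contra hcon
      push Not at hcon
      have hA : ¬ Subsingleton A := by
        intro hA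
        apply not_subsingleton_iff_nontrivial.mpr hcon.1
        have hi : Function.Injective (e.symm.toMonoidHom.comp (Monoid.Coprod.inl : B →* _)) :=
          e.symm.injective.comp Monoid.Coprod.inl_injective
        exact hi.subsingleton
      have := hN Unit (hne A f hf hA)
      simp at this
    | succ N ih =>
      intro A _ f hf hfg hz hN
      by_cases hA : FreelyIndec A
      · exact atiyah_sub f hf hfg hz hA h
      unfold FreelyIndec at hA
      push Not at hA
      obtain ⟨B, C, hBg, hCg, ⟨e⟩, hB, hC⟩ := hA
      set f' : Monoid.Coprod B C →* G := f.comp e.symm.toMonoidHom with hf'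
      have hf'i : Function.Injective f' := hf.comp e.symm.injective
      have hQ : ∀ (J : Type) [Fintype J] [DecidableEq J], QR J (D.ι.comp f') →
          Fintype.card J ≤ N + 1 := by
        intro J _ _ hJ
        exact hN J (QR_equiv e _ hJ)
      have hBA : AtiyahOver ⊤ B := by
        apply ih B (f'.comp Monoid.Coprod.inl) (hf'i.comp Monoid.Coprod.inl_injective)
        · exact Group.fg_of_surjective (f := (Monoid.Coprod.fst : Monoid.Coprod B C →* B).comp
            e.toMonoidHom) ((Monoid.Coprod.fst_surjective).comp e.surjective)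
        · intro φ
          have h2 := hz ((φ.comp Monoid.Coprod.fst).comp e.toMonoidHom)
          ext b
          have h3 := DFunLike.congr_fun h2 (e.symm (Monoid.Coprod.inl b))
          have h4 : φ (Monoid.Coprod.fst (e (e.symm (Monoid.Coprod.inl b)))) = 1 := h3
          rw [e.apply_symm_apply, Monoid.Coprod.fst_apply_inl] at h4
          rw [h4]
          rfl
        · intro J _ _ hJ
          have h1 := hQ (J ⊕ Unit) (QR_coprod (D.ι.comp f') hJ
            (hne C (f'.comp Monoid.Coprod.inr) (hf'i.comp Monoid.Coprod.inr_injective)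
              (not_subsingleton_iff_nontrivial.mpr hC)))
          rw [Fintype.card_sum, Fintype.card_unit] at h1
          omega
      have hCA : AtiyahOver ⊤ C := by
        apply ih C (f'.comp Monoid.Coprod.inr) (hf'i.comp Monoid.Coprod.inr_injective)
        · exact Group.fg_of_surjective (f := (Monoid.Coprod.snd : Monoid.Coprod B C →* C).comp
            e.toMonoidHom) ((Monoid.Coprod.snd_surjective).comp e.surjective)
        · intro φ
          have h2 := hz ((φ.comp Monoid.Coprod.snd).comp e.toMonoidHom)
          ext b
          have h3 := DFunLike.congr_fun h2 (e.symm (Monoid.Coprod.inr b))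
          have h4 : φ (Monoid.Coprod.snd (e (e.symm (Monoid.Coprod.inr b)))) = 1 := h3
          rw [e.apply_symm_apply, Monoid.Coprod.snd_apply_inr] at h4
          rw [h4]
          rfl
        · intro J _ _ hJ
          have h1 := hQ (Unit ⊕ J) (QR_coprod (D.ι.comp f')
            (hne B (f'.comp Monoid.Coprod.inl) (hf'i.comp Monoid.Coprod.inl_injective)
              (not_subsingleton_iff_nontrivial.mpr hB)) hJ)
          rw [Fintype.card_sum, Fintype.card_unit] at h1
          omega
      exact (atiyah_coprod hBA hCA).of_injective e.toMonoidHom e.injective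
  apply atiyah_of_fg
  intro H hH hz
  have hfg : Group.FG H := by
    rw [Group.fg_iff_subgroup_fg]
    exact hH
  obtain ⟨S, hS⟩ := hfg.out
  apply main S.card H H.subtype (Subgroup.subtype_injective H) hfg hz
  intro J _ _ hJ
  exact QR_le ρ _ hJ S hS

end Pool.Agent.HX
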