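import Pool.Agent.VN.ZExt

set_option autoImplicit false
set_option linter.unusedSectionVars false

noncomputable section

open scoped InnerProductSpace ENNReal Topology
open Classical Filter
open Pool.Agent.VN

/-!
Injectivity of `M₀ + M₁ t` when `M₀` is injective.
-/

namespace Pool.Agent.HX

/-- the statement for a group with a homomorphism to the integers -/
theorem sol_eq_bot_H {J H : Type} [Fintype J] [Group H] (φ : H → ℤ)
    (hφ : ∀ a b, φ (a * b) = φ a + φ b) (C0 C1 : J → (J × H →₀ ℂ))
    (h0 : ∀ i, ∀ p ∈ (C0 i).support, φ p.2 = 0) (h1 : ∀ i, ∀ p ∈ (C1 i).support, φ p.2 = -1)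
    (hS : Sol (Set.range C0) = ⊥) : Sol (Set.range fun i => C0 i + C1 i) = ⊥ := by
  set C : Set (J × H →₀ ℂ) := Set.range fun i => C0 i + C1 i with hC
  have hfin : ∀ M : ℕ, Sol (H0 φ M C) = ⊥ := by
    intro M
    rw [Submodule.eq_bot_iff]
    intro z hz
    rw [mem_Sol_H0] at hz
    -- values at level `b`
    have hev : ∀ (i : J) (b : ℤ) (g : H),
        (∑ p ∈ (C0 i).support, C0 i p * zb z p.1 b (g * p.2⁻¹))
        + ∑ p ∈ (C1 i).support, C1 i p * zb z p.1 (b + 1) (g * p.2⁻¹) = 0 := by
      intro i b g
      have h2 := hz _ ⟨i, rfl⟩ b g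
      have h3 : ∀ s : Finset (J × H), (C0 i + C1 i).support ⊆ s →
          ∑ p ∈ (C0 i + C1 i).support, (C0 i + C1 i) p * zb z p.1 (b - φ p.2) (g * p.2⁻¹)
          = ∑ p ∈ s, (C0 i + C1 i) p * zb z p.1 (b - φ p.2) (g * p.2⁻¹) := by
        intro s hs
        apply Finset.sum_subset hs
        intro p _ hp
        rw [Finsupp.notMem_support_iff.mp hp, zero_mul]
      have h4 : (C0 i + C1 i).support ⊆ (C0 i).support ∪ (C1 i).support := Finsupp.support_add
      rw [h3 _ h4] at h2
      have h5 : ∀ p, (C0 i + C1 i) p * zb z p.1 (b - φ p.2) (g * p.2⁻¹)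
          = C0 i p * zb z p.1 b (g * p.2⁻¹) + C1 i p * zb z p.1 (b + 1) (g * p.2⁻¹) := by
        intro p
        rw [Finsupp.add_apply, add_mul]
        congr 1
        · by_cases hp : p ∈ (C0 i).support
          · rw [h0 i p hp, sub_zero]
          · rw [Finsupp.notMem_support_iff.mp hp, zero_mul, zero_mul]
        · by_cases hp : p ∈ (C1 i).support
          · rw [h1 i p hp, sub_neg_eq_add]
          · rw [Finsupp.notMem_support_iff.mp hp, zero_mul, zero_mul]
      rw [Finset.sum_congr rfl fun p _ => h5 p, Finset.sum_add_distrib] at h2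
      rw [← h2]
      congr 1
      · apply Finset.sum_subset Finset.subset_union_left
        intro p _ hp
        rw [Finsupp.notMem_support_iff.mp hp, zero_mul]
      · apply Finset.sum_subset Finset.subset_union_right
        intro p _ hp
        rw [Finsupp.notMem_support_iff.mp hp, zero_mul]
    -- descending induction
    have hlev : ∀ (r : ℕ) (i : J) (b : ℤ) (g : H), (M : ℤ) - r < b → zb z i b g = 0 := by
      intro r
      induction r with
      | zero =>
        intro i b g hb
        unfold zb
        rw [dif_neg]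
        push_cast at hb
        omega
      | succ r ih =>
        intro i b g hb
        by_cases hlt : (M : ℤ) - r < b
        · exact ih i b g hlt
        by_cases hb0 : 0 ≤ b ∧ b ≤ M
        swap
        · unfold zb
          rw [dif_neg hb0]
        have hbr : b = (M : ℤ) - r := by
          push_cast at hb
          omega
        -- the slice at level `b` solves the equations `C0`
        set a : Fin (M + 1) := ⟨b.toNat, by omega⟩ with ha
        set w : L2 J H := pull (fun p : J × H => (((p.1, a), p.2) : (J × Fin (M + 1)) × H)) (by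
          rintro ⟨i, h⟩ ⟨i', h'⟩ heq
          simp only [Prod.mk.injEq, and_true] at heq
          exact Prod.ext heq.1 heq.2) z with hw
        have hwz : ∀ (i : J) (h : H), w (i, h) = zb z i b h := by
          intro i h
          unfold zb
          rw [dif_pos hb0]
          rfl
        have hwS : w ∈ Sol (Set.range C0) := by
          rintro _ ⟨i, rfl⟩ g
          have h2 := hev i b g
          have h3 : ∑ p ∈ (C1 i).support, C1 i p * zb z p.1 (b + 1) (g * p.2⁻¹) = 0 := by
            refine Finset.sum_eq_zero fun p _ => ?_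
            rw [ih p.1 (b + 1) _ (by omega), mul_zero]
          rw [h3, add_zero] at h2
          rw [ev_def, ← h2]
          refine Finset.sum_congr rfl fun p _ => ?_
          rw [hwz]
        rw [hS, Submodule.mem_bot] at hwS
        rw [← hwz, hwS]
        rfl
    ext q
    obtain ⟨⟨i, a⟩, g⟩ := q
    have := hlev (M + 1) i ((a : ℕ) : ℤ) g (by push_cast; omega)
    rw [zb_of_mem] at this
    rw [this]
    rfl
  have hle : ∀ M : ℕ, ((M : ℝ) + 1) * vdim (Sol C : Set (L2 J H)) ≤ 4 * Fintype.card J := by
    intro M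
    have h2 := le_c0 φ hφ (m := 1) (M := M) (C := C) (by
      rintro _ ⟨i, rfl⟩ p hp
      rcases Finset.mem_union.mp (Finsupp.support_add hp) with hp | hp
      · rw [h0 i p hp]; norm_num
      · rw [h1 i p hp]; norm_num)
    unfold c0 at h2
    rw [hfin M, vdim_bot] at h2
    push_cast at h2
    linarith
  have h3 : vdim (Sol C : Set (L2 J H)) = 0 := by
    apply le_antisymm _ (vdim_nonneg _)
    by_contra hcon
    push Not at hcon
    obtain ⟨M, hM⟩ := exists_nat_gt (4 * (Fintype.card J : ℝ) / vdim (Sol C : Set (L2 J H)))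
    rw [div_lt_iff₀ hcon] at hM
    have := hle M
    nlinarith
  exact eq_bot_of_vdim_eq_zero (Sol_invar _) (Sol_closed _) h3

/-- the statement for a subgroup -/
theorem sol_eq_bot {J G H : Type} [Fintype J] [Group G] [Group H] (f : H →* G)
    (hf : Function.Injective f) (φ : H → ℤ)
    (hφ : ∀ a b, φ (a * b) = φ a + φ b) (C0 C1 : J → (J × H →₀ ℂ))
    (h0 : ∀ i, ∀ p ∈ (C0 i).support, φ p.2 = 0) (h1 : ∀ i, ∀ p ∈ (C1 i).support, φ p.2 = -1)
    (hS : Sol (Set.range fun i => mapF f (C0 i)) = ⊥) :
    Sol (Set.range fun i => mapF f (C0 i + C1 i)) = ⊥ := by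
  have key : ∀ C : J → (J × H →₀ ℂ), Sol (Set.range fun i => mapF f (C i)) = ⊥ ↔
      Sol (Set.range C) = ⊥ := by
    intro C
    have e1 : (Set.range fun i => mapF f (C i)) = (mapF f) '' (Set.range C) := by
      rw [← Set.range_comp]
      rfl
    have hd : vdim (Sol (Set.range fun i => mapF f (C i)) : Set (L2 J G))
        = vdim (Sol (Set.range C) : Set (L2 J H)) := by
      rw [e1, Sol_mapF f hf]
      exact vdim_Ind f hf (Sol_invar _) (Sol_closed _)
    constructor
    · intro h
      rw [h, vdim_bot] at hd
      exact eq_bot_of_vdim_eq_zero (Sol_invar _) (Sol_closed _) hd.symm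
    · intro h
      rw [h, vdim_bot] at hd
      exact eq_bot_of_vdim_eq_zero (Sol_invar _) (Sol_closed _) hd
  rw [key] at hS ⊢
  exact sol_eq_bot_H φ hφ C0 C1 h0 h1 hS

end Pool.Agent.HX
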