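import Pool.Agent.HX.RankDef

set_option autoImplicit false

open Matrix

/-!
Elementary properties of Sylvester rank functions.
-/

namespace Pool.Agent.HX

namespace RankFn

variable {R : Type*} [Ring R] (ρ : RankFn R)

omit [Ring R] in
theorem submatrix_eq_mul [Ring R] {m n m' n' : Type} [Fintype m] [Fintype n] [DecidableEq m]
    [DecidableEq n] (A : Matrix m n R) (e : m' → m) (f : n' → n) :
    A.submatrix e f = (1 : Matrix m m R).submatrix e id * A *
      (1 : Matrix n n R).submatrix id f := by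
  ext i j
  simp [Matrix.mul_apply, Matrix.one_apply, Finset.sum_ite_eq, Finset.sum_ite_eq']

theorem rk_submatrix_le {m n m' n' : Type} [Fintype m] [Fintype n] [Fintype m'] [Fintype n']
    (A : Matrix m n R) (e : m' → m) (f : n' → n) : ρ.rk (A.submatrix e f) ≤ ρ.rk A := by
  classical
  rw [submatrix_eq_mul A e f]
  exact (ρ.rk_mul_le_left _ _).trans (ρ.rk_mul_le_right _ _)

theorem rk_reindex {m n m' n' : Type} [Fintype m] [Fintype n] [Fintype m'] [Fintype n']
    (A : Matrix m n R) (e : m ≃ m') (f : n ≃ n') : ρ.rk (Matrix.reindex e f A) = ρ.rk A := by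
  apply le_antisymm
  · rw [Matrix.reindex_apply]
    exact ρ.rk_submatrix_le A _ _
  · have h : A = (Matrix.reindex e f A).submatrix e f := by
      ext i j
      simp
    conv_lhs => rw [h]
    exact ρ.rk_submatrix_le _ _ _

theorem rk_le_card {m n : Type} [Fintype m] [Fintype n] (A : Matrix m n R) :
    ρ.rk A ≤ Fintype.card n := by
  classical
  rw [← ρ.rk_one (n := n)]
  conv_lhs => rw [← Matrix.mul_one A]
  exact ρ.rk_mul_le_right _ _

theorem rk_le_card' {m n : Type} [Fintype m] [Fintype n] (A : Matrix m n R) :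
    ρ.rk A ≤ Fintype.card m := by
  classical
  rw [← ρ.rk_one (n := m)]
  conv_lhs => rw [← Matrix.one_mul A]
  exact ρ.rk_mul_le_left _ _

theorem rk_zero {m n : Type} [Fintype m] [Fintype n] : ρ.rk (0 : Matrix m n R) = 0 := by
  apply le_antisymm _ (ρ.rk_nonneg _)
  have h : (0 : Matrix m n R) = (0 : Matrix m Empty R) * (0 : Matrix Empty n R) := by simp
  rw [h]
  refine (ρ.rk_mul_le_left _ _).trans ((ρ.rk_le_card _).trans ?_)
  simp

theorem rk_neg_le {m n : Type} [Fintype m] [Fintype n] (A : Matrix m n R) :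
    ρ.rk (-A) ≤ ρ.rk A := by
  classical
  have h : -A = (-1 : Matrix m m R) * A := by simp
  rw [h]
  exact ρ.rk_mul_le_right _ _

theorem rk_neg {m n : Type} [Fintype m] [Fintype n] (A : Matrix m n R) :
    ρ.rk (-A) = ρ.rk A := by
  apply le_antisymm (ρ.rk_neg_le A)
  have := ρ.rk_neg_le (-A)
  rwa [neg_neg] at this

theorem rk_add_le {m n : Type} [Fintype m] [Fintype n] (A B : Matrix m n R) :
    ρ.rk (A + B) ≤ ρ.rk A + ρ.rk B := by
  classical
  have h : A + B = fromCols (1 : Matrix m m R) (1 : Matrix m m R) * fromBlocks A 0 0 B *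
      fromRows (1 : Matrix n n R) (1 : Matrix n n R) := by
    rw [fromCols_mul_fromBlocks, fromCols_mul_fromRows]
    simp
  rw [h]
  exact (ρ.rk_mul_le_left _ _).trans ((ρ.rk_mul_le_right _ _).trans (ρ.rk_diag A B))

theorem rk_sum_le {ι : Type*} {m n : Type} [Fintype m] [Fintype n] (s : Finset ι)
    (A : ι → Matrix m n R) : ρ.rk (∑ i ∈ s, A i) ≤ ∑ i ∈ s, ρ.rk (A i) := by
  classical
  induction s using Finset.induction with
  | empty => simp [ρ.rk_zero]
  | insert i s hi ih =>
    rw [Finset.sum_insert hi, Finset.sum_insert hi]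
    exact (ρ.rk_add_le _ _).trans (by linarith)

theorem rk_single_le {m n : Type} [Fintype m] [Fintype n] [DecidableEq m] [DecidableEq n]
    (i : m) (j : n) (x : R) : ρ.rk (Matrix.single i j x) ≤ ρ.rk (one1 x) := by
  have h : Matrix.single i j x = (Matrix.of fun (k : m) (_ : Unit) => if i = k then (1 : R) else 0) *
      one1 x * (Matrix.of fun (_ : Unit) (k : n) => if j = k then (1 : R) else 0) := by
    ext a b
    simp only [Matrix.mul_apply, Matrix.of_apply, one1, Finset.univ_unique, Finset.sum_singleton,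
      Matrix.single_apply]
    by_cases h1 : i = a <;> by_cases h2 : j = b <;> simp [h1, h2]
  rw [h]
  exact (ρ.rk_mul_le_left _ _).trans (ρ.rk_mul_le_right _ _)

/-- the rank is at most the sum of the ranks of the entries -/
theorem rk_le_sum {m n : Type} [Fintype m] [Fintype n] (A : Matrix m n R) :
    ρ.rk A ≤ ∑ i, ∑ j, ρ.rk (one1 (A i j)) := by
  classical
  conv_lhs => rw [Matrix.matrix_eq_sum_single A]
  refine (ρ.rk_sum_le _ _).trans (Finset.sum_le_sum fun i _ => ?_)
  exact (ρ.rk_sum_le _ _).trans (Finset.sum_le_sum fun j _ => ρ.rk_single_le i j _)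

theorem rk_blocks' {m n p q : Type} [Fintype m] [Fintype n] [Fintype p] [Fintype q]
    (A : Matrix m n R) (C : Matrix p n R) (D : Matrix p q R) :
    ρ.rk A + ρ.rk D ≤ ρ.rk (fromBlocks A 0 C D) := by
  have h : fromBlocks D C 0 A = (fromBlocks A 0 C D).submatrix Sum.swap Sum.swap := by
    rw [Matrix.fromBlocks_submatrix_sum_swap_sum_swap]
  have h1 := ρ.rk_blocks D C A
  rw [h] at h1
  have h2 := ρ.rk_submatrix_le (fromBlocks A 0 C D) Sum.swap Sum.swap
  linarith

/-- Frobenius inequality -/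
theorem frobenius {l m n p : Type} [Fintype l] [Fintype m] [Fintype n] [Fintype p]
    (X : Matrix l m R) (Y : Matrix m n R) (Z : Matrix n p R) :
    ρ.rk (X * Y) + ρ.rk (Y * Z) ≤ ρ.rk Y + ρ.rk (X * Y * Z) := by
  classical
  have h1 := ρ.rk_blocks' (X * Y) Y (Y * Z)
  have h2 : (fromBlocks (X * Y) 0 Y (Y * Z) : Matrix (l ⊕ m) (n ⊕ p) R) =
      (fromBlocks 1 X 0 1 : Matrix (l ⊕ m) (l ⊕ m) R) *
      (fromBlocks (0 : Matrix l n R) (-(X * Y * Z)) Y 0 : Matrix (l ⊕ m) (n ⊕ p) R) *
      (fromBlocks 1 Z 0 1 : Matrix (n ⊕ p) (n ⊕ p) R) := by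
    rw [fromBlocks_multiply, fromBlocks_multiply]
    simp
  have h3 : ρ.rk (fromBlocks (X * Y) 0 Y (Y * Z)) ≤
      ρ.rk (fromBlocks (0 : Matrix l n R) (-(X * Y * Z)) Y 0) := by
    rw [h2]
    exact (ρ.rk_mul_le_left _ _).trans (ρ.rk_mul_le_right _ _)
  have h4 : fromBlocks (0 : Matrix l n R) (-(X * Y * Z)) Y 0 =
      (fromBlocks (-(X * Y * Z)) (0 : Matrix l n R) 0 Y).submatrix id Sum.swap := by
    ext (i | i) (j | j) <;> rfl
  have h5 : ρ.rk (fromBlocks (0 : Matrix l n R) (-(X * Y * Z)) Y 0) ≤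
      ρ.rk (fromBlocks (-(X * Y * Z)) (0 : Matrix l n R) 0 Y) := by
    rw [h4]
    exact ρ.rk_submatrix_le _ _ _
  have h6 := ρ.rk_diag (-(X * Y * Z)) Y
  rw [ρ.rk_neg] at h6
  linarith

/-- submodularity of the rank of sets of columns -/
theorem submodular {n a b c : Type} [Fintype n] [Fintype a] [Fintype b] [Fintype c]
    (A : Matrix n a R) (B : Matrix n b R) (C : Matrix n c R) :
    ρ.rk (fromCols (fromCols A B) C) + ρ.rk B ≤ ρ.rk (fromCols A B) + ρ.rk (fromCols B C) := by
  classical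
  have h1 := ρ.rk_blocks' (fromCols (fromCols A B) C)
    (fromCols (0 : Matrix n (a ⊕ b) R) C) B
  have h2 : fromBlocks (fromCols (fromCols A B) C) 0 (fromCols (0 : Matrix n (a ⊕ b) R) C) B =
      (fromBlocks (1 : Matrix n n R) 1 0 1 : Matrix (n ⊕ n) (n ⊕ n) R) *
        (fromBlocks (fromCols A B) 0 0 (fromCols B C) :
          Matrix (n ⊕ n) ((a ⊕ b) ⊕ (b ⊕ c)) R) *
        (fromBlocks (fromCols (1 : Matrix (a ⊕ b) (a ⊕ b) R) (0 : Matrix (a ⊕ b) c R))
          (fromRows (0 : Matrix a b R) (-1 : Matrix b b R))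
          (fromCols (0 : Matrix (b ⊕ c) (a ⊕ b) R)
            (fromRows (0 : Matrix b c R) (1 : Matrix c c R)))
          (fromRows (1 : Matrix b b R) (0 : Matrix c b R)) :
          Matrix ((a ⊕ b) ⊕ (b ⊕ c)) (((a ⊕ b) ⊕ c) ⊕ b) R) := by
    rw [fromBlocks_multiply, fromBlocks_multiply]
    simp only [Matrix.one_mul, Matrix.zero_mul, Matrix.mul_zero, add_zero, zero_add,
      Matrix.mul_fromCols, fromCols_mul_fromRows, Matrix.mul_one, Matrix.mul_neg]
    congr 1
    · ext i (j | j) <;> simp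
    · simp
  have h3 := ρ.rk_diag (fromCols A B) (fromCols B C)
  rw [h2] at h1
  have h4 := h1.trans ((ρ.rk_mul_le_left _ _).trans (ρ.rk_mul_le_right _ _))
  linarith

/-- multiplication by invertible matrices preserves the rank -/
theorem rk_mul_of_left_inv {l m n : Type} [Fintype l] [Fintype m] [Fintype n] [DecidableEq m]
    (P' : Matrix m l R) (P : Matrix l m R) (A : Matrix m n R) (h : P' * P = 1) :
    ρ.rk (P * A) = ρ.rk A := by
  apply le_antisymm (ρ.rk_mul_le_right _ _)
  have h1 : A = P' * (P * A) := by rw [← Matrix.mul_assoc, h, Matrix.one_mul]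
  conv_lhs => rw [h1]
  exact ρ.rk_mul_le_right _ _

theorem rk_mul_of_right_inv {l m n : Type} [Fintype l] [Fintype m] [Fintype n] [DecidableEq m]
    (A : Matrix l m R) (Q : Matrix m n R) (Q' : Matrix n m R) (h : Q * Q' = 1) :
    ρ.rk (A * Q) = ρ.rk A := by
  apply le_antisymm (ρ.rk_mul_le_left _ _)
  have h1 : A = A * Q * Q' := by rw [Matrix.mul_assoc, h, Matrix.mul_one]
  conv_lhs => rw [h1]
  exact ρ.rk_mul_le_left _ _

theorem rk_diag_eq {m n p q : Type} [Fintype m] [Fintype n] [Fintype p] [Fintype q]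
    (A : Matrix m n R) (D : Matrix p q R) :
    ρ.rk (fromBlocks A 0 0 D) = ρ.rk A + ρ.rk D :=
  le_antisymm (ρ.rk_diag A D) (ρ.rk_blocks A 0 D)

/-- Schur complement formula for the rank -/
theorem rk_schur {m n p : Type} [Fintype m] [Fintype n] [Fintype p] [DecidableEq m]
    [DecidableEq n] [DecidableEq p]
    (A A' : Matrix m m R) (B : Matrix m p R) (C : Matrix n m R) (D : Matrix n p R)
    (h1 : A * A' = 1) (h2 : A' * A = 1) :
    ρ.rk (fromBlocks A B C D) = Fintype.card m + ρ.rk (D - C * A' * B) := by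
  have hA : ρ.rk A = Fintype.card m := by
    have h3 := ρ.rk_mul_of_left_inv A' A (1 : Matrix m m R) h2
    rw [Matrix.mul_one] at h3
    rw [h3, ρ.rk_one]
  have h4 : fromBlocks A B C D =
      (fromBlocks (1 : Matrix m m R) 0 (C * A') 1 : Matrix (m ⊕ n) (m ⊕ n) R) *
      ((fromBlocks A 0 0 (D - C * A' * B) : Matrix (m ⊕ n) (m ⊕ p) R) *
        (fromBlocks (1 : Matrix m m R) (A' * B) 0 1 : Matrix (m ⊕ p) (m ⊕ p) R)) := by
    rw [fromBlocks_multiply, fromBlocks_multiply]
    congr 1
    · simp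
    · simp only [Matrix.one_mul, Matrix.mul_one, Matrix.zero_mul, add_zero]
      rw [← Matrix.mul_assoc, h1, Matrix.one_mul]
    · simp only [Matrix.one_mul, Matrix.mul_one, Matrix.mul_zero, Matrix.zero_mul, add_zero]
      rw [Matrix.mul_assoc, h2, Matrix.mul_one]
    · simp only [Matrix.one_mul, Matrix.mul_one, Matrix.mul_zero, Matrix.zero_mul, add_zero,
        zero_add]
      rw [← Matrix.mul_assoc A, h1, Matrix.one_mul]
      abel
  rw [h4, ρ.rk_mul_of_left_inv
      (fromBlocks (1 : Matrix m m R) 0 (-(C * A')) 1 : Matrix (m ⊕ n) (m ⊕ n) R),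
    ρ.rk_mul_of_right_inv _ _
      (fromBlocks (1 : Matrix m m R) (-(A' * B)) 0 1 : Matrix (m ⊕ p) (m ⊕ p) R),
    ρ.rk_diag_eq, hA]
  · rw [fromBlocks_multiply]
    simp
  · rw [fromBlocks_multiply]
    simp

theorem eq_zero_of_rk (hρ : ρ.Faithful) {m n : Type} [Fintype m] [Fintype n]
    (A : Matrix m n R) (h : ρ.rk A = 0) : A = 0 := by
  ext i j
  refine hρ _ (le_antisymm ?_ (ρ.rk_nonneg _))
  have h1 : one1 (A i j) = A.submatrix (fun _ : Unit => i) (fun _ : Unit => j) := rfl
  rw [h1, ← h]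
  exact ρ.rk_submatrix_le _ _ _

/-- square matrices of full rank: a one-sided inverse up to rank zero suffices -/
theorem isUnit_of_faithful (hρ : ρ.Faithful) {n : Type} [Fintype n] [DecidableEq n]
    (A X : Matrix n n R) (h : X * A = 1) : A * X = 1 := by
  have h1 : (Fintype.card n : ℝ) ≤ ρ.rk (A * X) := by
    have h2 : X * (A * X) * A = 1 := by
      rw [← Matrix.mul_assoc, h, Matrix.one_mul, h]
    rw [← ρ.rk_one (n := n), ← h2]
    exact (ρ.rk_mul_le_left _ _).trans (ρ.rk_mul_le_right _ _)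
  have h3 := ρ.frobenius (A * X) (1 : Matrix n n R) (1 - A * X)
  have h4 : A * X * (1 : Matrix n n R) * (1 - A * X) = 0 := by
    rw [Matrix.mul_one, Matrix.mul_sub, Matrix.mul_one, Matrix.mul_assoc, ← Matrix.mul_assoc X,
      h, Matrix.one_mul, sub_self]
  rw [h4, ρ.rk_zero, Matrix.mul_one, Matrix.one_mul, ρ.rk_one] at h3
  have h5 : ρ.rk (1 - A * X) = 0 := le_antisymm (by linarith) (ρ.rk_nonneg _)
  exact (sub_eq_zero.1 (ρ.eq_zero_of_rk hρ _ h5)).symm

section Krylov

variable {n : ℕ} (B : Matrix (Fin n) (Fin n) R) (b : Matrix (Fin n) Unit R)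

/-- the matrix with the columns `B ^ f j * b` -/
def kry {ι : Type} (f : ι → ℕ) : Matrix (Fin n) ι R :=
  Matrix.of fun i j => (B ^ f j * b) i ()

omit [Ring R] in
theorem kry_le [Ring R] (ρ : RankFn R) (B : Matrix (Fin n) (Fin n) R) (b : Matrix (Fin n) Unit R)
    {ι κ : Type} [Fintype ι] [Fintype κ] (f : ι → ℕ) (g : κ → ℕ)
    (h : ∀ i, ∃ j, g j = f i) : ρ.rk (kry B b f) ≤ ρ.rk (kry B b g) := by
  choose e he using h
  have h1 : kry B b f = (kry B b g).submatrix id e := by
    ext i j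
    simp [kry, he]
  rw [h1]
  exact ρ.rk_submatrix_le _ _ _

omit [Ring R] in
theorem mul_kry [Ring R] (B : Matrix (Fin n) (Fin n) R) (b : Matrix (Fin n) Unit R)
    {ι : Type} (f : ι → ℕ) : B * kry B b f = kry B b (fun j => f j + 1) := by
  ext i j
  simp only [kry, Matrix.of_apply]
  rw [pow_succ', Matrix.mul_assoc, Matrix.mul_apply, Matrix.mul_apply]
  rfl

omit [Ring R] in
theorem kry_fromCols [Ring R] (B : Matrix (Fin n) (Fin n) R) (b : Matrix (Fin n) Unit R)
    {ι κ : Type} (f : ι → ℕ) (g : κ → ℕ) :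
    fromCols (kry B b f) (kry B b g) = kry B b (Sum.elim f g) := by
  ext i (j | j) <;> rfl

end Krylov

/-- The rank lemma (E): if `1 - B` is invertible and `c B^j b = 0` for all `j`, then
`c (1 - B)⁻¹ b` has rank zero. -/
theorem rank_lemma {n : ℕ} (B D : Matrix (Fin n) (Fin n) R) (h1 : D * (1 - B) = 1)
    (h2 : (1 - B) * D = 1) (b : Matrix (Fin n) Unit R) (c : Matrix Unit (Fin n) R)
    (h : ∀ j : ℕ, c * B ^ j * b = 0) : ρ.rk (c * D * b) = 0 := by
  set rho : ℕ → ℝ := fun r => ρ.rk (kry B b (fun j : Fin r => (j : ℕ))) with hrho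
  have hrho0 : rho 0 = 0 := by
    apply le_antisymm _ (ρ.rk_nonneg _)
    refine (ρ.rk_le_card _).trans ?_
    simp
  have hrhon : ∀ r, rho r ≤ n := by
    intro r
    refine (ρ.rk_le_card' _).trans ?_
    simp
  -- the increments decrease
  have hstep : ∀ r, rho (r + 2) + rho r ≤ 2 * rho (r + 1) := by
    intro r
    have e1 := ρ.submodular (kry B b (fun _ : Unit => 0)) (kry B b (fun j : Fin r => (j : ℕ) + 1))
      (kry B b (fun _ : Unit => r + 1))
    rw [kry_fromCols, kry_fromCols, kry_fromCols] at e1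
    have e2 : rho (r + 2) ≤ ρ.rk (kry B b (Sum.elim (Sum.elim (fun _ : Unit => 0)
        (fun j : Fin r => (j : ℕ) + 1)) (fun _ : Unit => r + 1))) := by
      refine kry_le ρ B b _ _ fun i => ?_
      rcases Nat.eq_zero_or_pos (i : ℕ) with h0 | h0
      · exact ⟨Sum.inl (Sum.inl ()), h0.symm⟩
      · rcases Nat.lt_or_ge (i : ℕ) (r + 1) with h3 | h3
        · exact ⟨Sum.inl (Sum.inr ⟨(i : ℕ) - 1, by omega⟩), by
            change (i : ℕ) - 1 + 1 = i
            omega⟩
        · exact ⟨Sum.inr (), by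
            change r + 1 = (i : ℕ)
            have := i.2
            omega⟩
    have e3 : ρ.rk (kry B b (Sum.elim (fun _ : Unit => 0) (fun j : Fin r => (j : ℕ) + 1))) ≤
        rho (r + 1) := by
      refine kry_le ρ B b _ _ ?_
      rintro (i | i)
      · exact ⟨0, rfl⟩
      · exact ⟨i.succ, by simp⟩
    have e4 : ρ.rk (kry B b (Sum.elim (fun j : Fin r => (j : ℕ) + 1) (fun _ : Unit => r + 1))) ≤
        ρ.rk (B * kry B b (fun j : Fin (r + 1) => (j : ℕ))) := by
      rw [mul_kry]
      refine kry_le ρ B b _ _ ?_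
      rintro (i | i)
      · exact ⟨i.castSucc, by simp⟩
      · exact ⟨Fin.last r, by simp⟩
    have e5 := ρ.frobenius B (kry B b (fun j : Fin (r + 1) => (j : ℕ)))
      ((1 : Matrix (Fin (r + 1)) (Fin (r + 1)) R).submatrix id Fin.castSucc)
    have e6 : kry B b (fun j : Fin (r + 1) => (j : ℕ)) *
        (1 : Matrix (Fin (r + 1)) (Fin (r + 1)) R).submatrix id Fin.castSucc =
        kry B b (fun j : Fin r => (j : ℕ)) := by
      ext i j
      simp [Matrix.mul_apply, Matrix.one_apply, kry]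
    rw [Matrix.mul_assoc, e6, mul_kry B b (fun j : Fin r => (j : ℕ))] at e5
    change rho (r + 2) + rho r ≤ 2 * rho (r + 1)
    have e7 : ρ.rk (kry B b (fun j : Fin (r + 1) => (j : ℕ))) = rho (r + 1) := rfl
    have e8 : ρ.rk (kry B b (fun j : Fin r => (j : ℕ))) = rho r := rfl
    rw [e7, e8] at e5
    linarith
  have hanti : ∀ r s, rho (r + s + 1) - rho (r + s) ≤ rho (r + 1) - rho r := by
    intro r s
    induction s with
    | zero => exact le_rfl
    | succ s ih =>
      have := hstep (r + s)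
      have e1 : r + (s + 1) + 1 = r + s + 2 := by ring
      have e2 : r + (s + 1) = r + s + 1 := by ring
      rw [e1, e2]
      linarith
  have hsum : ∀ r : ℕ, ((r : ℝ) + 1) * (rho (r + 1) - rho r) ≤ n := by
    intro r
    have h3 : ∀ k, k ≤ r + 1 → (k : ℝ) * (rho (r + 1) - rho r) ≤ rho k := by
      intro k
      induction k with
      | zero => intro _; simp [hrho0]
      | succ k ih =>
        intro hk
        have h4 := ih (by omega)
        have h5 := hanti k (r - k)
        rw [show k + (r - k) = r by omega] at h5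
        push_cast
        linarith
    have h4 := h3 (r + 1) le_rfl
    push_cast at h4
    exact h4.trans (hrhon _)
  -- the key inequality
  have hkey : ∀ r, ρ.rk (c * D * b) + rho r ≤ rho (r + 1) := by
    intro r
    set K := kry B b (fun j : Fin r => (j : ℕ)) with hK
    set Y : Matrix (Fin n) (Unit ⊕ Fin r) R := fromCols b ((1 - B) * K) with hY
    have f1 : (1 - B) * K = K - kry B b (fun j : Fin r => (j : ℕ) + 1) := by
      rw [Matrix.sub_mul, Matrix.one_mul, hK, mul_kry]
    have f2 : Y = kry B b (fun j : Fin (r + 1) => (j : ℕ)) *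
        fromCols ((1 : Matrix (Fin (r + 1)) (Fin (r + 1)) R).submatrix id (fun _ : Unit => 0))
          ((1 : Matrix (Fin (r + 1)) (Fin (r + 1)) R).submatrix id Fin.castSucc -
            (1 : Matrix (Fin (r + 1)) (Fin (r + 1)) R).submatrix id Fin.succ) := by
      rw [hY, f1, Matrix.mul_fromCols, Matrix.mul_sub]
      congr 1
      · ext i j
        simp [Matrix.mul_apply, Matrix.one_apply, kry]
      · congr 1
        · ext i j
          simp [Matrix.mul_apply, Matrix.one_apply, kry, hK]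
        · ext i j
          simp [Matrix.mul_apply, Matrix.one_apply, kry]
    have f3 : ρ.rk Y ≤ rho (r + 1) := by
      rw [f2]
      exact ρ.rk_mul_le_left _ _
    have f4 : c * D * ((1 - B) * K) = 0 := by
      rw [← Matrix.mul_assoc, Matrix.mul_assoc c, h1, Matrix.mul_one]
      ext i j
      have h5 := congrFun (congrFun (h (j : ℕ)) ()) ()
      rw [Matrix.mul_assoc, Matrix.mul_apply] at h5
      rw [Matrix.mul_apply]
      exact h5
    set Z : Matrix (Unit ⊕ Fin r) (Fin r) R := fromRows 0 1 with hZ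
    have f5 : Y * Z = (1 - B) * K := by
      rw [hY, hZ, fromCols_mul_fromRows, Matrix.mul_zero, Matrix.mul_one, zero_add]
    have f6 := ρ.frobenius (c * D) Y Z
    rw [Matrix.mul_assoc (c * D) Y Z, f5, f4, ρ.rk_zero, ρ.rk_mul_of_left_inv D (1 - B) K h1] at f6
    have f7 : ρ.rk (c * D * b) ≤ ρ.rk (c * D * Y) := by
      have f8 : c * D * b = (c * D * Y).submatrix id Sum.inl := by
        rw [hY, Matrix.mul_fromCols]
        ext i j
        rfl
      rw [f8]
      exact ρ.rk_submatrix_le _ _ _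
    have f9 : ρ.rk K = rho r := rfl
    rw [f9] at f6
    linarith
  -- conclusion
  apply le_antisymm _ (ρ.rk_nonneg _)
  by_contra hcon
  rw [not_le] at hcon
  set x := ρ.rk (c * D * b) with hx
  obtain ⟨r, hr⟩ := exists_nat_gt ((n : ℝ) / x)
  rw [div_lt_iff₀ hcon] at hr
  have g1 := hsum r
  have g2 := hkey r
  have g3 : ((r : ℝ) + 1) * x ≤ ((r : ℝ) + 1) * (rho (r + 1) - rho r) :=
    mul_le_mul_of_nonneg_left (by linarith) (by positivity)
  nlinarith

end RankFn

end Pool.Agent.HX
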