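import Pool.Agent.HX.Exp
import Pool.Agent.HX.Cx
import Pool.Agent.HX.Rank

set_option autoImplicit false
set_option linter.unusedSectionVars false

/-!
All values of rational expressions are zero or invertible.
-/

namespace Pool.Agent.HX

open Ex Matrix

section UF

variable {U : Type} [Ring U]

/-- invertibility of `1 - A τ` over the rational closure from that of linear matrices -/
theorem UF_of (S : Subring U) (τ : U)
    (h : ∀ (J : Type) [Fintype J] [DecidableEq J] (M0 M1 : Matrix J J U), (∀ i j, M0 i j ∈ S) →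
      (∀ i j, M1 i j ∈ S) → IsUnit M0 → IsUnit (M0 + of fun i j => M1 i j * τ)) :
    UF (RCs S) τ := by
  intro n A hA
  obtain ⟨m, Q, B, V, C, hQ, hB, hC, hu, hQV, hAV⟩ := RC_matrix A hA
  obtain ⟨⟨Q₁, Q', hQ1, hQ2⟩, hQQ⟩ := hu
  have hQQ' : Q₁ = Q := hQQ
  subst hQQ'
  have hV : V = Q' * B := by
    rw [← hQV, ← Matrix.mul_assoc, hQ2, Matrix.one_mul]
  have h0 : IsUnit (fromBlocks Q₁ 0 C (1 : Matrix (Fin n) (Fin n) U)) := by
    rw [isUnit_fromBlocks Q₁ Q' 0 C 1 hQ1 hQ2, Matrix.mul_zero, sub_zero]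
    exact isUnit_one
  have h1 := h (Fin m ⊕ Fin n) (fromBlocks Q₁ 0 C 1) (fromBlocks 0 B 0 0) (by
      rintro (i | i) (j | j)
      · exact hQ i j
      · exact S.zero_mem
      · exact hC i j
      · show (1 : Matrix (Fin n) (Fin n) U) i j ∈ S
        rw [Matrix.one_apply]
        split_ifs
        · exact S.one_mem
        · exact S.zero_mem) (by
      rintro (i | i) (j | j)
      · exact S.zero_mem
      · exact hB i j
      · exact S.zero_mem
      · exact S.zero_mem) h0
  have e : (fromBlocks Q₁ 0 C 1 + of fun i j => (fromBlocks 0 B 0 0 :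
      Matrix (Fin m ⊕ Fin n) (Fin m ⊕ Fin n) U) i j * τ)
      = fromBlocks Q₁ (of fun i j => B i j * τ) C 1 := by
    ext i j
    rcases i with i | i <;> rcases j with j | j <;> simp
  rw [e, isUnit_fromBlocks Q₁ Q' _ C 1 hQ1 hQ2] at h1
  have e2 : (of fun i j => A i j * τ : Matrix (Fin n) (Fin n) U)
      = C * Q' * of fun i j => B i j * τ := by
    rw [hAV, hV, Matrix.mul_assoc]
    ext i j
    simp only [of_apply, mul_apply, Finset.sum_mul, Finset.mul_sum, mul_assoc]
  rw [e2]
  exact h1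

end UF

variable {G κ U : Type} [Group G] [Ring κ] [Ring U]

/-- a nontrivial homomorphism to `ℤ` gives a surjective one with the same kernel -/
lemma exists_surj {H : Type} [Group H] (f : H →* Multiplicative ℤ) (hf : f ≠ 1) :
    ∃ (φ : H →* Multiplicative ℤ) (t : H), φ t = Multiplicative.ofAdd 1 ∧ φ.ker = f.ker := by
  set F : Additive H →+ ℤ := MonoidHom.toAdditiveLeft f with hF
  have hFf : ∀ h : H, F (Additive.ofMul h) = Multiplicative.toAdd (f h) := fun h => rfl
  obtain ⟨d, hd⟩ := Int.subgroup_cyclic F.range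
  have hmem : ∀ h : H, ∃ k : ℤ, Multiplicative.toAdd (f h) = k * d := by
    intro h
    have h1 : F (Additive.ofMul h) ∈ F.range := ⟨_, rfl⟩
    rw [hd, AddSubgroup.mem_closure_singleton] at h1
    obtain ⟨k, hk⟩ := h1
    refine ⟨k, ?_⟩
    rw [← hFf, ← hk, smul_eq_mul]
  have hd0 : d ≠ 0 := by
    rintro rfl
    apply hf
    ext h
    obtain ⟨k, hk⟩ := hmem h
    rw [mul_zero] at hk
    exact hk
  choose k hk using hmem
  refine ⟨⟨⟨fun h => Multiplicative.ofAdd (k h), ?_⟩, ?_⟩, ?_⟩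
  · have h1 := hk 1
    rw [map_one] at h1
    have h2 : (0 : ℤ) = k 1 * d := h1
    have h3 : k 1 = 0 := by
      rcases mul_eq_zero.mp h2.symm with h | h
      · exact h
      · exact absurd h hd0
    show Multiplicative.ofAdd (k 1) = 1
    rw [h3]
    rfl
  · intro a b
    have h1 := hk (a * b)
    rw [map_mul, toAdd_mul, hk a, hk b, ← add_mul] at h1
    show Multiplicative.ofAdd (k (a * b)) = Multiplicative.ofAdd (k a) * Multiplicative.ofAdd (k b)
    rw [← ofAdd_add, ← mul_right_cancel₀ hd0 h1]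
  · have hdr : d ∈ F.range := by
      rw [hd, AddSubgroup.mem_closure_singleton]
      exact ⟨1, one_smul _ _⟩
    obtain ⟨t, ht⟩ := hdr
    refine ⟨Additive.toMul t, ?_, ?_⟩
    · show Multiplicative.ofAdd (k (Additive.toMul t)) = Multiplicative.ofAdd 1
      have h1 := hk (Additive.toMul t)
      have h2 : Multiplicative.toAdd (f (Additive.toMul t)) = d := ht
      rw [h2] at h1
      have h3 : (1 : ℤ) * d = k (Additive.toMul t) * d := by rw [one_mul]; exact h1
      rw [← mul_right_cancel₀ hd0 h3]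
    · ext h
      rw [MonoidHom.mem_ker, MonoidHom.mem_ker]
      show Multiplicative.ofAdd (k h) = 1 ↔ f h = 1
      constructor
      · intro h1
        have h2 : k h = 0 := h1
        have h3 := hk h
        rw [h2, zero_mul] at h3
        exact h3
      · intro h1
        have h3 := hk h
        rw [h1] at h3
        have h4 : (0 : ℤ) = k h * d := h3
        rcases mul_eq_zero.mp h4.symm with h5 | h5
        · show Multiplicative.ofAdd (k h) = 1
          rw [h5]
          rfl
        · exact absurd h5 hd0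

/-- Main algebraic theorem. -/
theorem main_alg (D : Dat G κ U)
    (hF : ∀ (H : Subgroup G) (φ : H →* Multiplicative ℤ) (t : H),
      φ t = Multiplicative.ofAdd 1 → ∀ (J : Type) [Fintype J] [DecidableEq J] (M0 M1 : Matrix J J U),
      (∀ i j, M0 i j ∈ SN D (φ.ker.map H.subtype)) → (∀ i j, M1 i j ∈ SN D (φ.ker.map H.subtype)) →
      IsUnit M0 → IsUnit (M0 + of fun i j => M1 i j * D.ι (t : G)))
    (hE : ∀ (n : ℕ) (β : Matrix (Fin n) (Fin n) U) (b c v : Fin n → U), IsUnit (1 - β) →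
      (∀ i, v i = ∑ j, β i j * v j + b i) → (∀ k : ℕ, ∑ i, c i * ((β ^ k) *ᵥ b) i = 0) →
      ∑ i, c i * v i = 0)
    (hbase : ∀ H : Subgroup G, H.FG → (∀ f : H →* Multiplicative ℤ, f = 1) →
      ∀ x ∈ RCs (SN D H), x = 0 ∨ IsUnit x) :
    ∀ E : Ex G κ, E.val D = 0 ∨ IsUnit (E.val D) := by
  obtain ⟨O, ⟨hO⟩⟩ := exists_CxS
  have main : ∀ α : O, ∀ E : Ex G κ, cy O E = α → E.val D = 0 ∨ IsUnit (E.val D) := by
    intro α
    induction α using hO.wf.induction with
    | _ α IH =>
      intro E hE0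
      have IH' : ∀ E' : Ex G κ, cy O E' < cy O E → E'.val D = 0 ∨ IsUnit (E'.val D) := by
        intro E' hlt
        rw [hE0] at hlt
        exact IH _ hlt E' rfl
      set H : Subgroup G := Subgroup.closure E.supp with hH
      have hHE : ∀ u ∈ E.supp, u ∈ H := fun u hu => Subgroup.subset_closure hu
      have hfg : H.FG := by
        rw [Subgroup.fg_iff]
        exact ⟨E.supp, rfl, supp_finite E⟩
      by_cases hf : ∀ f : H →* Multiplicative ℤ, f = 1
      · exact hbase H hfg hf _ (val_mem_RCs D hHE)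
      push Not at hf
      obtain ⟨f, hf⟩ := hf
      obtain ⟨φ, t, ht, hker⟩ := exists_surj f hf
      classical
      set N : Subgroup G := φ.ker.map H.subtype with hNdef
      have memN : ∀ g : G, g ∈ N ↔ ∃ h : g ∈ H, φ ⟨g, h⟩ = 1 := by
        intro g
        rw [hNdef, Subgroup.mem_map]
        constructor
        · rintro ⟨h, h1, rfl⟩
          exact ⟨h.2, h1⟩
        · rintro ⟨h, h1⟩
          exact ⟨⟨g, h⟩, h1, rfl⟩
      set dg : G → ℤ := fun u => if h : u ∈ H then Multiplicative.toAdd (φ ⟨u, h⟩) else 0 with hdg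
      have S : Setup D H N (t : G) dg := by
        refine ⟨?_, ?_, ?_, ?_, hE⟩
        · intro n hn
          obtain ⟨h1, h2⟩ := (memN n).mp hn
          rw [memN]
          refine ⟨H.mul_mem (H.mul_mem t.2 h1) (H.inv_mem t.2), ?_⟩
          have : (⟨(t : G) * n * (t : G)⁻¹, H.mul_mem (H.mul_mem t.2 h1) (H.inv_mem t.2)⟩ : H)
              = t * ⟨n, h1⟩ * t⁻¹ := rfl
          rw [this, map_mul, map_mul, h2, mul_one, ← map_mul, mul_inv_cancel, map_one]
        · intro n hn
          obtain ⟨h1, h2⟩ := (memN n).mp hn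
          rw [memN]
          refine ⟨H.mul_mem (H.mul_mem (H.inv_mem t.2) h1) t.2, ?_⟩
          have : (⟨(t : G)⁻¹ * n * (t : G), H.mul_mem (H.mul_mem (H.inv_mem t.2) h1) t.2⟩ : H)
              = t⁻¹ * ⟨n, h1⟩ * t := rfl
          rw [this, map_mul, map_mul, h2, mul_one, ← map_mul, inv_mul_cancel, map_one]
        · intro u hu
          rw [memN]
          have hm : u * (t : G) ^ (-dg u) ∈ H := H.mul_mem hu (H.zpow_mem t.2 _)
          refine ⟨hm, ?_⟩
          have : (⟨u * (t : G) ^ (-dg u), hm⟩ : H) = ⟨u, hu⟩ * t ^ (-dg u) := by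
            apply Subtype.ext
            simp
          rw [this, map_mul, map_zpow, ht]
          have e : dg u = Multiplicative.toAdd (φ ⟨u, hu⟩) := by
            simp only [hdg]
            rw [dif_pos hu]
          rw [e]
          apply Multiplicative.toAdd.injective
          rw [toAdd_mul, toAdd_zpow, toAdd_ofAdd, toAdd_one, smul_eq_mul]
          ring
        · exact UF_of _ _ fun J _ _ M0 M1 h0 h1 hu => hF H φ t ht J M0 M1 h0 h1 hu
      apply dichotomy_step S E IH' hHE
      intro hall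
      -- then `φ` would be trivial
      have h1 : H ≤ N := by
        rw [hH, Subgroup.closure_le]
        exact hall
      obtain ⟨h2, h3⟩ := (memN t).mp (h1 t.2)
      have h4 : (⟨(t : G), h2⟩ : H) = t := rfl
      rw [h4, ht] at h3
      have h5 : (1 : ℤ) = 0 := h3
      exact one_ne_zero h5
  intro E
  exact main _ E rfl

/-- the division ring of values -/
theorem exists_div (D : Dat G κ U) (h : ∀ E : Ex G κ, E.val D = 0 ∨ IsUnit (E.val D)) :
    ∃ 𝓓 : Subring U, (∀ c, D.sc c ∈ 𝓓) ∧ (∀ g, D.ι g ∈ 𝓓) ∧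
      ∀ x ∈ 𝓓, x = 0 ∨ ∃ y ∈ 𝓓, x * y = 1 ∧ y * x = 1 := by
  obtain ⟨O, ⟨hO⟩⟩ := exists_CxS
  have hN : ∀ n ∈ (⊤ : Subgroup G), (1 : G) * n * (1 : G)⁻¹ ∈ (⊤ : Subgroup G) :=
    fun _ _ => Subgroup.mem_top _
  have hN' : ∀ n ∈ (⊤ : Subgroup G), (1 : G)⁻¹ * n * (1 : G) ∈ (⊤ : Subgroup G) :=
    fun _ _ => Subgroup.mem_top _
  set 𝓓 : Subring U :=
    { carrier := {x | ∃ α : O, Cf D O ⊤ 1 0 α x}
      mul_mem' := by
        rintro a b ⟨α, ha⟩ ⟨β, hb⟩
        exact ⟨α * β, Cf_mul D hN hN' ha hb⟩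
      one_mem' := ⟨1, Or.inr ⟨Ex.sc 1, 1, fun u hu => absurd hu (Set.notMem_empty u), le_refl _,
        Subgroup.mem_top _, by
          show (1 : U) = D.sc 1 * D.ι _
          rw [_root_.one_zpow, mul_one, map_one, map_one, mul_one]⟩⟩
      add_mem' := by
        rintro a b ⟨α, ha⟩ ⟨β, hb⟩
        exact ⟨α + β, Cf_add D ha hb⟩
      zero_mem' := ⟨0, Cf_zero D _ _⟩
      neg_mem' := by
        rintro a ⟨α, ha⟩
        exact ⟨α, Cf_neg D ha⟩ } with h𝓓
  refine ⟨𝓓, ?_, ?_, ?_⟩
  · intro c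
    refine ⟨1, Or.inr ⟨Ex.sc c, 1, fun u hu => absurd hu (Set.notMem_empty u), le_refl _,
        Subgroup.mem_top _, ?_⟩⟩
    show D.sc c = D.sc c * D.ι _
    rw [_root_.one_zpow, mul_one, map_one, mul_one]
  · intro g
    refine ⟨1, Or.inr ⟨Ex.sc 1, g, fun u hu => absurd hu (Set.notMem_empty u), le_refl _,
        Subgroup.mem_top _, ?_⟩⟩
    show D.ι g = D.sc 1 * D.ι _
    rw [_root_.one_zpow, mul_one, map_one, one_mul]
  · rintro x ⟨α, hx⟩
    have hx' := hx
    rcases hx with rfl | ⟨E, g, _, _, _, h4⟩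
    · exact Or.inl rfl
    rcases h E with h5 | h5
    · left
      rw [h4, h5, zero_mul]
    · right
      have hu : IsUnit x := by
        rw [h4]
        exact h5.mul (D.isUnit_ι _)
      have hinv := Cf_inv D hN hN' hx'
      rw [neg_zero] at hinv
      exact ⟨Ring.inverse x, ⟨_, hinv⟩, Ring.mul_inverse_cancel x hu,
        Ring.inverse_mul_cancel x hu⟩

end Pool.Agent.HX
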