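import Pool.Agent.HX.NHDef
import Pool.Agent.HX.Rank
import Pool.Agent.VN.Ind

set_option autoImplicit false
set_option linter.unusedSectionVars false

noncomputable section

open scoped InnerProductSpace ENNReal Topology
open Classical Filter Matrix
open Pool.Agent.VN

namespace Pool.Agent.HX

variable {G : Type} [Group G]

/-! ### coordinate projections and inclusions -/

lemma prN_apply {n : Type} (j : n) (x : L2 n G) (u : Unit) (g : G) :
    prN j x (u, g) = x (j, g) := rfl

lemma prN_ext {n : Type} {x y : L2 n G} (h : ∀ j, prN j x = prN j y) : x = y := by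
  ext p
  obtain ⟨j, g⟩ := p
  have h1 := congrArg (fun z : L2 Unit G => z ((), g)) (h j)
  exact h1

lemma inN_apply {n : Type} (i j : n) (y : L2 Unit G) (g : G) :
    inN j y (i, g) = if i = j then y ((), g) else 0 := by
  by_cases h : i = j
  · subst h
    rw [if_pos rfl]
    exact push_apply (fun p : Unit × G => (i, p.2)) _ y ((), g)
  · rw [if_neg h]
    apply push_apply_of_notMem
    rintro ⟨_, a⟩ ha
    exact h (congrArg Prod.fst ha).symm

lemma prN_inN {n : Type} (i j : n) (y : L2 Unit G) :
    prN i (inN j y) = if i = j then y else 0 := by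
  ext p
  obtain ⟨_, g⟩ := p
  rw [prN_apply, inN_apply]
  by_cases h : i = j
  · rw [if_pos h, if_pos h]
  · rw [if_neg h, if_neg h]
    rfl

lemma prN_equivar {n : Type} (j : n) : Equivar (prN j : L2 n G →L[ℂ] L2 Unit G) := by
  intro s x
  ext p
  obtain ⟨_, g⟩ := p
  rfl

lemma inN_equivar {n : Type} (j : n) : Equivar (inN j : L2 Unit G →L[ℂ] L2 n G) := by
  intro s x
  ext p
  obtain ⟨i, g⟩ := p
  have e : (lt s (inN j x)) (i, g) = (inN j x) (i, s⁻¹ * g) := rfl
  rw [e, inN_apply, inN_apply]
  rfl

lemma prN_op {m n : Type} [Fintype m] [Fintype n] (A : Matrix m n (NG G)) (x : L2 n G) (i : m) :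
    prN i (op A x) = ∑ j, (A i j : L2 Unit G →L[ℂ] L2 Unit G) (prN j x) := by
  unfold op
  rw [_root_.sum_apply, map_sum, Finset.sum_eq_single i]
  · rw [_root_.sum_apply, map_sum]
    refine Finset.sum_congr rfl fun j _ => ?_
    rw [ContinuousLinearMap.comp_apply, ContinuousLinearMap.comp_apply, prN_inN, if_pos rfl]
  · intro i' _ hi'
    rw [_root_.sum_apply, map_sum]
    refine Finset.sum_eq_zero fun j _ => ?_
    rw [ContinuousLinearMap.comp_apply, ContinuousLinearMap.comp_apply, prN_inN,
      if_neg (Ne.symm hi')]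
  · intro h
    exact absurd (Finset.mem_univ _) h

theorem op_apply {m n : Type} [Fintype m] [Fintype n] (A : Matrix m n (NG G)) (x : L2 n G)
    (i : m) (g : G) :
    op A x (i, g) = ∑ j, ((A i j : L2 Unit G →L[ℂ] L2 Unit G) (prN j x)) ((), g) := by
  have h := congrArg (fun z : L2 Unit G => z ((), g)) (prN_op A x i)
  simp only [lp.coeFn_sum, Finset.sum_apply] at h
  exact h

theorem op_equivar {m n : Type} [Fintype m] [Fintype n] (A : Matrix m n (NG G)) :
    Equivar (op A) :=
  Equivar.sum _ fun i _ => Equivar.sum _ fun j _ =>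
    (inN_equivar i).comp (Equivar.comp (A i j).2 (prN_equivar j))

theorem op_mul {l m n : Type} [Fintype l] [Fintype m] [Fintype n] (A : Matrix l m (NG G))
    (B : Matrix m n (NG G)) : op (A * B) = op A ∘L op B := by
  ext1 x
  apply prN_ext
  intro i
  rw [ContinuousLinearMap.comp_apply, prN_op, prN_op]
  have h1 : ∀ k, (((A * B) i k : NG G) : L2 Unit G →L[ℂ] L2 Unit G) (prN k x)
      = ∑ j, (A i j : L2 Unit G →L[ℂ] L2 Unit G) ((B j k : L2 Unit G →L[ℂ] L2 Unit G)
        (prN k x)) := by
    intro k
    rw [Matrix.mul_apply, AddSubmonoidClass.coe_finsetSum, _root_.sum_apply]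
    rfl
  rw [Finset.sum_congr rfl fun k _ => h1 k, Finset.sum_comm]
  refine Finset.sum_congr rfl fun j _ => ?_
  rw [prN_op, map_sum]

theorem op_one {n : Type} [Fintype n] [DecidableEq n] : op (1 : Matrix n n (NG G)) = 1 := by
  ext1 x
  apply prN_ext
  intro i
  rw [prN_op, Finset.sum_eq_single i]
  · rw [Matrix.one_apply_eq]
    rfl
  · intro j _ hj
    rw [Matrix.one_apply_ne (Ne.symm hj)]
    rfl
  · intro h
    exact absurd (Finset.mem_univ _) h

theorem op_add {m n : Type} [Fintype m] [Fintype n] (A B : Matrix m n (NG G)) :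
    op (A + B) = op A + op B := by
  ext1 x
  apply prN_ext
  intro i
  rw [_root_.add_apply, map_add, prN_op, prN_op, prN_op, ← Finset.sum_add_distrib]
  rfl

theorem op_sub {m n : Type} [Fintype m] [Fintype n] (A B : Matrix m n (NG G)) :
    op (A - B) = op A - op B := by
  ext1 x
  apply prN_ext
  intro i
  rw [_root_.sub_apply, map_sub, prN_op, prN_op, prN_op, ← Finset.sum_sub_distrib]
  rfl

lemma sum_inN_prN {n : Type} [Fintype n] (x : L2 n G) : ∑ j, inN j (prN j x) = x := by
  apply prN_ext
  intro i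
  rw [map_sum, Finset.sum_eq_single i]
  · rw [prN_inN, if_pos rfl]
  · intro j _ hj
    rw [prN_inN, if_neg (Ne.symm hj)]
  · intro h
    exact absurd (Finset.mem_univ _) h

/-- every equivariant operator is the operator of a matrix -/
theorem exists_op {m n : Type} [Fintype m] [Fintype n] (T : L2 n G →L[ℂ] L2 m G)
    (hT : Equivar T) : ∃ A : Matrix m n (NG G), op A = T := by
  refine ⟨Matrix.of fun i j => ⟨(prN i) ∘L T ∘L (inN j),
    (prN_equivar i).comp (hT.comp (inN_equivar j))⟩, ?_⟩
  ext1 x
  apply prN_ext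
  intro i
  rw [prN_op]
  have h : T x = ∑ j, T (inN j (prN j x)) := by
    rw [← map_sum, sum_inN_prN]
  rw [h, map_sum]
  rfl

/-! ### block matrices -/

/-- the projection to the coordinates given by an injection of the index sets -/
def pullM {n n' : Type} (e : n → n') (he : Function.Injective e) : L2 n' G →L[ℂ] L2 n G :=
  pull (fun p : n × G => (e p.1, p.2)) (by
    rintro ⟨a, b⟩ ⟨c, d⟩ h
    simp only [Prod.mk.injEq] at h
    exact Prod.ext (he h.1) h.2)

/-- the inclusion of the coordinates given by an injection of the index sets -/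
def pushM {n n' : Type} (e : n → n') (he : Function.Injective e) : L2 n G →L[ℂ] L2 n' G :=
  push (fun p : n × G => (e p.1, p.2)) (by
    rintro ⟨a, b⟩ ⟨c, d⟩ h
    simp only [Prod.mk.injEq] at h
    exact Prod.ext (he h.1) h.2)

lemma prN_pullM {n n' : Type} (e : n → n') (he : Function.Injective e) (x : L2 n' G) (j : n) :
    prN j (pullM e he x) = prN (e j) x := rfl

lemma prN_pushM {n n' : Type} (e : n → n') (he : Function.Injective e) (x : L2 n G) (j : n) :
    prN (e j) (pushM e he x) = prN j x := by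
  ext p
  obtain ⟨_, g⟩ := p
  exact push_apply (fun p : n × G => (e p.1, p.2)) _ x (j, g)

lemma prN_pushM_of_notMem {n n' : Type} (e : n → n') (he : Function.Injective e) (x : L2 n G)
    (k : n') (hk : ∀ j, e j ≠ k) : prN k (pushM e he x) = 0 := by
  ext p
  obtain ⟨_, g⟩ := p
  apply push_apply_of_notMem
  rintro ⟨a, b⟩ h
  exact hk a (congrArg Prod.fst h)

lemma pullM_pushM {n n' : Type} (e : n → n') (he : Function.Injective e) (x : L2 n G) :
    pullM e he (pushM e he x) = x := by
  apply prN_ext
  intro j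
  rw [prN_pullM, prN_pushM]

lemma pullM_equivar {n n' : Type} (e : n → n') (he : Function.Injective e) :
    Equivar (pullM e he : L2 n' G →L[ℂ] L2 n G) := by
  intro s x
  ext p
  obtain ⟨_, g⟩ := p
  rfl

lemma pushM_equivar {n n' : Type} (e : n → n') (he : Function.Injective e) :
    Equivar (pushM e he : L2 n G →L[ℂ] L2 n' G) := by
  intro s x
  apply prN_ext
  intro k
  by_cases hk : ∃ j, e j = k
  · obtain ⟨j, rfl⟩ := hk
    rw [prN_pushM, prN_equivar, prN_equivar, prN_pushM]
  · push Not at hk
    rw [prN_pushM_of_notMem _ _ _ _ hk, prN_equivar, prN_pushM_of_notMem _ _ _ _ hk, map_zero]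

section Blocks

variable {m n p q : Type} [Fintype m] [Fintype n] [Fintype p] [Fintype q]

/-- the first projection -/
abbrev pj1 : L2 (n ⊕ q) G →L[ℂ] L2 n G := pullM Sum.inl Sum.inl_injective

/-- the second projection -/
abbrev pj2 : L2 (n ⊕ q) G →L[ℂ] L2 q G := pullM Sum.inr Sum.inr_injective

lemma mem_ker_blocks (A : Matrix m n (NG G)) (B : Matrix m q (NG G)) (C : Matrix p n (NG G))
    (D : Matrix p q (NG G)) (x : L2 (n ⊕ q) G) :
    op (fromBlocks A B C D) x = 0 ↔
      op A (pj1 x) + op B (pj2 x) = 0 ∧ op C (pj1 x) + op D (pj2 x) = 0 := by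
  have h1 : ∀ i, prN (Sum.inl i) (op (fromBlocks A B C D) x)
      = prN i (op A (pj1 x) + op B (pj2 x)) := by
    intro i
    rw [prN_op, Fintype.sum_sum_type, map_add, prN_op, prN_op]
    rfl
  have h2 : ∀ i, prN (Sum.inr i) (op (fromBlocks A B C D) x)
      = prN i (op C (pj1 x) + op D (pj2 x)) := by
    intro i
    rw [prN_op, Fintype.sum_sum_type, map_add, prN_op, prN_op]
    rfl
  constructor
  · intro h
    constructor
    · apply prN_ext
      intro i
      rw [← h1, h, map_zero, map_zero]
    · apply prN_ext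
      intro i
      rw [← h2, h, map_zero, map_zero]
  · rintro ⟨h3, h4⟩
    apply prN_ext
    rintro (i | i)
    · rw [h1, h3, map_zero, map_zero]
    · rw [h2, h4, map_zero, map_zero]

lemma ker_closed {ι κ : Type} (T : L2 ι G →L[ℂ] L2 κ G) :
    IsClosed ((LinearMap.ker T.toLinearMap : Submodule ℂ (L2 ι G)) : Set (L2 ι G)) :=
  T.isClosed_ker

lemma op_zero_apply (x : L2 n G) : op (0 : Matrix m n (NG G)) x = 0 := by
  apply prN_ext
  intro i
  rw [prN_op, map_zero]
  exact Finset.sum_eq_zero fun j _ => rfl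

/-- the dimension of the part of the kernel of a block matrix on which the second coordinate
vanishes -/
lemma vdim_ker_inf (A : Matrix m n (NG G)) (C : Matrix m q (NG G)) (D : Matrix p q (NG G)) :
    vdim ((LinearMap.ker (op (fromBlocks A C 0 D)).toLinearMap ⊓
        LinearMap.ker (pj2 : L2 (n ⊕ q) G →L[ℂ] L2 q G).toLinearMap :
          Submodule ℂ (L2 (n ⊕ q) G)) : Set (L2 (n ⊕ q) G))
      = vdim ((LinearMap.ker (op A).toLinearMap : Submodule ℂ (L2 n G)) : Set (L2 n G)) := by
  have h := vdim_map (pushM_equivar (Sum.inl : n → n ⊕ q) Sum.inl_injective)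
    (Invar.ker (op_equivar A)) (ker_closed (op A))
  have e1 : LinearMap.ker (op A).toLinearMap ⊓
      LinearMap.ker (pushM (Sum.inl : n → n ⊕ q) Sum.inl_injective :
        L2 n G →L[ℂ] L2 (n ⊕ q) G).toLinearMap = ⊥ := by
    rw [Submodule.eq_bot_iff]
    rintro x ⟨_, h2⟩
    have h3 : pushM (Sum.inl : n → n ⊕ q) Sum.inl_injective x = 0 := h2
    rw [← pullM_pushM (Sum.inl : n → n ⊕ q) Sum.inl_injective x, h3, map_zero]
  have e2 : (LinearMap.ker (op A).toLinearMap).map
      (pushM (Sum.inl : n → n ⊕ q) Sum.inl_injective :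
        L2 n G →L[ℂ] L2 (n ⊕ q) G).toLinearMap
      = LinearMap.ker (op (fromBlocks A C 0 D)).toLinearMap ⊓
        LinearMap.ker (pj2 : L2 (n ⊕ q) G →L[ℂ] L2 q G).toLinearMap := by
    ext y
    constructor
    · rintro ⟨x, hx, rfl⟩
      have hx' : op A x = 0 := hx
      have h0 : pj2 (pushM (Sum.inl : n → n ⊕ q) Sum.inl_injective x) = 0 := by
        apply prN_ext
        intro j
        rw [prN_pullM, prN_pushM_of_notMem _ _ _ _ (fun j => Sum.inl_ne_inr), map_zero]
      refine ⟨?_, h0⟩
      show op (fromBlocks A C 0 D) (pushM (Sum.inl : n → n ⊕ q) Sum.inl_injective x) = 0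
      rw [mem_ker_blocks, h0, pullM_pushM, hx', map_zero, map_zero, add_zero, op_zero_apply,
        add_zero]
      exact ⟨rfl, rfl⟩
    · rintro ⟨h1, h2⟩
      have h1' : op (fromBlocks A C 0 D) y = 0 := h1
      have h2' : pj2 y = 0 := h2
      rw [mem_ker_blocks, h2', map_zero, add_zero] at h1'
      refine ⟨pj1 y, h1'.1, ?_⟩
      show pushM (Sum.inl : n → n ⊕ q) Sum.inl_injective (pj1 y) = y
      apply prN_ext
      rintro (j | j)
      · rw [prN_pushM, prN_pullM]
      · rw [prN_pushM_of_notMem _ _ _ _ (fun j => Sum.inl_ne_inr)]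
        have h3 := congrArg (prN j) h2'
        rw [prN_pullM, map_zero] at h3
        exact h3.symm
  rw [e1, e2, vdim_bot, add_zero] at h
  exact h

lemma vdim_ker_blocks_le (A : Matrix m n (NG G)) (C : Matrix m q (NG G))
    (D : Matrix p q (NG G)) :
    vdim ((LinearMap.ker (op (fromBlocks A C 0 D)).toLinearMap :
        Submodule ℂ (L2 (n ⊕ q) G)) : Set (L2 (n ⊕ q) G))
      ≤ vdim ((LinearMap.ker (op A).toLinearMap : Submodule ℂ (L2 n G)) : Set (L2 n G))
        + vdim ((LinearMap.ker (op D).toLinearMap : Submodule ℂ (L2 q G)) : Set (L2 q G)) := by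
  have h := vdim_map (pullM_equivar (Sum.inr : q → n ⊕ q) Sum.inr_injective)
    (Invar.ker (op_equivar (fromBlocks A C 0 D))) (ker_closed (op (fromBlocks A C 0 D)))
  rw [vdim_ker_inf] at h
  have h2 : (LinearMap.ker (op (fromBlocks A C 0 D)).toLinearMap).map
      (pj2 : L2 (n ⊕ q) G →L[ℂ] L2 q G).toLinearMap ≤ LinearMap.ker (op D).toLinearMap := by
    rintro _ ⟨x, hx, rfl⟩
    have hx' : op (fromBlocks A C 0 D) x = 0 := hx
    rw [mem_ker_blocks] at hx'
    have h3 := hx'.2
    rw [op_zero_apply, zero_add] at h3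
    exact h3
  have h3 := vdim_mono h2
  linarith

lemma vdim_ker_diag_ge (A : Matrix m n (NG G)) (D : Matrix p q (NG G)) :
    vdim ((LinearMap.ker (op A).toLinearMap : Submodule ℂ (L2 n G)) : Set (L2 n G))
        + vdim ((LinearMap.ker (op D).toLinearMap : Submodule ℂ (L2 q G)) : Set (L2 q G))
      ≤ vdim ((LinearMap.ker (op (fromBlocks A 0 0 D)).toLinearMap :
        Submodule ℂ (L2 (n ⊕ q) G)) : Set (L2 (n ⊕ q) G)) := by
  have h := vdim_map (pullM_equivar (Sum.inr : q → n ⊕ q) Sum.inr_injective)
    (Invar.ker (op_equivar (fromBlocks A 0 0 D))) (ker_closed (op (fromBlocks A 0 0 D)))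
  rw [vdim_ker_inf] at h
  have h2 : LinearMap.ker (op D).toLinearMap
      ≤ (LinearMap.ker (op (fromBlocks A 0 0 D)).toLinearMap).map
      (pj2 : L2 (n ⊕ q) G →L[ℂ] L2 q G).toLinearMap := by
    intro y hy
    have hy' : op D y = 0 := hy
    refine ⟨pushM (Sum.inr : q → n ⊕ q) Sum.inr_injective y, ?_, pullM_pushM _ _ y⟩
    show op (fromBlocks A 0 0 D) (pushM (Sum.inr : q → n ⊕ q) Sum.inr_injective y) = 0
    have h0 : pj1 (pushM (Sum.inr : q → n ⊕ q) Sum.inr_injective y) = 0 := by
      apply prN_ext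
      intro j
      rw [prN_pullM, prN_pushM_of_notMem _ _ _ _ (fun j => Sum.inr_ne_inl), map_zero]
    rw [mem_ker_blocks, h0, pullM_pushM, hy', op_zero_apply, op_zero_apply, map_zero]
    simp
  have h3 := vdim_mono h2
  linarith

end Blocks

/-- the rank function of `NG G` -/
theorem exists_rankN (G : Type) [Group G] : ∃ ρ : RankFn (NG G), ∀ {m n : Type} [Fintype m]
    [Fintype n] (A : Matrix m n (NG G)), ρ.rk A = Fintype.card n
      - vdim ((LinearMap.ker (op A).toLinearMap : Submodule ℂ (L2 n G)) : Set (L2 n G)) := by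
  refine ⟨{ rk := fun {m n} _ _ A => Fintype.card n
              - vdim ((LinearMap.ker (op A).toLinearMap : Submodule ℂ (L2 n G)) : Set (L2 n G))
            rk_nonneg := ?_
            rk_mul_le_left := ?_
            rk_mul_le_right := ?_
            rk_one := ?_
            rk_blocks := ?_
            rk_diag := ?_ }, ?_⟩
  · intro m n _ _ A
    have := vdim_le_card (LinearMap.ker (op A).toLinearMap)
    linarith
  · intro l m n _ _ _ A B
    have h1 := rank_nullity (op_equivar A)
    have h2 := rank_nullity (op_equivar (A * B))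
    rw [h1, h2]
    have h3 : LinearMap.ker (ContinuousLinearMap.adjoint (op A)).toLinearMap
        ≤ LinearMap.ker (ContinuousLinearMap.adjoint (op (A * B))).toLinearMap := by
      intro x hx
      have hx' : (ContinuousLinearMap.adjoint (op A)) x = 0 := hx
      show (ContinuousLinearMap.adjoint (op (A * B))) x = 0
      rw [op_mul, ContinuousLinearMap.adjoint_comp, ContinuousLinearMap.comp_apply, hx', map_zero]
    have h4 := vdim_mono h3
    linarith
  · intro l m n _ _ _ A B
    have h3 : LinearMap.ker (op B).toLinearMap ≤ LinearMap.ker (op (A * B)).toLinearMap := by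
      intro x hx
      have hx' : op B x = 0 := hx
      show op (A * B) x = 0
      rw [op_mul, ContinuousLinearMap.comp_apply, hx', map_zero]
    have h4 := vdim_mono h3
    linarith
  · intro n _ _
    rw [op_one]
    have h : LinearMap.ker (1 : L2 n G →L[ℂ] L2 n G).toLinearMap = ⊥ := by
      rw [Submodule.eq_bot_iff]
      intro x hx
      exact hx
    rw [h, vdim_bot, sub_zero]
  · intro m n p q _ _ _ _ A C D
    have h := vdim_ker_blocks_le A C D
    rw [Fintype.card_sum]
    push_cast
    linarith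
  · intro m n p q _ _ _ _ A D
    have h := vdim_ker_diag_ge A D
    rw [Fintype.card_sum]
    push_cast
    linarith
  · intro m n _ _ A
    rfl

lemma grN_apply (a : G →₀ ℂ) (x : L2 Unit G) (g : G) :
    ((grN a : NG G) : L2 Unit G →L[ℂ] L2 Unit G) x ((), g)
      = ∑ h ∈ a.support, a h * x ((), g * h) := by
  unfold grN Finsupp.sum
  rw [AddSubmonoidClass.coe_finsetSum, _root_.sum_apply, lp.coeFn_sum, Finset.sum_apply]
  refine Finset.sum_congr rfl fun h _ => ?_
  show (a h • (elem () ((), h⁻¹) x : L2 Unit G)) ((), g) = _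
  rw [lp.coeFn_smul, Pi.smul_apply, elem_apply, if_pos rfl, smul_eq_mul, inv_inv]

/-- the kernel of the operator of a matrix over the group ring -/
theorem ker_op_gr {m n : Type} [Fintype m] [Fintype n] (a : m → n → (G →₀ ℂ)) :
    LinearMap.ker (op (Matrix.of fun i j => grN (a i j))).toLinearMap
      = Sol (Set.range fun i => ∑ j, (a i j).sum fun g c => Finsupp.single (j, g⁻¹) c) := by
  have key : ∀ (x : L2 n G) (i : m) (g : G),
      op (Matrix.of fun i j => grN (a i j)) x (i, g)
        = ev (∑ j, (a i j).sum fun g c => Finsupp.single (j, g⁻¹) c) x g := by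
    intro x i g
    rw [op_apply, ev_finsetSum]
    refine Finset.sum_congr rfl fun j _ => ?_
    rw [Matrix.of_apply, grN_apply]
    unfold Finsupp.sum
    rw [ev_finsetSum]
    refine Finset.sum_congr rfl fun h _ => ?_
    rw [ev_single, inv_inv, prN_apply]
  ext x
  rw [mem_Sol]
  constructor
  · intro h c hc g
    obtain ⟨i, rfl⟩ := hc
    have h' : op (Matrix.of fun i j => grN (a i j)) x = 0 := h
    have h2 := key x i g
    rw [h'] at h2
    exact h2.symm
  · intro h
    show op (Matrix.of fun i j => grN (a i j)) x = 0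
    ext q
    obtain ⟨i, g⟩ := q
    rw [key, h _ ⟨i, rfl⟩]
    rfl

end Pool.Agent.HX
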