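import Pool.Agent.HX.Rank

set_option autoImplicit false

open Matrix Filter Topology

/-!
Limits of rank functions along an ultrafilter, and the quotient by the elements of rank zero.
-/

namespace Pool.Agent.HX

/-- the limit of the ranks exists -/
theorem limit_aux {J : Type*} (𝒰 : Ultrafilter J) {R : J → Type*} [∀ j, Ring (R j)]
    (ρ : ∀ j, RankFn (R j)) {m n : Type} [Fintype m] [Fintype n]
    (A : Matrix m n (∀ j, R j)) :
    ∃ x : ℝ, Tendsto (fun j => (ρ j).rk (A.map fun x => x j)) 𝒰 (𝓝 x) := by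
  have hc : IsCompact (Set.Icc (0 : ℝ) (Fintype.card n)) := isCompact_Icc
  obtain ⟨x, -, hx⟩ := hc.ultrafilter_le_nhds'
    (𝒰.map (fun j => (ρ j).rk (A.map fun x => x j))) (by
      rw [Ultrafilter.mem_map]
      refine Filter.Eventually.of_forall fun j => ?_
      exact ⟨(ρ j).rk_nonneg _, (ρ j).rk_le_card _⟩)
  exact ⟨x, hx⟩

/-- limits of rank functions -/
theorem exists_limit {J : Type*} (𝒰 : Ultrafilter J) {R : J → Type*} [∀ j, Ring (R j)]
    (ρ : ∀ j, RankFn (R j)) : ∃ ρ' : RankFn (∀ j, R j), ∀ {m n : Type} [Fintype m] [Fintype n]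
      (A : Matrix m n (∀ j, R j)),
      Tendsto (fun j => (ρ j).rk (A.map fun x => x j)) 𝒰 (𝓝 (ρ'.rk A)) := by
  classical
  have key := fun {m n : Type} [Fintype m] [Fintype n] (A : Matrix m n (∀ j, R j)) =>
    Classical.choose_spec (limit_aux 𝒰 ρ A)
  have hmul : ∀ {l m n : Type} [Fintype m] (A : Matrix l m (∀ j, R j))
      (B : Matrix m n (∀ j, R j)) (j : J), (A * B).map (fun x => x j) =
        A.map (fun x => x j) * B.map (fun x => x j) := by
    intro l m n _ A B j
    ext a b
    simp [Matrix.mul_apply]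
  refine ⟨{ rk := fun {m n} _ _ A => Classical.choose (limit_aux 𝒰 ρ A)
            rk_nonneg := ?_, rk_mul_le_left := ?_, rk_mul_le_right := ?_, rk_one := ?_,
            rk_blocks := ?_, rk_diag := ?_ }, ?_⟩
  · intro m n _ _ A
    exact ge_of_tendsto' (key A) fun j => (ρ j).rk_nonneg _
  · intro l m n _ _ _ A B
    refine le_of_tendsto_of_tendsto' (key (A * B)) (key A) fun j => ?_
    rw [hmul]
    exact (ρ j).rk_mul_le_left _ _
  · intro l m n _ _ _ A B
    refine le_of_tendsto_of_tendsto' (key (A * B)) (key B) fun j => ?_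
    rw [hmul]
    exact (ρ j).rk_mul_le_right _ _
  · intro n _ _
    refine tendsto_nhds_unique (key (1 : Matrix n n (∀ j, R j))) ?_
    refine tendsto_const_nhds.congr fun j => ?_
    rw [← (ρ j).rk_one (n := n)]
    congr 1
    ext a b
    by_cases h : a = b
    · subst h; simp
    · simp [h]
  · intro m n p q _ _ _ _ A C D
    refine le_of_tendsto_of_tendsto' ((key A).add (key D)) (key (fromBlocks A C 0 D)) fun j => ?_
    rw [fromBlocks_map]
    have h0 : (0 : Matrix p n (∀ j, R j)).map (fun x => x j) = 0 := by ext a b; simp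
    rw [h0]
    exact (ρ j).rk_blocks _ _ _
  · intro m n p q _ _ _ _ A D
    refine le_of_tendsto_of_tendsto' (key (fromBlocks A 0 0 D)) ((key A).add (key D)) fun j => ?_
    rw [fromBlocks_map]
    have h0 : (0 : Matrix p n (∀ j, R j)).map (fun x => x j) = 0 := by ext a b; simp
    have h1 : (0 : Matrix m q (∀ j, R j)).map (fun x => x j) = 0 := by ext a b; simp
    rw [h0, h1]
    exact (ρ j).rk_diag _ _
  · intro m n _ _ A
    exact key A

/-- matrices whose entries agree modulo rank zero have the same rank -/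
theorem rk_congr {R : Type} [Ring R] (ρ : RankFn R) {m n : Type} [Fintype m] [Fintype n]
    (A B : Matrix m n R) (h : ∀ i j, ρ.rk (one1 (A i j - B i j)) = 0) : ρ.rk A = ρ.rk B := by
  have aux : ∀ A B : Matrix m n R, (∀ i j, ρ.rk (one1 (A i j - B i j)) = 0) → ρ.rk A ≤ ρ.rk B := by
    intro A B h
    have h1 : A = B + (A - B) := by abel
    have h2 : ρ.rk (A - B) ≤ 0 := by
      refine (ρ.rk_le_sum (A - B)).trans (le_of_eq ?_)
      refine Finset.sum_eq_zero fun i _ => Finset.sum_eq_zero fun j _ => ?_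
      exact h i j
    calc ρ.rk A = ρ.rk (B + (A - B)) := by rw [← h1]
      _ ≤ ρ.rk B + ρ.rk (A - B) := ρ.rk_add_le _ _
      _ ≤ ρ.rk B := by linarith
  refine le_antisymm (aux A B h) (aux B A fun i j => ?_)
  have h3 : (one1 (B i j - A i j) : Matrix Unit Unit R) = -one1 (A i j - B i j) := by
    ext; simp [one1]
  rw [h3, ρ.rk_neg, h i j]

/-- quotient by the elements of rank zero -/
theorem exists_quotient {R : Type} [Ring R] (ρ : RankFn R) :
    ∃ (U : Type) (_ : Ring U) (f : R →+* U) (ρ' : RankFn U), Function.Surjective f ∧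
      (∀ {m n : Type} [Fintype m] [Fintype n] (A : Matrix m n R), ρ'.rk (A.map f) = ρ.rk A) ∧
      ρ'.Faithful := by
  classical
  let I : TwoSidedIdeal R := TwoSidedIdeal.mk' {x : R | ρ.rk (one1 x) = 0}
    (by
      show ρ.rk (one1 (0 : R)) = 0
      have : (one1 (0 : R)) = 0 := by ext; simp [one1]
      rw [this, ρ.rk_zero])
    (by
      intro x y hx hy
      have hx' : ρ.rk (one1 x) = 0 := hx
      have hy' : ρ.rk (one1 y) = 0 := hy
      show ρ.rk (one1 (x + y)) = 0
      have h : (one1 (x + y)) = one1 x + one1 y := by ext; simp [one1]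
      refine le_antisymm ?_ (ρ.rk_nonneg _)
      rw [h]
      refine (ρ.rk_add_le _ _).trans ?_
      rw [hx', hy', add_zero])
    (by
      intro x hx
      have hx' : ρ.rk (one1 x) = 0 := hx
      show ρ.rk (one1 (-x)) = 0
      have h : (one1 (-x)) = -one1 x := by ext; simp [one1]
      rw [h, ρ.rk_neg, hx'])
    (by
      intro x y hy
      have hy' : ρ.rk (one1 y) = 0 := hy
      show ρ.rk (one1 (x * y)) = 0
      have h : (one1 (x * y)) = one1 x * one1 y := by ext; simp [one1, Matrix.mul_apply]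
      refine le_antisymm ?_ (ρ.rk_nonneg _)
      rw [h, ← hy']
      exact ρ.rk_mul_le_right _ _)
    (by
      intro x y hx
      have hx' : ρ.rk (one1 x) = 0 := hx
      show ρ.rk (one1 (x * y)) = 0
      have h : (one1 (x * y)) = one1 x * one1 y := by ext; simp [one1, Matrix.mul_apply]
      refine le_antisymm ?_ (ρ.rk_nonneg _)
      rw [h, ← hx']
      exact ρ.rk_mul_le_left _ _)
  have hmem : ∀ x : R, x ∈ I ↔ ρ.rk (one1 x) = 0 := by
    intro x
    exact TwoSidedIdeal.mem_mk' _ _ _ _ _ _ x
  let U := I.ringCon.Quotient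
  let f : R →+* U := I.ringCon.mk'
  have hf : Function.Surjective f := RingCon.mk'_surjective _
  have hker : ∀ x y : R, f x = f y ↔ ρ.rk (one1 (x - y)) = 0 := by
    intro x y
    rw [← hmem, ← TwoSidedIdeal.rel_iff]
    exact RingCon.eq _
  let g : U → R := Function.surjInv hf
  have hg : ∀ u, f (g u) = u := Function.surjInv_eq hf
  have hlift : ∀ {m n : Type} [Fintype m] [Fintype n] (A : Matrix m n R) (B : Matrix m n U),
      A.map f = B → ρ.rk (B.map g) = ρ.rk A := by
    intro m n _ _ A B h
    refine rk_congr ρ _ _ fun i j => ?_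
    rw [← hker]
    have : B i j = f (A i j) := by rw [← h]; rfl
    show f (g (B i j)) = f (A i j)
    rw [hg, this]
  have hmapg : ∀ {m n : Type} (B : Matrix m n U), (B.map g).map f = B := by
    intro m n B
    ext i j
    exact hg _
  refine ⟨U, inferInstance, f, { rk := fun {m n} _ _ A => ρ.rk (A.map g)
                                 rk_nonneg := ?_, rk_mul_le_left := ?_, rk_mul_le_right := ?_,
                                 rk_one := ?_, rk_blocks := ?_, rk_diag := ?_ }, hf, ?_, ?_⟩
  · intro m n _ _ A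
    exact ρ.rk_nonneg _
  · intro l m n _ _ _ A B
    rw [hlift (A.map g * B.map g) (A * B) (by rw [Matrix.map_mul, hmapg, hmapg])]
    exact ρ.rk_mul_le_left _ _
  · intro l m n _ _ _ A B
    rw [hlift (A.map g * B.map g) (A * B) (by rw [Matrix.map_mul, hmapg, hmapg])]
    exact ρ.rk_mul_le_right _ _
  · intro n _ _
    rw [hlift (1 : Matrix n n R) (1 : Matrix n n U) (Matrix.map_one _ (map_zero f) (map_one f))]
    exact ρ.rk_one
  · intro m n p q _ _ _ _ A C D
    rw [hlift (fromBlocks (A.map g) (C.map g) 0 (D.map g)) (fromBlocks A C 0 D)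
      (by rw [fromBlocks_map, hmapg, hmapg, hmapg, Matrix.map_zero _ (map_zero f)])]
    exact ρ.rk_blocks _ _ _
  · intro m n p q _ _ _ _ A D
    rw [hlift (fromBlocks (A.map g) 0 0 (D.map g)) (fromBlocks A 0 0 D)
      (by rw [fromBlocks_map, hmapg, hmapg, Matrix.map_zero _ (map_zero f),
        Matrix.map_zero _ (map_zero f)])]
    exact ρ.rk_diag _ _
  · intro m n _ _ A
    exact hlift A _ rfl
  · intro x hx
    have h1 : ρ.rk (one1 (g x)) = 0 := by
      have h2 : ρ.rk ((one1 x).map g) = 0 := hx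
      have h3 : (one1 x).map g = one1 (g x) := by ext; simp [one1]
      rwa [h3] at h2
    have h4 : f (g x) = f 0 := by
      rw [hker, sub_zero, h1]
    rw [hg, map_zero] at h4
    exact h4

/-- The ring `U` attached to a family of rings with rank functions which have approximate
inverses. -/
theorem exists_model {J : Type} (𝒰 : Ultrafilter J) (ε : J → ℝ) (hε : ∀ j, 0 < ε j)
    (hε0 : Tendsto ε 𝒰 (𝓝 0)) {R : J → Type} [∀ j, Ring (R j)] (ρ : ∀ j, RankFn (R j))
    (happ : ∀ (j : J) (n : Type) [Fintype n] [DecidableEq n] (A : Matrix n n (R j)) (δ : ℝ),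
      0 < δ → ∃ X : Matrix n n (R j), (ρ j).rk (1 - X * A) ≤ Fintype.card n - (ρ j).rk A + δ) :
    ∃ (U : Type) (_ : Ring U) (f : (∀ j, R j) →+* U) (ρ' : RankFn U), Function.Surjective f ∧
      (∀ {m n : Type} [Fintype m] [Fintype n] (A : Matrix m n (∀ j, R j)),
        Tendsto (fun j => (ρ j).rk (A.map fun x => x j)) 𝒰 (𝓝 (ρ'.rk (A.map f)))) ∧
      ρ'.Faithful ∧ (∀ (n : Type) [Fintype n] [DecidableEq n] (A : Matrix n n U),
        ρ'.rk A = Fintype.card n → IsUnit A) := by
  classical
  obtain ⟨ρ₁, h1⟩ := exists_limit 𝒰 ρ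
  obtain ⟨U, hU, f, ρ', hf, h2, h3⟩ := exists_quotient ρ₁
  refine ⟨U, hU, f, ρ', hf, ?_, h3, ?_⟩
  · intro m n _ _ A
    rw [h2]
    exact h1 A
  · intro n _ _ A hA
    obtain ⟨g, hg⟩ := hf.hasRightInverse
    have hmapg : (A.map g).map f = A := by
      ext i j
      exact hg _
    choose X hX using fun j => happ j n ((A.map g).map fun x => x j) (ε j) (hε j)
    let Y : Matrix n n (∀ j, R j) := Matrix.of fun a b j => X j a b
    have hY : ∀ j, Y.map (fun x => x j) = X j := by
      intro j; ext a b; rfl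
    have hmul : ∀ j, (1 - Y * A.map g).map (fun x => x j) =
        1 - X j * (A.map g).map fun x => x j := by
      intro j
      rw [← hY j]
      ext a b
      by_cases h : a = b
      · subst h; simp [Matrix.mul_apply]
      · simp [Matrix.mul_apply, h]
    have hlim : ρ₁.rk (1 - Y * A.map g) ≤ 0 := by
      have e1 : Tendsto (fun j => (Fintype.card n : ℝ) - (ρ j).rk ((A.map g).map fun x => x j)
          + ε j) 𝒰 (𝓝 ((Fintype.card n : ℝ) - ρ₁.rk (A.map g) + 0)) :=
        (tendsto_const_nhds.sub (h1 (A.map g))).add hε0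
      have e2 : ρ₁.rk (A.map g) = Fintype.card n := by
        rw [← h2, hmapg, hA]
      rw [e2, sub_self, add_zero] at e1
      refine le_of_tendsto_of_tendsto' (h1 (1 - Y * A.map g)) e1 fun j => ?_
      rw [hmul j]
      exact hX j
    have h0 : ρ'.rk (1 - Y.map f * A) = 0 := by
      have e3 : (1 - Y * A.map g).map f = 1 - Y.map f * A := by
        rw [Matrix.map_sub f (fun x y => map_sub f x y), Matrix.map_mul, hmapg,
          Matrix.map_one _ (map_zero f) (map_one f)]
      rw [← e3, h2]
      exact le_antisymm hlim (ρ₁.rk_nonneg _)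
    have h4 : Y.map f * A = 1 := by
      have := ρ'.eq_zero_of_rk h3 _ h0
      exact (sub_eq_zero.mp this).symm
    have h5 : A * Y.map f = 1 := ρ'.isUnit_of_faithful h3 A (Y.map f) h4
    exact ⟨⟨A, Y.map f, h5, h4⟩, rfl⟩

end Pool.Agent.HX
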