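import Pool.Agent.HX.Main
import Pool.Agent.HX.NH
import Pool.Agent.HX.Cfc
import Pool.Agent.HX.Ultra
import Pool.Agent.HX.KOne
import Pool.Agent.VN.Kaz

set_option autoImplicit false
set_option linter.unusedSectionVars false

noncomputable section

open scoped InnerProductSpace ENNReal Topology
open Classical Filter
open Pool.Agent.VN

/-!
The rings with rank functions attached to a group.
-/

namespace Pool.Agent.HX

section forms

variable {G H : Type} [Group G] [Group H] {m n : Type} [Fintype n]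

/-- the family of linear forms of a matrix over the group ring -/
def colG (a : m → n → (G →₀ ℂ)) (i : m) : n × G →₀ ℂ :=
  ∑ j, (a i j).sum fun g c => Finsupp.single (j, g⁻¹) c

lemma colG_add (a a' : m → n → (G →₀ ℂ)) (i : m) :
    colG (fun i j => a i j + a' i j) i = colG a i + colG a' i := by
  unfold colG
  rw [← Finset.sum_add_distrib]
  refine Finset.sum_congr rfl fun j _ => ?_
  rw [Finsupp.sum_add_index']
  · intro g; simp
  · intro g c c'; rw [Finsupp.single_add]

lemma mapF_sum (f : G →* H) {σ : Type} (s : Finset σ) (c : σ → (n × G →₀ ℂ)) :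
    mapF f (∑ i ∈ s, c i) = ∑ i ∈ s, mapF f (c i) := by
  rw [mapF_eq, Finsupp.mapDomain_finsetSum]
  rfl

lemma mapF_colG (f : G →* H) (a : m → n → (G →₀ ℂ)) (i : m) :
    mapF f (colG a i) = colG (fun i j => Finsupp.mapDomain f (a i j)) i := by
  unfold colG
  rw [mapF_sum]
  refine Finset.sum_congr rfl fun j _ => ?_
  unfold Finsupp.sum
  rw [mapF_sum]
  have h := Finsupp.sum_mapDomain_index (f := f) (s := a i j)
    (h := fun g c => (Finsupp.single (j, g⁻¹) c : n × H →₀ ℂ)) (by intro b; simp)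
    (by intro b m₁ m₂; rw [Finsupp.single_add])
  unfold Finsupp.sum at h
  rw [h]
  refine Finset.sum_congr rfl fun g _ => ?_
  rw [mapF_single, map_inv]

lemma colG_support (a : m → n → (G →₀ ℂ)) (i : m) {p : n × G} (hp : p ∈ (colG a i).support) :
    ∃ j, ∃ g ∈ (a i j).support, p = (j, g⁻¹) := by
  by_contra hcon
  push Not at hcon
  rw [Finsupp.mem_support_iff] at hp
  apply hp
  unfold colG Finsupp.sum
  rw [Finsupp.finsetSum_apply]
  refine Finset.sum_eq_zero fun j _ => ?_
  rw [Finsupp.finsetSum_apply]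
  refine Finset.sum_eq_zero fun g hg => ?_
  rw [Finsupp.single_apply, if_neg (fun h => hcon j g hg h.symm)]

lemma colG_coef {k : Subring ℂ} (a : m → n → (G →₀ ℂ)) (h : ∀ i j g, a i j g ∈ k) (i : m)
    (p : n × G) : colG a i p ∈ k := by
  unfold colG Finsupp.sum
  rw [Finsupp.finsetSum_apply]
  refine k.sum_mem fun j _ => ?_
  rw [Finsupp.finsetSum_apply]
  refine k.sum_mem fun g _ => ?_
  rw [Finsupp.single_apply]
  split_ifs
  · exact h i j g
  · exact k.zero_mem

end forms

namespace Dat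

variable {G U : Type} [Group G] [Ring U] (D : Dat G ℂ U)

/-- the element attached to an element of the group ring -/
def gr (a : G →₀ ℂ) : U := a.sum fun g c => D.sc c * D.ι g

lemma gr_zero : D.gr 0 = 0 := by simp [gr]

lemma gr_add (a b : G →₀ ℂ) : D.gr (a + b) = D.gr a + D.gr b := by
  unfold gr
  rw [Finsupp.sum_add_index']
  · intro g; simp
  · intro g c c'; rw [map_add, add_mul]

lemma gr_neg (a : G →₀ ℂ) : D.gr (-a) = -D.gr a := by
  have h := D.gr_add (-a) a
  rw [neg_add_cancel, D.gr_zero] at h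
  exact eq_neg_of_add_eq_zero_left h.symm

lemma gr_single (g : G) (c : ℂ) : D.gr (Finsupp.single g c) = D.sc c * D.ι g := by
  unfold gr
  rw [Finsupp.sum_single_index]
  simp

lemma gr_sum {σ : Type} (s : Finset σ) (a : σ → (G →₀ ℂ)) :
    D.gr (∑ i ∈ s, a i) = ∑ i ∈ s, D.gr (a i) := by
  induction s using Finset.induction_on with
  | empty => simp [gr_zero]
  | insert i s hi ih => rw [Finset.sum_insert hi, Finset.sum_insert hi, gr_add, ih]

lemma gr_mul_ι (a : G →₀ ℂ) (t : G) :
    D.gr a * D.ι t = D.gr (Finsupp.mapDomain (fun g => g * t) a) := by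
  unfold gr
  rw [Finsupp.sum_mapDomain_index (by simp) (by intro b m₁ m₂; rw [map_add, add_mul])]
  unfold Finsupp.sum
  rw [Finset.sum_mul]
  refine Finset.sum_congr rfl fun g _ => ?_
  show D.sc (a g) * D.ι g * D.ι t = D.sc (a g) * D.ι (g * t)
  rw [map_mul, mul_assoc]

/-- restriction of scalars -/
def restrict (k : Subring ℂ) : Dat G k U where
  ι := D.ι
  sc := D.sc.comp k.subtype
  comm c g := D.comm c g

lemma SN_form (k : Subring ℂ) (N : Subgroup G) {x : U} (hx : x ∈ SN (D.restrict k) N) :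
    ∃ a : G →₀ ℂ, (∀ g ∈ a.support, g ∈ N) ∧ (∀ g, a g ∈ k) ∧ x = D.gr a := by
  have hadd : ∀ a b : G →₀ ℂ, (∀ g ∈ a.support, g ∈ N) → (∀ g ∈ b.support, g ∈ N) →
      ∀ g ∈ (a + b).support, g ∈ N := by
    intro a b ha hb g hg
    rcases Finset.mem_union.mp (Finsupp.support_add hg) with h | h
    · exact ha g h
    · exact hb g h
  have hsum : ∀ {σ : Type} (s : Finset σ) (y : σ → U),
      (∀ i ∈ s, ∃ a : G →₀ ℂ, (∀ g ∈ a.support, g ∈ N) ∧ (∀ g, a g ∈ k) ∧ y i = D.gr a) →
      ∃ a : G →₀ ℂ, (∀ g ∈ a.support, g ∈ N) ∧ (∀ g, a g ∈ k) ∧ ∑ i ∈ s, y i = D.gr a := by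
    intro σ s y
    induction s using Finset.induction_on with
    | empty => exact fun _ => ⟨0, by simp, fun g => k.zero_mem, by simp [gr_zero]⟩
    | insert i s hi ih =>
      intro h
      obtain ⟨a, h1, h2, h3⟩ := h i (Finset.mem_insert_self i s)
      obtain ⟨b, h1', h2', h3'⟩ := ih fun j hj => h j (Finset.mem_insert_of_mem hj)
      refine ⟨a + b, hadd a b h1 h1', fun g => k.add_mem (h2 g) (h2' g), ?_⟩
      rw [Finset.sum_insert hi, gr_add, h3, h3']
  have hmono : ∀ (c : ℂ) (g : G), c ∈ k → g ∈ N →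
      ∃ a : G →₀ ℂ, (∀ g ∈ a.support, g ∈ N) ∧ (∀ g, a g ∈ k) ∧ D.sc c * D.ι g = D.gr a := by
    intro c g hc hg
    refine ⟨Finsupp.single g c, ?_, ?_, (D.gr_single g c).symm⟩
    · intro h hh
      have := Finsupp.support_single_subset hh
      rw [Finset.mem_singleton] at this
      rw [this]
      exact hg
    · intro h
      rw [Finsupp.single_apply]
      split_ifs
      · exact hc
      · exact k.zero_mem
  induction hx using Subring.closure_induction with
  | mem x hx =>
    rcases hx with ⟨c, rfl⟩ | ⟨g, hg, rfl⟩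
    · obtain ⟨a, h1, h2, h3⟩ := hmono c 1 c.2 N.one_mem
      rw [map_one, mul_one] at h3
      exact ⟨a, h1, h2, h3⟩
    · obtain ⟨a, h1, h2, h3⟩ := hmono 1 g k.one_mem hg
      rw [map_one, one_mul] at h3
      exact ⟨a, h1, h2, h3⟩
  | zero => exact ⟨0, by simp, fun g => k.zero_mem, by simp [gr_zero]⟩
  | one =>
    obtain ⟨a, h1, h2, h3⟩ := hmono 1 1 k.one_mem N.one_mem
    rw [map_one, map_one, one_mul] at h3
    exact ⟨a, h1, h2, h3⟩
  | add x y _ _ hx hy =>
    obtain ⟨a, h1, h2, h3⟩ := hx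
    obtain ⟨b, h1', h2', h3'⟩ := hy
    exact ⟨a + b, hadd a b h1 h1', fun g => k.add_mem (h2 g) (h2' g), by rw [gr_add, h3, h3']⟩
  | neg x _ hx =>
    obtain ⟨a, h1, h2, h3⟩ := hx
    exact ⟨-a, by simpa using h1, fun g => k.neg_mem (h2 g), by rw [gr_neg, h3]⟩
  | mul x y _ _ hx hy =>
    obtain ⟨a, h1, h2, h3⟩ := hx
    obtain ⟨b, h1', h2', h3'⟩ := hy
    have e : x * y = ∑ g ∈ a.support, ∑ h ∈ b.support, D.sc (a g * b h) * D.ι (g * h) := by
      rw [h3, h3']
      unfold gr Finsupp.sum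
      rw [Finset.sum_mul_sum]
      refine Finset.sum_congr rfl fun g _ => Finset.sum_congr rfl fun h _ => ?_
      rw [map_mul, map_mul, mul_assoc, mul_assoc, ← mul_assoc (D.ι g), ← D.comm, mul_assoc]
    rw [e]
    exact hsum _ _ fun g hg => hsum _ _ fun h hh =>
      hmono _ _ (k.mul_mem (h2 g) (h2' h)) (N.mul_mem (h1 g hg) (h1' h hh))

end Dat

/-- the hypothesis (F) from a description of the invertible matrices over the group ring -/
theorem hF_of {G U : Type} [Group G] [Ring U] (D : Dat G ℂ U) (k : Subring ℂ)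
    (hu : ∀ (J : Type) [Fintype J] [DecidableEq J] (a : J → J → (G →₀ ℂ)),
      IsUnit (Matrix.of fun i j => D.gr (a i j)) ↔ Sol (Set.range (colG a)) = ⊥) :
    ∀ (H : Subgroup G) (φ : H →* Multiplicative ℤ) (t : H),
      φ t = Multiplicative.ofAdd 1 → ∀ (J : Type) [Fintype J] [DecidableEq J] (M0 M1 : Matrix J J U),
      (∀ i j, M0 i j ∈ SN (D.restrict k) (φ.ker.map H.subtype)) →
      (∀ i j, M1 i j ∈ SN (D.restrict k) (φ.ker.map H.subtype)) →
      IsUnit M0 → IsUnit (M0 + Matrix.of fun i j => M1 i j * (D.restrict k).ι (t : G)) := by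
  intro H φ t ht J _ _ M0 M1 h0 h1 hM0
  choose a0 h01 h02 h03 using fun i j => D.SN_form k _ (h0 i j)
  choose a1 h11 h12 h13 using fun i j => D.SN_form k _ (h1 i j)
  have memN : ∀ g : G, g ∈ φ.ker.map H.subtype → ∃ h : g ∈ H, φ ⟨g, h⟩ = 1 := by
    intro g hg
    obtain ⟨h, h1, rfl⟩ := Subgroup.mem_map.mp hg
    exact ⟨h.2, h1⟩
  -- restriction to `H`
  have hres : ∀ b : G →₀ ℂ, (∀ g ∈ b.support, g ∈ H) →
      ∃ b' : H →₀ ℂ, Finsupp.mapDomain H.subtype b' = b ∧ ∀ h ∈ b'.support, (h : G) ∈ b.support := by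
    intro b hb
    refine ⟨Finsupp.comapDomain H.subtype b (Subtype.val_injective.injOn), ?_, ?_⟩
    · apply Finsupp.mapDomain_comapDomain _ Subtype.val_injective
      intro g hg
      exact ⟨⟨g, hb g hg⟩, rfl⟩
    · intro h hh
      rw [Finsupp.mem_support_iff] at hh ⊢
      exact hh
  choose b0 hb01 hb02 using fun i j => hres (a0 i j) fun g hg => (memN g (h01 i j g hg)).1
  choose b1 hb11 hb12 using fun i j => hres (Finsupp.mapDomain (fun g => g * (t : G)) (a1 i j))
    fun g hg => by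
      have := Finsupp.mapDomain_support hg
      obtain ⟨g', hg', rfl⟩ := Finset.mem_image.mp this
      exact H.mul_mem (memN g' (h11 i j g' hg')).1 t.2
  have hM0' : M0 = Matrix.of fun i j => D.gr (a0 i j) := by
    ext i j
    rw [h03]
    rfl
  have e : (M0 + Matrix.of fun i j => M1 i j * (D.restrict k).ι (t : G))
      = Matrix.of fun i j => D.gr (a0 i j + Finsupp.mapDomain (fun g => g * (t : G)) (a1 i j)) := by
    ext i j
    rw [Matrix.add_apply, Matrix.of_apply, Matrix.of_apply, D.gr_add, ← D.gr_mul_ι, ← h03, ← h13]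
    rfl
  rw [hM0', hu] at hM0
  rw [e, hu]
  have c0 : ∀ i, colG a0 i = mapF H.subtype (colG b0 i) := by
    intro i
    rw [mapF_colG]
    congr 1
    funext i j
    exact (hb01 i j).symm
  have c1 : ∀ i, colG (fun i j => a0 i j + Finsupp.mapDomain (fun g => g * (t : G)) (a1 i j)) i
      = mapF H.subtype (colG b0 i + colG b1 i) := by
    intro i
    rw [← colG_add, mapF_colG]
    congr 1
    funext i j
    rw [Finsupp.mapDomain_add, hb01, hb11]
  have r0 : Set.range (colG a0) = Set.range fun i => mapF H.subtype (colG b0 i) := by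
    congr 1
    funext i
    exact c0 i
  have r1 : Set.range (colG fun i j => a0 i j + Finsupp.mapDomain (fun g => g * (t : G)) (a1 i j))
      = Set.range fun i => mapF H.subtype (colG b0 i + colG b1 i) := by
    congr 1
    funext i
    exact c1 i
  rw [r0] at hM0
  rw [r1]
  apply sol_eq_bot H.subtype Subtype.val_injective (fun h => Multiplicative.toAdd (φ h))
    (fun a b => by rw [map_mul, toAdd_mul]) (colG b0) (colG b1) ?_ ?_ hM0
  · intro i p hp
    obtain ⟨j, g, hg, rfl⟩ := colG_support b0 i hp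
    have h2 := hb02 i j g hg
    obtain ⟨h3, h4⟩ := memN _ (h01 i j _ h2)
    have h5 : φ g = 1 := h4
    show Multiplicative.toAdd (φ g⁻¹) = 0
    rw [map_inv, h5, inv_one]
    rfl
  · intro i p hp
    obtain ⟨j, g, hg, rfl⟩ := colG_support b1 i hp
    have h2 := Finsupp.mapDomain_support (hb12 i j g hg)
    obtain ⟨g', hg', hgg⟩ := Finset.mem_image.mp h2
    obtain ⟨h3, h4⟩ := memN _ (h11 i j _ hg')
    have h5 : g = ⟨g', h3⟩ * t := Subtype.ext hgg.symm
    show Multiplicative.toAdd (φ g⁻¹) = -1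
    rw [map_inv, h5, map_mul, h4, ht, one_mul]
    rfl

/-- the hypothesis (E) from a faithful rank function -/
theorem hE_of {U : Type} [Ring U] (ρ : RankFn U) (hρ : ρ.Faithful) :
    ∀ (n : ℕ) (β : Matrix (Fin n) (Fin n) U) (b c v : Fin n → U), IsUnit (1 - β) →
      (∀ i, v i = ∑ j, β i j * v j + b i) → (∀ k : ℕ, ∑ i, c i * (Matrix.mulVec (β ^ k) b) i = 0) →
      ∑ i, c i * v i = 0 := by
  intro n β b c v hu hv h0
  obtain ⟨⟨A, A', h1, h2⟩, hA⟩ := hu
  have hA' : A = 1 - β := hA
  subst hA'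
  set bm : Matrix (Fin n) Unit U := Matrix.of fun i _ => b i with hbm
  set cm : Matrix Unit (Fin n) U := Matrix.of fun _ i => c i with hcm
  have h3 : ∀ j : ℕ, cm * β ^ j * bm = 0 := by
    intro j
    ext _ _
    rw [Matrix.mul_assoc, Matrix.mul_apply]
    have := h0 j
    simp only [Matrix.zero_apply]
    rw [← this]
    refine Finset.sum_congr rfl fun i _ => ?_
    rfl
  have h4 := ρ.rank_lemma β A' h2 h1 bm cm h3
  have hvb : (1 - β).mulVec v = b := by
    funext i
    rw [Matrix.sub_mulVec, Matrix.one_mulVec, Pi.sub_apply, sub_eq_iff_eq_add']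
    exact hv i
  have hvA : v = A'.mulVec b := by
    rw [← hvb, Matrix.mulVec_mulVec, h2, Matrix.one_mulVec]
  have h5 : cm * A' * bm = one1 (∑ i, c i * v i) := by
    ext _ _
    rw [Matrix.mul_assoc, Matrix.mul_apply, hvA]
    rfl
  rw [h5] at h4
  exact hρ _ h4

/-- The ring of a family of homomorphisms. -/
theorem exists_grModel {G : Type} [Group G] {J : Type} (𝒰 : Ultrafilter J) (ε : J → ℝ)
    (hε : ∀ j, 0 < ε j) (hε0 : Tendsto ε 𝒰 (𝓝 0)) {H : J → Type} [∀ j, Group (H j)]
    (π : ∀ j, G →* H j) :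
    ∃ (U : Type) (_ : Ring U) (ρ : RankFn U) (D : Dat G ℂ U), ρ.Faithful ∧
      (∀ (n : Type) [Fintype n] [DecidableEq n] (A : Matrix n n U),
        ρ.rk A = Fintype.card n → IsUnit A) ∧
      ∀ {m n : Type} [Fintype m] [Fintype n] (a : m → n → (G →₀ ℂ)),
        Tendsto (fun j => (Fintype.card n : ℝ)
          - vdim (Sol (Set.range fun i => mapF (π j) (colG a i)) : Set (L2 n (H j)))) 𝒰
          (𝓝 (ρ.rk (Matrix.of fun i j => D.gr (a i j)))) := by
  choose ρH hρH using fun j : J => exists_rankN (H j)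
  obtain ⟨U, _, f, ρ, hf, hlim, hfaith, hunit⟩ := exists_model 𝒰 ε hε hε0 ρH (by
    intro j n _ _ A δ hδ
    obtain ⟨X, hX1, hX2⟩ := exists_approx_inv (op A) (op_equivar A) δ hδ
    obtain ⟨X', hX'⟩ := exists_op X hX1
    refine ⟨X', ?_⟩
    rw [hρH, hρH, op_sub, op_mul, op_one, hX']
    have e : (Fintype.card n : ℝ) - ((Fintype.card n : ℝ) -
        vdim ((LinearMap.ker (op A).toLinearMap : Submodule ℂ (L2 n (H j))) : Set (L2 n (H j)))) + δ
        = vdim ((LinearMap.ker (op A).toLinearMap : Submodule ℂ (L2 n (H j))) :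
          Set (L2 n (H j))) + δ := by ring
    rw [e]
    exact hX2)
  set D : Dat G ℂ U :=
    { ι := (f : (∀ j, NG (H j)) →* U).comp (Pi.monoidHom fun j => (rhoN (G := H j)).comp (π j))
      sc := f.comp (Pi.ringHom fun j => scN (G := H j))
      comm := by
        intro c g
        show f _ * f _ = f _ * f _
        rw [← map_mul, ← map_mul]
        congr 1
        funext j
        apply Subtype.ext
        show (c • (1 : L2 Unit (H j) →L[ℂ] L2 Unit (H j))) * _
          = _ * (c • (1 : L2 Unit (H j) →L[ℂ] L2 Unit (H j)))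
        rw [smul_mul_assoc, one_mul, mul_smul_comm, mul_one] } with hD
  refine ⟨U, inferInstance, ρ, D, hfaith, hunit, ?_⟩
  intro m n _ _ a
  have h1 := hlim (Matrix.of fun i j => (fun l => grN (Finsupp.mapDomain (π l) (a i j)) :
    ∀ l, NG (H l)))
  have e1 : (Matrix.of fun i j => (fun l => grN (Finsupp.mapDomain (π l) (a i j)) :
      ∀ l, NG (H l))).map f = Matrix.of fun i j => D.gr (a i j) := by
    ext i j
    rw [Matrix.map_apply, Matrix.of_apply, Matrix.of_apply]
    have e2 : (fun l => grN (Finsupp.mapDomain (π l) (a i j)) : ∀ l, NG (H l))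
        = (a i j).sum fun g c => (fun l => scN c * rhoN (π l g) : ∀ l, NG (H l)) := by
      funext l
      unfold grN
      rw [Finsupp.sum_mapDomain_index (by simp) (by intro b m₁ m₂; rw [map_add, add_mul])]
      unfold Finsupp.sum
      rw [Finset.sum_apply]
    rw [e2]
    unfold Dat.gr Finsupp.sum
    rw [map_sum]
    refine Finset.sum_congr rfl fun g _ => ?_
    rw [hD]
    show f _ = f _ * f _
    rw [← map_mul]
    rfl
  rw [e1] at h1
  refine h1.congr fun l => ?_
  have e3 : (Matrix.of fun i j => (fun l => grN (Finsupp.mapDomain (π l) (a i j)) :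
      ∀ l, NG (H l))).map (fun x => x l)
      = Matrix.of fun i j => grN (Finsupp.mapDomain (π l) (a i j)) := rfl
  rw [e3, hρH, ker_op_gr]
  congr 3
  have e4 : (fun i => mapF (π l) (colG a i)) = fun i => ∑ j,
      (Finsupp.mapDomain (π l) (a i j)).sum fun g c => Finsupp.single (j, g⁻¹) c := by
    funext i
    rw [mapF_colG]
    rfl
  rw [e4]

end Pool.Agent.HX
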