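import Mathlib

set_option autoImplicit false

open Matrix

/-!
Sylvester matrix rank functions.
-/

namespace Pool.Agent.HX

/-- a Sylvester matrix rank function with real values -/
structure RankFn (R : Type*) [Ring R] where
  rk : ∀ {m n : Type} [Fintype m] [Fintype n], Matrix m n R → ℝ
  rk_nonneg : ∀ {m n : Type} [Fintype m] [Fintype n] (A : Matrix m n R), 0 ≤ rk A
  rk_mul_le_left : ∀ {l m n : Type} [Fintype l] [Fintype m] [Fintype n] (A : Matrix l m R)
    (B : Matrix m n R), rk (A * B) ≤ rk A
  rk_mul_le_right : ∀ {l m n : Type} [Fintype l] [Fintype m] [Fintype n] (A : Matrix l m R)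
    (B : Matrix m n R), rk (A * B) ≤ rk B
  rk_one : ∀ {n : Type} [Fintype n] [DecidableEq n], rk (1 : Matrix n n R) = Fintype.card n
  rk_blocks : ∀ {m n p q : Type} [Fintype m] [Fintype n] [Fintype p] [Fintype q]
    (A : Matrix m n R) (C : Matrix m q R) (D : Matrix p q R),
    rk A + rk D ≤ rk (fromBlocks A C 0 D)
  rk_diag : ∀ {m n p q : Type} [Fintype m] [Fintype n] [Fintype p] [Fintype q]
    (A : Matrix m n R) (D : Matrix p q R), rk (fromBlocks A 0 0 D) ≤ rk A + rk D

/-- the matrix with the single entry `x` -/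
def one1 {R : Type*} (x : R) : Matrix Unit Unit R := Matrix.of fun _ _ => x

/-- a rank function is faithful if only `0` has rank `0` -/
def RankFn.Faithful {R : Type*} [Ring R] (ρ : RankFn R) : Prop :=
  ∀ x : R, ρ.rk (one1 x) = 0 → x = 0

end Pool.Agent.HX
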