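import Pool.Agent.VN.Mul
import Pool.Agent.HX.RankDef

set_option autoImplicit false
set_option linter.unusedSectionVars false

noncomputable section

open scoped InnerProductSpace ENNReal Topology
open Classical Filter Matrix
open Pool.Agent.VN

/-!
The ring of bounded operators on `ℓ²(G)` commuting with the left translations, and matrices over it.
-/

namespace Pool.Agent.HX

variable (G : Type) [Group G]

/-- bounded operators on `ℓ²(G)` commuting with left translations -/
def NG : Subring (L2 Unit G →L[ℂ] L2 Unit G) where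
  carrier := {T | Equivar T}
  mul_mem' := fun ha hb => Equivar.comp ha hb
  one_mem' := Equivar.one
  add_mem' := fun ha hb => Equivar.add ha hb
  zero_mem' := Equivar.zero
  neg_mem' := by
    intro T hT s x
    show -(T (lt s x)) = lt s (-(T x))
    rw [hT s x, map_neg]

variable {G}

/-- coordinate projection -/
def prN {n : Type} (j : n) : L2 n G →L[ℂ] L2 Unit G :=
  pull (fun p : Unit × G => (j, p.2)) (by
    rintro ⟨_, a⟩ ⟨_, b⟩ h
    simpa using h)

/-- coordinate inclusion -/
def inN {n : Type} (j : n) : L2 Unit G →L[ℂ] L2 n G :=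
  push (fun p : Unit × G => (j, p.2)) (by
    rintro ⟨_, a⟩ ⟨_, b⟩ h
    simpa using h)

/-- the operator of a matrix over `NG G` -/
def op {m n : Type} [Fintype m] [Fintype n] (A : Matrix m n (NG G)) : L2 n G →L[ℂ] L2 m G :=
  ∑ i, ∑ j, (inN i) ∘L ((A i j : NG G) : L2 Unit G →L[ℂ] L2 Unit G) ∘L (prN j)

/-- scalars -/
def scN : ℂ →+* NG G where
  toFun c := ⟨c • (1 : L2 Unit G →L[ℂ] L2 Unit G), Equivar.one.smul c⟩
  map_one' := by
    apply Subtype.ext
    simp
  map_mul' a b := by
    apply Subtype.ext
    show (a * b) • (1 : L2 Unit G →L[ℂ] L2 Unit G) = (a • 1) * (b • 1)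
    rw [smul_mul_smul_comm, one_mul]
  map_zero' := by
    apply Subtype.ext
    simp
  map_add' a b := by
    apply Subtype.ext
    show (a + b) • (1 : L2 Unit G →L[ℂ] L2 Unit G) = (a • 1) + (b • 1)
    rw [add_smul]

/-- right translations: `(ρ(g) x)(h) = x(h g)` -/
def rhoN : G →* NG G where
  toFun g := ⟨elem () ((), g⁻¹), elem_equivar _ _⟩
  map_one' := by
    apply Subtype.ext
    ext x q
    show (elem () ((), (1 : G)⁻¹) x) q = x q
    rw [elem_apply]
    obtain ⟨_, h⟩ := q
    simp
  map_mul' a b := by
    apply Subtype.ext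
    ext x q
    show (elem () ((), (a * b)⁻¹) x) q = (elem () ((), a⁻¹) (elem () ((), b⁻¹) x)) q
    rw [elem_apply, elem_apply, elem_apply]
    obtain ⟨_, h⟩ := q
    simp [mul_assoc]

/-- the element of `NG G` attached to an element of the group ring -/
def grN (a : G →₀ ℂ) : NG G := a.sum fun g c => scN c * rhoN g

end Pool.Agent.HX
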