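import Mathlib

set_option autoImplicit false

open Matrix

/-!
Systems `v = A τ v + b`.
-/

namespace Pool.Agent.HX

variable {U : Type*} [Ring U]

/-- unique solvability of the systems `v = A τ v + b` with `A` over the subring `L` -/
def Solv (L : Subring U) (τ : U) : Prop :=
  ∀ (n : ℕ) (A : Matrix (Fin n) (Fin n) U) (b : Fin n → U), (∀ i j, A i j ∈ L) →
    ∃! v : Fin n → U, ∀ i, v i = ∑ j, A i j * τ * v j + b i

/-- `x = c · v` where `v = A τ v + b` and `A`, `b`, `c` are over `L`; the leading term is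
`x₀ = c · b` -/
def PP (L : Subring U) (τ : U) (x x₀ : U) : Prop :=
  ∃ (n : ℕ) (A : Matrix (Fin n) (Fin n) U) (b c v : Fin n → U), (∀ i j, A i j ∈ L) ∧
    (∀ i, b i ∈ L) ∧ (∀ i, c i ∈ L) ∧ (∀ i, v i = ∑ j, A i j * τ * v j + b i) ∧
    x = ∑ i, c i * v i ∧ x₀ = ∑ i, c i * b i

variable {L : Subring U} {τ : U}

/-- arbitrary finite index types -/
theorem PP_of {J : Type*} [Fintype J] (A : Matrix J J U) (b c v : J → U)
    (hA : ∀ i j, A i j ∈ L) (hb : ∀ i, b i ∈ L) (hc : ∀ i, c i ∈ L)
    (hv : ∀ i, v i = ∑ j, A i j * τ * v j + b i) :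
    PP L τ (∑ i, c i * v i) (∑ i, c i * b i) := by
  let e := (Fintype.equivFin J).symm
  refine ⟨Fintype.card J, fun i j => A (e i) (e j), fun i => b (e i), fun i => c (e i),
    fun i => v (e i), fun i j => hA _ _, fun i => hb _, fun i => hc _, fun i => ?_, ?_, ?_⟩
  · refine (hv (e i)).trans ?_
    congr 1
    exact (Equiv.sum_comp e (fun j => A (e i) j * τ * v j)).symm
  · exact (Equiv.sum_comp e (fun j => c j * v j)).symm
  · exact (Equiv.sum_comp e (fun j => c j * b j)).symm

theorem PP_of_mem {x : U} (hx : x ∈ L) : PP L τ x x := by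
  have := PP_of (L := L) (τ := τ) (J := Unit) (fun _ _ => 0) (fun _ => x) (fun _ => 1)
    (fun _ => x) (fun _ _ => L.zero_mem) (fun _ => hx) (fun _ => L.one_mem) (fun _ => by simp)
  simpa using this

theorem PP_tau : PP L τ τ 0 := by
  have := PP_of (L := L) (τ := τ) (J := Bool) (fun i j => if i = false ∧ j = true then 1 else 0)
    (fun i => if i = true then 1 else 0) (fun i => if i = false then 1 else 0)
    (fun i => if i = true then 1 else τ) ?_ ?_ ?_ ?_
  · simpa using this
  · intro i j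
    split_ifs
    · exact L.one_mem
    · exact L.zero_mem
  · intro i
    split_ifs
    · exact L.one_mem
    · exact L.zero_mem
  · intro i
    split_ifs
    · exact L.one_mem
    · exact L.zero_mem
  · intro i
    cases i <;> simp

theorem PP_add {x y x₀ y₀ : U} (hx : PP L τ x x₀) (hy : PP L τ y y₀) :
    PP L τ (x + y) (x₀ + y₀) := by
  obtain ⟨n, A, b, c, v, hA, hb, hc, hv, rfl, rfl⟩ := hx
  obtain ⟨m, A', b', c', v', hA', hb', hc', hv', rfl, rfl⟩ := hy
  have := PP_of (L := L) (τ := τ) (J := Fin n ⊕ Fin m) (Matrix.fromBlocks A 0 0 A')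
    (Sum.elim b b') (Sum.elim c c') (Sum.elim v v') ?_ ?_ ?_ ?_
  · simpa [Fintype.sum_sum_type] using this
  · rintro (i | i) (j | j)
    · exact hA i j
    · exact L.zero_mem
    · exact L.zero_mem
    · exact hA' i j
  · rintro (i | i)
    · exact hb i
    · exact hb' i
  · rintro (i | i)
    · exact hc i
    · exact hc' i
  · rintro (i | i)
    · simp only [Sum.elim_inl, Fintype.sum_sum_type, Matrix.fromBlocks_apply₁₁,
        Matrix.fromBlocks_apply₁₂, Matrix.zero_apply, zero_mul, Finset.sum_const_zero, add_zero]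
      exact hv i
    · simp only [Sum.elim_inr, Fintype.sum_sum_type, Matrix.fromBlocks_apply₂₁,
        Matrix.fromBlocks_apply₂₂, Matrix.zero_apply, zero_mul, Finset.sum_const_zero, zero_add]
      exact hv' i

theorem PP_mul {x y x₀ y₀ : U} (hx : PP L τ x x₀) (hy : PP L τ y y₀) :
    PP L τ (x * y) (x₀ * y₀) := by
  obtain ⟨n, A, b, c, v, hA, hb, hc, hv, rfl, rfl⟩ := hx
  obtain ⟨m, A', b', c', v', hA', hb', hc', hv', rfl, rfl⟩ := hy
  have hy : ∑ l, c' l * v' l = ∑ k, (∑ l, c' l * A' l k) * τ * v' k + ∑ l, c' l * b' l := by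
    have e1 : ∀ l, c' l * v' l = ∑ k, c' l * A' l k * τ * v' k + c' l * b' l := by
      intro l
      conv_lhs => rw [hv' l, mul_add, Finset.mul_sum]
      congr 1
      refine Finset.sum_congr rfl fun k _ => ?_
      simp only [mul_assoc]
    rw [Finset.sum_congr rfl fun l _ => e1 l, Finset.sum_add_distrib, Finset.sum_comm]
    congr 1
    refine Finset.sum_congr rfl fun k _ => ?_
    rw [Finset.sum_mul, Finset.sum_mul]
  have := PP_of (L := L) (τ := τ) (J := Fin n ⊕ Fin m)
    (Matrix.fromBlocks A (fun i k => b i * ∑ l, c' l * A' l k) 0 A')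
    (Sum.elim (fun i => b i * ∑ l, c' l * b' l) b') (Sum.elim c 0)
    (Sum.elim (fun i => v i * ∑ l, c' l * v' l) v') ?_ ?_ ?_ ?_
  · have e2 : (∑ i, c i * v i) * ∑ l, c' l * v' l = ∑ i, c i * (v i * ∑ l, c' l * v' l) := by
      rw [Finset.sum_mul]
      exact Finset.sum_congr rfl fun i _ => mul_assoc _ _ _
    have e3 : (∑ i, c i * b i) * ∑ l, c' l * b' l = ∑ i, c i * (b i * ∑ l, c' l * b' l) := by
      rw [Finset.sum_mul]
      exact Finset.sum_congr rfl fun i _ => mul_assoc _ _ _
    rw [e2, e3]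
    simpa [Fintype.sum_sum_type] using this
  · rintro (i | i) (j | j)
    · exact hA i j
    · exact L.mul_mem (hb i) (L.sum_mem fun l _ => L.mul_mem (hc' l) (hA' l j))
    · exact L.zero_mem
    · exact hA' i j
  · rintro (i | i)
    · exact L.mul_mem (hb i) (L.sum_mem fun l _ => L.mul_mem (hc' l) (hb' l))
    · exact hb' i
  · rintro (i | i)
    · exact hc i
    · exact L.zero_mem
  · rintro (i | i)
    · simp only [Sum.elim_inl, Fintype.sum_sum_type, Matrix.fromBlocks_apply₁₁,
        Matrix.fromBlocks_apply₁₂, Sum.elim_inr]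
      have e4 : (∑ k, b i * (∑ l, c' l * A' l k) * τ * v' k) + b i * ∑ l, c' l * b' l =
          b i * ∑ l, c' l * v' l := by
        conv_rhs => rw [hy, mul_add, Finset.mul_sum]
        congr 1
        refine Finset.sum_congr rfl fun k _ => ?_
        simp only [mul_assoc]
      have e5 : v i * ∑ l, c' l * v' l = ∑ j, A i j * τ * (v j * ∑ l, c' l * v' l) +
          b i * ∑ l, c' l * v' l := by
        conv_lhs => rw [hv i, add_mul, Finset.sum_mul]
        congr 1
        refine Finset.sum_congr rfl fun k _ => ?_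
        simp only [mul_assoc]
      rw [add_assoc, e4]
      exact e5
    · simp only [Sum.elim_inr, Fintype.sum_sum_type, Matrix.fromBlocks_apply₂₁,
        Matrix.fromBlocks_apply₂₂, Matrix.zero_apply, zero_mul, Finset.sum_const_zero, zero_add]
      exact hv' i

theorem PP_conj {σ : U} (h1 : τ * σ = 1) (h2 : σ * τ = 1) (hL : ∀ x ∈ L, τ * x * σ ∈ L)
    {x x₀ : U} (hx : PP L τ x x₀) : PP L τ (τ * x * σ) (τ * x₀ * σ) := by
  obtain ⟨n, A, b, c, v, hA, hb, hc, hv, rfl, rfl⟩ := hx
  have hm : ∀ x y : U, τ * (x * y) * σ = (τ * x * σ) * (τ * y * σ) := by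
    intro x y
    have : (τ * x * σ) * (τ * y * σ) = τ * x * (σ * τ) * y * σ := by
      simp only [mul_assoc]
    rw [this, h2, mul_one]
    simp only [mul_assoc]
  have := PP_of (L := L) (τ := τ) (fun i j => τ * A i j * σ) (fun i => τ * b i * σ)
    (fun i => τ * c i * σ) (fun i => τ * v i * σ) (fun i j => hL _ (hA i j))
    (fun i => hL _ (hb i)) (fun i => hL _ (hc i)) ?_
  · have e1 : τ * (∑ i, c i * v i) * σ = ∑ i, τ * c i * σ * (τ * v i * σ) := by
      rw [Finset.mul_sum, Finset.sum_mul]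
      exact Finset.sum_congr rfl fun i _ => hm _ _
    have e2 : τ * (∑ i, c i * b i) * σ = ∑ i, τ * c i * σ * (τ * b i * σ) := by
      rw [Finset.mul_sum, Finset.sum_mul]
      exact Finset.sum_congr rfl fun i _ => hm _ _
    rw [e1, e2]
    exact this
  · intro i
    conv_lhs => rw [hv i, mul_add, add_mul, Finset.mul_sum, Finset.sum_mul]
    congr 1
    refine Finset.sum_congr rfl fun k _ => ?_
    have e3 : τ * A i k * σ * τ * (τ * v k * σ) = τ * A i k * (σ * τ) * τ * v k * σ := by
      simp only [mul_assoc]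
    rw [e3, h2, mul_one]
    simp only [mul_assoc]

theorem PP_shift {σ : U} (h1 : τ * σ = 1) (h2 : σ * τ = 1) (hL : ∀ x ∈ L, σ * x * τ ∈ L)
    {x : U} (hx : PP L τ x 0) : ∃ y₀, PP L τ (σ * x) y₀ := by
  obtain ⟨n, A, b, c, v, hA, hb, hc, hv, rfl, hx0⟩ := hx
  have hx : ∑ l, c l * v l = ∑ k, (∑ l, c l * A l k) * τ * v k := by
    have e1 : ∀ l, c l * v l = ∑ k, c l * A l k * τ * v k + c l * b l := by
      intro l
      conv_lhs => rw [hv l, mul_add, Finset.mul_sum]
      congr 1
      refine Finset.sum_congr rfl fun k _ => ?_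
      simp only [mul_assoc]
    rw [Finset.sum_congr rfl fun l _ => e1 l, Finset.sum_add_distrib, ← hx0, add_zero,
      Finset.sum_comm]
    refine Finset.sum_congr rfl fun k _ => ?_
    rw [Finset.sum_mul, Finset.sum_mul]
  have := PP_of (L := L) (τ := τ) A b (fun k => σ * (∑ l, c l * A l k) * τ) v hA hb
    (fun k => hL _ (L.sum_mem fun l _ => L.mul_mem (hc l) (hA l k))) hv
  have e2 : σ * ∑ l, c l * v l = ∑ k, σ * (∑ l, c l * A l k) * τ * v k := by
    rw [hx, Finset.mul_sum]
    refine Finset.sum_congr rfl fun k _ => ?_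
    simp only [mul_assoc]
  rw [e2]
  exact ⟨_, this⟩

theorem PP_right_inv (hS : Solv L τ) {x x₀ d : U} (hx : PP L τ x x₀) (hd : d ∈ L)
    (h1 : x₀ * d = 1) : ∃ y, PP L τ y d ∧ x * y = 1 := by
  obtain ⟨n, A, b, c, v, hA, hb, hc, hv, rfl, rfl⟩ := hx
  have hcA : ∀ k, (∑ l, c l * A l k) ∈ L := fun k => L.sum_mem fun l _ => L.mul_mem (hc l) (hA l k)
  obtain ⟨w, hw, -⟩ := hS n (fun i j => A i j - b i * d * ∑ l, c l * A l j) (fun i => b i * d)
    (fun i j => L.sub_mem (hA i j) (L.mul_mem (L.mul_mem (hb i) hd) (hcA j)))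
  -- the number `c A τ w`
  obtain ⟨q, hq⟩ : ∃ q, q = ∑ k, (∑ l, c l * A l k) * τ * w k := ⟨_, rfl⟩
  have hw' : ∀ i, w i = ∑ j, A i j * τ * w j + b i * (d - d * q) := by
    intro i
    have e1 : ∑ j, (A i j - b i * d * ∑ l, c l * A l j) * τ * w j =
        ∑ j, A i j * τ * w j - b i * d * q := by
      rw [hq, Finset.mul_sum, ← Finset.sum_sub_distrib]
      refine Finset.sum_congr rfl fun j _ => ?_
      rw [sub_mul, sub_mul]
      simp only [mul_assoc]
    rw [hw i, e1, mul_sub, ← mul_assoc]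
    abel
  have hqc : ∑ i, c i * ∑ j, A i j * τ * w j = q := by
    rw [hq]
    have e2 : ∀ i, c i * ∑ j, A i j * τ * w j = ∑ j, c i * A i j * τ * w j := by
      intro i
      rw [Finset.mul_sum]
      refine Finset.sum_congr rfl fun j _ => ?_
      simp only [mul_assoc]
    rw [Finset.sum_congr rfl fun i _ => e2 i, Finset.sum_comm]
    refine Finset.sum_congr rfl fun k _ => ?_
    rw [Finset.sum_mul, Finset.sum_mul]
  have hcw : ∑ i, c i * w i = 1 := by
    have e3 : ∀ i, c i * w i = c i * ∑ j, A i j * τ * w j + c i * b i * (d - d * q) := by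
      intro i
      conv_lhs => rw [hw' i, mul_add]
      rw [mul_assoc]
    rw [Finset.sum_congr rfl fun i _ => e3 i, Finset.sum_add_distrib, hqc, ← Finset.sum_mul,
      mul_sub, ← mul_assoc, h1, one_mul]
    abel
  obtain ⟨u, hu, huniq⟩ := hS n A (fun i => b i * (d - d * q)) hA
  have e4 : w = u := huniq w hw'
  have e5 : (fun i => v i * (d - d * q)) = u := by
    apply huniq
    intro i
    change v i * (d - d * q) = ∑ j, A i j * τ * (v j * (d - d * q)) + b i * (d - d * q)
    conv_lhs => rw [hv i, add_mul, Finset.sum_mul]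
    congr 1
    refine Finset.sum_congr rfl fun k _ => ?_
    simp only [mul_assoc]
  refine ⟨d - d * q, ?_, ?_⟩
  · have := PP_of (L := L) (τ := τ) (J := Fin n ⊕ Unit)
      (Matrix.fromBlocks (fun i j => A i j - b i * d * ∑ l, c l * A l j) 0
        (fun _ j => -(d * ∑ l, c l * A l j)) 0)
      (Sum.elim (fun i => b i * d) (fun _ => d)) (Sum.elim 0 (fun _ => 1))
      (Sum.elim w (fun _ => d - d * q)) ?_ ?_ ?_ ?_
    · simpa [Fintype.sum_sum_type] using this
    · rintro (i | i) (j | j)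
      · exact L.sub_mem (hA i j) (L.mul_mem (L.mul_mem (hb i) hd) (hcA j))
      · exact L.zero_mem
      · exact L.neg_mem (L.mul_mem hd (hcA j))
      · exact L.zero_mem
    · rintro (i | i)
      · exact L.mul_mem (hb i) hd
      · exact hd
    · rintro (i | i)
      · exact L.zero_mem
      · exact L.one_mem
    · rintro (i | i)
      · simp only [Sum.elim_inl, Fintype.sum_sum_type, Matrix.fromBlocks_apply₁₁,
          Matrix.fromBlocks_apply₁₂, Matrix.zero_apply, zero_mul, Finset.sum_const_zero, add_zero]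
        exact hw i
      · simp only [Sum.elim_inl, Sum.elim_inr, Fintype.sum_sum_type, Matrix.fromBlocks_apply₂₁,
          Matrix.fromBlocks_apply₂₂, Matrix.zero_apply, zero_mul, Finset.sum_const_zero, add_zero]
        rw [hq, Finset.mul_sum]
        have e6 : ∑ j, -(d * ∑ l, c l * A l j) * τ * w j =
            - ∑ j, d * ((∑ l, c l * A l j) * τ * w j) := by
          rw [← Finset.sum_neg_distrib]
          refine Finset.sum_congr rfl fun j _ => ?_
          simp only [neg_mul, mul_assoc]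
        rw [e6]
        abel
  · have e6 : (∑ i, c i * v i) * (d - d * q) = ∑ i, c i * (v i * (d - d * q)) := by
      rw [Finset.sum_mul]
      exact Finset.sum_congr rfl fun i _ => mul_assoc _ _ _
    have e7 : ∀ i, v i * (d - d * q) = w i := by
      intro i
      rw [e4, ← e5]
    rw [e6, Finset.sum_congr rfl fun i _ => by rw [e7 i], hcw]

theorem PP_inv (hS : Solv L τ) {x x₀ d : U} (hx : PP L τ x x₀) (hd : d ∈ L) (h1 : x₀ * d = 1)
    (h2 : d * x₀ = 1) : ∃ y, PP L τ y d ∧ x * y = 1 ∧ y * x = 1 := by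
  have hx0 : x₀ ∈ L := by
    obtain ⟨n, A, b, c, v, hA, hb, hc, hv, rfl, rfl⟩ := hx
    exact L.sum_mem fun i _ => L.mul_mem (hc i) (hb i)
  obtain ⟨y, hy, hxy⟩ := PP_right_inv hS hx hd h1
  obtain ⟨z, -, hyz⟩ := PP_right_inv hS hy hx0 h2
  have hxz : x = z := by
    calc x = x * (y * z) := by rw [hyz, mul_one]
      _ = z := by rw [← mul_assoc, hxy, one_mul]
  exact ⟨y, hy, hxy, by rw [hxz]; exact hyz⟩

end Pool.Agent.HX
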