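import Mathlib

set_option autoImplicit false

open Matrix

/-!
The rational closure of a subring of a ring.
-/

namespace Pool.Agent.HX

variable {U : Type*} [Ring U]

/-- the rational closure of a subring: the elements `c · v` with `Q v = b`, where `Q` is an
invertible matrix and `Q`, `b`, `c` have entries in the subring -/
def RC (S : Subring U) : Set U :=
  {x | ∃ (n : ℕ) (Q : Matrix (Fin n) (Fin n) U) (b c v : Fin n → U), (∀ i j, Q i j ∈ S) ∧
    (∀ i, b i ∈ S) ∧ (∀ i, c i ∈ S) ∧ IsUnit Q ∧ (∀ i, ∑ j, Q i j * v j = b i) ∧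
    x = ∑ i, c i * v i}

variable {S : Subring U}

theorem isUnit_submatrix {J K : Type*} [Fintype J] [DecidableEq J] [Fintype K] [DecidableEq K]
    (e : J ≃ K) {Q : Matrix J J U} (hu : IsUnit Q) : IsUnit (Q.submatrix e.symm e.symm) := by
  obtain ⟨⟨A, B, h1, h2⟩, rfl⟩ := hu
  refine ⟨⟨A.submatrix e.symm e.symm, B.submatrix e.symm e.symm, ?_, ?_⟩, rfl⟩
  · rw [submatrix_mul_equiv, h1, submatrix_one_equiv]
  · rw [submatrix_mul_equiv, h2, submatrix_one_equiv]

/-- arbitrary finite index types -/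
theorem RC_of {J : Type*} [Fintype J] [DecidableEq J] (Q : Matrix J J U) (b c v : J → U)
    (hQ : ∀ i j, Q i j ∈ S) (hb : ∀ i, b i ∈ S) (hc : ∀ i, c i ∈ S) (hu : IsUnit Q)
    (hv : ∀ i, ∑ j, Q i j * v j = b i) : ∑ i, c i * v i ∈ RC S := by
  let e := Fintype.equivFin J
  refine ⟨Fintype.card J, Q.submatrix e.symm e.symm, b ∘ e.symm, c ∘ e.symm, v ∘ e.symm,
    fun i j => hQ _ _, fun i => hb _, fun i => hc _, isUnit_submatrix e hu, ?_, ?_⟩
  · intro i
    have h := hv (e.symm i)
    rw [← Equiv.sum_comp e.symm] at h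
    exact h
  · rw [← Equiv.sum_comp e.symm]
    rfl

/-- Schur complements over noncommutative rings -/
theorem isUnit_fromBlocks {J K : Type*} [Fintype J] [DecidableEq J] [Fintype K] [DecidableEq K]
    (A A' : Matrix J J U) (B : Matrix J K U) (C : Matrix K J U) (D : Matrix K K U)
    (h1 : A * A' = 1) (h2 : A' * A = 1) :
    IsUnit (fromBlocks A B C D) ↔ IsUnit (D - C * A' * B) := by
  have hL : IsUnit (fromBlocks 1 0 (C * A') 1 : Matrix (J ⊕ K) (J ⊕ K) U) := by
    refine ⟨⟨fromBlocks 1 0 (C * A') 1, fromBlocks 1 0 (-(C * A')) 1, ?_, ?_⟩, rfl⟩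
    · rw [fromBlocks_multiply, ← fromBlocks_one]
      simp
    · rw [fromBlocks_multiply, ← fromBlocks_one]
      simp
  have hR : IsUnit (fromBlocks 1 (A' * B) 0 1 : Matrix (J ⊕ K) (J ⊕ K) U) := by
    refine ⟨⟨fromBlocks 1 (A' * B) 0 1, fromBlocks 1 (-(A' * B)) 0 1, ?_, ?_⟩, rfl⟩
    · rw [fromBlocks_multiply, ← fromBlocks_one]
      simp
    · rw [fromBlocks_multiply, ← fromBlocks_one]
      simp
  have hdec : fromBlocks A B C D = fromBlocks 1 0 (C * A') 1 *
      fromBlocks A 0 0 (D - C * A' * B) * fromBlocks 1 (A' * B) 0 1 := by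
    rw [fromBlocks_multiply, fromBlocks_multiply]
    simp only [Matrix.one_mul, Matrix.mul_one, Matrix.zero_mul, Matrix.mul_zero, add_zero,
      zero_add]
    rw [← Matrix.mul_assoc A A' B, h1, Matrix.one_mul, Matrix.mul_assoc C A' A, h2,
      Matrix.mul_one, ← Matrix.mul_assoc C A' B, add_sub_cancel]
  have h3 : IsUnit (fromBlocks A B C D) ↔
      IsUnit (fromBlocks A 0 0 (D - C * A' * B) : Matrix (J ⊕ K) (J ⊕ K) U) := by
    rw [hdec]
    constructor
    · intro h
      obtain ⟨l, hl⟩ := hL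
      obtain ⟨r, hr⟩ := hR
      rw [← hl, ← hr] at h
      rw [Units.isUnit_mul_units, Units.isUnit_units_mul] at h
      exact h
    · intro h
      exact (hL.mul h).mul hR
  rw [h3]
  constructor
  · rintro ⟨⟨M, N, hMN, hNM⟩, hM⟩
    simp only at hM
    subst hM
    rw [← fromBlocks_toBlocks N, fromBlocks_multiply, ← fromBlocks_one] at hMN hNM
    have e1 := (fromBlocks_inj.1 hMN).2.2.2
    have e2 := (fromBlocks_inj.1 hNM).2.2.2
    simp only [Matrix.zero_mul, Matrix.mul_zero, zero_add] at e1 e2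
    exact ⟨⟨_, _, e1, e2⟩, rfl⟩
  · rintro ⟨⟨M, N, hMN, hNM⟩, hM⟩
    simp only at hM
    rw [← hM]
    refine ⟨⟨fromBlocks A 0 0 M, fromBlocks A' 0 0 N, ?_, ?_⟩, rfl⟩
    · rw [fromBlocks_multiply, ← fromBlocks_one, h1, hMN]
      simp
    · rw [fromBlocks_multiply, ← fromBlocks_one, h2, hNM]
      simp

theorem isUnit_unit_matrix (M : Matrix Unit Unit U) : IsUnit M ↔ IsUnit (M () ()) := by
  constructor
  · rintro ⟨⟨A, B, h1, h2⟩, rfl⟩
    refine ⟨⟨A () (), B () (), ?_, ?_⟩, rfl⟩
    · have := congrFun (congrFun h1 ()) ()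
      simpa [Matrix.mul_apply] using this
    · have := congrFun (congrFun h2 ()) ()
      simpa [Matrix.mul_apply] using this
  · rintro ⟨⟨a, b, h1, h2⟩, h⟩
    simp only at h
    refine ⟨⟨M, Matrix.of fun _ _ => b, ?_, ?_⟩, rfl⟩
    · ext i j
      simp [Matrix.mul_apply, ← h, h1]
    · ext i j
      simp [Matrix.mul_apply, ← h, h2]

theorem RC_of_mem {x : U} (hx : x ∈ S) : x ∈ RC S := by
  have h := RC_of (S := S) (J := Unit) 1 (fun _ => x) (fun _ => 1) (fun _ => x)
    (fun i j => by rw [Subsingleton.elim i j, one_apply_eq]; exact S.one_mem)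
    (fun _ => hx) (fun _ => S.one_mem) isUnit_one (fun i => by simp)
  simpa using h

theorem RC_add {x y : U} (hx : x ∈ RC S) (hy : y ∈ RC S) : x + y ∈ RC S := by
  obtain ⟨n, Q, b, c, v, hQ, hb, hc, hu, hv, rfl⟩ := hx
  obtain ⟨n', Q', b', c', v', hQ', hb', hc', hu', hv', rfl⟩ := hy
  have h := RC_of (S := S) (fromBlocks Q 0 0 Q') (Sum.elim b b') (Sum.elim c c') (Sum.elim v v')
    (by
      rintro (i | i) (j | j)
      · exact hQ i j
      · exact S.zero_mem
      · exact S.zero_mem
      · exact hQ' i j)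
    (by
      rintro (i | i)
      · exact hb i
      · exact hb' i)
    (by
      rintro (i | i)
      · exact hc i
      · exact hc' i)
    (by
      obtain ⟨⟨A, B, h1, h2⟩, rfl⟩ := hu
      rw [isUnit_fromBlocks A B 0 0 Q' h1 h2]
      simpa using hu')
    (by
      rintro (i | i)
      · rw [Fintype.sum_sum_type]
        simpa using hv i
      · rw [Fintype.sum_sum_type]
        simpa using hv' i)
  rw [Fintype.sum_sum_type] at h
  exact h

theorem RC_mul {x y : U} (hx : x ∈ RC S) (hy : y ∈ RC S) : x * y ∈ RC S := by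
  obtain ⟨n, Q, b, c, v, hQ, hb, hc, hu, hv, rfl⟩ := hx
  obtain ⟨n', Q', b', c', v', hQ', hb', hc', hu', hv', hy⟩ := hy
  have h := RC_of (S := S) (fromBlocks Q (Matrix.of fun i j => -(b i * c' j)) 0 Q')
    (Sum.elim (fun _ => 0) b') (Sum.elim c (fun _ => 0)) (Sum.elim (fun i => v i * y) v')
    (by
      rintro (i | i) (j | j)
      · exact hQ i j
      · exact S.neg_mem (S.mul_mem (hb i) (hc' j))
      · exact S.zero_mem
      · exact hQ' i j)
    (by
      rintro (i | i)
      · exact S.zero_mem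
      · exact hb' i)
    (by
      rintro (i | i)
      · exact hc i
      · exact S.zero_mem)
    (by
      obtain ⟨⟨A, B, h1, h2⟩, rfl⟩ := hu
      rw [isUnit_fromBlocks A B _ 0 Q' h1 h2]
      simpa using hu')
    (by
      rintro (i | i)
      · rw [Fintype.sum_sum_type]
        simp only [fromBlocks_apply₁₁, fromBlocks_apply₁₂, Sum.elim_inl, Sum.elim_inr, of_apply,
          neg_mul, Finset.sum_neg_distrib]
        have e1 : ∑ j, Q i j * (v j * y) = b i * y := by
          rw [← hv i, Finset.sum_mul]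
          exact Finset.sum_congr rfl fun j _ => (mul_assoc _ _ _).symm
        have e2 : ∑ j, b i * c' j * v' j = b i * y := by
          rw [hy, Finset.mul_sum]
          exact Finset.sum_congr rfl fun j _ => mul_assoc _ _ _
        rw [e1, e2, add_neg_cancel]
      · rw [Fintype.sum_sum_type]
        simpa using hv' i)
  rw [Fintype.sum_sum_type] at h
  simp only [Sum.elim_inl, Sum.elim_inr, zero_mul, Finset.sum_const_zero, add_zero] at h
  rw [Finset.sum_mul]
  have e3 : ∑ i, c i * v i * y = ∑ i, c i * (v i * y) :=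
    Finset.sum_congr rfl fun i _ => mul_assoc _ _ _
  rw [e3]
  exact h

theorem RC_inv {x y : U} (hx : x ∈ RC S) (h1 : x * y = 1) (h2 : y * x = 1) : y ∈ RC S := by
  obtain ⟨n, Q, b, c, v, hQ, hb, hc, hu, hv, hx⟩ := hx
  have h := RC_of (S := S) (J := Fin n ⊕ Unit)
    (fromBlocks Q (Matrix.of fun i _ => -b i) (Matrix.of fun _ j => c j) 0)
    (Sum.elim (fun _ => 0) (fun _ => 1)) (Sum.elim (fun _ => 0) (fun _ => 1))
    (Sum.elim (fun i => v i * y) (fun _ => y))
    (by
      rintro (i | i) (j | j)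
      · exact hQ i j
      · exact S.neg_mem (hb i)
      · exact hc j
      · exact S.zero_mem)
    (by
      rintro (i | i)
      · exact S.zero_mem
      · exact S.one_mem)
    (by
      rintro (i | i)
      · exact S.zero_mem
      · exact S.one_mem)
    (by
      obtain ⟨⟨A, B, e1, e2⟩, hA⟩ := hu
      simp only at hA
      subst hA
      rw [isUnit_fromBlocks A B _ _ 0 e1 e2, isUnit_unit_matrix]
      have e3 : ∀ i, ∑ j, B i j * b j = v i := by
        intro i
        have e4 : B.mulVec (A.mulVec v) = v := by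
          rw [mulVec_mulVec, e2, one_mulVec]
        have e5 : A.mulVec v = b := funext hv
        rw [e5] at e4
        exact congrFun e4 i
      have e6 : ((0 - (Matrix.of fun (_ : Unit) (j : Fin n) => c j) * B *
          (Matrix.of fun (i : Fin n) (_ : Unit) => -b i)) : Matrix Unit Unit U) () () = x := by
        rw [Matrix.mul_assoc, Matrix.sub_apply, Matrix.zero_apply, zero_sub, Matrix.mul_apply]
        simp only [of_apply, Matrix.mul_apply, mul_neg, Finset.sum_neg_distrib, neg_neg, e3]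
        exact hx.symm
      rw [e6]
      exact ⟨⟨x, y, h1, h2⟩, rfl⟩)
    (by
      rintro (i | i)
      · rw [Fintype.sum_sum_type]
        simp only [fromBlocks_apply₁₁, fromBlocks_apply₁₂, Sum.elim_inl, Sum.elim_inr, of_apply,
          neg_mul, Finset.univ_unique, Finset.sum_singleton]
        have e1 : ∑ j, Q i j * (v j * y) = b i * y := by
          rw [← hv i, Finset.sum_mul]
          exact Finset.sum_congr rfl fun j _ => (mul_assoc _ _ _).symm
        rw [e1, add_neg_cancel]
      · rw [Fintype.sum_sum_type]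
        simp only [fromBlocks_apply₂₁, fromBlocks_apply₂₂, Sum.elim_inl, Sum.elim_inr, of_apply,
          Finset.univ_unique, Finset.sum_singleton, Matrix.zero_apply, zero_mul, add_zero]
        rw [← h1, hx, Finset.sum_mul]
        exact Finset.sum_congr rfl fun j _ => (mul_assoc _ _ _).symm)
  rw [Fintype.sum_sum_type] at h
  simpa using h

/-- a ring automorphism preserving the subring preserves its rational closure -/
theorem RC_map (f : U ≃+* U) (hf : ∀ x ∈ S, f x ∈ S) {x : U} (hx : x ∈ RC S) : f x ∈ RC S := by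
  obtain ⟨n, Q, b, c, v, hQ, hb, hc, hu, hv, rfl⟩ := hx
  refine ⟨n, Q.map f, f ∘ b, f ∘ c, f ∘ v, fun i j => hf _ (hQ i j), fun i => hf _ (hb i),
    fun i => hf _ (hc i), ?_, ?_, ?_⟩
  · exact hu.map (f : U →+* U).mapMatrix
  · intro i
    have := congrArg f (hv i)
    rw [map_sum] at this
    simp only [map_mul] at this
    exact this
  · rw [map_sum]
    simp only [map_mul]
    rfl

/-- simultaneous linearisation of the entries of a matrix over the rational closure -/
theorem RC_matrix {J : Type*} [Fintype J] [DecidableEq J] (A : Matrix J J U)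
    (hA : ∀ i j, A i j ∈ RC S) :
    ∃ (n : ℕ) (Q : Matrix (Fin n) (Fin n) U) (B V : Matrix (Fin n) J U) (C : Matrix J (Fin n) U),
      (∀ i j, Q i j ∈ S) ∧ (∀ i j, B i j ∈ S) ∧ (∀ i j, C i j ∈ S) ∧ IsUnit Q ∧ Q * V = B ∧
      A = C * V := by
  have hA' : ∀ p : J × J, ∃ (n : ℕ) (Q : Matrix (Fin n) (Fin n) U) (b c v : Fin n → U),
      (∀ i j, Q i j ∈ S) ∧ (∀ i, b i ∈ S) ∧ (∀ i, c i ∈ S) ∧ IsUnit Q ∧
      (∀ i, ∑ j, Q i j * v j = b i) ∧ A p.1 p.2 = ∑ i, c i * v i := fun p => hA p.1 p.2
  choose n Q b c v hQ hb hc hu hv hx using hA'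
  let I := Σ p : J × J, Fin (n p)
  let e : I ≃ Fin (Fintype.card I) := Fintype.equivFin I
  let Q₀ : Matrix I I U := blockDiagonal' Q
  let B₀ : Matrix I J U := fun a j => if a.1.2 = j then b a.1 a.2 else 0
  let V₀ : Matrix I J U := fun a j => if a.1.2 = j then v a.1 a.2 else 0
  let C₀ : Matrix J I U := fun i a => if a.1.1 = i then c a.1 a.2 else 0
  have hQ₀ : ∀ a a', Q₀ a a' ∈ S := by
    rintro ⟨p, a⟩ ⟨p', a'⟩
    by_cases h : p = p'
    · subst h
      show blockDiagonal' Q ⟨p, a⟩ ⟨p, a'⟩ ∈ S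
      rw [blockDiagonal'_apply_eq]
      exact hQ p a a'
    · show blockDiagonal' Q ⟨p, a⟩ ⟨p', a'⟩ ∈ S
      rw [blockDiagonal'_apply_ne _ _ _ h]
      exact S.zero_mem
  have hu₀ : IsUnit Q₀ := by
    choose w hw using hu
    refine ⟨⟨Q₀, blockDiagonal' fun p => ((w p)⁻¹ : (Matrix (Fin (n p)) (Fin (n p)) U)ˣ).val,
      ?_, ?_⟩, rfl⟩
    · show blockDiagonal' Q * _ = 1
      rw [← blockDiagonal'_mul, ← blockDiagonal'_one]
      congr 1
      funext p
      show Q p * _ = 1
      rw [← hw p]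
      exact (w p).mul_inv
    · show _ * blockDiagonal' Q = 1
      rw [← blockDiagonal'_mul, ← blockDiagonal'_one]
      congr 1
      funext p
      show _ * Q p = 1
      rw [← hw p]
      exact (w p).inv_mul
  have hQV : Q₀ * V₀ = B₀ := by
    ext ⟨p, a⟩ j
    rw [Matrix.mul_apply, Fintype.sum_sigma, Finset.sum_eq_single p]
    · show ∑ a', blockDiagonal' Q ⟨p, a⟩ ⟨p, a'⟩ * (if p.2 = j then v p a' else 0) =
        if p.2 = j then b p a else 0
      by_cases h : p.2 = j
      · simp only [if_pos h, blockDiagonal'_apply_eq]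
        exact hv p a
      · simp only [if_neg h, mul_zero, Finset.sum_const_zero]
    · intro p' _ hp
      refine Finset.sum_eq_zero fun a' _ => ?_
      show blockDiagonal' Q ⟨p, a⟩ ⟨p', a'⟩ * _ = 0
      rw [blockDiagonal'_apply_ne _ _ _ (Ne.symm hp), zero_mul]
    · intro h
      exact absurd (Finset.mem_univ _) h
  have hCV : A = C₀ * V₀ := by
    ext i j
    rw [Matrix.mul_apply, Fintype.sum_sigma, Finset.sum_eq_single (i, j)]
    · show A i j = ∑ a : Fin (n (i, j)), (if i = i then c (i, j) a else 0) *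
        (if j = j then v (i, j) a else 0)
      simp only [if_true]
      exact hx (i, j)
    · intro p _ hp
      refine Finset.sum_eq_zero fun a _ => ?_
      show (if p.1 = i then c p a else 0) * (if p.2 = j then v p a else 0) = 0
      by_cases h1 : p.1 = i
      · by_cases h2 : p.2 = j
        · exact absurd (Prod.ext h1 h2) hp
        · rw [if_neg h2, mul_zero]
      · rw [if_neg h1, zero_mul]
    · intro h
      exact absurd (Finset.mem_univ _) h
  refine ⟨Fintype.card I, Q₀.submatrix e.symm e.symm, B₀.submatrix e.symm id,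
    V₀.submatrix e.symm id, C₀.submatrix id e.symm, fun i j => hQ₀ _ _, ?_, ?_,
    isUnit_submatrix e hu₀, ?_, ?_⟩
  · intro i j
    show (if (e.symm i).1.2 = j then b (e.symm i).1 (e.symm i).2 else 0) ∈ S
    split_ifs
    · exact hb _ _
    · exact S.zero_mem
  · intro i j
    show (if (e.symm j).1.1 = i then c (e.symm j).1 (e.symm j).2 else 0) ∈ S
    split_ifs
    · exact hc _ _
    · exact S.zero_mem
  · rw [submatrix_mul_equiv, hQV]
  · rw [submatrix_mul_equiv, ← hCV, submatrix_id_id]

end Pool.Agent.HX
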