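import Pool.Agent.HX.Rank
import Pool.Agent.HX.Rat

set_option autoImplicit false

open Matrix

/-!
Ranks of systems `X ⊗ 1`, `1 ⊗ Y` for matrices with commuting entries.
-/

namespace Pool.Agent.HX

variable {U : Type} [Ring U]

/-- `X ⊗ 1` -/
def kl {a b : Type} (q : Type) [DecidableEq q] (X : Matrix a b U) : Matrix (a × q) (b × q) U :=
  Matrix.of fun s t => if s.2 = t.2 then X s.1 t.1 else 0

/-- `1 ⊗ Y` -/
def kr {p q : Type} (b : Type) [DecidableEq b] (Y : Matrix p q U) : Matrix (b × p) (b × q) U :=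
  Matrix.of fun s t => if s.1 = t.1 then Y s.2 t.2 else 0

lemma kl_mul {a b c : Type} [Fintype b] (q : Type) [Fintype q] [DecidableEq q]
    (X : Matrix a b U) (Y : Matrix b c U) : kl q (X * Y) = kl q X * kl q Y := by
  ext s t
  simp only [kl, Matrix.of_apply, Matrix.mul_apply, Fintype.sum_prod_type]
  by_cases h : s.2 = t.2
  · rw [if_pos h]
    refine Finset.sum_congr rfl fun k _ => ?_
    rw [Finset.sum_eq_single s.2]
    · rw [if_pos rfl, if_pos h]
    · intro l _ hl
      rw [if_neg (Ne.symm hl), zero_mul]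
    · intro h'
      exact absurd (Finset.mem_univ _) h'
  · rw [if_neg h]
    symm
    refine Finset.sum_eq_zero fun k _ => Finset.sum_eq_zero fun l _ => ?_
    by_cases h1 : s.2 = l
    · rw [if_neg (fun h2 => h (h1.trans h2)), mul_zero]
    · rw [if_neg h1, zero_mul]

lemma kl_one {a : Type} [DecidableEq a] (q : Type) [DecidableEq q] :
    kl q (1 : Matrix a a U) = 1 := by
  ext ⟨i, j⟩ ⟨k, l⟩
  simp only [kl, Matrix.of_apply, Matrix.one_apply, Prod.mk.injEq]
  by_cases h1 : j = l <;> by_cases h2 : i = k <;> simp [h1, h2]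

lemma kr_kl_comm {b b' p q : Type} [Fintype b] [Fintype b'] [Fintype p] [Fintype q]
    [DecidableEq b] [DecidableEq b'] [DecidableEq p] [DecidableEq q]
    (Y : Matrix p q U) (R : Matrix b b' U) (h : ∀ i j k l, Y i j * R k l = R k l * Y i j) :
    kr b Y * kl q R = kl p R * kr b' Y := by
  ext ⟨i, j⟩ ⟨i', j'⟩
  simp only [kl, kr, Matrix.of_apply, Matrix.mul_apply, Fintype.sum_prod_type]
  rw [Finset.sum_eq_single i, Finset.sum_eq_single j', Finset.sum_eq_single i',
    Finset.sum_eq_single j]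
  · rw [if_pos rfl, if_pos rfl, if_pos rfl, if_pos rfl, h]
  · intro l _ hl
    rw [if_neg (Ne.symm hl), zero_mul]
  · intro h'
    exact absurd (Finset.mem_univ _) h'
  · intro k _ hk
    refine Finset.sum_eq_zero fun l _ => ?_
    rw [if_neg hk, mul_zero]
  · intro h'
    exact absurd (Finset.mem_univ _) h'
  · intro l _ hl
    rw [if_neg hl, mul_zero]
  · intro h'
    exact absurd (Finset.mem_univ _) h'
  · intro k _ hk
    refine Finset.sum_eq_zero fun l _ => ?_
    rw [if_neg (Ne.symm hk), zero_mul]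
  · intro h'
    exact absurd (Finset.mem_univ _) h'

/-- the two systems together -/
def St {a b p q : Type} [DecidableEq b] [DecidableEq q] (X : Matrix a b U) (Y : Matrix p q U) :
    Matrix ((a × q) ⊕ (b × p)) (b × q) U :=
  fromRows (kl q X) (kr b Y)

/-- the product formula for a pair of matrices -/
def Pf (ρ : RankFn U) {a b p q : Type} [Fintype a] [Fintype b] [Fintype p] [Fintype q]
    [DecidableEq b] [DecidableEq q] (X : Matrix a b U) (Y : Matrix p q U) : Prop :=
  (Fintype.card b : ℝ) * Fintype.card q - ρ.rk (St X Y)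
    = (Fintype.card b - ρ.rk X) * (Fintype.card q - ρ.rk Y)

variable (ρ : RankFn U)

lemma St_swap_le {a b p q : Type} [Fintype a] [Fintype b] [Fintype p] [Fintype q]
    [DecidableEq b] [DecidableEq q] (X : Matrix a b U) (Y : Matrix p q U) :
    ρ.rk (St Y X) ≤ ρ.rk (St X Y) := by
  have h : St Y X = (St X Y).submatrix
      (Sum.elim (fun s => Sum.inr (s.2, s.1)) (fun s => Sum.inl (s.2, s.1)))
      (fun s => (s.2, s.1)) := by
    ext (⟨i, j⟩ | ⟨i, j⟩) ⟨k, l⟩
    · rfl
    · rfl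
  rw [h]
  exact ρ.rk_submatrix_le _ _ _

lemma St_swap {a b p q : Type} [Fintype a] [Fintype b] [Fintype p] [Fintype q]
    [DecidableEq b] [DecidableEq q] (X : Matrix a b U) (Y : Matrix p q U) :
    ρ.rk (St Y X) = ρ.rk (St X Y) :=
  le_antisymm (St_swap_le ρ X Y) (St_swap_le ρ Y X)

lemma Pf_swap {a b p q : Type} [Fintype a] [Fintype b] [Fintype p] [Fintype q]
    [DecidableEq b] [DecidableEq q] {X : Matrix a b U} {Y : Matrix p q U} (h : Pf ρ X Y) :
    Pf ρ Y X := by
  unfold Pf at h ⊢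
  rw [St_swap ρ X Y, mul_comm, h, mul_comm]

lemma St_diag {N a b p q : Type} [Fintype N] [Fintype a] [Fintype b] [Fintype p] [Fintype q]
    [DecidableEq N] [DecidableEq b] [DecidableEq q] (Q Q' : Matrix N N U) (h2 : Q' * Q = 1)
    (X : Matrix a b U) (Y : Matrix p q U) :
    ρ.rk (St (fromBlocks Q 0 0 X) Y) = (Fintype.card N : ℝ) * Fintype.card q + ρ.rk (St X Y) := by
  have e : (St (fromBlocks Q 0 0 X) Y).submatrix
      (Sum.elim (Sum.elim (fun s : N × q => Sum.inl (Sum.inl s.1, s.2))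
          (fun s : N × p => Sum.inr (Sum.inl s.1, s.2)))
        (Sum.elim (fun s : a × q => Sum.inl (Sum.inr s.1, s.2))
          (fun s : b × p => Sum.inr (Sum.inr s.1, s.2))))
      (Sum.elim (fun s : N × q => (Sum.inl s.1, s.2)) (fun s : b × q => (Sum.inr s.1, s.2)))
      = fromBlocks (St Q Y) 0 0 (St X Y) := by
    ext ((⟨i, j⟩ | ⟨i, j⟩) | (⟨i, j⟩ | ⟨i, j⟩)) (⟨k, l⟩ | ⟨k, l⟩) <;>
      simp [St, kl, kr]
  have e' : St (fromBlocks Q 0 0 X) Y = (fromBlocks (St Q Y) 0 0 (St X Y)).submatrix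
      (Sum.elim
        (fun s : (N ⊕ a) × q => Sum.elim (fun i => Sum.inl (Sum.inl (i, s.2)))
          (fun i => Sum.inr (Sum.inl (i, s.2))) s.1)
        (fun s : (N ⊕ b) × p => Sum.elim (fun i => Sum.inl (Sum.inr (i, s.2)))
          (fun i => Sum.inr (Sum.inr (i, s.2))) s.1))
      (fun s : (N ⊕ b) × q => Sum.elim (fun i => Sum.inl (i, s.2)) (fun i => Sum.inr (i, s.2))
        s.1) := by
    ext (⟨i | i, j⟩ | ⟨i | i, j⟩) ⟨k | k, l⟩ <;>
      simp [St, kl, kr]
  have h3 : ρ.rk (St (fromBlocks Q 0 0 X) Y) = ρ.rk (St Q Y) + ρ.rk (St X Y) := by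
    rw [← ρ.rk_diag_eq]
    apply le_antisymm
    · rw [e']
      exact ρ.rk_submatrix_le _ _ _
    · rw [← e]
      exact ρ.rk_submatrix_le _ _ _
  rw [h3]
  congr 1
  apply le_antisymm
  · refine (ρ.rk_le_card _).trans ?_
    rw [Fintype.card_prod, Nat.cast_mul]
  · have h4 : ρ.rk (kl q Q) = (Fintype.card N : ℝ) * Fintype.card q := by
      have h5 := ρ.rk_mul_of_left_inv (kl q Q') (kl q Q) (1 : Matrix (N × q) (N × q) U) (by
        rw [← kl_mul, h2, kl_one])
      rw [Matrix.mul_one, ρ.rk_one, Fintype.card_prod, Nat.cast_mul] at h5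
      exact h5
    rw [← h4]
    have h6 : kl q Q = (St Q Y).submatrix Sum.inl id := by
      ext i j
      rfl
    rw [h6]
    exact ρ.rk_submatrix_le _ _ _

lemma St_schur {N a b p q : Type} [Fintype N] [Fintype a] [Fintype b] [Fintype p] [Fintype q]
    [DecidableEq N] [DecidableEq a] [DecidableEq b] [DecidableEq p] [DecidableEq q]
    (Q Q' : Matrix N N U) (h1 : Q * Q' = 1) (h2 : Q' * Q = 1)
    (B : Matrix N b U) (C : Matrix a N U) (D : Matrix a b U) (Y : Matrix p q U)
    (hY : ∀ i j k l, Y i j * (Q' * B) k l = (Q' * B) k l * Y i j) :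
    ρ.rk (St (fromBlocks Q B C D) Y)
      = (Fintype.card N : ℝ) * Fintype.card q + ρ.rk (St (D - C * Q' * B) Y) := by
  set L : Matrix (N ⊕ a) (N ⊕ a) U := fromBlocks 1 0 (C * Q') 1 with hL
  set L' : Matrix (N ⊕ a) (N ⊕ a) U := fromBlocks 1 0 (-(C * Q')) 1 with hL'
  set R : Matrix (N ⊕ b) (N ⊕ b) U := fromBlocks 1 (Q' * B) 0 1 with hR
  set R' : Matrix (N ⊕ b) (N ⊕ b) U := fromBlocks 1 (-(Q' * B)) 0 1 with hR'
  have hLL : L' * L = 1 := by
    rw [hL, hL', fromBlocks_multiply, ← fromBlocks_one]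
    simp
  have hRR : R * R' = 1 := by
    rw [hR, hR', fromBlocks_multiply, ← fromBlocks_one]
    simp
  have hRR' : R' * R = 1 := by
    rw [hR, hR', fromBlocks_multiply, ← fromBlocks_one]
    simp
  have hM : fromBlocks Q B C D = L * fromBlocks Q 0 0 (D - C * Q' * B) * R := by
    rw [hL, hR, fromBlocks_multiply, fromBlocks_multiply]
    simp only [Matrix.one_mul, Matrix.mul_one, Matrix.zero_mul, Matrix.mul_zero, add_zero,
      zero_add]
    rw [← Matrix.mul_assoc Q Q' B, h1, Matrix.one_mul, Matrix.mul_assoc C Q' Q, h2,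
      Matrix.mul_one, ← Matrix.mul_assoc C Q' B, add_sub_cancel]
  have hcomm : kr (N ⊕ b) Y * kl q R = kl p R * kr (N ⊕ b) Y := by
    apply kr_kl_comm
    rintro i j (k | k) (l | l)
    · rw [hR, fromBlocks_apply₁₁, Matrix.one_apply]
      split_ifs <;> simp
    · rw [hR, fromBlocks_apply₁₂]
      exact hY i j k l
    · rw [hR, fromBlocks_apply₂₁]
      simp
    · rw [hR, fromBlocks_apply₂₂, Matrix.one_apply]
      split_ifs <;> simp
  have key : St (fromBlocks Q B C D) Y =
      (fromBlocks (kl q L) 0 0 (kl p R') :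
        Matrix (((N ⊕ a) × q) ⊕ ((N ⊕ b) × p)) (((N ⊕ a) × q) ⊕ ((N ⊕ b) × p)) U) *
      (St (fromBlocks Q 0 0 (D - C * Q' * B)) Y * kl q R) := by
    have hk1 : kl p R' * kl p R = 1 := by rw [← kl_mul, hRR', kl_one]
    have hk2 : kl q (fromBlocks Q B C D)
        = kl q L * (kl q (fromBlocks Q 0 0 (D - C * Q' * B)) * kl q R) := by
      rw [← kl_mul, ← kl_mul, hM, Matrix.mul_assoc]
    unfold St
    rw [fromRows_mul, fromBlocks_mul_fromRows, Matrix.zero_mul, Matrix.zero_mul, add_zero,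
      zero_add, hcomm, ← Matrix.mul_assoc (kl p R'), hk1, Matrix.one_mul, hk2]
  rw [key, ρ.rk_mul_of_left_inv (fromBlocks (kl q L') 0 0 (kl p R) :
      Matrix (((N ⊕ a) × q) ⊕ ((N ⊕ b) × p)) (((N ⊕ a) × q) ⊕ ((N ⊕ b) × p)) U),
    ρ.rk_mul_of_right_inv _ _ (kl q R'), St_diag ρ Q Q' h2]
  · rw [← kl_mul, hRR, kl_one]
  · rw [fromBlocks_multiply, ← kl_mul, ← kl_mul, hLL, hRR, kl_one, kl_one]
    simp

/-- passing to Schur complements in the first matrix -/
lemma Pf_schur {N a b p q : Type} [Fintype N] [Fintype a] [Fintype b] [Fintype p] [Fintype q]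
    [DecidableEq N] [DecidableEq a] [DecidableEq b] [DecidableEq p] [DecidableEq q]
    (Q Q' : Matrix N N U) (h1 : Q * Q' = 1) (h2 : Q' * Q = 1)
    (B : Matrix N b U) (C : Matrix a N U) (D : Matrix a b U) (Y : Matrix p q U)
    (hY : ∀ i j k l, Y i j * (Q' * B) k l = (Q' * B) k l * Y i j)
    (h : Pf ρ (fromBlocks Q B C D) Y) : Pf ρ (D - C * Q' * B) Y := by
  unfold Pf at h ⊢
  rw [St_schur ρ Q Q' h1 h2 B C D Y hY, ρ.rk_schur Q Q' B C D h1 h2, Fintype.card_sum] at h
  push_cast at h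
  linarith

/-- every matrix over the rational closure is a Schur complement -/
lemma RCs_lin {S : Subring U} {a b : Type} [Fintype a] [Fintype b] [DecidableEq a]
    [DecidableEq b] (X : Matrix a b U) (hX : ∀ i j, X i j ∈ RC S) :
    ∃ (N : Type) (_ : Fintype N) (_ : DecidableEq N) (Q Q' : Matrix N N U) (B : Matrix N b U)
      (C : Matrix a N U), (∀ i j, Q i j ∈ S) ∧ (∀ i j, B i j ∈ S) ∧ (∀ i j, C i j ∈ S) ∧
      Q * Q' = 1 ∧ Q' * Q = 1 ∧ X = C * Q' * B := by
  choose n Q bb cc v hQ hb hc hu hv hx using hX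
  choose Qu hQu using hu
  refine ⟨Σ s : a × b, Fin (n s.1 s.2), inferInstance, inferInstance,
    blockDiagonal' (fun s : a × b => Q s.1 s.2),
    blockDiagonal' (fun s : a × b => ((Qu s.1 s.2)⁻¹ : (Matrix _ _ U)ˣ).val),
    Matrix.of fun s j => if s.1.2 = j then bb s.1.1 s.1.2 s.2 else 0,
    Matrix.of fun i s => if s.1.1 = i then cc s.1.1 s.1.2 s.2 else 0, ?_, ?_, ?_, ?_, ?_, ?_⟩
  · rintro ⟨s, i⟩ ⟨t, j⟩
    rw [blockDiagonal'_apply]
    split_ifs with h
    · exact hQ _ _ _ _
    · exact S.zero_mem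
  · intro s j
    rw [Matrix.of_apply]
    split_ifs
    · exact hb _ _ _
    · exact S.zero_mem
  · intro i s
    rw [Matrix.of_apply]
    split_ifs
    · exact hc _ _ _
    · exact S.zero_mem
  · rw [← blockDiagonal'_mul, ← blockDiagonal'_one]
    congr 1
    funext s
    rw [← hQu]
    exact Units.mul_inv _
  · rw [← blockDiagonal'_mul, ← blockDiagonal'_one]
    congr 1
    funext s
    rw [← hQu]
    exact Units.inv_mul _
  · have hvec : ∀ i j, v i j = (((Qu i j)⁻¹ : (Matrix _ _ U)ˣ).val).mulVec (bb i j) := by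
      intro i j
      have h1 : (Q i j).mulVec (v i j) = bb i j := funext (hv i j)
      rw [← h1, Matrix.mulVec_mulVec, ← hQu, Units.inv_mul, Matrix.one_mulVec]
    have hmid : (blockDiagonal' (fun s : a × b => ((Qu s.1 s.2)⁻¹ : (Matrix _ _ U)ˣ).val)
        * (Matrix.of fun (s : Σ s : a × b, Fin (n s.1 s.2)) (j : b) =>
          if s.1.2 = j then bb s.1.1 s.1.2 s.2 else 0))
        = Matrix.of fun s j => if s.1.2 = j then v s.1.1 s.1.2 s.2 else 0 := by
      ext ⟨s, i⟩ j
      rw [Matrix.mul_apply, Matrix.of_apply, Fintype.sum_sigma, Finset.sum_eq_single s]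
      · simp only [blockDiagonal'_apply_eq, Matrix.of_apply]
        split_ifs with h
        · rw [hvec]
          rfl
        · simp
      · intro t _ ht
        refine Finset.sum_eq_zero fun k _ => ?_
        rw [blockDiagonal'_apply_ne _ _ _ (Ne.symm ht), zero_mul]
      · intro h
        exact absurd (Finset.mem_univ _) h
    rw [Matrix.mul_assoc, hmid]
    ext i j
    rw [Matrix.mul_apply, Fintype.sum_sigma, Finset.sum_eq_single (i, j)]
    · simp only [Matrix.of_apply, if_true]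
      exact hx i j
    · rintro ⟨i', j'⟩ _ ht
      refine Finset.sum_eq_zero fun k _ => ?_
      simp only [Matrix.of_apply]
      by_cases h1 : i' = i
      · by_cases h2 : j' = j
        · exact absurd (by rw [h1, h2]) ht
        · rw [if_neg h2, mul_zero]
      · rw [if_neg h1, zero_mul]
    · intro h
      exact absurd (Finset.mem_univ _) h

lemma comm_inv_entry {N : Type} [Fintype N] [DecidableEq N] {Q Q' : Matrix N N U}
    (h1 : Q * Q' = 1) (h2 : Q' * Q = 1) {z : U} (hz : ∀ i j, z * Q i j = Q i j * z) (i j : N) :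
    z * Q' i j = Q' i j * z := by
  have e : z • Q = Matrix.of fun i j => Q i j * z := by
    ext i j
    exact hz i j
  have e1 : Q * Matrix.diagonal (fun _ => z) = Matrix.diagonal (fun _ => z) * Q := by
    ext i j
    rw [Matrix.mul_diagonal, Matrix.diagonal_mul, hz]
  have e2 : Matrix.diagonal (fun _ => z) * Q' = Q' * Matrix.diagonal (fun _ => z) := by
    calc Matrix.diagonal (fun _ => z) * Q'
        = (Q' * Q) * (Matrix.diagonal (fun _ => z) * Q') := by rw [h2, Matrix.one_mul]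
      _ = Q' * (Q * Matrix.diagonal (fun _ => z)) * Q' := by simp only [Matrix.mul_assoc]
      _ = Q' * Matrix.diagonal (fun _ => z) * (Q * Q') := by
          rw [e1]
          simp only [Matrix.mul_assoc]
      _ = _ := by rw [h1, Matrix.mul_one]
  have := congrFun (congrFun e2 i) j
  rwa [Matrix.diagonal_mul, Matrix.mul_diagonal] at this

lemma comm_mul_entry {a b c : Type} [Fintype b] {X : Matrix a b U} {Y : Matrix b c U} {z : U}
    (hX : ∀ i j, z * X i j = X i j * z) (hY : ∀ i j, z * Y i j = Y i j * z) (i : a) (j : c) :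
    z * (X * Y) i j = (X * Y) i j * z := by
  rw [Matrix.mul_apply, Finset.mul_sum, Finset.sum_mul]
  refine Finset.sum_congr rfl fun k _ => ?_
  rw [← mul_assoc, hX, mul_assoc, hY, mul_assoc]

/-- an element commuting with a subring commutes with its rational closure -/
lemma RC_comm {S : Subring U} {z : U} (hz : ∀ s ∈ S, z * s = s * z) {x : U} (hx : x ∈ RC S) :
    z * x = x * z := by
  obtain ⟨N, _, _, Q, Q', B, C, hQ, hB, hC, h1, h2, h3⟩ :=
    RCs_lin (S := S) (Matrix.of fun (_ _ : Unit) => x) (fun _ _ => hx)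
  have h4 := comm_mul_entry (z := z) (comm_mul_entry (fun i j => hz _ (hC i j))
    (comm_inv_entry h1 h2 (fun i j => hz _ (hQ i j)))) (fun i j => hz _ (hB i j)) () ()
  rw [← h3] at h4
  exact h4

/-- The product formula extends to rational closures. -/
theorem Pf_RC (S₁ S₂ : Subring U) (hc : ∀ x ∈ S₁, ∀ y ∈ S₂, x * y = y * x)
    (h : ∀ {a b p q : Type} [Fintype a] [Fintype b] [Fintype p] [Fintype q] [DecidableEq b]
      [DecidableEq q] (X : Matrix a b U) (Y : Matrix p q U), (∀ i j, X i j ∈ S₁) →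
      (∀ i j, Y i j ∈ S₂) → Pf ρ X Y) {a b p q : Type} [Fintype a] [Fintype b] [Fintype p]
    [Fintype q] [DecidableEq a] [DecidableEq b] [DecidableEq p] [DecidableEq q]
    (X : Matrix a b U) (Y : Matrix p q U) (hX : ∀ i j, X i j ∈ RC S₁)
    (hY : ∀ i j, Y i j ∈ RC S₂) : Pf ρ X Y := by
  have step1 : ∀ {a b p q : Type} [Fintype a] [Fintype b] [Fintype p]
      [Fintype q] [DecidableEq a] [DecidableEq b] [DecidableEq p] [DecidableEq q]
      (X : Matrix a b U) (Y : Matrix p q U), (∀ i j, X i j ∈ RC S₁) →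
      (∀ i j, Y i j ∈ S₂) → Pf ρ X Y := by
    intro a b p q _ _ _ _ _ _ _ _ X Y hX hY
    obtain ⟨N, _, _, Q, Q', B, C, hQ, hB, hC, h1, h2, rfl⟩ := RCs_lin X hX
    have h3 := Pf_schur ρ Q Q' h1 h2 B (-C) 0 Y (fun i j k l => by
      refine comm_mul_entry (z := Y i j) (comm_inv_entry h1 h2 fun s t => ?_) (fun s t => ?_) k l
      · exact (hc _ (hQ s t) _ (hY i j)).symm
      · exact (hc _ (hB s t) _ (hY i j)).symm) (h _ _ (by
        rintro (s | s) (t | t)
        · exact hQ s t
        · exact hB s t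
        · exact S₁.neg_mem (hC s t)
        · exact S₁.zero_mem) hY)
    simpa using h3
  obtain ⟨N, _, _, Q, Q', B, C, hQ, hB, hC, h1, h2, rfl⟩ := RCs_lin Y hY
  apply Pf_swap
  have h3 := Pf_schur ρ Q Q' h1 h2 B (-C) 0 X (fun i j k l => by
    refine comm_mul_entry (z := X i j) (comm_inv_entry h1 h2 fun s t => ?_) (fun s t => ?_) k l
    · exact (RC_comm (z := Q s t) (fun x hx => (hc x hx _ (hQ s t)).symm) (hX i j)).symm
    · exact (RC_comm (z := B s t) (fun x hx => (hc x hx _ (hB s t)).symm) (hX i j)).symm)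
    (Pf_swap ρ (step1 _ _ hX (by
      rintro (s | s) (t | t)
      · exact hQ s t
      · exact hB s t
      · exact S₂.neg_mem (hC s t)
      · exact S₂.zero_mem)))
  simpa using h3

end Pool.Agent.HX
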