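import Pool.Agent.HX.AtMain
import Pool.Agent.HX.Tens
import Pool.Agent.VN.Prod

set_option autoImplicit false
set_option linter.unusedSectionVars false

noncomputable section

open scoped InnerProductSpace ENNReal Topology
open Classical Filter
open Pool.Agent.VN

/-!
The product formula for the ranks over two commuting independent subgroups.
-/

namespace Pool.Agent.HX

section

variable {G H : Type} [Group G] [Group H] {ι ι' : Type}

lemma leftF_eq (j : ι') (a : ι × G →₀ ℂ) :
    leftF (H := H) j a = Finsupp.mapDomain (fun p : ι × G => ((p.1, j), (p.2, (1 : H)))) a := rfl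

lemma rightF_eq (i : ι) (a : ι' × H →₀ ℂ) :
    rightF (G := G) i a = Finsupp.mapDomain (fun p : ι' × H => ((i, p.1), ((1 : G), p.2))) a := rfl

end

section

variable {N₁ N₂ : Type} [Group N₁] [Group N₂] {m n p q : Type} [Fintype m] [Fintype n] [Fintype p]
  [Fintype q] [DecidableEq n] [DecidableEq q]

/-- the pair of systems over the product group -/
def st (a : m → n → (N₁ →₀ ℂ)) (b : p → q → (N₂ →₀ ℂ)) :
    ((m × q) ⊕ (n × p)) → (n × q) → (N₁ × N₂ →₀ ℂ) :=
  Sum.elim (fun s t => if s.2 = t.2 then Finsupp.mapDomain (MonoidHom.inl N₁ N₂) (a s.1 t.1) else 0)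
    (fun s t => if s.1 = t.1 then Finsupp.mapDomain (MonoidHom.inr N₁ N₂) (b s.2 t.2) else 0)

lemma colG_eq_mapDomain {G : Type} [Group G] (a : m → n → (G →₀ ℂ)) (i : m) :
    colG a i = ∑ j, Finsupp.mapDomain (fun g => (j, g⁻¹)) (a i j) := rfl

lemma colG_st_inl (a : m → n → (N₁ →₀ ℂ)) (b : p → q → (N₂ →₀ ℂ)) (i : m) (j : q) :
    colG (st a b) (Sum.inl (i, j)) = leftF j (colG a i) := by
  rw [leftF_eq, colG_eq_mapDomain, colG_eq_mapDomain, Finsupp.mapDomain_finsetSum,
    Fintype.sum_prod_type]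
  refine Finset.sum_congr rfl fun k _ => ?_
  rw [Finset.sum_eq_single j]
  · show Finsupp.mapDomain _ (if j = j then _ else 0) = _
    rw [if_pos rfl, ← Finsupp.mapDomain_comp, ← Finsupp.mapDomain_comp]
    congr 1
    funext g
    simp
  · intro l _ hl
    show Finsupp.mapDomain _ (if j = l then _ else 0) = _
    rw [if_neg (Ne.symm hl), Finsupp.mapDomain_zero]
  · intro h
    exact absurd (Finset.mem_univ _) h

lemma colG_st_inr (a : m → n → (N₁ →₀ ℂ)) (b : p → q → (N₂ →₀ ℂ)) (i : n) (j : p) :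
    colG (st a b) (Sum.inr (i, j)) = rightF i (colG b j) := by
  rw [rightF_eq, colG_eq_mapDomain, colG_eq_mapDomain, Finsupp.mapDomain_finsetSum,
    Fintype.sum_prod_type, Finset.sum_eq_single i]
  · refine Finset.sum_congr rfl fun k _ => ?_
    show Finsupp.mapDomain _ (if i = i then _ else 0) = _
    rw [if_pos rfl, ← Finsupp.mapDomain_comp, ← Finsupp.mapDomain_comp]
    congr 1
    funext g
    simp
  · intro l _ hl
    refine Finset.sum_eq_zero fun k _ => ?_
    show Finsupp.mapDomain _ (if i = l then _ else 0) = _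
    rw [if_neg (Ne.symm hl), Finsupp.mapDomain_zero]
  · intro h
    exact absurd (Finset.mem_univ _) h

lemma vdim_st (a : m → n → (N₁ →₀ ℂ)) (b : p → q → (N₂ →₀ ℂ)) :
    vdim (Sol (Set.range (colG (st a b))) : Set (L2 (n × q) (N₁ × N₂)))
      = vdim (Sol (Set.range (colG a)) : Set (L2 n N₁))
        * vdim (Sol (Set.range (colG b)) : Set (L2 q N₂)) := by
  rw [← vdim_prod]
  congr 3
  ext c
  constructor
  · rintro ⟨⟨i, j⟩ | ⟨i, j⟩, rfl⟩
    · exact Or.inl ⟨j, _, ⟨i, rfl⟩, colG_st_inl a b i j⟩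
    · exact Or.inr ⟨i, _, ⟨j, rfl⟩, colG_st_inr a b i j⟩
  · rintro (⟨j, _, ⟨i, rfl⟩, rfl⟩ | ⟨i, _, ⟨j, rfl⟩, rfl⟩)
    · exact ⟨Sum.inl (i, j), colG_st_inl a b i j⟩
    · exact ⟨Sum.inr (i, j), colG_st_inr a b i j⟩

end

variable {G U : Type} [Group G] [Ring U]

lemma exists_restrict' {m n : Type} (H : Subgroup G)
    (a : m → n → (G →₀ ℂ)) (h1 : ∀ i j, ∀ g ∈ (a i j).support, g ∈ H) :
    ∃ b : m → n → (H →₀ ℂ), ∀ i j, Finsupp.mapDomain H.subtype (b i j) = a i j := by
  refine ⟨fun i j => Finsupp.comapDomain H.subtype (a i j) (Subtype.val_injective.injOn),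
    fun i j => ?_⟩
  apply Finsupp.mapDomain_comapDomain _ Subtype.val_injective
  intro g hg
  exact ⟨⟨g, h1 i j g hg⟩, rfl⟩

/-- the rank computed over a subgroup or, more generally, along an injective homomorphism -/
lemma rk_gr_mapDomain (ρ : RankFn U) (D : Dat G ℂ U)
    (hrk : ∀ {m n : Type} [Fintype m] [Fintype n] (a : m → n → (G →₀ ℂ)),
      ρ.rk (Matrix.of fun i j => D.gr (a i j)) = (Fintype.card n : ℝ)
        - vdim (Sol (Set.range (colG a)) : Set (L2 n G)))
    {H : Type} [Group H] (f : H →* G) (hf : Function.Injective f) {m n : Type} [Fintype m]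
    [Fintype n] (a : m → n → (H →₀ ℂ)) :
    ρ.rk (Matrix.of fun i j => D.gr (Finsupp.mapDomain f (a i j))) = (Fintype.card n : ℝ)
        - vdim (Sol (Set.range (colG a)) : Set (L2 n H)) := by
  rw [hrk (fun i j => Finsupp.mapDomain f (a i j))]
  have e : (Set.range (colG fun i j => Finsupp.mapDomain f (a i j)))
      = mapF f '' Set.range (colG a) := by
    rw [← Set.range_comp]
    congr 1
    funext i
    exact (mapF_colG f a i).symm
  rw [e, vdim_induced f hf]

/-- The product formula over two commuting subgroups with trivial intersection. -/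
theorem Pf_group (ρ : RankFn U) (D : Dat G ℂ U)
    (hrk : ∀ {m n : Type} [Fintype m] [Fintype n] (a : m → n → (G →₀ ℂ)),
      ρ.rk (Matrix.of fun i j => D.gr (a i j)) = (Fintype.card n : ℝ)
        - vdim (Sol (Set.range (colG a)) : Set (L2 n G)))
    (N₁ N₂ : Subgroup G) (hc : ∀ x ∈ N₁, ∀ y ∈ N₂, x * y = y * x) (hd : ∀ x ∈ N₁, x ∈ N₂ → x = 1)
    {m n p q : Type} [Fintype m] [Fintype n] [Fintype p] [Fintype q] [DecidableEq n]
    [DecidableEq q] (X : Matrix m n U) (Y : Matrix p q U)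
    (hX : ∀ i j, X i j ∈ SN (D.restrict ⊤) N₁) (hY : ∀ i j, Y i j ∈ SN (D.restrict ⊤) N₂) :
    Pf ρ X Y := by
  choose a ha1 ha2 ha3 using fun i j => D.SN_form ⊤ N₁ (hX i j)
  choose b hb1 hb2 hb3 using fun i j => D.SN_form ⊤ N₂ (hY i j)
  obtain ⟨a', ha'⟩ := exists_restrict' N₁ a ha1
  obtain ⟨b', hb'⟩ := exists_restrict' N₂ b hb1
  let τ : N₁ × N₂ →* G := MonoidHom.mk' (fun s => (s.1 : G) * s.2) (by
    rintro ⟨x, y⟩ ⟨x', y'⟩
    show ((x * x' : N₁) : G) * ((y * y' : N₂) : G) = (x : G) * y * ((x' : G) * y')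
    rw [Subgroup.coe_mul, Subgroup.coe_mul, mul_assoc, mul_assoc, ← mul_assoc (y : G),
      ← hc _ x'.2 _ y.2, mul_assoc])
  have hτ : Function.Injective τ := by
    rw [injective_iff_map_eq_one]
    rintro ⟨x, y⟩ h
    have h' : (x : G) * y = 1 := h
    have hx : (x : G) = (y : G)⁻¹ := eq_inv_of_mul_eq_one_left h'
    have h1 : (x : G) = 1 := hd _ x.2 (by
      rw [hx]
      exact N₂.inv_mem y.2)
    have h2 : (y : G) = 1 := by rwa [h1, one_mul] at h'
    exact Prod.ext (Subtype.ext h1) (Subtype.ext h2)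
  have eX : X = Matrix.of fun i j => D.gr (Finsupp.mapDomain N₁.subtype (a' i j)) := by
    ext i j
    rw [ha3, Matrix.of_apply, ha']
  have eY : Y = Matrix.of fun i j => D.gr (Finsupp.mapDomain N₂.subtype (b' i j)) := by
    ext i j
    rw [hb3, Matrix.of_apply, hb']
  have c1 : (τ : N₁ × N₂ → G) ∘ (MonoidHom.inl N₁ N₂) = N₁.subtype := by
    funext x
    show (x : G) * ((1 : N₂) : G) = x
    rw [Subgroup.coe_one, mul_one]
  have c2 : (τ : N₁ × N₂ → G) ∘ (MonoidHom.inr N₁ N₂) = N₂.subtype := by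
    funext x
    show ((1 : N₁) : G) * (x : G) = x
    rw [Subgroup.coe_one, one_mul]
  have eS : St X Y = Matrix.of fun s t => D.gr (Finsupp.mapDomain τ (st a' b' s t)) := by
    ext s t
    rw [eX, eY]
    rcases s with s | s
    · show (if s.2 = t.2 then _ else 0) = D.gr (Finsupp.mapDomain τ (if s.2 = t.2 then _ else 0))
      split_ifs
      · rw [← Finsupp.mapDomain_comp, c1]
        rfl
      · rw [Finsupp.mapDomain_zero, D.gr_zero]
    · show (if s.1 = t.1 then _ else 0) = D.gr (Finsupp.mapDomain τ (if s.1 = t.1 then _ else 0))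
      split_ifs
      · rw [← Finsupp.mapDomain_comp, c2]
        rfl
      · rw [Finsupp.mapDomain_zero, D.gr_zero]
  unfold Pf
  rw [eS, rk_gr_mapDomain ρ D hrk τ hτ, vdim_st, eX, eY,
    rk_gr_mapDomain ρ D hrk _ (Subgroup.subtype_injective _),
    rk_gr_mapDomain ρ D hrk _ (Subgroup.subtype_injective _), Fintype.card_prod, Nat.cast_mul]
  ring

end Pool.Agent.HX
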