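import Pool.Agent.HX.Rat
import Pool.Agent.HX.PP

set_option autoImplicit false

open Matrix

/-!
Elements with Laurent expansions.
-/

namespace Pool.Agent.HX

variable {U : Type*} [Ring U]

/-- an invertible matrix gives unique solutions -/
lemma solv_of_isUnit {T : Type*} [Ring T] {n : ℕ} (B : Matrix (Fin n) (Fin n) T)
    (h : IsUnit (1 - B)) (b : Fin n → T) : ∃! v : Fin n → T, ∀ i, v i = ∑ j, B i j * v j + b i := by
  obtain ⟨u, hu⟩ := h
  have key : ∀ v : Fin n → T, (∀ i, v i = ∑ j, B i j * v j + b i) ↔ (1 - B) *ᵥ v = b := by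
    intro v
    rw [sub_mulVec, one_mulVec]
    constructor
    · intro hv
      funext i
      rw [Pi.sub_apply, sub_eq_iff_eq_add']
      exact hv i
    · intro hv i
      have := congrFun hv i
      rw [Pi.sub_apply, sub_eq_iff_eq_add'] at this
      exact this
  refine ⟨(u⁻¹ : (Matrix (Fin n) (Fin n) T)ˣ).1 *ᵥ b, ?_, ?_⟩
  · show ∀ i, _
    rw [key, mulVec_mulVec, ← hu, Units.mul_inv, one_mulVec]
  · intro v hv
    have hv' : ∀ i, v i = ∑ j, B i j * v j + b i := hv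
    rw [key, ← hu] at hv'
    rw [← hv', mulVec_mulVec, Units.inv_mul, one_mulVec]

/-- the matrix `1 - X β` over power series is invertible -/
lemma isUnit_one_sub_X {n : ℕ} (β : Matrix (Fin n) (Fin n) U) :
    (1 - (of fun i j => PowerSeries.C (β i j) * PowerSeries.X :
      Matrix (Fin n) (Fin n) (PowerSeries U))) * (of fun i j => PowerSeries.mk fun k => (β ^ k) i j)
      = 1 ∧ (of fun i j => PowerSeries.mk fun k => (β ^ k) i j) *
      (1 - (of fun i j => PowerSeries.C (β i j) * PowerSeries.X :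
      Matrix (Fin n) (Fin n) (PowerSeries U))) = 1 := by
  constructor
  · rw [sub_mul, one_mul]
    ext i j k
    rw [Matrix.sub_apply, map_sub, mul_apply, map_sum, of_apply, PowerSeries.coeff_mk]
    have h1 : ∀ l : Fin n, PowerSeries.coeff k (((of fun i j => PowerSeries.C (β i j) *
        PowerSeries.X : Matrix (Fin n) (Fin n) (PowerSeries U)) i l) *
        ((of fun i j => PowerSeries.mk fun k => (β ^ k) i j :
          Matrix (Fin n) (Fin n) (PowerSeries U)) l j))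
        = if k = 0 then 0 else β i l * (β ^ (k - 1)) l j := by
      intro l
      rw [of_apply, of_apply, mul_assoc, PowerSeries.coeff_C_mul]
      cases k with
      | zero => simp
      | succ k =>
        rw [PowerSeries.coeff_succ_X_mul, PowerSeries.coeff_mk, if_neg (Nat.succ_ne_zero k)]
        rfl
    rw [Finset.sum_congr rfl fun l _ => h1 l]
    cases k with
    | zero =>
      simp only [if_true, Finset.sum_const_zero, sub_zero, pow_zero]
      rw [one_apply, one_apply]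
      split_ifs <;> simp
    | succ k =>
      simp only [Nat.succ_ne_zero, if_false, Nat.add_sub_cancel]
      rw [← mul_apply, ← pow_succ', sub_self, one_apply]
      split_ifs <;> simp [PowerSeries.coeff_one]
  · rw [mul_sub, mul_one]
    ext i j k
    rw [Matrix.sub_apply, map_sub, mul_apply, map_sum, of_apply, PowerSeries.coeff_mk]
    have h1 : ∀ l : Fin n, PowerSeries.coeff k (((of fun i j => PowerSeries.mk fun k => (β ^ k) i j :
          Matrix (Fin n) (Fin n) (PowerSeries U)) i l) * ((of fun i j => PowerSeries.C (β i j) *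
        PowerSeries.X : Matrix (Fin n) (Fin n) (PowerSeries U)) l j))
        = if k = 0 then 0 else (β ^ (k - 1)) i l * β l j := by
      intro l
      rw [of_apply, of_apply, ← mul_assoc]
      cases k with
      | zero => simp
      | succ k =>
        rw [PowerSeries.coeff_succ_mul_X, PowerSeries.coeff_mul_C, PowerSeries.coeff_mk,
          if_neg (Nat.succ_ne_zero k)]
        rfl
    rw [Finset.sum_congr rfl fun l _ => h1 l]
    cases k with
    | zero =>
      simp only [if_true, Finset.sum_const_zero, sub_zero, pow_zero]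
      rw [one_apply, one_apply]
      split_ifs <;> simp
    | succ k =>
      simp only [Nat.succ_ne_zero, if_false, Nat.add_sub_cancel]
      rw [← mul_apply, ← pow_succ, sub_self, one_apply]
      split_ifs <;> simp [PowerSeries.coeff_one]

/-- the ring of pairs (element, Laurent series) -/
abbrev SU (U : Type*) [Ring U] := U × HahnSeries ℤ U

/-- constants -/
noncomputable def dlt : U →+* SU U := (RingHom.id U).prod HahnSeries.C

@[simp] lemma dlt_fst (x : U) : (dlt x).1 = x := rfl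
@[simp] lemma dlt_snd (x : U) : (dlt x).2 = HahnSeries.C x := rfl

/-- monomials -/
noncomputable def mon (m : ℤ) (u : U) : SU U := (u, HahnSeries.single m u)

lemma mon_mul (m m' : ℤ) (u u' : U) : mon m u * mon m' u' = mon (m + m') (u * u') := by
  unfold mon
  rw [Prod.mk_mul_mk, HahnSeries.single_mul_single]

lemma mon_zero_one : mon 0 (1 : U) = 1 := rfl

lemma mon_zero (u : U) : mon 0 u = dlt u := rfl

lemma mon_pow (m : ℤ) (u : U) (a : ℕ) : mon m u ^ a = mon (m * a) (u ^ a) := by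
  induction a with
  | zero =>
    rw [pow_zero, pow_zero, Nat.cast_zero, mul_zero, mon_zero_one]
  | succ a ih =>
    rw [pow_succ, ih, mon_mul, pow_succ]
    congr 1
    push_cast
    ring

/-- the hypothesis on invertibility -/
def UF (R : Subring U) (τ : U) : Prop :=
  ∀ (n : ℕ) (A : Matrix (Fin n) (Fin n) U), (∀ i j, A i j ∈ R) →
    IsUnit (1 - (of fun i j => A i j * τ : Matrix (Fin n) (Fin n) U))

lemma isUnit_hahn {n : ℕ} (β : Matrix (Fin n) (Fin n) U) :
    IsUnit (1 - (of fun i j => HahnSeries.single 1 (β i j) :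
      Matrix (Fin n) (Fin n) (HahnSeries ℤ U))) := by
  obtain ⟨h1, h2⟩ := isUnit_one_sub_X β
  have e : (1 - (of fun i j => HahnSeries.single 1 (β i j) :
      Matrix (Fin n) (Fin n) (HahnSeries ℤ U)))
      = (HahnSeries.ofPowerSeries ℤ U).mapMatrix (1 - (of fun i j => PowerSeries.C (β i j) *
        PowerSeries.X : Matrix (Fin n) (Fin n) (PowerSeries U))) := by
    rw [map_sub, map_one]
    congr 1
    ext1 i j
    rw [RingHom.mapMatrix_apply, map_apply, of_apply, of_apply, map_mul,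
      HahnSeries.ofPowerSeries_C, HahnSeries.ofPowerSeries_X, HahnSeries.C_apply,
      HahnSeries.single_mul_single, zero_add, mul_one]
  rw [e]
  refine ⟨⟨_, (HahnSeries.ofPowerSeries ℤ U).mapMatrix
    (of fun i j => PowerSeries.mk fun k => (β ^ k) i j), ?_, ?_⟩, rfl⟩
  · rw [← map_mul, h1, map_one]
  · rw [← map_mul, h2, map_one]

/-- unique solvability in the ring of pairs -/
theorem Solv2 {R : Subring U} {τ : U} (h : UF R τ) : Solv (R.map dlt) (mon 1 τ) := by
  intro n A b hA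
  have hA' : ∀ i j, ∃ a ∈ R, dlt a = A i j := fun i j => Subring.mem_map.mp (hA i j)
  choose a ha haA using hA'
  obtain ⟨v1, hv1, hu1⟩ := solv_of_isUnit _ (h n (of a) ha) (fun i => (b i).1)
  obtain ⟨v2, hv2, hu2⟩ := solv_of_isUnit _ (isUnit_hahn (of fun i j => a i j * τ))
    (fun i => (b i).2)
  have key : ∀ i j, A i j * mon 1 τ = (a i j * τ, HahnSeries.single 1 (a i j * τ)) := by
    intro i j
    rw [← haA, ← mon_zero, mon_mul, zero_add]
    rfl
  refine ⟨fun i => (v1 i, v2 i), ?_, ?_⟩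
  · intro i
    simp only [key]
    refine Prod.ext ?_ ?_
    · rw [Prod.fst_add, Prod.fst_sum]
      exact hv1 i
    · rw [Prod.snd_add, Prod.snd_sum]
      exact hv2 i
  · intro v hv
    have hv' : ∀ i, v i = ∑ j, A i j * mon 1 τ * v j + b i := hv
    simp only [key] at hv'
    have e1 := hu1 (fun i => (v i).1) (fun i => by
      have := congrArg Prod.fst (hv' i)
      rw [Prod.fst_add, Prod.fst_sum] at this
      exact this)
    have e2 := hu2 (fun i => (v i).2) (fun i => by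
      have := congrArg Prod.snd (hv' i)
      rw [Prod.snd_add, Prod.snd_sum] at this
      exact this)
    funext i
    exact Prod.ext (congrFun e1 i) (congrFun e2 i)

/-- explicit form of the expansions -/
theorem PP_data {R : Subring U} {τ : U} {y y₀ : SU U} (hy : PP (R.map dlt) (mon 1 τ) y y₀) :
    ∃ (n : ℕ) (a : Matrix (Fin n) (Fin n) U) (b c v : Fin n → U), (∀ i j, a i j ∈ R) ∧
      (∀ i, b i ∈ R) ∧ (∀ i, c i ∈ R) ∧ (∀ i, v i = ∑ j, a i j * τ * v j + b i) ∧
      y.1 = ∑ i, c i * v i ∧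
      y.2 = HahnSeries.ofPowerSeries ℤ U (PowerSeries.mk fun k =>
        ∑ i, c i * (((of fun i j => a i j * τ : Matrix (Fin n) (Fin n) U) ^ k) *ᵥ b) i) ∧
      y₀ = dlt (∑ i, c i * b i) := by
  obtain ⟨n, A, b, c, v, hA, hb, hc, hv, hy1, hy0⟩ := hy
  have hA' : ∀ i j, ∃ a ∈ R, dlt a = A i j := fun i j => Subring.mem_map.mp (hA i j)
  have hb' : ∀ i, ∃ a ∈ R, dlt a = b i := fun i => Subring.mem_map.mp (hb i)
  have hc' : ∀ i, ∃ a ∈ R, dlt a = c i := fun i => Subring.mem_map.mp (hc i)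
  choose a ha haA using hA'
  choose b' hbR hbb using hb'
  choose c' hcR hcc using hc'
  set β : Matrix (Fin n) (Fin n) U := of fun i j => a i j * τ with hβ
  have key : ∀ i j, A i j * mon 1 τ = (a i j * τ, HahnSeries.single 1 (a i j * τ)) := by
    intro i j
    rw [← haA, ← mon_zero, mon_mul, zero_add]
    rfl
  simp only [key] at hv
  have hv2 : ∀ i, (v i).2 = ∑ j, HahnSeries.single 1 (β i j) * (v j).2 + HahnSeries.C (b' i) := by
    intro i
    have := congrArg Prod.snd (hv i)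
    rw [Prod.snd_add, Prod.snd_sum, ← hbb] at this
    exact this
  set w : Fin n → HahnSeries ℤ U := fun i =>
    HahnSeries.ofPowerSeries ℤ U (PowerSeries.mk fun k => ((β ^ k) *ᵥ b') i) with hw
  have hw2 : ∀ i, w i = ∑ j, HahnSeries.single 1 (β i j) * w j + HahnSeries.C (b' i) := by
    intro i
    have e1 : ∀ j, HahnSeries.single 1 (β i j) * w j = HahnSeries.ofPowerSeries ℤ U
        (PowerSeries.C (β i j) * PowerSeries.X * PowerSeries.mk fun k => ((β ^ k) *ᵥ b') j) := by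
      intro j
      rw [map_mul, map_mul, HahnSeries.ofPowerSeries_C, HahnSeries.ofPowerSeries_X,
        HahnSeries.C_apply, HahnSeries.single_mul_single, zero_add, mul_one]
    rw [Finset.sum_congr rfl fun j _ => e1 j, ← HahnSeries.ofPowerSeries_C (Γ := ℤ), ← map_sum,
      ← map_add]
    simp only [hw]
    congr 1
    ext k
    rw [PowerSeries.coeff_mk, map_add, map_sum]
    have e2 : ∀ j, PowerSeries.coeff k (PowerSeries.C (β i j) * PowerSeries.X *
        PowerSeries.mk fun k => ((β ^ k) *ᵥ b') j)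
        = if k = 0 then 0 else β i j * ((β ^ (k - 1)) *ᵥ b') j := by
      intro j
      rw [mul_assoc, PowerSeries.coeff_C_mul]
      cases k with
      | zero => simp
      | succ k =>
        rw [PowerSeries.coeff_succ_X_mul, PowerSeries.coeff_mk, if_neg (Nat.succ_ne_zero k)]
        rfl
    rw [Finset.sum_congr rfl fun j _ => e2 j]
    cases k with
    | zero => simp [PowerSeries.coeff_C]
    | succ k =>
      simp only [Nat.succ_ne_zero, if_false, Nat.add_sub_cancel, PowerSeries.coeff_C, add_zero]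
      rw [pow_succ', ← mulVec_mulVec]
      rfl
  have hvw : (fun i => (v i).2) = w := by
    obtain ⟨z, _, hz⟩ := solv_of_isUnit _ (isUnit_hahn β) (fun i => HahnSeries.C (b' i))
    rw [hz _ hv2, hz _ hw2]
  refine ⟨n, a, b', c', fun i => (v i).1, ha, hbR, hcR, ?_, ?_, ?_, ?_⟩
  · intro i
    have := congrArg Prod.fst (hv i)
    rw [Prod.fst_add, Prod.fst_sum, ← hbb] at this
    exact this
  · rw [hy1, Prod.fst_sum]
    refine Finset.sum_congr rfl fun i _ => ?_
    rw [← hcc]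
    rfl
  · rw [hy1, Prod.snd_sum]
    have e3 : ∀ i, (c i * v i).2 = HahnSeries.ofPowerSeries ℤ U (PowerSeries.C (c' i) *
        PowerSeries.mk fun k => ((β ^ k) *ᵥ b') i) := by
      intro i
      rw [map_mul, HahnSeries.ofPowerSeries_C, ← hcc]
      show HahnSeries.C (c' i) * (v i).2 = _
      have := congrFun hvw i
      rw [show (v i).2 = w i from this]
    rw [Finset.sum_congr rfl fun i _ => e3 i, ← map_sum]
    congr 1
    ext k
    rw [map_sum, PowerSeries.coeff_mk]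
    refine Finset.sum_congr rfl fun i _ => ?_
    rw [PowerSeries.coeff_C_mul, PowerSeries.coeff_mk]
  · rw [hy0, map_sum]
    refine Finset.sum_congr rfl fun i _ => ?_
    rw [map_mul, hcc, hbb]

/-- `(x, X)` is a pair with a Laurent expansion over the ring `R` -/
def PQ (R : Subring U) (τ : U) (x : U) (X : HahnSeries ℤ U) : Prop :=
  ∃ (a : ℕ) (y₀ : SU U), PP (R.map dlt) (mon 1 τ) (mon a (τ ^ a) * (x, X)) y₀

section

variable {R : Subring U} {τ σ : U}

lemma PP_mon (a : ℕ) : ∃ y₀, PP (R.map dlt) (mon 1 τ) (mon a (τ ^ a)) y₀ := by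
  induction a with
  | zero =>
    refine ⟨1, ?_⟩
    have h1 : (1 : SU U) ∈ R.map dlt := Subring.one_mem _
    have : mon ((0 : ℕ) : ℤ) (τ ^ 0) = (1 : SU U) := by
      rw [pow_zero, Nat.cast_zero, mon_zero_one]
    rw [this]
    exact PP_of_mem h1
  | succ a ih =>
    obtain ⟨y₀, hy⟩ := ih
    refine ⟨y₀ * 0, ?_⟩
    have := PP_mul hy PP_tau
    rw [mon_mul, ← pow_succ] at this
    convert this using 2
    push_cast
    rfl

lemma PP_mon_mul {x y₀ : SU U} (hx : PP (R.map dlt) (mon 1 τ) x y₀) (a : ℕ) :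
    ∃ z₀, PP (R.map dlt) (mon 1 τ) (mon a (τ ^ a) * x) z₀ := by
  obtain ⟨w, hw⟩ := PP_mon (R := R) (τ := τ) a
  exact ⟨_, PP_mul hw hx⟩

lemma mem_map_dlt {x : SU U} : x ∈ R.map dlt ↔ ∃ r ∈ R, dlt r = x := Subring.mem_map

lemma mon_mon_inv {a : ℕ} (h : τ * σ = 1) :
    mon (a : ℤ) (τ ^ a) * mon (-(a : ℤ)) (σ ^ a) = 1 := by
  have : τ ^ a * σ ^ a = 1 := by
    induction a with
    | zero => simp
    | succ a ih => rw [pow_succ, pow_succ', mul_assoc, ← mul_assoc τ σ, h, one_mul, ih]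
  rw [mon_mul, this, add_neg_cancel, mon_zero_one]

lemma mon_inv_mon {a : ℕ} (h : σ * τ = 1) :
    mon (-(a : ℤ)) (σ ^ a) * mon (a : ℤ) (τ ^ a) = 1 := by
  have : σ ^ a * τ ^ a = 1 := by
    induction a with
    | zero => simp
    | succ a ih => rw [pow_succ, pow_succ', mul_assoc, ← mul_assoc σ τ, h, one_mul, ih]
  rw [mon_mul, this, neg_add_cancel, mon_zero_one]

lemma PP_conj_iter (h1 : τ * σ = 1) (h2 : σ * τ = 1) (hR : ∀ x ∈ R, τ * x * σ ∈ R) {x y₀ : SU U}
    (hx : PP (R.map dlt) (mon 1 τ) x y₀) (a : ℕ) :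
    ∃ z₀, PP (R.map dlt) (mon 1 τ) (mon a (τ ^ a) * x * mon (-(a : ℤ)) (σ ^ a)) z₀ := by
  induction a with
  | zero =>
    refine ⟨y₀, ?_⟩
    have e1 : mon ((0 : ℕ) : ℤ) (τ ^ 0) = (1 : SU U) := by
      rw [pow_zero, Nat.cast_zero, mon_zero_one]
    have e2 : mon (-((0 : ℕ) : ℤ)) (σ ^ 0) = (1 : SU U) := by
      rw [pow_zero, Nat.cast_zero, neg_zero, mon_zero_one]
    rw [e1, e2, one_mul, mul_one]
    exact hx
  | succ a ih =>
    obtain ⟨z₀, hz⟩ := ih
    have h3 : mon 1 τ * mon (-1) σ = 1 := by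
      rw [mon_mul, h1, add_neg_cancel, mon_zero_one]
    have h4 : mon (-1) σ * mon 1 τ = 1 := by
      rw [mon_mul, h2, neg_add_cancel, mon_zero_one]
    have h5 : ∀ x ∈ R.map dlt, mon 1 τ * x * mon (-1) σ ∈ R.map dlt := by
      intro x hx
      obtain ⟨r, hr, rfl⟩ := mem_map_dlt.mp hx
      rw [mem_map_dlt]
      refine ⟨τ * r * σ, hR r hr, ?_⟩
      rw [← mon_zero, ← mon_zero, mon_mul, mon_mul]
      norm_num
    refine ⟨mon 1 τ * z₀ * mon (-1) σ, ?_⟩
    have := PP_conj h3 h4 h5 hz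
    convert this using 1
    have e1 : mon ((a + 1 : ℕ) : ℤ) (τ ^ (a + 1)) = mon 1 τ * mon (a : ℤ) (τ ^ a) := by
      rw [mon_mul, pow_succ']
      congr 1
      push_cast
      ring
    have e2 : mon (-((a + 1 : ℕ) : ℤ)) (σ ^ (a + 1)) = mon (-(a : ℤ)) (σ ^ a) * mon (-1) σ := by
      rw [mon_mul, pow_succ]
      congr 1
      push_cast
      ring
    rw [e1, e2]
    simp only [mul_assoc]

theorem PQ_of_mem {r : U} (hr : r ∈ R) : PQ R τ r (HahnSeries.C r) := by
  refine ⟨0, dlt r, ?_⟩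
  have e1 : mon ((0 : ℕ) : ℤ) (τ ^ 0) = (1 : SU U) := by
    rw [pow_zero, Nat.cast_zero, mon_zero_one]
  rw [e1, one_mul]
  exact PP_of_mem (mem_map_dlt.mpr ⟨r, hr, rfl⟩)

theorem PQ_zero_mem : PQ R τ 0 0 := by
  have := PQ_of_mem (R := R) (τ := τ) (Subring.zero_mem R)
  rwa [map_zero] at this

theorem PQ_tau : PQ R τ τ (HahnSeries.single 1 τ) := by
  refine ⟨0, 0, ?_⟩
  have e1 : mon ((0 : ℕ) : ℤ) (τ ^ 0) = (1 : SU U) := by
    rw [pow_zero, Nat.cast_zero, mon_zero_one]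
  rw [e1, one_mul]
  exact PP_tau

theorem PQ_sigma (h1 : τ * σ = 1) : PQ R τ σ (HahnSeries.single (-1) σ) := by
  refine ⟨1, 1, ?_⟩
  have e1 : mon ((1 : ℕ) : ℤ) (τ ^ 1) * (σ, HahnSeries.single (-1) σ) = (1 : SU U) := by
    have := mon_mon_inv (a := 1) h1
    rw [pow_one, pow_one] at this
    rw [pow_one]
    exact this
  rw [e1]
  exact PP_of_mem (Subring.one_mem _)

theorem PQ_add {x y : U} {X Y : HahnSeries ℤ U} (hx : PQ R τ x X) (hy : PQ R τ y Y) :
    PQ R τ (x + y) (X + Y) := by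
  obtain ⟨a, x₀, hx⟩ := hx
  obtain ⟨b, y₀, hy⟩ := hy
  obtain ⟨z₀, hz⟩ := PP_mon_mul hx b
  obtain ⟨w₀, hw⟩ := PP_mon_mul hy a
  refine ⟨a + b, z₀ + w₀, ?_⟩
  convert PP_add hz hw using 1
  rw [← mul_assoc, ← mul_assoc, mon_mul, mon_mul, ← pow_add, ← pow_add, Nat.add_comm b a,
    add_comm (b : ℤ) (a : ℤ), ← mul_add, Nat.cast_add]
  rfl

theorem PQ_mul (h1 : τ * σ = 1) (h2 : σ * τ = 1) (hR : ∀ x ∈ R, τ * x * σ ∈ R) {x y : U}
    {X Y : HahnSeries ℤ U} (hx : PQ R τ x X) (hy : PQ R τ y Y) : PQ R τ (x * y) (X * Y) := by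
  obtain ⟨a, x₀, hx⟩ := hx
  obtain ⟨b, y₀, hy⟩ := hy
  obtain ⟨z₀, hz⟩ := PP_conj_iter h1 h2 hR hx b
  refine ⟨a + b, z₀ * y₀, ?_⟩
  convert PP_mul hz hy using 1
  have e1 : mon (-(b : ℤ)) (σ ^ b) * (mon (b : ℤ) (τ ^ b) * (y, Y)) = (y, Y) := by
    rw [← mul_assoc, mon_inv_mon h2, one_mul]
  rw [mul_assoc (mon (b : ℤ) (τ ^ b) * _), e1, ← mul_assoc, mon_mul, ← pow_add,
    Nat.add_comm b a, mul_assoc, add_comm (b : ℤ) (a : ℤ), Nat.cast_add]
  rfl

/-- the expansion determines the element -/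
theorem PQ_zero (hUF : UF R τ)
    (hE : ∀ (n : ℕ) (β : Matrix (Fin n) (Fin n) U) (b c v : Fin n → U), IsUnit (1 - β) →
      (∀ i, v i = ∑ j, β i j * v j + b i) → (∀ k : ℕ, ∑ i, c i * ((β ^ k) *ᵥ b) i = 0) →
      ∑ i, c i * v i = 0)
    (h2 : σ * τ = 1) {x : U} (hx : PQ R τ x 0) : x = 0 := by
  obtain ⟨a, x₀, hx⟩ := hx
  obtain ⟨n, A, b, c, v, hA, hb, hc, hv, hy1, hy2, hy0⟩ := PP_data hx
  have h3 : (mon (a : ℤ) (τ ^ a) * ((x, 0) : SU U)).2 = 0 := by
    show HahnSeries.single (a : ℤ) (τ ^ a) * (0 : HahnSeries ℤ U) = 0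
    rw [mul_zero]
  rw [h3] at hy2
  have h4 : ∀ k : ℕ, ∑ i, c i * (((of fun i j => A i j * τ : Matrix (Fin n) (Fin n) U) ^ k) *ᵥ b) i
      = 0 := by
    intro k
    have := congrArg (fun X : HahnSeries ℤ U => X.coeff (k : ℤ)) hy2
    simp only [HahnSeries.ofPowerSeries_apply_coeff, PowerSeries.coeff_mk,
      HahnSeries.coeff_zero] at this
    exact this.symm
  have h5 := hE n (of fun i j => A i j * τ) b c v (hUF n A hA) hv h4
  have h6 : τ ^ a * x = 0 := by
    rw [← h5, ← hy1]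
    rfl
  have h7 : σ ^ a * τ ^ a = 1 := by
    have := congrArg Prod.fst (mon_inv_mon (a := a) h2)
    exact this
  calc x = σ ^ a * τ ^ a * x := by rw [h7, one_mul]
    _ = 0 := by rw [mul_assoc, h6, mul_zero]

lemma PP_props {y y₀ : SU U} (hy : PP (R.map dlt) (mon 1 τ) y y₀) :
    (∀ k : ℤ, k < 0 → y.2.coeff k = 0) ∧ y.2.coeff 0 ∈ R ∧ y₀ = dlt (y.2.coeff 0) := by
  obtain ⟨n, A, b, c, v, hA, hb, hc, hv, hy1, hy2, hy0⟩ := PP_data hy
  have h0 : y.2.coeff 0 = ∑ i, c i * b i := by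
    rw [hy2]
    have := HahnSeries.ofPowerSeries_apply_coeff (Γ := ℤ) (PowerSeries.mk fun k =>
        ∑ i, c i * (((of fun i j => A i j * τ : Matrix (Fin n) (Fin n) U) ^ k) *ᵥ b) i) 0
    rw [Nat.cast_zero] at this
    rw [this, PowerSeries.coeff_mk, pow_zero, one_mulVec]
  refine ⟨?_, ?_, ?_⟩
  · intro k hk
    rw [hy2, HahnSeries.ofPowerSeries_apply]
    apply HahnSeries.embDomain_of_notMem_range
    rintro ⟨m, hm⟩
    have hm' : ((m : ℕ) : ℤ) = k := hm
    omega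
  · rw [h0]
    exact Subring.sum_mem _ fun i _ => R.mul_mem (hc i) (hb i)
  · rw [h0, hy0]

lemma mon_mul_coeff (m : ℤ) (u : U) (y : SU U) (k : ℤ) :
    (mon m u * y).2.coeff k = u * y.2.coeff (k - m) := by
  show (HahnSeries.single m u * y.2).coeff k = _
  rw [HahnSeries.coeff_single_mul]

lemma PP_shift_iter (h1 : τ * σ = 1) (h2 : σ * τ = 1) (hR : ∀ x ∈ R, σ * x * τ ∈ R)
    {y y₀ : SU U} (hy : PP (R.map dlt) (mon 1 τ) y y₀) (r : ℕ)
    (hr : ∀ j : ℕ, j < r → y.2.coeff (j : ℤ) = 0) :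
    ∃ z₀, PP (R.map dlt) (mon 1 τ) (mon (-(r : ℤ)) (σ ^ r) * y) z₀ := by
  induction r with
  | zero =>
    refine ⟨y₀, ?_⟩
    have e1 : mon (-((0 : ℕ) : ℤ)) (σ ^ 0) = (1 : SU U) := by
      rw [pow_zero, Nat.cast_zero, neg_zero, mon_zero_one]
    rw [e1, one_mul]
    exact hy
  | succ r ih =>
    obtain ⟨z₀, hz⟩ := ih fun j hj => hr j (by omega)
    have h3 : mon 1 τ * mon (-1) σ = 1 := by
      rw [mon_mul, h1, add_neg_cancel, mon_zero_one]
    have h4 : mon (-1) σ * mon 1 τ = 1 := by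
      rw [mon_mul, h2, neg_add_cancel, mon_zero_one]
    have h5 : ∀ x ∈ R.map dlt, mon (-1) σ * x * mon 1 τ ∈ R.map dlt := by
      intro x hx
      obtain ⟨r, hr, rfl⟩ := mem_map_dlt.mp hx
      rw [mem_map_dlt]
      refine ⟨σ * r * τ, hR r hr, ?_⟩
      rw [← mon_zero, ← mon_zero, mon_mul, mon_mul]
      norm_num
    obtain ⟨_, _, hz0⟩ := PP_props hz
    have h6 : z₀ = 0 := by
      rw [hz0, mon_mul_coeff]
      have := hr r (by omega)
      rw [show (0 : ℤ) - (-(r : ℤ)) = (r : ℤ) by ring, this, mul_zero, map_zero]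
    rw [h6] at hz
    obtain ⟨w₀, hw⟩ := PP_shift h3 h4 h5 hz
    refine ⟨w₀, ?_⟩
    convert hw using 1
    rw [← mul_assoc, mon_mul, ← pow_succ']
    congr 2
    push_cast
    ring

/-- inverses -/
theorem PQ_inv (hUF : UF R τ) (h1 : τ * σ = 1) (h2 : σ * τ = 1) (hR : ∀ x ∈ R, τ * x * σ ∈ R)
    (hR' : ∀ x ∈ R, σ * x * τ ∈ R) (hRi : ∀ x ∈ R, ∀ y, x * y = 1 → y * x = 1 → y ∈ R)
    {x : U} {X : HahnSeries ℤ U} (hx : PQ R τ x X) {n₀ : ℤ} (hn : ∀ k < n₀, X.coeff k = 0)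
    (hn0 : X.coeff n₀ ≠ 0) (hu : IsUnit (X.coeff n₀)) :
    ∃ (y : U) (Y : HahnSeries ℤ U), PQ R τ y Y ∧ x * y = 1 ∧ y * x = 1 ∧ X * Y = 1 ∧ Y * X = 1 := by
  obtain ⟨a, x₀, hx⟩ := hx
  have hτu : ∀ r : ℕ, IsUnit (τ ^ r) := fun r => IsUnit.pow r ⟨⟨τ, σ, h1, h2⟩, rfl⟩
  have hσu : ∀ r : ℕ, IsUnit (σ ^ r) := fun r => IsUnit.pow r ⟨⟨σ, τ, h2, h1⟩, rfl⟩
  obtain ⟨hneg, _, _⟩ := PP_props hx
  have h3 : ∀ k : ℤ, (mon (a : ℤ) (τ ^ a) * ((x, X) : SU U)).2.coeff k = τ ^ a * X.coeff (k - a) :=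
    fun k => mon_mul_coeff _ _ _ _
  have h4 : 0 ≤ n₀ + a := by
    by_contra hcon
    push Not at hcon
    have := hneg _ hcon
    rw [h3, add_sub_cancel_right] at this
    apply hn0
    exact (hτu a).mul_right_eq_zero.mp this
  obtain ⟨r, hr⟩ := Int.eq_ofNat_of_zero_le h4
  obtain ⟨z₀, hz⟩ := PP_shift_iter h1 h2 hR' hx r (by
    intro j hj
    rw [h3, hn _ (by omega), mul_zero])
  obtain ⟨_, hzR, hz0⟩ := PP_props hz
  set ζ := mon (-(r : ℤ)) (σ ^ r) * (mon (a : ℤ) (τ ^ a) * ((x, X) : SU U)) with hζ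
  have h5 : ζ.2.coeff 0 = σ ^ r * (τ ^ a * X.coeff n₀) := by
    rw [hζ, mon_mul_coeff, h3]
    congr 3
    omega
  have h6 : IsUnit (ζ.2.coeff 0) := by
    rw [h5]
    exact (hσu r).mul ((hτu a).mul hu)
  obtain ⟨⟨z, d, hzd, hdz⟩, hzz⟩ := h6
  have hzz' : z = ζ.2.coeff 0 := hzz
  subst hzz'
  have hd : d ∈ R := hRi _ hzR _ hzd hdz
  obtain ⟨η, hη, hη1, hη2⟩ := PP_inv (Solv2 hUF) hz (mem_map_dlt.mpr ⟨d, hd, rfl⟩)
    (by rw [hz0, ← map_mul, hzd, map_one]) (by rw [hz0, ← map_mul, hdz, map_one])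
  -- the inverse
  set θ : SU U := η * (mon (-(r : ℤ)) (σ ^ r) * mon (a : ℤ) (τ ^ a)) with hθ
  have hxζ : ((x, X) : SU U) = mon (-(a : ℤ)) (σ ^ a) * mon (r : ℤ) (τ ^ r) * ζ := by
    rw [hζ]
    calc ((x, X) : SU U) = (mon (-(a : ℤ)) (σ ^ a) * mon (a : ℤ) (τ ^ a)) * (x, X) := by
          rw [mon_inv_mon h2, one_mul]
      _ = mon (-(a : ℤ)) (σ ^ a) * (mon (r : ℤ) (τ ^ r) * mon (-(r : ℤ)) (σ ^ r)) *
          (mon (a : ℤ) (τ ^ a) * (x, X)) := by
          rw [mon_mon_inv h1, mul_one, mul_assoc]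
      _ = _ := by simp only [mul_assoc]
  have hP1 : ((x, X) : SU U) * θ = 1 := by
    rw [hxζ, hθ]
    calc mon (-(a : ℤ)) (σ ^ a) * mon (r : ℤ) (τ ^ r) * ζ *
          (η * (mon (-(r : ℤ)) (σ ^ r) * mon (a : ℤ) (τ ^ a)))
        = mon (-(a : ℤ)) (σ ^ a) * mon (r : ℤ) (τ ^ r) * (ζ * η) *
          (mon (-(r : ℤ)) (σ ^ r) * mon (a : ℤ) (τ ^ a)) := by simp only [mul_assoc]
      _ = mon (-(a : ℤ)) (σ ^ a) * (mon (r : ℤ) (τ ^ r) * mon (-(r : ℤ)) (σ ^ r)) *
          mon (a : ℤ) (τ ^ a) := by rw [hη1, mul_one]; simp only [mul_assoc]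
      _ = 1 := by rw [mon_mon_inv h1, mul_one, mon_inv_mon h2]
  have hP2 : θ * ((x, X) : SU U) = 1 := by
    rw [hθ, mul_assoc, mul_assoc, ← hζ, hη2]
  have hPQ : PQ R τ θ.1 θ.2 := by
    have hη' : PQ R τ η.1 η.2 := by
      refine ⟨0, dlt d, ?_⟩
      have e1 : mon ((0 : ℕ) : ℤ) (τ ^ 0) = (1 : SU U) := by
        rw [pow_zero, Nat.cast_zero, mon_zero_one]
      rw [e1, one_mul]
      exact hη
    have hσ' : ∀ r : ℕ, PQ R τ (σ ^ r) (HahnSeries.single (-(r : ℤ)) (σ ^ r)) := by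
      intro r
      induction r with
      | zero =>
        rw [pow_zero, Nat.cast_zero, neg_zero]
        exact PQ_of_mem (Subring.one_mem R)
      | succ r ih =>
        have := PQ_mul h1 h2 hR ih (PQ_sigma (R := R) h1)
        rw [HahnSeries.single_mul_single, ← pow_succ] at this
        have e : (-((r + 1 : ℕ) : ℤ)) = -(r : ℤ) + -1 := by
          push_cast
          ring
        rw [e]
        exact this
    have hτ' : ∀ r : ℕ, PQ R τ (τ ^ r) (HahnSeries.single (r : ℤ) (τ ^ r)) := by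
      intro r
      induction r with
      | zero =>
        rw [pow_zero, Nat.cast_zero]
        exact PQ_of_mem (Subring.one_mem R)
      | succ r ih =>
        have := PQ_mul h1 h2 hR ih (PQ_tau (R := R) (τ := τ))
        rw [HahnSeries.single_mul_single, ← pow_succ] at this
        rw [Nat.cast_succ]
        exact this
    exact PQ_mul h1 h2 hR hη' (PQ_mul h1 h2 hR (hσ' r) (hτ' a))
  exact ⟨θ.1, θ.2, hPQ, congrArg Prod.fst hP1, congrArg Prod.fst hP2, congrArg Prod.snd hP1,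
    congrArg Prod.snd hP2⟩

end

end Pool.Agent.HX
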